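import Pool.Agent.Lib.MP_0f5a55_nt.NR.A0
import Pool.Agent.Lib.MP_0f5a55_nt.HC.H13
import Pool.Agent.Lib.MP_0f5a55_nt.HC.H17
import Pool.Agent.Lib.MP_0f5a55_nt.HC.H20
import Pool.Agent.Lib.MP_0f5a55_nt.HC.H22

/-!
The primitive ring class character inducing a given one.
-/

set_option autoImplicit false

open Complex MeasureTheory Set Filter Topology
open scoped Real ComplexConjugate NumberField

namespace PP

open HC NR

variable {K : Type*} [Field K] [NumberField K]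

private theorem B1_int_coprime {m : ℤ} {f : ℕ}
    (h : IsCoprime (m : 𝓞 K) (f : 𝓞 K)) : IsCoprime m (f : ℤ) := by
  rw [Int.isCoprime_iff_gcd_eq_one]
  set d : ℕ := Int.gcd m (f : ℤ) with hd
  have h1 : ((d : ℤ) : 𝓞 K) ∣ (m : 𝓞 K) := by
    obtain ⟨k, hk⟩ := Int.gcd_dvd_left m (f : ℤ)
    refine ⟨(k : 𝓞 K), ?_⟩
    rw [← Int.cast_mul, ← hk]
  have h2 : ((d : ℤ) : 𝓞 K) ∣ (f : 𝓞 K) := by
    obtain ⟨k, hk⟩ := Int.gcd_dvd_right m (f : ℤ)
    refine ⟨(k : 𝓞 K), ?_⟩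
    rw [← Int.cast_mul, ← hk, Int.cast_natCast]
  have h3 : IsUnit ((d : ℤ) : 𝓞 K) := h.isUnit_of_dvd' h1 h2
  have h4 : IsUnit (Algebra.norm ℤ ((d : ℤ) : 𝓞 K)) := h3.map (Algebra.norm ℤ)
  have h5 : Algebra.norm ℤ ((d : ℤ) : 𝓞 K) = (d : ℤ) ^ Module.finrank ℤ (𝓞 K) := by
    have := Algebra.norm_algebraMap (S := 𝓞 K) (d : ℤ)
    simpa using this
  rw [h5] at h4
  have h6 : Module.finrank ℤ (𝓞 K) ≠ 0 := by
    rw [NumberField.RingOfIntegers.rank]
    exact Module.finrank_pos.ne'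
  have h7 := (isUnit_pow_iff h6).1 h4
  have h8 := Int.isUnit_iff_natAbs_eq.1 h7
  simpa using h8

/-- a factor of an element of the order -/
theorem ord_of_mul {f : ℕ} {α β : 𝓞 K} (hα : Ord f α)
    (hc : IsCoprime (Ideal.span {α}) (Ideal.span {(f : 𝓞 K)})) (hαβ : Ord f (α * β)) :
    Ord f β := by
  obtain ⟨m, k, hk⟩ := hα
  obtain ⟨m', k', hk'⟩ := hαβ
  have hc' : IsCoprime α (f : 𝓞 K) := by
    rwa [Ideal.isCoprime_span_singleton_iff] at hc
  have hm : IsCoprime (m : 𝓞 K) (f : 𝓞 K) := by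
    obtain ⟨x, y, hxy⟩ := hc'
    refine ⟨x, y + x * k, ?_⟩
    have : α = m + f * k := by rw [← hk]; ring
    rw [this] at hxy
    linear_combination hxy
  obtain ⟨s, t, hst⟩ := B1_int_coprime hm
  have hst' : (s : 𝓞 K) * m + t * f = 1 := by
    have := congrArg (Int.cast : ℤ → 𝓞 K) hst
    push_cast at this
    exact this
  refine ⟨s * m', s * k' - s * k * β + t * β, ?_⟩
  have h1 : α = m + f * k := by rw [← hk]; ring
  have h2 : α * β = m' + f * k' := by rw [← hk']; ring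
  push_cast
  rw [h1] at h2
  linear_combination (s : 𝓞 K) * h2 - β * hst'

theorem cop_mono {f g : ℕ} (hgf : g ∣ f) {I : Ideal (𝓞 K)} (h : Cop f I) : Cop g I := by
  refine ⟨h.1, ?_⟩
  obtain ⟨c, rfl⟩ := hgf
  have h1 := h.2
  rw [Nat.cast_mul, ← Ideal.span_singleton_mul_span_singleton] at h1
  exact IsCoprime.of_mul_right_left h1

theorem rc_unit {f : ℕ} {ψ : Ideal (𝓞 K) →*₀ ℂ} (h : RC f ψ) {I : Ideal (𝓞 K)} (hI : Cop f I) : ψ I ≠ 0 := by
  intro h0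
  have := h.cop I hI
  rw [h0, norm_zero] at this
  exact zero_ne_one this

/-- a character trivial on the order of conductor g depends on the class modulo g only -/
theorem char_eqv (h2 : Module.finrank ℚ K = 2) {f g : ℕ} {ψ : Ideal (𝓞 K) →*₀ ℂ} (h : RC f ψ)
    (ht : ∀ α : 𝓞 K, Ord g α → Cop f (Ideal.span {α}) → ψ (Ideal.span {α}) = 1) {J J' : Ideal (𝓞 K)}
    (hJ : Cop f J) (hJ' : Cop f J') (hE : Eqv g J J') : ψ J = ψ J' := by
  obtain ⟨α, β, h1, h3, h4, h5, h6⟩ := hE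
  obtain ⟨Jb, hN, hJb⟩ := H13_exists h2 J
  have hJbc : Cop f Jb := by
    rw [cop_iff h2 h.pos] at hJ ⊢
    refine ⟨?_, by rw [hN]; exact hJ.2⟩
    intro h0
    rw [h0, Ideal.absNorm_bot] at hN
    exact hJ.1 (Ideal.absNorm_eq_zero_iff.1 hN.symm)
  have hβ0 : β ≠ 0 := by
    rintro rfl
    exact h5.1 (by simp)
  set N : ℕ := Ideal.absNorm J with hNdef
  have e1 : Ideal.span {α * (N : 𝓞 K)} = Ideal.span {β} * (J' * Jb) := by
    rw [← Ideal.span_singleton_mul_span_singleton, ← hJb, ← mul_assoc, h6, mul_assoc]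
  obtain ⟨γ, hγ⟩ : ∃ γ, α * (N : 𝓞 K) = β * γ := by
    have : Ideal.span {β} ∣ Ideal.span {α * (N : 𝓞 K)} := ⟨_, e1⟩
    rw [Ideal.dvd_span_singleton, Ideal.mem_span_singleton] at this
    exact this
  have e2 : Ideal.span {γ} = J' * Jb := by
    rw [hγ, ← Ideal.span_singleton_mul_span_singleton] at e1
    exact mul_left_cancel₀ (by simpa using hβ0) e1
  have hγO : Ord g γ := by
    refine ord_of_mul h3 h5.2 ?_
    rw [← hγ]
    exact H17_ord_mul h1 ⟨N, by simp⟩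
  have hγc : Cop f (Ideal.span {γ}) := by
    rw [e2]
    exact cop_mul.2 ⟨hJ', hJbc⟩
  have e3 := ht γ hγO hγc
  rw [e2, map_mul] at e3
  have e4 : ψ J * ψ Jb = 1 := by
    rw [← map_mul, hJb]
    refine h.triv _ ⟨N, by simp⟩ ?_
    rw [← hJb]
    exact cop_mul.2 ⟨hJ, hJbc⟩
  exact mul_right_cancel₀ (rc_unit h hJbc) (e4.trans e3.symm)

/-- the primitive ring class character inducing a given one -/
theorem exists_prim (h2 : Module.finrank ℚ K = 2) {f : ℕ} {ψ : Ideal (𝓞 K) →*₀ ℂ} (h : RC f ψ) :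
    ∃ g : ℕ, g ∣ f ∧ ∃ ψ' : Ideal (𝓞 K) →*₀ ℂ, RingClass g ψ' ∧ ∀ I, Cop f I → ψ' I = ψ I := by
  classical
  have hex : ∃ g : ℕ, 0 < g ∧ g ∣ f ∧ ∀ α : 𝓞 K, Ord g α → Cop f (Ideal.span {α}) → ψ (Ideal.span {α}) = 1 :=
    ⟨f, h.pos, dvd_rfl, h.triv⟩
  obtain ⟨g, ⟨hg0, hgf, ht⟩, hmin⟩ : ∃ g : ℕ, (0 < g ∧ g ∣ f ∧
      ∀ α : 𝓞 K, Ord g α → Cop f (Ideal.span {α}) → ψ (Ideal.span {α}) = 1) ∧
      ∀ g' < g, ¬ (0 < g' ∧ g' ∣ f ∧ ∀ α : 𝓞 K, Ord g' α → Cop f (Ideal.span {α}) → ψ (Ideal.span {α}) = 1) :=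
    ⟨Nat.find hex, Nat.find_spec hex, fun g' hg' => Nat.find_min hex hg'⟩
  have hch : ∀ I : Ideal (𝓞 K), ∃ J : Ideal (𝓞 K), Cop g I → (Cop f J ∧ Eqv g I J) := by
    intro I
    by_cases hI : Cop g I
    · obtain ⟨J, hJ, hJf, hE⟩ := exists_cop hg0 hI h.pos
      exact ⟨J, fun _ => ⟨(cop_iff h2 h.pos).2 ⟨hJ.1, hJf⟩, hE⟩⟩
    · exact ⟨⊤, fun h => absurd h hI⟩
  choose R hR using hch
  have key : ∀ {J J' : Ideal (𝓞 K)}, Cop f J → Cop f J' → Eqv g J J' → ψ J = ψ J' :=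
    fun hJ hJ' hE => char_eqv h2 h ht hJ hJ' hE
  have hone : Cop f (1 : Ideal (𝓞 K)) := by
    refine ⟨one_ne_zero, isCoprime_one_left⟩
  have hzero : ¬ Cop g (0 : Ideal (𝓞 K)) := fun h0 => h0.1 rfl
  have hmul : ∀ I J : Ideal (𝓞 K), Cop g (I * J) ↔ Cop g I ∧ Cop g J := fun I J => cop_mul
  have hRval : ∀ {I J : Ideal (𝓞 K)}, Cop g I → Cop f J → Eqv g I J → ψ (R I) = ψ J := by
    intro I J hI hJ hE
    exact key (hR I hI).1 hJ (Eqv.trans hg0 (Eqv.symm (hR I hI).2) hE)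
  let ψ' : Ideal (𝓞 K) →*₀ ℂ :=
    { toFun := fun I => if Cop g I then ψ (R I) else 0
      map_zero' := if_neg hzero
      map_one' := by
        show (if Cop g (1 : Ideal (𝓞 K)) then ψ (R 1) else 0) = 1
        rw [if_pos (cop_mono hgf hone), hRval (cop_mono hgf hone) hone (Eqv.refl hg0 _), map_one]
      map_mul' := by
        intro I J
        show (if Cop g (I * J) then ψ (R (I * J)) else 0) =
          (if Cop g I then ψ (R I) else 0) * (if Cop g J then ψ (R J) else 0)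
        by_cases hI : Cop g I
        · by_cases hJ : Cop g J
          · have hIJ := (hmul I J).2 ⟨hI, hJ⟩
            rw [if_pos hI, if_pos hJ, if_pos hIJ, ← map_mul]
            refine hRval hIJ (cop_mul.2 ⟨(hR I hI).1, (hR J hJ).1⟩) ?_
            have a1 := Eqv.mul hg0 J (hR I hI).2
            have a2 := Eqv.mul hg0 (R I) (hR J hJ).2
            rw [mul_comm J, mul_comm (R J)] at a2
            exact Eqv.trans hg0 a1 a2
          · rw [if_neg hJ, mul_zero, if_neg (fun h0 => hJ ((hmul I J).1 h0).2)]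
        · rw [if_neg hI, zero_mul, if_neg (fun h0 => hI ((hmul I J).1 h0).1)] }
  have e1 : ∀ I, Cop g I → ψ' I = ψ (R I) := fun I hI => if_pos hI
  have e0 : ∀ I, ¬ Cop g I → ψ' I = 0 := fun I hI => if_neg hI
  have e2 : ∀ I, Cop f I → ψ' I = ψ I := by
    intro I hI
    have hI' := cop_mono hgf hI
    rw [e1 I hI', hRval hI' hI (Eqv.refl hg0 _)]
  refine ⟨g, hgf, ψ', ⟨hg0, ?_, e0, ?_, ?_⟩, e2⟩
  · intro I hI
    rw [e1 I hI]
    exact h.cop _ (hR I hI).1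
  · intro α hα hc
    have hE : Eqv g (Ideal.span {α}) 1 :=
      ⟨1, α, H17_ord_one g, hα, H17_cop_one g, hc, by simp⟩
    rw [e1 _ hc, hRval hc hone hE, map_one]
  · intro p hp hpg
    have hlt : g / p < g := Nat.div_lt_self hg0 hp.one_lt
    have hpos : 0 < g / p := Nat.div_pos (Nat.le_of_dvd hg0 hpg) hp.pos
    have := hmin (g / p) hlt
    push Not at this
    obtain ⟨α, h3, h4, h5⟩ := this hpos ((Nat.div_dvd_of_dvd hpg).trans hgf)
    exact ⟨α, h3, cop_mono hgf h4, by rw [e2 _ h4]; exact h5⟩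

end PP
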