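import Pool.Agent.Lib.MP_0f5a55_nt.NR.QD
import Pool.Agent.Lib.MP_0f5a55_nt.HC.H09

open Complex MeasureTheory Set Filter Topology
open scoped Real ComplexConjugate NumberField

namespace PP

open HC NR

variable {K : Type*} [Field K] [NumberField K]

open Classical in
/-- the function with the primes of S removed -/
noncomputable def B2_F (S : Finset (Ideal (𝓞 K))) (ψ : Ideal (𝓞 K) → ℂ) (I : Ideal (𝓞 K)) : ℂ :=
  if ∀ P ∈ S, ¬ P ∣ I then ψ I else 0

/-- coefficients -/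
noncomputable def B2_A (F : Ideal (𝓞 K) → ℂ) (n : ℕ) : ℂ := ∑ I ∈ H09_S K n, F I

theorem B2_ac (ψ : Ideal (𝓞 K) →*₀ ℂ) : ac ψ = B2_A (fun I => ψ I) := by
  funext n
  exact H09_ac ψ n

theorem B2_norm_pos {P : Ideal (𝓞 K)} (hP : Prime P) : Ideal.absNorm P ≠ 0 := by
  intro h
  exact hP.ne_zero (Ideal.absNorm_eq_zero_iff.1 h)

theorem B2_norm_two {P : Ideal (𝓞 K)} (hP : Prime P) : 2 ≤ Ideal.absNorm P := by
  have h0 := B2_norm_pos hP
  have h1 : Ideal.absNorm P ≠ 1 := by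
    intro h
    rw [Ideal.absNorm_eq_one_iff] at h
    apply hP.not_isUnit
    rw [Ideal.isUnit_iff]
    exact h
  omega

open Classical in
theorem B2_step {S : Finset (Ideal (𝓞 K))} (hS : ∀ Q ∈ S, Prime Q) {P : Ideal (𝓞 K)} (hP : Prime P)
    (hPS : P ∉ S) (ψ : Ideal (𝓞 K) →*₀ ℂ) (n : ℕ) (hn : n ≠ 0) :
    B2_A (B2_F (insert P S) ψ) n = B2_A (B2_F S ψ) n -
      if Ideal.absNorm P ∣ n then ψ P * B2_A (B2_F S ψ) (n / Ideal.absNorm P) else 0 := by
  have h1 : ∀ I, B2_F (insert P S) ψ I = B2_F S ψ I - if P ∣ I then B2_F S ψ I else 0 := by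
    intro I
    unfold B2_F
    by_cases hI : P ∣ I
    · have : ¬ ∀ Q ∈ insert P S, ¬ Q ∣ I := fun h => h P (Finset.mem_insert_self P S) hI
      simp [hI]
    · have : (∀ Q ∈ insert P S, ¬ Q ∣ I) ↔ ∀ Q ∈ S, ¬ Q ∣ I := by
        constructor
        · exact fun h Q hQ => h Q (Finset.mem_insert_of_mem hQ)
        · intro h Q hQ
          rcases Finset.mem_insert.1 hQ with rfl | hQ
          · exact hI
          · exact h Q hQ
      simp only [this, hI, if_false, sub_zero]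
  have h2 : ∀ J, B2_F S ψ (P * J) = ψ P * B2_F S ψ J := by
    intro J
    unfold B2_F
    have : (∀ Q ∈ S, ¬ Q ∣ P * J) ↔ ∀ Q ∈ S, ¬ Q ∣ J := by
      constructor
      · exact fun h Q hQ hd => h Q hQ (hd.trans (dvd_mul_left J P))
      · intro h Q hQ hd
        rcases (hS Q hQ).dvd_or_dvd hd with hd | hd
        · have h3 : Associated Q P := (hS Q hQ).associated_of_dvd hP hd
          rw [associated_iff_eq] at h3
          exact hPS (h3 ▸ hQ)
        · exact h Q hQ hd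
    simp only [this]
    split_ifs
    · rw [map_mul]
    · rw [mul_zero]
  unfold B2_A
  simp only [h1]
  rw [Finset.sum_sub_distrib]
  congr 1
  rw [← Finset.sum_filter]
  split_ifs with hd
  · obtain ⟨m, rfl⟩ := hd
    have hq : 0 < Ideal.absNorm P := Nat.pos_of_ne_zero (B2_norm_pos hP)
    rw [Nat.mul_div_cancel_left _ hq, Finset.mul_sum]
    refine (Finset.sum_bij (fun J _ => P * J) ?_ ?_ ?_ ?_).symm
    · intro J hJ
      rw [H09_mem] at hJ
      rw [Finset.mem_filter, H09_mem, map_mul, hJ]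
      exact ⟨rfl, dvd_mul_right P J⟩
    · intro J _ J' _ h
      exact mul_left_cancel₀ hP.ne_zero h
    · intro I hI
      rw [Finset.mem_filter, H09_mem] at hI
      obtain ⟨hI, J, rfl⟩ := hI
      refine ⟨J, ?_, rfl⟩
      rw [H09_mem]
      rw [map_mul] at hI
      exact Nat.eq_of_mul_eq_mul_left hq hI
    · intro J _
      exact (h2 J).symm
  · apply Finset.sum_eq_zero
    intro I hI
    rw [Finset.mem_filter, H09_mem] at hI
    exfalso
    apply hd
    rw [← hI.1]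
    exact Ideal.absNorm_dvd_absNorm_of_le (Ideal.dvd_iff_le.1 hI.2)

open Classical in
theorem B2_hasSum {a b : ℕ → ℂ} {q : ℕ} (hq : 0 < q) {c s A : ℂ}
    (h : ∀ n, n ≠ 0 → b n = a n - if q ∣ n then c * a (n / q) else 0) (hA : LSeriesHasSum a s A) :
    LSeriesHasSum b s ((1 - c * (q : ℂ) ^ (-s)) * A) := by
  unfold LSeriesHasSum at hA ⊢
  have hg : HasSum (fun n : ℕ => if q ∣ n then c * (q : ℂ) ^ (-s) * LSeries.term a s (n / q) else 0)
      (c * (q : ℂ) ^ (-s) * A) := by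
    have hinj : Function.Injective (fun m : ℕ => q * m) := fun x y hxy => Nat.eq_of_mul_eq_mul_left hq hxy
    rw [← hinj.hasSum_iff]
    · have := hA.mul_left (c * (q : ℂ) ^ (-s))
      refine this.congr_fun ?_ |> fun h => h
      intro m
      simp [Nat.mul_div_cancel_left _ hq]
    · intro n hn
      rw [if_neg]
      rintro ⟨m, rfl⟩
      exact hn ⟨m, rfl⟩
  have h3 := hA.sub hg
  have h4 : (1 - c * (q : ℂ) ^ (-s)) * A = A - c * (q : ℂ) ^ (-s) * A := by ring
  rw [h4]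
  refine h3.congr_fun ?_ |> fun h => h
  intro n
  rcases eq_or_ne n 0 with rfl | hn
  · simp
  · rw [LSeries.term_of_ne_zero hn, LSeries.term_of_ne_zero hn, h n hn]
    by_cases hd : q ∣ n
    · rw [if_pos hd, if_pos hd]
      obtain ⟨m, rfl⟩ := hd
      have hm : m ≠ 0 := fun h0 => hn (by rw [h0, mul_zero])
      have hq' : (q : ℂ) ≠ 0 := Nat.cast_ne_zero.2 hq.ne'
      have hm' : (m : ℂ) ≠ 0 := Nat.cast_ne_zero.2 hm
      have e1 : (q : ℂ) ^ s ≠ 0 := by rw [Ne, cpow_eq_zero_iff]; tauto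
      have e2 : (m : ℂ) ^ s ≠ 0 := by rw [Ne, cpow_eq_zero_iff]; tauto
      rw [Nat.mul_div_cancel_left _ hq, LSeries.term_of_ne_zero hm, Nat.cast_mul,
        natCast_mul_natCast_cpow, cpow_neg]
      field_simp
    · rw [if_neg hd, if_neg hd, sub_zero, sub_zero]

theorem B2_order {q : ℕ} (hq : 2 ≤ q) {c : ℂ} (hc : ‖c‖ ≤ 1) {L : ℂ → ℂ} (hL : Differentiable ℂ L) (g0 : ℝ) :
    analyticOrderNatAt (fun s => (1 - c * (q : ℂ) ^ (-s)) * L s) (1 / 2 + g0 * I) =
      analyticOrderNatAt L (1 / 2 + g0 * I) := by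
  have hq' : (q : ℂ) ≠ 0 := Nat.cast_ne_zero.2 (by omega)
  have h1 : Differentiable ℂ (fun s : ℂ => 1 - c * (q : ℂ) ^ (-s)) := by
    intro s
    exact ((differentiableAt_const _).sub ((differentiableAt_const _).mul
      (differentiableAt_id.neg.const_cpow (Or.inl hq'))))
  have h2 : (fun s => (1 - c * (q : ℂ) ^ (-s)) * L s) = (fun s : ℂ => 1 - c * (q : ℂ) ^ (-s)) * L := rfl
  have h3 : (fun s : ℂ => 1 - c * (q : ℂ) ^ (-s)) (1 / 2 + g0 * I) ≠ 0 := by
    intro h
    have h4 : c * (q : ℂ) ^ (-(1 / 2 + g0 * I : ℂ)) = 1 := (sub_eq_zero.1 h).symm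
    have h5 := congrArg norm h4
    rw [norm_mul, norm_one] at h5
    have h6 : ‖(q : ℂ) ^ (-(1 / 2 + g0 * I : ℂ))‖ = (q : ℝ) ^ (-(1 / 2) : ℝ) := by
      rw [norm_natCast_cpow_of_pos (by omega)]
      simp
    rw [h6] at h5
    have h7 : (q : ℝ) ^ (-(1 / 2) : ℝ) < 1 := by
      apply Real.rpow_lt_one_of_one_lt_of_neg
      · exact_mod_cast (by omega : 1 < q)
      · norm_num
    have h8 : 0 ≤ (q : ℝ) ^ (-(1 / 2) : ℝ) := by positivity
    nlinarith [norm_nonneg c]
  unfold analyticOrderNatAt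
  rw [h2, analyticOrderAt_mul (h1.analyticAt _) (hL.analyticAt _),
    ((h1.analyticAt _).analyticOrderAt_eq_zero).2 h3, zero_add]

theorem B2_main (ψ : Ideal (𝓞 K) →*₀ ℂ) (hψ : ∀ I, ‖ψ I‖ ≤ 1) {L' : ℂ → ℂ} (hL' : Differentiable ℂ L')
    (hs : ∀ s : ℂ, 1 < s.re → LSeriesHasSum (ac ψ) s (L' s)) (S : Finset (Ideal (𝓞 K))) :
    (∀ P ∈ S, Prime P) → ∃ L : ℂ → ℂ, Differentiable ℂ L ∧
      (∀ s : ℂ, 1 < s.re → LSeriesHasSum (B2_A (B2_F S ψ)) s (L s)) ∧
      ∀ g0 : ℝ, analyticOrderNatAt L (1 / 2 + g0 * I) = analyticOrderNatAt L' (1 / 2 + g0 * I) := by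
  classical
  induction S using Finset.induction_on with
  | empty =>
    intro _
    refine ⟨L', hL', ?_, fun _ => rfl⟩
    have : B2_F (∅ : Finset (Ideal (𝓞 K))) ψ = fun I => ψ I := by
      funext I
      simp [B2_F]
    rw [this, ← B2_ac]
    exact hs
  | insert P S hPS ih =>
    intro hS
    obtain ⟨L, hL, h1, h2⟩ := ih (fun Q hQ => hS Q (Finset.mem_insert_of_mem hQ))
    have hP : Prime P := hS P (Finset.mem_insert_self P S)
    have hq' : (Ideal.absNorm P : ℂ) ≠ 0 := Nat.cast_ne_zero.2 (B2_norm_pos hP)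
    refine ⟨fun s => (1 - ψ P * (Ideal.absNorm P : ℂ) ^ (-s)) * L s, ?_, ?_, ?_⟩
    · intro s
      exact ((differentiableAt_const _).sub ((differentiableAt_const _).mul
        (differentiableAt_id.neg.const_cpow (Or.inl hq')))).mul (hL s)
    · intro s hs1
      refine B2_hasSum (Nat.pos_of_ne_zero (B2_norm_pos hP)) ?_ (h1 s hs1)
      intro n hn
      exact B2_step (fun Q hQ => hS Q (Finset.mem_insert_of_mem hQ)) hP hPS ψ n hn
    · intro g0
      rw [← h2 g0]
      exact B2_order (B2_norm_two hP) (hψ P) hL g0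

/-- removing the Euler factors at the primes dividing f does not change the orders on the line -/
theorem bridge (h2 : Module.finrank ℚ K = 2) {f g : ℕ} {ψ ψ' : Ideal (𝓞 K) →*₀ ℂ} (h : RC f ψ)
    (h' : RingClass g ψ') (hg : g ∣ f) (e : ∀ I, Cop f I → ψ' I = ψ I) {L' : ℂ → ℂ}
    (hL' : Differentiable ℂ L') (hs : ∀ s : ℂ, 1 < s.re → LSeriesHasSum (ac ψ') s (L' s)) :
    ∃ L : ℂ → ℂ, Differentiable ℂ L ∧ (∀ s : ℂ, 1 < s.re → LSeriesHasSum (ac ψ) s (L s)) ∧
      ∀ g0 : ℝ, analyticOrderNatAt L (1 / 2 + g0 * I) = analyticOrderNatAt L' (1 / 2 + g0 * I) := by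
  classical
  have hψ : ∀ I, ‖ψ' I‖ ≤ 1 := by
    intro I
    by_cases hI : Cop g I
    · exact (h'.cop I hI).le
    · rw [h'.ncop I hI, norm_zero]; norm_num
  set F : Ideal (𝓞 K) := Ideal.span {(f : 𝓞 K)} with hF
  have hF0 : F ≠ 0 := by
    rw [hF, Ne, Ideal.zero_eq_bot, Ideal.span_singleton_eq_bot]
    exact Nat.cast_ne_zero.2 h.pos.ne'
  set S : Finset (Ideal (𝓞 K)) := (UniqueFactorizationMonoid.normalizedFactors F).toFinset with hS
  have hSP : ∀ P ∈ S, Prime P := by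
    intro P hP
    rw [hS, Multiset.mem_toFinset] at hP
    exact UniqueFactorizationMonoid.prime_of_normalized_factor P hP
  obtain ⟨L, hL, h1, h3⟩ := B2_main ψ' hψ hL' hs S hSP
  refine ⟨L, hL, ?_, h3⟩
  have hA : ac ψ = B2_A (B2_F S ψ') := by
    rw [B2_ac]
    congr 1
    funext I
    unfold B2_F
    by_cases hI : Cop f I
    · rw [if_pos, e I hI]
      intro P hP hd
      have hP' := hSP P hP
      rw [hS, Multiset.mem_toFinset] at hP
      have hPF : P ∣ F := UniqueFactorizationMonoid.dvd_of_mem_normalizedFactors hP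
      have h5 : IsCoprime P P := (hI.2.of_isCoprime_of_dvd_left hd).of_isCoprime_of_dvd_right hPF
      rw [isCoprime_self] at h5
      exact hP'.not_isUnit h5
    · rw [h.ncop I hI]
      rcases eq_or_ne I ⊥ with rfl | hI0
      · have : ψ' ⊥ = 0 := by rw [← Ideal.zero_eq_bot, map_zero]
        rw [this, ite_self]
      · rw [if_neg]
        intro h4
        apply hI
        refine ⟨hI0, ?_⟩
        by_contra h5
        rw [Ideal.isCoprime_iff_sup_eq] at h5
        obtain ⟨M, hM, hle⟩ := Ideal.exists_le_maximal _ h5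
        have hMI : M ∣ I := Ideal.dvd_iff_le.2 (le_sup_left.trans hle)
        have hMF : M ∣ F := Ideal.dvd_iff_le.2 (le_sup_right.trans hle)
        have hM0 : M ≠ ⊥ := fun h0 => hF0 (by rw [h0] at hMF; exact zero_dvd_iff.1 hMF)
        have hMp : Prime M := Ideal.prime_of_isPrime hM0 hM.isPrime
        refine h4 M ?_ hMI
        rw [hS, Multiset.mem_toFinset]
        obtain ⟨Q, hQ, hQM⟩ := UniqueFactorizationMonoid.exists_mem_normalizedFactors_of_dvd hF0 hMp.irreducible hMF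
        rw [associated_iff_eq] at hQM
        rw [hQM]
        exact hQ
  rw [hA]
  exact h1

end PP
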