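import Pool.Agent.Lib.MP_0f5a55_nt.EX.Flats

set_option autoImplicit false

/-!
The statement on almost all subgroups, with the hypothesis on pairs only, and its form for sums over half systems
(generalised dihedral groups).
-/

universe u v

namespace M0F
open Finset
open scoped Pointwise

theorem popular_pair {V : Type u} [AddCommGroup V] [Fintype V] [DecidableEq V]
    {A : Type v} [AddCommGroup A] [DecidableEq A]
    (hV : ∀ v : V, 3 • v = 0) (hA : ∀ a : A, 2 • a = 0) (q : V → A)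
    (hp : ∀ x y : V, x ≠ 0 → y ≠ 0 → x ≠ y → x ≠ -y → q x + q (-x) + (q y + q (-y)) ≠ 0) (a : A) :
    (univ.filter fun x => q x + q (-x) = a).card ≤ 3 := by
  by_contra hcon
  have hPc : 4 ≤ (univ.filter fun x => q x + q (-x) = a).card := by omega
  set P : Finset V := univ.filter fun x => q x + q (-x) = a with hP
  obtain ⟨x, hx⟩ : (P.erase 0).Nonempty := by
    rw [← Finset.card_pos]
    have := Finset.pred_card_le_card_erase (s := P) (a := 0)
    omega
  obtain ⟨hx0, hxP⟩ := Finset.mem_erase.1 hx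
  obtain ⟨y, hy⟩ : (((P.erase 0).erase x).erase (-x)).Nonempty := by
    rw [← Finset.card_pos]
    have e1 := Finset.pred_card_le_card_erase (s := P) (a := 0)
    have e2 := Finset.pred_card_le_card_erase (s := P.erase 0) (a := x)
    have e3 := Finset.pred_card_le_card_erase (s := (P.erase 0).erase x) (a := -x)
    omega
  obtain ⟨hy1, hy⟩ := Finset.mem_erase.1 hy
  obtain ⟨hy2, hy⟩ := Finset.mem_erase.1 hy
  obtain ⟨hy0, hyP⟩ := Finset.mem_erase.1 hy
  have qx : q x + q (-x) = a := (Finset.mem_filter.1 hxP).2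
  have qy : q y + q (-y) = a := (Finset.mem_filter.1 hyP).2
  refine hp x y hx0 hy0 (fun h => hy2 h.symm) (fun h => hy1 ?_) ?_
  · rw [h, neg_neg]
  · rw [qx, qy]
    exact add_self' hA a

theorem almost_all_pow_pair (d : ℕ) : ∃ K κ : ℝ, 0 < K ∧ 0 < κ ∧
    ∀ (V : Type u) [AddCommGroup V] [Fintype V] (A : Type v) [AddCommGroup A],
      (∀ v : V, 3 • v = 0) → (∀ a : A, 2 • a = 0) → ∀ q : V → A,
      (∀ x y : V, x ≠ 0 → y ≠ 0 → x ≠ y → x ≠ -y → q x + q (-x) + (q y + q (-y)) ≠ 0) →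
      ∀ bad : Finset (Fin (d + 1) → V),
      (∀ v ∈ bad, ∀ X : Finset V, (∀ x, x ∈ X ↔ x ∈ AddSubgroup.closure (Set.range v)) →
        ∑ x ∈ X, q x = 0) →
      (bad.card : ℝ) ≤ K * (Fintype.card V : ℝ) ^ (-κ) * (Fintype.card V : ℝ) ^ (d + 1) := by
  classical
  obtain ⟨F, ⟨c, m, hc, hm, hF⟩, h⟩ := spans_pow.{u, v} d
  refine ⟨(3 / c) ^ (1 / (m : ℝ)), 1 / (m : ℝ), by positivity, by positivity, ?_⟩
  intro V _ _ A _ hV hA q h4 bad hbad
  have hN0 : (0:ℝ) < Fintype.card V := by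
    have : Nonempty V := ⟨0⟩
    exact Nat.cast_pos.2 Fintype.card_pos
  set N : ℝ := (Fintype.card V : ℝ) with hN
  have hNd : 0 < N ^ (d + 1) := pow_pos hN0 _
  rcases Nat.eq_zero_or_pos bad.card with h0 | h0
  · rw [h0, Nat.cast_zero]; positivity
  have hb0 : (0:ℝ) < bad.card := Nat.cast_pos.2 h0
  set ε : ℝ := bad.card / N ^ (d + 1) with hε
  have hε0 : 0 < ε := div_pos hb0 hNd
  have hεN : ε * N ^ (d + 1) = bad.card := div_mul_cancel₀ _ hNd.ne'
  obtain ⟨a, ha⟩ := h ε hε0 V A hV hA q (by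
    rw [← hN, hεN]
    have : bad ⊆ univ.filter fun v : Fin (d + 1) → V =>
        ∑ c : Fin (d + 1) → ZMod 3, q (comb v c) = 0 := by
      intro v hv
      refine Finset.mem_filter.2 ⟨Finset.mem_univ _, ?_⟩
      have hX : ∀ x, x ∈ (univ.filter fun x => x ∈ AddSubgroup.closure (Set.range v)) ↔
          x ∈ AddSubgroup.closure (Set.range v) := by
        intro x
        simp only [Finset.mem_filter, Finset.mem_univ, true_and]
      rw [sum_comb hV hA v q _ hX]
      exact hbad v hv _ hX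
    exact_mod_cast Finset.card_le_card this)
  have h3 : ((univ.filter fun x => q x + q (-x) = a).card : ℝ) ≤ 3 := by
    exact_mod_cast popular_pair hV hA q h4 a
  rw [hF ε hε0] at ha
  have h5 : ε ^ m ≤ 3 / c * N⁻¹ := by
    rw [div_mul_eq_mul_div, le_div_iff₀ hc, ← div_eq_mul_inv, le_div_iff₀ hN0]
    calc ε ^ m * c * N = c * ε ^ m * N := by ring
      _ ≤ 3 := ha.trans h3
  have h6 : ε ≤ (3 / c) ^ (1 / (m : ℝ)) * N ^ (-(1 / (m : ℝ))) := by
    have e1 : ε = (ε ^ m) ^ (1 / (m : ℝ)) := by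
      rw [one_div, Real.pow_rpow_inv_natCast hε0.le hm.ne']
    have e2 : N ^ (-(1 / (m : ℝ))) = (N⁻¹) ^ (1 / (m : ℝ)) := by
      rw [Real.rpow_neg hN0.le, Real.inv_rpow hN0.le]
    rw [e2, ← Real.mul_rpow (div_nonneg (by norm_num) hc.le) (inv_nonneg.2 hN0.le)]
    calc ε = (ε ^ m) ^ (1 / (m : ℝ)) := e1
      _ ≤ _ := Real.rpow_le_rpow (pow_nonneg hε0.le _) h5 (one_div_nonneg.2 (Nat.cast_nonneg _))
  rw [← hεN]
  exact mul_le_mul_of_nonneg_right h6 hNd.le

theorem almost_all_subgroups_pair (d : ℕ) : ∃ K κ : ℝ, 0 < K ∧ 0 < κ ∧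
    ∀ (V : Type u) [AddCommGroup V] [Fintype V] (A : Type v) [AddCommGroup A],
      (∀ v : V, 3 • v = 0) → (∀ a : A, 2 • a = 0) → ∀ q : V → A,
      (∀ x y : V, x ≠ 0 → y ≠ 0 → x ≠ y → x ≠ -y → q x + q (-x) + (q y + q (-y)) ≠ 0) →
      ∀ bad : Finset (AddSubgroup V),
      (∀ W ∈ bad, Nat.card W = 3 ^ (d + 1) ∧ ∀ X : Finset V, (∀ x, x ∈ X ↔ x ∈ W) →
        ∑ x ∈ X, q x = 0) →
      (bad.card : ℝ) ≤ K * (Fintype.card V : ℝ) ^ (-κ) *
        (Nat.card {W : AddSubgroup V // Nat.card W = 3 ^ (d + 1)} : ℝ) := by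
  classical
  obtain ⟨K, κ, hK, hκ, h0⟩ := almost_all_pow_pair.{u, v} d
  refine ⟨max (K * 2 ^ (d + 1)) ((2 * 3 ^ (d + 1)) ^ κ), κ, lt_max_of_lt_left (by positivity), hκ, ?_⟩
  intro V _ _ A _ hV hA q h4 bad hbad
  letI : Module (ZMod 3) V := AddCommGroup.zmodModule hV
  haveI : Fintype (AddSubgroup V) := Fintype.ofFinite _
  have hN0 : (0:ℝ) < Fintype.card V := by
    have : Nonempty V := ⟨0⟩
    exact Nat.cast_pos.2 Fintype.card_pos
  set N : ℝ := (Fintype.card V : ℝ) with hN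
  set all : Finset (AddSubgroup V) := univ.filter fun W => Nat.card W = 3 ^ (d + 1) with hall
  have e1 : Nat.card {W : AddSubgroup V // Nat.card W = 3 ^ (d + 1)} = all.card := by
    rw [Nat.card_eq_fintype_card, Fintype.card_subtype]
  rw [e1]
  have hsub : bad ⊆ all := fun W hW => Finset.mem_filter.2 ⟨Finset.mem_univ _, (hbad W hW).1⟩
  have hle : (bad.card : ℝ) ≤ all.card := by exact_mod_cast Finset.card_le_card hsub
  by_cases hN1 : 2 * 3 ^ (d + 1) ≤ Fintype.card V
  · have c1 := count (k := d + 1) bad (fun W hW => (hbad W hW).1)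
    have c2 := count (k := d + 1) all (fun W hW => (Finset.mem_filter.1 hW).2)
    have c3 : (univ.filter fun v : Fin (d + 1) → V => LinearIndependent (ZMod 3) v ∧
        AddSubgroup.closure (Set.range v) ∈ all) =
        univ.filter fun v : Fin (d + 1) → V => LinearIndependent (ZMod 3) v := by
      ext v
      simp only [Finset.mem_filter, Finset.mem_univ, true_and, hall]
      exact ⟨fun h => h.1, fun h => ⟨h, closure_card h⟩⟩
    rw [c3] at c2
    have c4 := many (V := V) hN1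
    rw [c2] at c4
    have c5 := h0 V A hV hA q h4
      (univ.filter fun v : Fin (d + 1) → V => LinearIndependent (ZMod 3) v ∧
        AddSubgroup.closure (Set.range v) ∈ bad)
      (fun v hv X hX => (hbad _ (Finset.mem_filter.1 hv).2.2).2 X hX)
    rw [c1, ← hN] at c5
    rw [← hN] at c4
    have hb : (0:ℝ) < (nb (d + 1) : ℝ) := Nat.cast_pos.2 (nb_pos _)
    push_cast at c4 c5
    have hNk : 0 < N ^ (-κ) := Real.rpow_pos_of_pos hN0 _
    have c6 : (bad.card : ℝ) * nb (d + 1) ≤ K * 2 ^ (d + 1) * N ^ (-κ) * all.card * nb (d + 1) := by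
      calc (bad.card : ℝ) * nb (d + 1) ≤ K * N ^ (-κ) * N ^ (d + 1) := c5
        _ = K * 2 ^ (d + 1) * N ^ (-κ) * (N / 2) ^ (d + 1) := by
            rw [div_pow]; field_simp
        _ ≤ K * 2 ^ (d + 1) * N ^ (-κ) * (all.card * nb (d + 1)) :=
            mul_le_mul_of_nonneg_left c4 (by positivity)
        _ = _ := by ring
    refine (le_of_mul_le_mul_right c6 hb).trans ?_
    exact mul_le_mul_of_nonneg_right (mul_le_mul_of_nonneg_right (le_max_left _ _) hNk.le)
      (Nat.cast_nonneg _)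
  · have hN2 : N ≤ 2 * 3 ^ (d + 1) := by
      have : Fintype.card V ≤ 2 * 3 ^ (d + 1) := (not_le.1 hN1).le
      rw [hN]; exact_mod_cast this
    have hNk : 0 < N ^ (-κ) := Real.rpow_pos_of_pos hN0 _
    have c1 : 1 ≤ (2 * 3 ^ (d + 1)) ^ κ * N ^ (-κ) := by
      rw [Real.rpow_neg hN0.le, ← div_eq_mul_inv, one_le_div (Real.rpow_pos_of_pos hN0 _)]
      exact Real.rpow_le_rpow hN0.le hN2 hκ.le
    have c2 : 1 ≤ max (K * 2 ^ (d + 1)) ((2 * 3 ^ (d + 1)) ^ κ) * N ^ (-κ) :=
      c1.trans (mul_le_mul_of_nonneg_right (le_max_right _ _) hNk.le)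
    calc (bad.card : ℝ) ≤ 1 * all.card := by rw [one_mul]; exact hle
      _ ≤ _ := mul_le_mul_of_nonneg_right c2 (Nat.cast_nonneg _)


section half
variable {V : Type u} [AddCommGroup V]

/-- `P` contains exactly one of `x`, `-x` for every `x ≠ 0` of `W` (and nothing else). -/
def Half (W : AddSubgroup V) (P : Finset V) : Prop :=
  (∀ x ∈ P, x ∈ W ∧ x ≠ 0 ∧ -x ∉ P) ∧ ∀ x ∈ W, x ≠ 0 → x ∈ P ∨ -x ∈ P

theorem neg_ne_self (hV : ∀ v : V, 3 • v = 0) {x : V} (hx : x ≠ 0) : x ≠ -x := by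
  intro hxx
  apply hx
  have h1 := hV x
  rw [show (3:ℕ) = 2 + 1 from rfl, add_smul, two_nsmul, one_nsmul] at h1
  nth_rewrite 1 [hxx] at h1
  rwa [neg_add_cancel, zero_add] at h1

theorem exists_half [Finite V] (hV : ∀ v : V, 3 • v = 0) (W : AddSubgroup V) :
    ∃ P : Finset V, Half W P := by
  classical
  have : Fintype V := Fintype.ofFinite V
  obtain ⟨r⟩ : Nonempty (LinearOrder V) := ⟨linearOrderOfSTO (WellOrderingRel)⟩
  refine ⟨univ.filter fun x => x ∈ W ∧ x ≠ 0 ∧ r.lt x (-x), ?_, ?_⟩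
  · intro x hx
    obtain ⟨h1, h2, h3⟩ := (Finset.mem_filter.1 hx).2
    refine ⟨h1, h2, fun h => ?_⟩
    have h4 := (Finset.mem_filter.1 h).2.2.2
    rw [neg_neg] at h4
    exact lt_asymm h3 h4
  · intro x hx hx0
    rcases lt_or_gt_of_ne (neg_ne_self hV hx0) with h | h
    · exact Or.inl (Finset.mem_filter.2 ⟨Finset.mem_univ _, hx, hx0, h⟩)
    · refine Or.inr (Finset.mem_filter.2 ⟨Finset.mem_univ _, W.neg_mem hx, neg_ne_zero.2 hx0, ?_⟩)
      rw [neg_neg]
      exact h

/-- A sum of a symmetric function over a half system: twice it is the sum over `W \ 0`. -/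
theorem Half.two_smul [DecidableEq V] {B : Type*} [AddCommMonoid B] {W : AddSubgroup V} {P : Finset V}
    (hP : Half W P) {c : V → B} (hc : ∀ v, c (-v) = c v) {X : Finset V} (hX : ∀ x, x ∈ X ↔ x ∈ W) :
    ∑ x ∈ X.erase 0, c x = 2 • ∑ x ∈ P, c x := by
  classical
  have e : X.erase 0 = P ∪ P.image (fun x => -x) := by
    ext x
    simp only [Finset.mem_erase, Finset.mem_union, Finset.mem_image, hX]
    constructor
    · rintro ⟨h0, hx⟩
      rcases hP.2 x hx h0 with h | h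
      · exact Or.inl h
      · exact Or.inr ⟨-x, h, neg_neg x⟩
    · rintro (h | ⟨y, hy, rfl⟩)
      · exact ⟨(hP.1 x h).2.1, (hP.1 x h).1⟩
      · exact ⟨neg_ne_zero.2 (hP.1 y hy).2.1, W.neg_mem (hP.1 y hy).1⟩
  have hd : Disjoint P (P.image fun x => -x) := by
    rw [Finset.disjoint_left]
    intro x hx hx'
    obtain ⟨y, hy, rfl⟩ := Finset.mem_image.1 hx'
    exact (hP.1 y hy).2.2 hx
  rw [e, Finset.sum_union hd, Finset.sum_image (fun _ _ _ _ h => neg_injective h), two_nsmul]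
  simp only [hc]

/-- The sum of a symmetric function over a half system does not depend on it. -/
theorem Half.sum_eq [DecidableEq V] {B : Type*} [AddCommMonoid B] {W : AddSubgroup V} {P P' : Finset V}
    (hP : Half W P) (hP' : Half W P') {c : V → B} (hc : ∀ v, c (-v) = c v) :
    ∑ x ∈ P, c x = ∑ x ∈ P', c x := by
  classical
  refine Finset.sum_bij (fun x _ => if x ∈ P' then x else -x) ?_ ?_ ?_ ?_
  · intro x hx
    by_cases h : x ∈ P'
    · simpa only [h, if_true] using h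
    · simp only [h, if_false]
      exact (hP'.2 x (hP.1 x hx).1 (hP.1 x hx).2.1).resolve_left h
  · intro x hx y hy hxy
    by_cases h : x ∈ P' <;> by_cases h' : y ∈ P'
    · simpa only [h, h', if_true] using hxy
    · simp only [h, h', if_true, if_false] at hxy
      exact absurd (hxy ▸ hx) (hP.1 y hy).2.2
    · simp only [h, h', if_true, if_false] at hxy
      exact absurd (hxy.symm ▸ hy) (hP.1 x hx).2.2
    · simp only [h, h', if_false] at hxy
      exact neg_injective hxy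
  · intro y hy
    by_cases h : y ∈ P
    · exact ⟨y, h, by simp only [hy, if_true]⟩
    · refine ⟨-y, (hP.2 y (hP'.1 y hy).1 (hP'.1 y hy).2.1).resolve_left h, ?_⟩
      simp only [(hP'.1 y hy).2.2, if_false, neg_neg]
  · intro x hx
    by_cases h : x ∈ P'
    · simp only [h, if_true]
    · simp only [h, if_false, hc]

end half

/-- **Generalised dihedral groups.** `c` is a function on `V` with `c (-v) = c v` and values in a group of exponent 2 such
that `c x ≠ c y` for `x, y ≠ 0`, `x ≠ ± y`; `q0` is any element. The number of the subgroups `W` of order `3 ^ (d+1)` for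
which `q0` plus the sum of `c` over the pairs `{x, -x}` of `W` is zero is at most `K |V| ^ (-κ)` times the number of all. -/
theorem almost_all_dihedral (d : ℕ) : ∃ K κ : ℝ, 0 < K ∧ 0 < κ ∧
    ∀ (V : Type u) [AddCommGroup V] [Fintype V] (A : Type v) [AddCommGroup A],
      (∀ v : V, 3 • v = 0) → (∀ a : A, 2 • a = 0) → ∀ (q0 : A) (c : V → A), (∀ v, c (-v) = c v) →
      (∀ x y : V, x ≠ 0 → y ≠ 0 → x ≠ y → x ≠ -y → c x + c y ≠ 0) →
      ∀ bad : Finset (AddSubgroup V),
      (∀ W ∈ bad, Nat.card W = 3 ^ (d + 1) ∧ ∃ P : Finset V, Half W P ∧ q0 + ∑ x ∈ P, c x = 0) →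
      (bad.card : ℝ) ≤ K * (Fintype.card V : ℝ) ^ (-κ) *
        (Nat.card {W : AddSubgroup V // Nat.card W = 3 ^ (d + 1)} : ℝ) := by
  classical
  obtain ⟨K, κ, hK, hκ, h0⟩ := almost_all_subgroups_pair.{u, v} d
  refine ⟨K, κ, hK, hκ, ?_⟩
  intro V _ _ A _ hV hA q0 c hc hne bad hbad
  obtain ⟨H, hH⟩ := exists_half hV (⊤ : AddSubgroup V)
  have z0 : (0 : V) ∉ H := fun h => (hH.1 0 h).2.1 rfl
  set q : V → A := fun x => if x = 0 then q0 else if x ∈ H then c x else 0 with hq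
  have hqq : ∀ x, x ≠ 0 → q x + q (-x) = c x := by
    intro x hx
    have hx' : -x ≠ 0 := neg_ne_zero.2 hx
    simp only [hq, hx, hx', if_false]
    rcases hH.2 x (AddSubgroup.mem_top _) hx with h | h
    · rw [if_pos h, if_neg (hH.1 x h).2.2, add_zero]
    · have h2 : x ∉ H := fun h3 => (hH.1 x h3).2.2 h
      rw [if_neg h2, if_pos h, zero_add, hc]
  refine h0 V A hV hA q ?_ bad ?_
  · intro x y hx hy h1 h2
    rw [hqq x hx, hqq y hy]
    exact hne x y hx hy h1 h2
  · intro W hW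
    obtain ⟨hWc, P, hP, hPs⟩ := hbad W hW
    refine ⟨hWc, fun X hX => ?_⟩
    have hP' : Half W (X.filter fun x => x ∈ H) := by
      constructor
      · intro x hx
        obtain ⟨h1, h2⟩ := Finset.mem_filter.1 hx
        exact ⟨(hX x).1 h1, (hH.1 x h2).2.1, fun h => (hH.1 x h2).2.2 (Finset.mem_filter.1 h).2⟩
      · intro x hx hx0
        rcases hH.2 x (AddSubgroup.mem_top _) hx0 with h | h
        · exact Or.inl (Finset.mem_filter.2 ⟨(hX x).2 hx, h⟩)
        · exact Or.inr (Finset.mem_filter.2 ⟨(hX _).2 (W.neg_mem hx), h⟩)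
    have e1 : ∑ x ∈ X, q x = q 0 + ∑ x ∈ X.erase 0, q x := by
      rw [Finset.add_sum_erase X q ((hX 0).2 W.zero_mem)]
    have e2 : ∑ x ∈ X.erase 0, q x = ∑ x ∈ X.filter (fun x => x ∈ H), c x := by
      rw [Finset.sum_filter]
      rw [← Finset.add_sum_erase X _ ((hX 0).2 W.zero_mem), if_neg z0, zero_add]
      refine Finset.sum_congr rfl fun x hx => ?_
      simp only [hq, (Finset.mem_erase.1 hx).1, if_false]
    rw [e1, e2, hP'.sum_eq hP hc]
    simpa only [hq, if_true] using hPs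

end M0F
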