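import Pool.Agent.Lib.MP_0f5a55_nt.NR.D
import Pool.Agent.Lib.MP_0f5a55_nt.NR.QD
import Pool.Agent.Lib.MP_0f5a55_nt.II.D
import Pool.Agent.Lib.MP_0f5a55_nt.FF.D

/-!
Two ring class characters of one quadratic field. Definitions.
-/

open Complex MeasureTheory Set Filter Topology
open scoped Real ComplexConjugate

namespace PP

/-- correlation integral of two forms -/
noncomputable def JJ (a1 a2 : ℕ → ℂ) (θ1 θ2 ε : ℝ) : ℂ :=
  ∫ u : ℝ, ((TT.tau u * Real.exp u : ℝ) : ℂ) * II.FE a1 θ1 ε (Real.exp u) * conj (II.FE a2 θ2 ε (Real.exp u))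

/-- the sum of |a1(p) + a2(p)|^2 / p over the primes diverges -/
def Div (a1 a2 : ℕ → ℂ) : Prop :=
  ¬ Summable (fun n : ℕ => if n.Prime then ‖a1 n + a2 n‖ ^ 2 * ((n : ℝ))⁻¹ else 0)

end PP
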