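import Pool.Agent.Lib.MP_0f5a55_nt.PP.Core

set_option autoImplicit false

/-!
Almost all subgroups of a finite group of exponent 3: sums over the pairs `{v, v⁻¹}` of multiplicities.
-/

namespace PP
open Finset

/-- functions modulo 2 with finite support -/
def fsp : AddSubgroup (ℝ → ZMod 2) where
  carrier := {f | f.support.Finite}
  zero_mem' := by simp
  add_mem' := by
    intro a b ha hb
    exact (ha.union hb).subset (Function.support_add a b)
  neg_mem' := by
    intro a ha
    simpa using ha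

/-- the class of `m` modulo 2 and modulo finite sets, on `g > 0` -/
noncomputable def cls (m : ℝ → ℤ) : (ℝ → ZMod 2) ⧸ fsp :=
  QuotientAddGroup.mk (fun g : ℝ => if 0 < g then (m g : ZMod 2) else 0)

theorem two_cls (a : (ℝ → ZMod 2) ⧸ fsp) : 2 • a = 0 := by
  induction a using QuotientAddGroup.induction_on with
  | H f =>
    rw [← QuotientAddGroup.mk_nsmul]
    have : (2 • f : ℝ → ZMod 2) = 0 := by
      funext x
      have h : ∀ z : ZMod 2, 2 • z = 0 := by decide
      exact h (f x)
    rw [this]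
    rfl

theorem cls_add (m m' : ℝ → ℤ) : cls m + cls m' = cls (fun g => m g + m' g) := by
  unfold cls
  rw [← QuotientAddGroup.mk_add]
  congr 1
  funext g
  by_cases hg : 0 < g
  · simp only [Pi.add_apply, hg, if_true, Int.cast_add]
  · simp only [Pi.add_apply, hg, if_false, add_zero]

theorem cls_zero : cls (fun _ => 0) = 0 := by
  unfold cls
  have : (fun g : ℝ => if 0 < g then ((0 : ℤ) : ZMod 2) else 0) = 0 := by
    funext g
    simp
  rw [this]
  rfl

theorem cls_sum {ι : Type*} (P : Finset ι) (m : ι → ℝ → ℤ) :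
    ∑ x ∈ P, cls (m x) = cls (fun g => ∑ x ∈ P, m x g) := by
  classical
  induction P using Finset.induction_on with
  | empty => simp only [Finset.sum_empty, cls_zero]
  | insert a s ha ih => rw [Finset.sum_insert ha, ih, cls_add]; simp only [Finset.sum_insert ha]

theorem cls_eq_zero (m : ℝ → ℤ) : cls m = 0 ↔ {g : ℝ | 0 < g ∧ Odd (m g)}.Finite := by
  unfold cls
  rw [QuotientAddGroup.eq_zero_iff]
  have e : {g : ℝ | 0 < g ∧ Odd (m g)} = Function.support (fun g : ℝ => if 0 < g then (m g : ZMod 2) else 0) := by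
    ext g
    simp only [Set.mem_ofPred_eq, Function.mem_support]
    by_cases hg : 0 < g
    · simp only [hg, if_true, true_and]
      rw [Ne, ZMod.intCast_zmod_eq_zero_iff_dvd, ← Int.not_even_iff_odd, even_iff_two_dvd]
      rfl
    · simp [hg]
  rw [e]
  rfl

/-- For every `d` there are `K, κ > 0`: for every finite commutative group `V` of exponent 3, all functions `m v`
(`m v⁻¹ = m v`) such that `m x + m y` is odd infinitely often for `x, y ≠ 1`, `x ≠ y, y⁻¹`, and every function `n`: the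
number of the subgroups `W` of order `3 ^ (d+1)` for which `n` plus half the sum of `m v` over `v ≠ 1` in `W` is odd only
finitely often is at most `K |V| ^ (-κ)` times the number of all. -/
theorem dih_index (d : ℕ) : ∃ K κ : ℝ, 0 < K ∧ 0 < κ ∧ ∀ (V : Type) [CommGroup V] [Finite V],
    (∀ v : V, v ^ 3 = 1) → ∀ m : V → ℝ → ℕ, (∀ v g, m v⁻¹ g = m v g) →
    (∀ x y : V, x ≠ 1 → y ≠ 1 → x ≠ y → x ≠ y⁻¹ → {g : ℝ | 0 < g ∧ Odd (m x g + m y g)}.Infinite) →
    ∀ n : ℝ → ℤ,
      ({W : Subgroup V | Nat.card W = 3 ^ (d + 1) ∧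
        {g : ℝ | 0 < g ∧ Odd (n g + (∑ᶠ v ∈ {v : V | v ∈ W ∧ v ≠ 1}, (m v g : ℤ)) / 2)}.Finite}.ncard : ℝ) ≤
          K * (Nat.card V : ℝ) ^ (-κ) * ({W : Subgroup V | Nat.card W = 3 ^ (d + 1)}.ncard : ℝ) := by
  classical
  obtain ⟨K, κ, hK, hκ, h0⟩ := M0F.almost_all_dihedral.{0, 0} d
  refine ⟨K, κ, hK, hκ, fun V _ _ hV m hm hne n => ?_⟩
  have : Fintype (Additive V) := Fintype.ofFinite _
  have hc : Nat.card V = Fintype.card (Additive V) := by
    rw [← Nat.card_eq_fintype_card]
    rfl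
  have h3 : ∀ v : Additive V, 3 • v = 0 := fun v => hV v.toMul
  set c : Additive V → (ℝ → ZMod 2) ⧸ fsp := fun v => cls (fun g => (m v.toMul g : ℤ)) with hcdef
  have hcn : ∀ v, c (-v) = c v := by
    intro v
    simp only [hcdef]
    congr 1
    funext g
    have := hm v.toMul g
    exact_mod_cast this
  have hpair : ∀ x y : Additive V, x ≠ 0 → y ≠ 0 → x ≠ y → x ≠ -y → c x + c y ≠ 0 := by
    intro x y hx hy hxy hxy'
    simp only [hcdef]
    rw [cls_add, Ne, cls_eq_zero]
    have h := hne x.toMul y.toMul hx hy hxy hxy'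
    intro hf
    apply h
    refine hf.subset fun g hg => ⟨hg.1, ?_⟩
    have h2 := hg.2
    rw [← Nat.cast_add, Int.odd_coe_nat]
    exact h2
  have h6 := h0 (Additive V) ((ℝ → ZMod 2) ⧸ fsp) h3 two_cls (cls n) c hcn hpair
    (Set.toFinite {W : AddSubgroup (Additive V) | Nat.card W = 3 ^ (d + 1) ∧
      ∃ P : Finset (Additive V), M0F.Half W P ∧ cls n + ∑ x ∈ P, c x = 0}).toFinset (by
      intro W hW
      rw [Set.Finite.mem_toFinset] at hW
      exact hW)
  rw [← Set.ncard_eq_toFinset_card] at h6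
  have key : ∀ W : Subgroup V, {g : ℝ | 0 < g ∧ Odd (n g + (∑ᶠ v ∈ {v : V | v ∈ W ∧ v ≠ 1}, (m v g : ℤ)) / 2)}.Finite →
      ∃ P : Finset (Additive V), M0F.Half (Subgroup.toAddSubgroup W) P ∧ cls n + ∑ x ∈ P, c x = 0 := by
    intro W hW
    obtain ⟨P, hP⟩ := M0F.exists_half h3 (Subgroup.toAddSubgroup W)
    refine ⟨P, hP, ?_⟩
    simp only [hcdef]
    rw [cls_sum, cls_add, cls_eq_zero]
    refine hW.subset fun g hg => ⟨hg.1, ?_⟩
    have e : (∑ᶠ v ∈ {v : V | v ∈ W ∧ v ≠ 1}, (m v g : ℤ)) = 2 * ∑ x ∈ P, (m x.toMul g : ℤ) := by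
      have e1 := hP.two_smul (c := fun x : Additive V => (m x.toMul g : ℤ)) (fun v => by
        have := hm v.toMul g
        exact_mod_cast this) (X := Finset.univ.filter fun x => x ∈ Subgroup.toAddSubgroup W)
        (fun x => by simp only [Finset.mem_filter, Finset.mem_univ, true_and])
      rw [two_nsmul, ← two_mul] at e1
      rw [← e1, ← finsum_mem_coe_finset]
      have e2 : (((Finset.univ.filter fun x => x ∈ Subgroup.toAddSubgroup W).erase 0 : Finset (Additive V)) :
          Set (Additive V)) = {v : V | v ∈ W ∧ v ≠ 1} := by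
        ext x
        simp only [Finset.coe_erase, Finset.coe_filter, Finset.mem_univ, true_and, Set.mem_sdiff,
          Set.mem_ofPred_eq, Set.mem_singleton_iff]
        rfl
      rw [e2]
      rfl
    have h5 := hg.2
    rw [e, Int.mul_ediv_cancel_left _ (by norm_num)]
    exact h5
  have h8 : {W : Subgroup V | Nat.card W = 3 ^ (d + 1) ∧
        {g : ℝ | 0 < g ∧ Odd (n g + (∑ᶠ v ∈ {v : V | v ∈ W ∧ v ≠ 1}, (m v g : ℤ)) / 2)}.Finite}.ncard ≤
      {W : AddSubgroup (Additive V) | Nat.card W = 3 ^ (d + 1) ∧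
        ∃ P : Finset (Additive V), M0F.Half W P ∧ cls n + ∑ x ∈ P, c x = 0}.ncard := by
    rw [← Set.ncard_image_of_injective _ (Subgroup.toAddSubgroup (G := V)).injective]
    refine Set.ncard_le_ncard ?_ (Set.toFinite _)
    rintro _ ⟨W, ⟨h1, h2⟩, rfl⟩
    exact ⟨h1, key W h2⟩
  have h9 : Nat.card {W : AddSubgroup (Additive V) // Nat.card W = 3 ^ (d + 1)} =
      {W : Subgroup V | Nat.card W = 3 ^ (d + 1)}.ncard := by
    rw [← Set.ncard_image_of_injective {W : Subgroup V | Nat.card W = 3 ^ (d + 1)}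
      (Subgroup.toAddSubgroup (G := V)).injective]
    have : (fun a => (Subgroup.toAddSubgroup (G := V)) a) '' {W : Subgroup V | Nat.card W = 3 ^ (d + 1)} =
        {W : AddSubgroup (Additive V) | Nat.card W = 3 ^ (d + 1)} := by
      ext W
      constructor
      · rintro ⟨U, hU, rfl⟩
        exact hU
      · intro hW
        exact ⟨(Subgroup.toAddSubgroup (G := V)).symm W, hW, OrderIso.apply_symm_apply _ _⟩
    rw [this]
    rfl
  rw [h9, ← hc] at h6
  exact le_trans (by exact_mod_cast h8) h6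

end PP
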