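import Pool.Agent.Lib.MP_0f5a55_nt.PP.Dih
import Pool.Agent.Lib.MP_0f5a55_nt.NR.QD
import Pool.Agent.Lib.MP_0f5a55_nt.NR.A0
import Pool.Agent.Lib.MP_0f5a55_nt.HC.H13
import Pool.Agent.Lib.MP_0f5a55_nt.HC.H17

set_option autoImplicit false

/-!
Almost all generalised dihedral fields: the layer for ring class characters.
-/

open Complex Filter Topology
open scoped Real ComplexConjugate NumberField

namespace PP

open HC NR

/-- The entire function with the Dirichlet series `∑ a(n) n⁻ˢ` for `Re s > 1` (`0` if there is none). -/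
noncomputable def ent (a : ℕ → ℂ) : ℂ → ℂ :=
  open Classical in
  if h : ∃ L : ℂ → ℂ, Differentiable ℂ L ∧ ∀ s : ℂ, 1 < s.re → LSeriesHasSum a s (L s) then h.choose else 0

/-- the order of the zero of `ent a` at `1/2 + ig` -/
noncomputable def mu (a : ℕ → ℂ) (g : ℝ) : ℕ := analyticOrderNatAt (ent a) (1/2 + g * I)

theorem ent_eq {a : ℕ → ℂ} {L : ℂ → ℂ} (hL : Differentiable ℂ L)
    (hs : ∀ s : ℂ, 1 < s.re → LSeriesHasSum a s (L s)) : ent a = L := by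
  have h : ∃ L : ℂ → ℂ, Differentiable ℂ L ∧ ∀ s : ℂ, 1 < s.re → LSeriesHasSum a s (L s) := ⟨L, hL, hs⟩
  have e : ent a = h.choose := by
    unfold ent
    rw [dif_pos h]
  rw [e]
  obtain ⟨h1, h2⟩ := h.choose_spec
  have hev : h.choose =ᶠ[𝓝 (3 : ℂ)] L := by
    have hopen : {z : ℂ | 1 < z.re} ∈ 𝓝 (3 : ℂ) :=
      (isOpen_lt continuous_const Complex.continuous_re).mem_nhds (by
        show (1 : ℝ) < (3 : ℂ).re
        norm_num)
    filter_upwards [hopen] with z hz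
    exact (h2 z hz).unique (hs z hz)
  funext z
  have hA : AnalyticOnNhd ℂ h.choose Set.univ := fun z _ => h1.analyticAt z
  have hB : AnalyticOnNhd ℂ L Set.univ := fun z _ => hL.analyticAt z
  exact hA.eqOn_of_preconnected_of_eventuallyEq hB isPreconnected_univ (Set.mem_univ _) hev (Set.mem_univ z)

section group
variable {F : Type} [Field F] [NumberField F]

/-- `V` is a group of ring class characters modulo `f`, of exponent 3: a nonempty set closed under products. -/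
structure Grp3 (f : ℕ) (V : Set (Ideal (𝓞 F) →*₀ ℂ)) : Prop where
  ne : V.Nonempty
  rc : ∀ ψ ∈ V, RC f ψ
  mul : ∀ ψ ∈ V, ∀ φ ∈ V, ψ * φ ∈ V
  cube : ∀ ψ ∈ V, ∀ I, Cop f I → ψ I ^ 3 = 1

/-- `ψ` is not principal modulo `f` -/
def NP (f : ℕ) (ψ : Ideal (𝓞 F) →*₀ ℂ) : Prop := ∃ I, Cop f I ∧ ψ I ≠ 1

variable {f : ℕ} {V : Set (Ideal (𝓞 F) →*₀ ℂ)}

theorem Grp3.ext (hV : Grp3 f V) {ψ φ : Ideal (𝓞 F) →*₀ ℂ} (h1 : ψ ∈ V) (h2 : φ ∈ V)
    (h : ∀ I, Cop f I → ψ I = φ I) : ψ = φ := by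
  refine MonoidWithZeroHom.ext fun I => ?_
  by_cases hI : Cop f I
  · exact h I hI
  · rw [(hV.rc ψ h1).ncop I hI, (hV.rc φ h2).ncop I hI]

/-- the group -/
@[instance_reducible] noncomputable def Grp3.grp (hV : Grp3 f V) : CommGroup V where
  mul x y := ⟨x.1 * y.1, hV.mul _ x.2 _ y.2⟩
  mul_assoc x y z := Subtype.ext (hV.ext (hV.mul _ (hV.mul _ x.2 _ y.2) _ z.2) (hV.mul _ x.2 _ (hV.mul _ y.2 _ z.2))
    fun I _ => mul_assoc _ _ _)
  one := ⟨hV.ne.some * hV.ne.some * hV.ne.some,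
    hV.mul _ (hV.mul _ hV.ne.some_mem _ hV.ne.some_mem) _ hV.ne.some_mem⟩
  one_mul x := Subtype.ext (hV.ext (hV.mul _ (hV.mul _ (hV.mul _ hV.ne.some_mem _ hV.ne.some_mem) _ hV.ne.some_mem) _ x.2)
    x.2 fun I hI => by
      have h := hV.cube _ hV.ne.some_mem I hI
      show hV.ne.some I * hV.ne.some I * hV.ne.some I * x.1 I = x.1 I
      rw [show hV.ne.some I * hV.ne.some I * hV.ne.some I = hV.ne.some I ^ 3 by ring, h, one_mul])
  mul_one x := Subtype.ext (hV.ext (hV.mul _ x.2 _ (hV.mul _ (hV.mul _ hV.ne.some_mem _ hV.ne.some_mem) _ hV.ne.some_mem))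
    x.2 fun I hI => by
      have h := hV.cube _ hV.ne.some_mem I hI
      show x.1 I * (hV.ne.some I * hV.ne.some I * hV.ne.some I) = x.1 I
      rw [show hV.ne.some I * hV.ne.some I * hV.ne.some I = hV.ne.some I ^ 3 by ring, h, mul_one])
  inv x := ⟨x.1 * x.1, hV.mul _ x.2 _ x.2⟩
  inv_mul_cancel x := Subtype.ext (hV.ext (hV.mul _ (hV.mul _ x.2 _ x.2) _ x.2)
    (hV.mul _ (hV.mul _ hV.ne.some_mem _ hV.ne.some_mem) _ hV.ne.some_mem) fun I hI => by
      have h := hV.cube _ hV.ne.some_mem I hI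
      have h' := hV.cube _ x.2 I hI
      show x.1 I * x.1 I * x.1 I = hV.ne.some I * hV.ne.some I * hV.ne.some I
      rw [show hV.ne.some I * hV.ne.some I * hV.ne.some I = hV.ne.some I ^ 3 by ring, h,
        show x.1 I * x.1 I * x.1 I = x.1 I ^ 3 by ring, h'])
  mul_comm x y := Subtype.ext (hV.ext (hV.mul _ x.2 _ y.2) (hV.mul _ y.2 _ x.2) fun I _ => mul_comm _ _)

theorem Grp3.finite (hV : Grp3 f V) : V.Finite := by
  classical
  obtain ⟨ψ0, h0⟩ := hV.ne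
  have hf := (hV.rc ψ0 h0).pos
  obtain ⟨T, hT⟩ := exists_reps (K := F) hf
  have h3 : {z : ℂ | z ^ 3 = 1}.Finite := by
    refine (Polynomial.nthRoots 3 (1:ℂ)).toFinset.finite_toSet.subset fun z hz => ?_
    simp only [Finset.mem_coe, Multiset.mem_toFinset]
    rw [Polynomial.mem_nthRoots (by norm_num)]
    exact hz
  have hfin : Finite {z : ℂ // z ^ 3 = 1} := h3
  have : Finite V := by
    refine Finite.of_injective (β := (T → {z : ℂ // z ^ 3 = 1}))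
      (fun x a => ⟨x.1 a.1, hV.cube _ x.2 _ (hT.1 _ a.2)⟩) ?_
    intro x y hxy
    refine Subtype.ext (hV.ext x.2 y.2 fun I hI => ?_)
    obtain ⟨a, ⟨haT, hE⟩, -⟩ := hT.2 I hI
    have h1 := congrFun hxy ⟨a, haT⟩
    have h2 : x.1 a = y.1 a := congrArg Subtype.val h1
    obtain ⟨α, β, o1, o2, c1, c2, h5⟩ := hE
    have e : ∀ z : V, z.1 I = z.1 a := by
      intro z
      have h6 := congrArg z.1 h5
      rw [map_mul, map_mul, (hV.rc _ z.2).triv α o1 c1, (hV.rc _ z.2).triv β o2 c2, one_mul, one_mul] at h6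
      exact h6
    rw [e x, e y, h2]
  exact this

/-- the two-term input -/
def TWO : Prop := ∀ (F : Type) [Field F] [NumberField F], Module.finrank ℚ F = 2 → ∀ (f : ℕ)
  (ψ φ : Ideal (𝓞 F) →*₀ ℂ), RC f ψ → RC f φ → (∀ I, Cop f I → ψ I ^ 3 = 1) → (∀ I, Cop f I → φ I ^ 3 = 1) →
  NP f ψ → NP f φ → ψ ≠ φ → NP f (ψ * φ) → {g : ℝ | 0 < g ∧ Odd (mu (ac ψ) g + mu (ac φ) g)}.Infinite

theorem ac_sq (h2 : Module.finrank ℚ F = 2) (hV : Grp3 f V) {ψ : Ideal (𝓞 F) →*₀ ℂ} (hψ : ψ ∈ V) :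
    ac (ψ * ψ) = ac ψ := by
  have hrc := hV.rc ψ hψ
  have hc : ∀ I, (ψ * ψ) I = conj (ψ I) := by
    intro I
    show ψ I * ψ I = conj (ψ I)
    by_cases hI : Cop f I
    · have h1 := hrc.cop I hI
      have h3 := hV.cube ψ hψ I hI
      have h4 : ψ I * conj (ψ I) = 1 := by
        rw [Complex.mul_conj, Complex.normSq_eq_norm_sq, h1]
        simp
      have h5 : ψ I ≠ 0 := by
        intro h0
        rw [h0, norm_zero] at h1
        exact zero_ne_one h1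
      refine mul_left_cancel₀ h5 ?_
      rw [h4, ← h3]
      ring
    · rw [hrc.ncop I hI]
      simp
  funext n
  rcases Nat.eq_zero_or_pos n with rfl | hn
  · unfold ac
    refine finsum_congr fun I => finsum_congr fun hI => ?_
    have : I = ⊥ := Ideal.absNorm_eq_zero_iff.1 hI
    rw [this]
    have e1 : (ψ * ψ) (⊥ : Ideal (𝓞 F)) = 0 := map_zero (ψ * ψ)
    have e2 : ψ (⊥ : Ideal (𝓞 F)) = 0 := map_zero ψ
    rw [e1, e2]
  · rw [← RC.ac_real h2 hrc hn]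
    have hfI : {I : Ideal (𝓞 F) | Ideal.absNorm I = n}.Finite := Ideal.finite_setOfPred_absNorm_eq n
    have h6 := AddMonoidHom.map_finsum_mem (fun I : Ideal (𝓞 F) => ψ I)
      (starRingEnd ℂ : ℂ →+* ℂ).toAddMonoidHom hfI
    refine Eq.trans ?_ h6.symm
    exact finsum_congr fun I => finsum_congr fun _ => hc I

theorem Grp3.one_val (hV : Grp3 f V) {I : Ideal (𝓞 F)} (hI : Cop f I) :
    (letI := hV.grp; ((1 : V) : Ideal (𝓞 F) →*₀ ℂ) I) = 1 := by
  have h := hV.cube _ hV.ne.some_mem I hI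
  show hV.ne.some I * hV.ne.some I * hV.ne.some I = 1
  rw [show hV.ne.some I * hV.ne.some I * hV.ne.some I = hV.ne.some I ^ 3 by ring, h]

theorem Grp3.ne_one (hV : Grp3 f V) (v : V) : (letI := hV.grp; v ≠ 1) ↔ NP f v.1 := by
  letI := hV.grp
  constructor
  · intro h
    by_contra hn
    unfold NP at hn
    push Not at hn
    apply h
    refine Subtype.ext (hV.ext v.2 (1 : V).2 fun I hI => ?_)
    rw [hn I hI]
    exact (hV.one_val hI).symm
  · rintro ⟨I, hI, h⟩ rfl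
    exact h (hV.one_val hI)

end group

/-- **Almost all generalised dihedral fields.** For every `s ≥ 1` there are `K, κ > 0` such that for every quadratic
field `F`, every group `V` of ring class characters modulo `f` of exponent 3 and every function `n`: the number of the
subgroups `W` of `V` of order `3 ^ s` for which `n` plus half the sum of the multiplicities of the `L(s, ψ)`, `ψ ∈ W` not
principal, is odd only finitely often is at most `K |V| ^ (-κ)` times the number of all. -/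
theorem dih_char (two : TWO) (s : ℕ) (hs : 1 ≤ s) : ∃ K κ : ℝ, 0 < K ∧ 0 < κ ∧ ∀ (F : Type) [Field F] [NumberField F],
    Module.finrank ℚ F = 2 → ∀ (f : ℕ) (V : Set (Ideal (𝓞 F) →*₀ ℂ)), Grp3 f V → ∀ n : ℝ → ℤ,
      ({W : Set (Ideal (𝓞 F) →*₀ ℂ) | W ⊆ V ∧ (∀ ψ ∈ W, ∀ φ ∈ W, ψ * φ ∈ W) ∧ W.ncard = 3 ^ s ∧
        {g : ℝ | 0 < g ∧ Odd (n g + (∑ᶠ ψ ∈ {ψ | ψ ∈ W ∧ NP f ψ}, (mu (ac ψ) g : ℤ)) / 2)}.Finite}.ncard : ℝ) ≤
          K * (V.ncard : ℝ) ^ (-κ) * ({W : Set (Ideal (𝓞 F) →*₀ ℂ) | W ⊆ V ∧ (∀ ψ ∈ W, ∀ φ ∈ W, ψ * φ ∈ W) ∧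
            W.ncard = 3 ^ s}.ncard : ℝ) := by
  classical
  obtain ⟨d, rfl⟩ : ∃ d, s = d + 1 := ⟨s - 1, by omega⟩
  obtain ⟨K, κ, hK, hκ, h0⟩ := dih_index d
  refine ⟨K, κ, hK, hκ, fun F _ _ h2 f V hV n => ?_⟩
  letI := hV.grp
  have hfin : Finite V := hV.finite
  have hcube : ∀ v : V, v ^ 3 = 1 := by
    intro v
    refine Subtype.ext (hV.ext (v ^ 3).2 (1 : V).2 fun I hI => ?_)
    have e : (v ^ 3 : V) = v * v * v := by rw [pow_succ, pow_two]
    rw [e]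
    show v.1 I * v.1 I * v.1 I = _
    rw [show v.1 I * v.1 I * v.1 I = v.1 I ^ 3 by ring, hV.cube _ v.2 I hI]
    exact (hV.one_val hI).symm
  have hinv : ∀ (v : V) (g : ℝ), mu (ac (v⁻¹ : V).1) g = mu (ac v.1) g := by
    intro v g
    have : ((v⁻¹ : V).1 : Ideal (𝓞 F) →*₀ ℂ) = v.1 * v.1 := rfl
    rw [this, ac_sq h2 hV v.2]
  have htwo : ∀ x y : V, x ≠ 1 → y ≠ 1 → x ≠ y → x ≠ y⁻¹ →
      {g : ℝ | 0 < g ∧ Odd (mu (ac x.1) g + mu (ac y.1) g)}.Infinite := by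
    intro x y hx hy hxy hxy'
    refine two F h2 f x.1 y.1 (hV.rc _ x.2) (hV.rc _ y.2) (hV.cube _ x.2) (hV.cube _ y.2) ((hV.ne_one x).1 hx)
      ((hV.ne_one y).1 hy) (fun h => hxy (Subtype.ext h)) ?_
    have h1 : x * y ≠ 1 := fun h => hxy' (eq_inv_of_mul_eq_one_left h)
    exact (hV.ne_one (x * y)).1 h1
  have h1 := h0 V hcube (fun v g => mu (ac v.1) g) hinv htwo n
  set toSet : Subgroup V → Set (Ideal (𝓞 F) →*₀ ℂ) := fun U => Subtype.val '' (U : Set V) with htoSet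
  have hinj : Function.Injective toSet := by
    intro U U' h
    exact SetLike.coe_injective (Set.image_injective.2 Subtype.val_injective h)
  have hsurj : ∀ W : Set (Ideal (𝓞 F) →*₀ ℂ), W ⊆ V → (∀ ψ ∈ W, ∀ φ ∈ W, ψ * φ ∈ W) → W.ncard = 3 ^ (d + 1) →
      ∃ U, toSet U = W := by
    intro W hW hm hc
    have hne : W.Nonempty := by
      refine Set.nonempty_of_ncard_ne_zero ?_
      rw [hc]
      positivity
    obtain ⟨w, hw⟩ := hne
    refine ⟨{ carrier := {x : V | x.1 ∈ W}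
              mul_mem' := fun {a b} ha hb => hm _ ha _ hb
              one_mem' := ?_
              inv_mem' := fun {a} ha => hm _ ha _ ha }, ?_⟩
    · have e : ((1 : V).1 : Ideal (𝓞 F) →*₀ ℂ) = w * w * w := by
        refine hV.ext (1 : V).2 (hV.mul _ (hV.mul _ (hW hw) _ (hW hw)) _ (hW hw)) fun I hI => ?_
        have h5 := hV.cube _ (hW hw) I hI
        refine (hV.one_val hI).trans ?_
        show 1 = w I * w I * w I
        rw [show w I * w I * w I = w I ^ 3 by ring, h5]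
      show ((1 : V).1 : Ideal (𝓞 F) →*₀ ℂ) ∈ W
      rw [e]
      exact hm _ (hm _ hw _ hw) _ hw
    · ext ψ
      constructor
      · rintro ⟨x, hx, rfl⟩
        exact hx
      · intro hψ
        exact ⟨⟨ψ, hW hψ⟩, hψ, rfl⟩
  have hcard : ∀ U : Subgroup V, (toSet U).ncard = Nat.card U := by
    intro U
    rw [htoSet]
    simp only
    rw [Set.ncard_image_of_injective _ Subtype.val_injective]
    rfl
  have himg : ∀ P : Set (Ideal (𝓞 F) →*₀ ℂ) → Prop,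
      {W : Set (Ideal (𝓞 F) →*₀ ℂ) | W ⊆ V ∧ (∀ ψ ∈ W, ∀ φ ∈ W, ψ * φ ∈ W) ∧ W.ncard = 3 ^ (d + 1) ∧ P W}.ncard =
      {U : Subgroup V | Nat.card U = 3 ^ (d + 1) ∧ P (toSet U)}.ncard := by
    intro P
    rw [← Set.ncard_image_of_injective {U : Subgroup V | Nat.card U = 3 ^ (d + 1) ∧ P (toSet U)} hinj]
    congr 1
    ext W
    constructor
    · rintro ⟨e1, e2, e3, e4⟩
      obtain ⟨U, rfl⟩ := hsurj W e1 e2 e3
      exact ⟨U, ⟨by rw [← hcard]; exact e3, e4⟩, rfl⟩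
    · rintro ⟨U, ⟨e1, e2⟩, rfl⟩
      refine ⟨?_, ?_, by rw [hcard]; exact e1, e2⟩
      · rintro _ ⟨x, -, rfl⟩
        exact x.2
      · rintro _ ⟨x, hx, rfl⟩ _ ⟨y, hy, rfl⟩
        exact ⟨x * y, U.mul_mem hx hy, rfl⟩
  have h8 := himg (fun W => {g : ℝ | 0 < g ∧ Odd (n g + (∑ᶠ ψ ∈ {ψ | ψ ∈ W ∧ NP f ψ}, (mu (ac ψ) g : ℤ)) / 2)}.Finite)
  have h9 := himg (fun _ => True)
  simp only [and_true] at h9
  have hsum : ∀ (U : Subgroup V) (g : ℝ), (∑ᶠ ψ ∈ {ψ | ψ ∈ toSet U ∧ NP f ψ}, (mu (ac ψ) g : ℤ)) =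
      ∑ᶠ v ∈ {v : V | v ∈ U ∧ v ≠ 1}, (mu (ac v.1) g : ℤ) := by
    intro U g
    have e : {ψ | ψ ∈ toSet U ∧ NP f ψ} = Subtype.val '' {v : V | v ∈ U ∧ v ≠ 1} := by
      ext ψ
      constructor
      · rintro ⟨⟨x, hx, rfl⟩, hn⟩
        exact ⟨x, ⟨hx, (hV.ne_one x).2 hn⟩, rfl⟩
      · rintro ⟨x, ⟨hx, hn⟩, rfl⟩
        exact ⟨⟨x, hx, rfl⟩, (hV.ne_one x).1 hn⟩
    rw [e, finsum_mem_image (Subtype.val_injective.injOn)]
  simp only [hsum] at h8
  rw [h8, h9]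
  have hc : (V.ncard : ℝ) = (Nat.card V : ℝ) := rfl
  rw [hc]
  exact h1

end PP
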