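import Pool.Agent.Lib.MP_0f5a55_nt.PP.D
import Pool.Agent.Lib.MP_0f5a55_nt.EY.R5d

open Complex MeasureTheory Set Filter Topology
open scoped Real ComplexConjugate NumberField

namespace PP

open HC NR

variable {K : Type*} [Field K] [NumberField K]

theorem G0_repr (b : Module.Basis (Fin 2) ℤ (𝓞 K)) (hb : b 0 = 1) (x : 𝓞 K) :
    x = ((b.repr x 0 : ℤ) : 𝓞 K) + ((b.repr x 1 : ℤ) : 𝓞 K) * b 1 := by
  have h := b.sum_repr x
  rw [Fin.sum_univ_two, zsmul_eq_mul, zsmul_eq_mul, hb, mul_one] at h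
  exact h.symm

theorem G0_coord (b : Module.Basis (Fin 2) ℤ (𝓞 K)) (hb : b 0 = 1) (u v : ℤ) :
    b.repr (((u : ℤ) : 𝓞 K) + ((v : ℤ) : 𝓞 K) * b 1) 0 = u ∧
      b.repr (((u : ℤ) : 𝓞 K) + ((v : ℤ) : 𝓞 K) * b 1) 1 = v := by
  have h : ((u : ℤ) : 𝓞 K) + ((v : ℤ) : 𝓞 K) * b 1 = u • b 0 + v • b 1 := by
    rw [hb, zsmul_eq_mul, zsmul_eq_mul, mul_one]
  rw [h, map_add, map_zsmul, map_zsmul, b.repr_self, b.repr_self]
  constructor <;> simp

/-- Row G0. The conjugation of a quadratic field: norm form, square root of the discriminant. -/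
theorem exists_sig (h2 : Module.finrank ℚ K = 2) : ∃ (σ : 𝓞 K →+* 𝓞 K) (θ : 𝓞 K),
    (∀ x, x * σ x = ((Algebra.norm ℤ x : ℤ) : 𝓞 K)) ∧ θ * θ = ((NumberField.discr K : ℤ) : 𝓞 K) ∧ σ θ = -θ := by
  obtain ⟨b, c, d, hb, hw, hD⟩ := HC2.quad_basis (K := K) h2
  obtain ⟨w, hwd⟩ : ∃ w, w = b 1 := ⟨_, rfl⟩
  have hco := G0_coord b hb
  have hre := G0_repr b hb
  rw [← hwd] at hw hco
  simp only [← hwd] at hre
  have key : ∀ x y : 𝓞 K, b.repr (x * y) 0 = b.repr x 0 * b.repr y 0 + c * (b.repr x 1 * b.repr y 1) ∧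
      b.repr (x * y) 1 = b.repr x 0 * b.repr y 1 + b.repr x 1 * b.repr y 0 + d * (b.repr x 1 * b.repr y 1) := by
    intro x y
    have e : x * y = ((b.repr x 0 * b.repr y 0 + c * (b.repr x 1 * b.repr y 1) : ℤ) : 𝓞 K) +
        ((b.repr x 0 * b.repr y 1 + b.repr x 1 * b.repr y 0 + d * (b.repr x 1 * b.repr y 1) : ℤ) : 𝓞 K) * w := by
      conv_lhs => rw [hre x, hre y]
      push_cast
      linear_combination ((b.repr x 1 : ℤ) : 𝓞 K) * ((b.repr y 1 : ℤ) : 𝓞 K) * hw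
    rw [e]
    exact hco _ _
  let s : 𝓞 K → 𝓞 K := fun x => ((b.repr x 0 : ℤ) : 𝓞 K) + ((b.repr x 1 : ℤ) : 𝓞 K) * ((d : 𝓞 K) - w)
  have h1 : b.repr 1 0 = 1 ∧ b.repr 1 1 = 0 := by
    have := hco 1 0
    simpa using this
  let σ : 𝓞 K →+* 𝓞 K :=
    { toFun := s
      map_one' := by
        show ((b.repr 1 0 : ℤ) : 𝓞 K) + ((b.repr 1 1 : ℤ) : 𝓞 K) * ((d : 𝓞 K) - w) = 1
        rw [h1.1, h1.2]
        simp
      map_mul' := by
        intro x y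
        show ((b.repr (x * y) 0 : ℤ) : 𝓞 K) + ((b.repr (x * y) 1 : ℤ) : 𝓞 K) * ((d : 𝓞 K) - w) =
          (((b.repr x 0 : ℤ) : 𝓞 K) + ((b.repr x 1 : ℤ) : 𝓞 K) * ((d : 𝓞 K) - w)) *
          (((b.repr y 0 : ℤ) : 𝓞 K) + ((b.repr y 1 : ℤ) : 𝓞 K) * ((d : 𝓞 K) - w))
        rw [(key x y).1, (key x y).2]
        push_cast
        linear_combination -(((b.repr x 1 : ℤ) : 𝓞 K) * ((b.repr y 1 : ℤ) : 𝓞 K)) * hw
      map_zero' := by
        show ((b.repr 0 0 : ℤ) : 𝓞 K) + ((b.repr 0 1 : ℤ) : 𝓞 K) * ((d : 𝓞 K) - w) = 0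
        simp
      map_add' := by
        intro x y
        show ((b.repr (x + y) 0 : ℤ) : 𝓞 K) + ((b.repr (x + y) 1 : ℤ) : 𝓞 K) * ((d : 𝓞 K) - w) =
          (((b.repr x 0 : ℤ) : 𝓞 K) + ((b.repr x 1 : ℤ) : 𝓞 K) * ((d : 𝓞 K) - w)) +
          (((b.repr y 0 : ℤ) : 𝓞 K) + ((b.repr y 1 : ℤ) : 𝓞 K) * ((d : 𝓞 K) - w))
        rw [map_add, Finsupp.add_apply, Finsupp.add_apply]
        push_cast
        ring }
  have hσ : ∀ x, σ x = ((b.repr x 0 : ℤ) : 𝓞 K) + ((b.repr x 1 : ℤ) : 𝓞 K) * ((d : 𝓞 K) - w) := fun _ => rfl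
  refine ⟨σ, ((-d : ℤ) : 𝓞 K) + ((2 : ℤ) : 𝓞 K) * w, ?_, ?_, ?_⟩
  · intro x
    have hn : Algebra.norm ℤ x = (b.repr x 0) ^ 2 + d * (b.repr x 0 * b.repr x 1) - c * (b.repr x 1) ^ 2 := by
      rw [Algebra.norm_eq_matrix_det b, Matrix.det_fin_two]
      simp only [Algebra.leftMulMatrix_eq_repr_mul]
      rw [hb, mul_one, ← hwd, (key x w).1, (key x w).2]
      have h3 : b.repr w 0 = 0 ∧ b.repr w 1 = 1 := by
        have := hco 0 1
        simpa using this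
      rw [h3.1, h3.2]
      ring
    rw [hn, hσ]
    conv_lhs => rw [hre x]
    push_cast
    have e0 := (hco (b.repr x 0) (b.repr x 1)).1
    have e1 := (hco (b.repr x 0) (b.repr x 1)).2
    rw [e0, e1]
    linear_combination -((b.repr x 1 : ℤ) : 𝓞 K) ^ 2 * hw
  · rw [hD]
    push_cast
    linear_combination 4 * hw
  · rw [hσ, (hco (-d) 2).1, (hco (-d) 2).2]
    push_cast
    ring

theorem discr_ns (h2 : Module.finrank ℚ K = 2) : ¬ IsSquare (NumberField.discr K) ∧ 2 ≤ (NumberField.discr K).natAbs := by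
  obtain ⟨b, c, d, hb, hw, hD⟩ := HC2.quad_basis (K := K) h2
  obtain ⟨w, hwd⟩ : ∃ w, w = b 1 := ⟨_, rfl⟩
  have hco := G0_coord b hb
  rw [← hwd] at hw hco
  have hns : ¬ IsSquare (NumberField.discr K) := by
    rintro ⟨m, hm⟩
    have hθ : (((-d : ℤ) : 𝓞 K) + ((2 : ℤ) : 𝓞 K) * w - m) * (((-d : ℤ) : 𝓞 K) + ((2 : ℤ) : 𝓞 K) * w + m) = 0 := by
      have h3 : ((NumberField.discr K : ℤ) : 𝓞 K) = (m : 𝓞 K) * m := by rw [hm]; push_cast; ring
      rw [hD] at h3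
      push_cast at h3 ⊢
      linear_combination 4 * hw + h3
    rcases mul_eq_zero.1 hθ with h | h
    · have e := hco (-d - m) 2
      have e2 : (((-d - m : ℤ) : 𝓞 K) + ((2 : ℤ) : 𝓞 K) * w) = 0 := by
        rw [← h]
        push_cast
        ring
      rw [e2] at e
      have := e.2
      simp at this
    · have e := hco (-d + m) 2
      have e2 : (((-d + m : ℤ) : 𝓞 K) + ((2 : ℤ) : 𝓞 K) * w) = 0 := by
        rw [← h]
        push_cast
        ring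
      rw [e2] at e
      have := e.2
      simp at this
  refine ⟨hns, ?_⟩
  by_contra hlt
  have hcase : NumberField.discr K = 0 ∨ NumberField.discr K = 1 ∨ NumberField.discr K = -1 := by omega
  rcases hcase with h | h | h
  · exact hns ⟨0, by rw [h]; rfl⟩
  · exact hns ⟨1, by rw [h]; rfl⟩
  · rw [hD] at h
    have : (d ^ 2) % 4 = 0 ∨ (d ^ 2) % 4 = 1 := by
      rcases Int.even_or_odd d with ⟨k, hk⟩ | ⟨k, hk⟩
      · left
        rw [hk]
        have : (k + k) ^ 2 = 4 * k ^ 2 := by ring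
        omega
      · right
        rw [hk]
        have : (2 * k + 1) ^ 2 = 4 * (k ^ 2 + k) + 1 := by ring
        omega
    omega

end PP
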