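import Mathlib

namespace PP

theorem G1_ne_sq {D : ℤ} (hD : ¬ IsSquare D) {x y : ℤ} (h : x ^ 2 = D * y ^ 2) : x = 0 ∧ y = 0 := by
  have hy : y = 0 := by
    by_contra hy
    have h1 : y ^ 2 ∣ x ^ 2 := ⟨D, by rw [h]; ring⟩
    have h2 : y ∣ x := (Int.pow_dvd_pow_iff (by norm_num)).1 h1
    obtain ⟨k, rfl⟩ := h2
    apply hD
    refine ⟨k, ?_⟩
    have h3 : y ^ 2 ≠ 0 := pow_ne_zero 2 hy
    apply mul_right_cancel₀ h3
    rw [← h]
    ring
  subst hy
  refine ⟨?_, rfl⟩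
  have : x ^ 2 = 0 := by rw [h]; ring
  exact pow_eq_zero_iff (by norm_num) |>.1 this

theorem G1_diff {a b n : ℕ} (ha : a < Nat.sqrt n + 1) (hb : b < Nat.sqrt n + 1) :
    ((a : ℤ) - b) ^ 2 ≤ n := by
  have h1 : (a : ℤ) ≤ Nat.sqrt n := by exact_mod_cast Nat.lt_succ_iff.1 ha
  have h2 : (b : ℤ) ≤ Nat.sqrt n := by exact_mod_cast Nat.lt_succ_iff.1 hb
  have h3 : ((Nat.sqrt n : ℕ) : ℤ) ^ 2 ≤ n := by exact_mod_cast Nat.sqrt_le' n
  have h4 : (0 : ℤ) ≤ a := Int.natCast_nonneg a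
  have h5 : (0 : ℤ) ≤ b := Int.natCast_nonneg b
  have h6 : ((a : ℤ) - b) ^ 2 ≤ ((Nat.sqrt n : ℕ) : ℤ) ^ 2 := by
    apply sq_le_sq'
    · linarith
    · linarith
  exact h6.trans h3

theorem G1_card (N p : ℕ) : p * N < (Nat.sqrt (N * p) + 1) * ((Nat.sqrt p + 1) * (Nat.sqrt N + 1)) := by
  by_contra hcon
  push Not at hcon
  have h1 : N * p < (Nat.sqrt (N * p) + 1) * (Nat.sqrt (N * p) + 1) := Nat.lt_succ_sqrt _
  have h2 : p < (Nat.sqrt p + 1) * (Nat.sqrt p + 1) := Nat.lt_succ_sqrt _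
  have h3 : N < (Nat.sqrt N + 1) * (Nat.sqrt N + 1) := Nat.lt_succ_sqrt _
  generalize Nat.sqrt (N * p) + 1 = A at *
  generalize Nat.sqrt p + 1 = B at *
  generalize Nat.sqrt N + 1 = C at *
  have h4 : p * N < (B * B) * (C * C) := Nat.mul_lt_mul'' h2 h3
  have h5 : (N * p) * (p * N) < (A * A) * ((B * B) * (C * C)) := Nat.mul_lt_mul'' h1 h4
  have h6 : (A * (B * C)) * (A * (B * C)) ≤ (p * N) * (p * N) := Nat.mul_le_mul hcon hcon
  have h7 : (A * (B * C)) * (A * (B * C)) = (A * A) * ((B * B) * (C * C)) := by ring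
  have h8 : (p * N) * (p * N) = (N * p) * (p * N) := by ring
  rw [h7, h8] at h6
  omega

/-- Row G1. Legendre, by the pigeonhole principle. p ∤ D (p ≡ 1 mod D). Take the triples (x, y, z) with 0 ≤ x ≤ √(|D|p), 0 ≤ y ≤ √p,
0 ≤ z ≤ √|D| (Nat.sqrt; more than |D| p triples since (⌊√a⌋+1)² > a) and their class (x - s y mod p, x - z mod |D|) in ZMod p × ZMod |D|.
Two distinct ones coincide (Finset.exists_ne_map_eq_of_card_lt_of_maps_to); the difference (x, y, z) ≠ 0 has x² ≤ |D| p, y² ≤ p, z² ≤ |D|,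
and in fact x² < |D| p (else p² ∣ |D| p), y² < p; F = x² - D y² - p z² is divisible by p and by D, so by pD (coprime). D > 0: z² < D
(D is not a square), -2pD < F < pD, so F = 0 or F = -pD. D < 0: F = x² + |D| y² - p z² ∈ [-p|D|, 2p|D|), F = -p|D| forces x = y = 0,
z² = |D|, but |D| ∣ x - z = -z, so |D|² ∣ |D|, |D| = 1, excluded. So F = 0 (then take w = 0; z ≠ 0 since x² = D y² has only
the zero solution) or F = -pD: x² - D y² = p (z² - D), w = 1. -/
theorem leg {D : ℤ} (hD : ¬ IsSquare D) (hD1 : 2 ≤ D.natAbs) {p : ℕ} (hp : p.Prime) (h1 : (p : ℤ) ≡ 1 [ZMOD D])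
    (hs : ∃ s : ℤ, (p : ℤ) ∣ s ^ 2 - D) :
    ∃ x y z w : ℤ, (z ≠ 0 ∨ w ≠ 0) ∧ x ^ 2 - D * y ^ 2 = p * (z ^ 2 - D * w ^ 2) := by
  obtain ⟨s, hs⟩ := hs
  obtain ⟨N, hN⟩ : ∃ N : ℕ, N = D.natAbs := ⟨_, rfl⟩
  rw [← hN] at hD1
  have hp0 : (0 : ℤ) < p := by exact_mod_cast hp.pos
  have hN0 : (0 : ℤ) < N := by
    have : 0 < N := by omega
    exact_mod_cast this
  have hND : (N : ℤ) ∣ D := by rw [hN]; exact Int.natAbs_dvd.2 dvd_rfl
  have i1 : NeZero p := ⟨hp.ne_zero⟩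
  have i2 : NeZero N := ⟨by omega⟩
  have hpri : Prime (p : ℤ) := Nat.prime_iff_prime_int.1 hp
  -- coprimality
  have hcop : IsCoprime (p : ℤ) D := by
    obtain ⟨k, hk⟩ := h1.dvd
    exact ⟨1, k, by linarith⟩
  have hpN : ¬ (p : ℤ) ∣ N := by
    intro h
    exact hpri.not_isUnit (hcop.isUnit_of_dvd' dvd_rfl (h.trans hND))
  -- pigeonhole
  have key := Finset.exists_ne_map_eq_of_card_lt_of_maps_to
    (s := Finset.range (Nat.sqrt (N * p) + 1) ×ˢ (Finset.range (Nat.sqrt p + 1) ×ˢ Finset.range (Nat.sqrt N + 1)))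
    (t := (Finset.univ : Finset (ZMod p × ZMod N)))
    (f := fun v : ℕ × ℕ × ℕ => (((((v.1 : ℤ) - s * v.2.1 : ℤ)) : ZMod p), ((((v.1 : ℤ) - v.2.2 : ℤ)) : ZMod N)))
    (by
      rw [Finset.card_univ, Fintype.card_prod, ZMod.card, ZMod.card, Finset.card_product, Finset.card_product,
        Finset.card_range, Finset.card_range, Finset.card_range]
      exact G1_card N p) (fun a _ => Finset.mem_univ _)
  obtain ⟨⟨a1, a2, a3⟩, ha, ⟨b1, b2, b3⟩, hb, hab, hf⟩ := key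
  rw [Finset.mem_product, Finset.mem_product, Finset.mem_range, Finset.mem_range, Finset.mem_range] at ha hb
  obtain ⟨ha1, ha2, ha3⟩ := ha
  obtain ⟨hb1, hb2, hb3⟩ := hb
  simp only at ha1 ha2 ha3 hb1 hb2 hb3
  have hf1 : (((a1 : ℤ) - s * a2 : ℤ) : ZMod p) = (((b1 : ℤ) - s * b2 : ℤ) : ZMod p) := (Prod.ext_iff.1 hf).1
  have hf2 : (((a1 : ℤ) - a3 : ℤ) : ZMod N) = (((b1 : ℤ) - b3 : ℤ) : ZMod N) := (Prod.ext_iff.1 hf).2
  rw [ZMod.intCast_eq_intCast_iff_dvd_sub] at hf1 hf2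
  obtain ⟨x, hx⟩ : ∃ x : ℤ, x = (b1 : ℤ) - a1 := ⟨_, rfl⟩
  obtain ⟨y, hy⟩ : ∃ y : ℤ, y = (b2 : ℤ) - a2 := ⟨_, rfl⟩
  obtain ⟨z, hz⟩ : ∃ z : ℤ, z = (b3 : ℤ) - a3 := ⟨_, rfl⟩
  have hx2 : x ^ 2 ≤ N * p := by
    rw [hx]
    exact_mod_cast G1_diff hb1 ha1
  have hy2 : y ^ 2 ≤ p := by
    rw [hy]
    exact G1_diff hb2 ha2
  have hz2 : z ^ 2 ≤ N := by
    rw [hz]
    exact G1_diff hb3 ha3
  have hne : ¬ (x = 0 ∧ y = 0 ∧ z = 0) := by
    rintro ⟨e1, e2, e3⟩
    apply hab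
    have c1 : a1 = b1 := by omega
    have c2 : a2 = b2 := by omega
    have c3 : a3 = b3 := by omega
    rw [c1, c2, c3]
  have hpx : (p : ℤ) ∣ x - s * y := by
    rw [hx, hy]
    have e : (b1 : ℤ) - a1 - s * ((b2 : ℤ) - a2) = (b1 : ℤ) - s * b2 - (a1 - s * a2) := by ring
    rw [e]
    exact hf1
  have hNx : (N : ℤ) ∣ x - z := by
    rw [hx, hz]
    have e : (b1 : ℤ) - a1 - ((b3 : ℤ) - a3) = (b1 : ℤ) - b3 - (a1 - a3) := by ring
    rw [e]
    exact hf2
  have hDx : D ∣ x - z := by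
    rw [hN] at hNx
    exact Int.natAbs_dvd.1 hNx
  -- strictness
  have hx3 : x ^ 2 < N * p := by
    refine lt_of_le_of_ne hx2 fun h => hpN ?_
    have e1 : (p : ℤ) ∣ x ^ 2 := by rw [h]; exact dvd_mul_left _ _
    obtain ⟨k, hk⟩ := hpri.dvd_of_dvd_pow e1
    refine ⟨k ^ 2, ?_⟩
    apply mul_right_cancel₀ hp0.ne'
    rw [← h, hk]
    ring
  have hy3 : y ^ 2 < p := by
    refine lt_of_le_of_ne hy2 fun h => ?_
    exact hpri.irreducible.not_isSquare ⟨y, by rw [← h, sq]⟩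
  -- divisibility of F
  obtain ⟨F, hF⟩ : ∃ F : ℤ, F = x ^ 2 - D * y ^ 2 - p * z ^ 2 := ⟨_, rfl⟩
  have hFp : (p : ℤ) ∣ F := by
    have e : F = (x - s * y) * (x + s * y) + (s ^ 2 - D) * y ^ 2 - p * z ^ 2 := by rw [hF]; ring
    rw [e]
    exact dvd_sub (dvd_add (hpx.mul_right _) (hs.mul_right _)) (dvd_mul_right _ _)
  have hFD : D ∣ F := by
    obtain ⟨k, hk⟩ := h1.dvd
    have e : F = (x - z) * (x + z) - D * y ^ 2 + (1 - p) * z ^ 2 := by rw [hF]; ring
    rw [e, hk]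
    exact dvd_add (dvd_sub (hDx.mul_right _) (dvd_mul_right _ _)) ((dvd_mul_right _ _).mul_right _)
  obtain ⟨k, hk⟩ : (p : ℤ) * D ∣ F := hcop.mul_dvd hFp hFD
  -- the two cases
  have hcase : k = 0 ∨ k = -1 := by
    have hNN : (D = N ∧ 0 < D) ∨ (D = -N ∧ D < 0) := by
      rcases Int.natAbs_eq D with h | h
      · left
        rw [← hN] at h
        exact ⟨h, by rw [h]; exact hN0⟩
      · right
        rw [← hN] at h
        exact ⟨h, by rw [h]; linarith⟩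
    have hyp : D.natAbs * y ^ 2 < N * p := by
      rw [← hN]
      exact mul_lt_mul_of_pos_left hy3 hN0
    have hzp : (p : ℤ) * z ^ 2 ≤ N * p := by
      rw [mul_comm (N : ℤ)]
      exact mul_le_mul_of_nonneg_left hz2 hp0.le
    have hzz : 0 ≤ (p : ℤ) * z ^ 2 := by positivity
    have hyy : 0 ≤ (N : ℤ) * y ^ 2 := by positivity
    have hxx : 0 ≤ x ^ 2 := sq_nonneg x
    have hNp : (0 : ℤ) < N * p := mul_pos hN0 hp0
    rw [← hN] at hyp
    rcases hNN with ⟨h, hpos⟩ | ⟨h, hneg⟩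
    · have e1 : F = N * p * k := by rw [hk, h]; ring
      have e2 : F < N * p := by rw [hF, h]; linarith
      have e3 : -(2 * (N * p)) < F := by rw [hF, h]; linarith
      have k1 : k < 1 := by
        by_contra hc
        push Not at hc
        have := mul_le_mul_of_nonneg_left hc hNp.le
        linarith
      have k2 : -2 < k := by
        by_contra hc
        push Not at hc
        have := mul_le_mul_of_nonneg_left hc hNp.le
        linarith
      omega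
    · have e1 : F = -(N * p * k) := by rw [hk, h]; ring
      have e2 : F < 2 * (N * p) := by rw [hF, h]; linarith
      have e3 : -(N * p) ≤ F := by rw [hF, h]; linarith
      have k1 : k < 2 := by
        by_contra hc
        push Not at hc
        have := mul_le_mul_of_nonneg_left hc hNp.le
        linarith
      have k2 : -2 < k := by
        by_contra hc
        push Not at hc
        have := mul_le_mul_of_nonneg_left hc hNp.le
        linarith
      have k3 : k ≠ 1 := by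
        intro hk1
        rw [hk1, mul_one] at e1
        have e4 : x ^ 2 + N * y ^ 2 + (N * p - p * z ^ 2) = 0 := by
          have : F = x ^ 2 + N * y ^ 2 - p * z ^ 2 := by rw [hF, h]; ring
          linarith
        have e5 : x ^ 2 = 0 := by linarith
        have e6 : x = 0 := pow_eq_zero_iff (by norm_num) |>.1 e5
        have e7 : (p : ℤ) * z ^ 2 = p * N := by linarith
        have e8 : z ^ 2 = N := mul_left_cancel₀ hp0.ne' e7
        have e9 : (N : ℤ) ∣ z := by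
          rw [e6, zero_sub] at hNx
          exact (dvd_neg).1 hNx
        obtain ⟨m, hm⟩ := e9
        have e10 : (N : ℤ) * m ^ 2 = 1 := by
          apply mul_left_cancel₀ hN0.ne'
          rw [mul_one]
          nth_rewrite 3 [← e8]
          rw [hm]
          ring
        have e11 : (N : ℤ) ∣ 1 := ⟨m ^ 2, e10.symm⟩
        have e12 := Int.le_of_dvd one_pos e11
        have e13 : (2 : ℤ) ≤ N := by exact_mod_cast hD1
        linarith
      omega
  rcases hcase with h0 | h0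
  · rw [h0, mul_zero] at hk
    refine ⟨x, y, z, 0, Or.inl ?_, ?_⟩
    · intro hz0
      have e : x ^ 2 = D * y ^ 2 := by
        rw [hz0] at hF
        have : x ^ 2 - D * y ^ 2 - p * 0 ^ 2 = 0 := by rw [← hF, hk]
        linarith
      obtain ⟨e1, e2⟩ := G1_ne_sq hD e
      exact hne ⟨e1, e2, hz0⟩
    · rw [hk] at hF
      linarith
  · rw [h0] at hk
    refine ⟨x, y, z, 1, Or.inr one_ne_zero, ?_⟩
    rw [hk] at hF
    linarith

end PP
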