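import Pool.Agent.Lib.MP_0f5a55_nt.PP.G0
import Pool.Agent.Lib.MP_0f5a55_nt.PP.G1
import Pool.Agent.Lib.MP_0f5a55_nt.NR.A12

open Complex MeasureTheory Set Filter Topology
open scoped Real ComplexConjugate NumberField

namespace PP

open HC NR

variable {K : Type*} [Field K] [NumberField K]

/-- a positive number `m` with `p ≡ 1` modulo `8 m` and its negative are squares modulo `p` -/
theorem G2a_jac {m : ℕ} (hm : m ≠ 0) {p : ℕ} (h : p ≡ 1 [MOD 8 * m]) {D : ℤ}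
    (hD : D = m ∨ D = -m) : jacobiSym D p = 1 := by
  have h8 : p ≡ 1 [MOD 8] := h.of_dvd (Dvd.intro _ rfl)
  have hpm : p ≡ 1 [MOD m] := h.of_dvd (Dvd.intro_left _ rfl)
  have h1 : jacobiSym (m : ℤ) p = 1 := A12_one hm h8 hpm
  have h8' : p % 8 = 1 := h8
  have h4 : p % 4 = 1 := by omega
  have hodd : Odd p := Nat.odd_iff.mpr (by omega)
  rcases hD with hD | hD
  · rw [hD, h1]
  · have e : D = -1 * (m : ℤ) := by rw [hD]; ring
    rw [e, jacobiSym.mul_left, h1, jacobiSym.at_neg_one hodd, ZMod.χ₄_nat_one_mod_four h4]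
    norm_num

/-- Row G2a. The discriminant is a square modulo p. J(D|p) = 1: NR.A12_one for |D|, and J(-1|p) = 1 since p ≡ 1 mod 4; then
ZMod.isSquare / jacobiSym.legendreSym.to_jacobiSym, legendreSym.eq_one_iff (p ∤ D as p ≡ 1 mod |D|, |D| ≥ 2). -/
theorem disc_sq (h2 : Module.finrank ℚ K = 2) {p : ℕ} (hp : p.Prime)
    (h : p ≡ 1 [MOD 8 * (NumberField.discr K).natAbs]) : ∃ s : ℤ, (p : ℤ) ∣ s ^ 2 - NumberField.discr K := by
  have : Fact p.Prime := ⟨hp⟩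
  have hm : (NumberField.discr K).natAbs ≠ 0 := by
    have := (discr_ns (K := K) h2).2
    omega
  have hJ : jacobiSym (NumberField.discr K) p = 1 := G2a_jac hm h (Int.natAbs_eq _)
  by_cases h0 : ((NumberField.discr K : ℤ) : ZMod p) = 0
  · refine ⟨0, ?_⟩
    rw [← ZMod.intCast_zmod_eq_zero_iff_dvd]
    push_cast
    rw [h0]
    ring
  · rw [← jacobiSym.legendreSym.to_jacobiSym, legendreSym.eq_one_iff p h0] at hJ
    obtain ⟨c, hc⟩ := hJ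
    obtain ⟨s, rfl⟩ := ZMod.intCast_surjective c
    refine ⟨s, ?_⟩
    rw [← ZMod.intCast_zmod_eq_zero_iff_dvd]
    push_cast
    rw [hc]
    ring

theorem G2b_ne {D : ℤ} (hD : ¬ IsSquare D) {z w : ℤ} (h : z ≠ 0 ∨ w ≠ 0) : z ^ 2 - D * w ^ 2 ≠ 0 := by
  intro h0
  have hw : w ≠ 0 := by
    rintro rfl
    have hz : z ^ 2 = 0 := by linarith
    rcases h with h | h
    · exact h (pow_eq_zero_iff (two_ne_zero) |>.1 hz)
    · exact h rfl
  apply hD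
  rw [← Rat.isSquare_intCast_iff]
  refine ⟨(z : ℚ) / w, ?_⟩
  have hw' : (w : ℚ) ≠ 0 := by exact_mod_cast hw
  have h1 : (z : ℚ) ^ 2 = D * (w : ℚ) ^ 2 := by
    have : z ^ 2 = D * w ^ 2 := by linarith
    exact_mod_cast this
  rw [div_mul_div_comm, eq_div_iff (mul_ne_zero hw' hw')]
  linarith [h1, sq (z : ℚ), sq (w : ℚ)]

/-- division of an integer by a common divisor -/
theorem G2b_div {a0 s0 : 𝓞 K} {g T1 z1 q : ℤ} (hg : g ≠ 0) (h1 : a0 + s0 = ((T1 * g : ℤ) : 𝓞 K))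
    (h2 : a0 * s0 = ((q * (z1 * g) ^ 2 : ℤ) : 𝓞 K)) : ∃ a : 𝓞 K, a0 = (g : 𝓞 K) * a := by
  have hgK : (g : K) ≠ 0 := by exact_mod_cast hg
  have hq : a0 ^ 2 - ((T1 * g : ℤ) : 𝓞 K) * a0 + ((q * (z1 * g) ^ 2 : ℤ) : 𝓞 K) = 0 := by
    rw [← h1, ← h2]
    ring
  have hqK : (algebraMap (𝓞 K) K a0) ^ 2 - ((T1 : K) * g) * (algebraMap (𝓞 K) K a0) +
      (q : K) * ((z1 : K) * g) ^ 2 = 0 := by
    have h3 := congrArg (algebraMap (𝓞 K) K) hq
    rw [map_add, map_sub, map_mul, map_pow, map_intCast, map_intCast, map_zero] at h3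
    push_cast at h3
    exact h3
  have hint : IsIntegral ℤ ((algebraMap (𝓞 K) K a0) / (g : K)) := by
    refine ⟨Polynomial.X ^ 2 + (Polynomial.C (-T1) * Polynomial.X + Polynomial.C (q * z1 ^ 2)), ?_, ?_⟩
    · monicity!
    · simp only [Polynomial.eval₂_add, Polynomial.eval₂_mul, Polynomial.eval₂_pow, Polynomial.eval₂_X,
        Polynomial.eval₂_C, algebraMap_int_eq, Int.coe_castRingHom]
      push_cast
      field_simp
      linear_combination hqK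
  obtain ⟨a, ha⟩ := (IsIntegralClosure.isIntegral_iff (A := 𝓞 K)).1 hint
  refine ⟨a, ?_⟩
  apply NumberField.RingOfIntegers.coe_injective
  rw [map_mul, map_intCast, ha]
  field_simp

/-- Row G2b. p z² is a norm. From leg: x, y, z, w; α0 = (x + y θ)(z - w θ) has α0 σ(α0) = p z0² with z0 = z² - D w² ≠ 0 (D is not a
square: discr_ns). T0 = α0 + σ α0 is an integer (x + σ x = norm (1 + x) - 1 - norm x). g = gcd (z0, T0): α0 = g α (α0/g is a root of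
X² - (T0/g) X + p (z0/g)², so integral: NumberField.RingOfIntegers / IsIntegral); then σ α0 = g σ α. -/
theorem exists_elt (h2 : Module.finrank ℚ K = 2) {σ : 𝓞 K →+* 𝓞 K} {θ : 𝓞 K}
    (hσ : ∀ x, x * σ x = ((Algebra.norm ℤ x : ℤ) : 𝓞 K)) (hθ : θ * θ = ((NumberField.discr K : ℤ) : 𝓞 K))
    (hθ' : σ θ = -θ) {p : ℕ} (hp : p.Prime) (h : p ≡ 1 [MOD 8 * (NumberField.discr K).natAbs]) :
    ∃ (α : 𝓞 K) (T z : ℤ), z ≠ 0 ∧ IsCoprime z T ∧ α + σ α = (T : 𝓞 K) ∧ α * σ α = ((p * z ^ 2 : ℤ) : 𝓞 K) := by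
  obtain ⟨hns, hD2⟩ := discr_ns (K := K) h2
  set D := NumberField.discr K with hDdef
  have h1 : (p : ℤ) ≡ 1 [ZMOD D] := by
    have h3 : p ≡ 1 [MOD D.natAbs] := h.of_dvd (Dvd.intro_left _ rfl)
    have h4 : (p : ℤ) ≡ 1 [ZMOD (D.natAbs : ℤ)] := by exact_mod_cast (Int.natCast_modEq_iff.2 h3)
    rw [Int.modEq_iff_dvd] at h4 ⊢
    exact Int.natAbs_dvd.1 h4
  obtain ⟨x, y, z, w, hzw, heq⟩ := leg hns hD2 hp h1 (disc_sq h2 hp h)
  have hz0 := G2b_ne hns hzw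
  obtain ⟨z0, hz0def⟩ : ∃ z0 : ℤ, z0 = z ^ 2 - D * w ^ 2 := ⟨_, rfl⟩
  obtain ⟨T0, hT0def⟩ : ∃ T0 : ℤ, T0 = 2 * (x * z) - 2 * (y * w * D) := ⟨_, rfl⟩
  rw [← hz0def] at hz0 heq
  obtain ⟨a0, ha0⟩ : ∃ a0 : 𝓞 K, a0 = ((x : 𝓞 K) + y * θ) * ((z : 𝓞 K) - w * θ) := ⟨_, rfl⟩
  have hs0 : σ a0 = ((x : 𝓞 K) - y * θ) * ((z : 𝓞 K) + w * θ) := by
    rw [ha0, map_mul, map_add, map_sub, map_mul, map_mul, map_intCast, map_intCast, map_intCast,
      map_intCast, hθ']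
    ring
  have hsum : a0 + σ a0 = ((T0 : ℤ) : 𝓞 K) := by
    rw [hs0, ha0, hT0def]
    push_cast
    linear_combination (-2 * (y : 𝓞 K) * w) * hθ
  have hprod : a0 * σ a0 = ((p * z0 ^ 2 : ℤ) : 𝓞 K) := by
    have e1 : a0 * σ a0 = (((x ^ 2 - D * y ^ 2) * (z ^ 2 - D * w ^ 2) : ℤ) : 𝓞 K) := by
      rw [hs0, ha0]
      push_cast
      linear_combination (-(y : 𝓞 K) ^ 2 * ((z : 𝓞 K) ^ 2 - w ^ 2 * (θ * θ)) -
        (w : 𝓞 K) ^ 2 * ((x : 𝓞 K) ^ 2 - y ^ 2 * (D : 𝓞 K))) * hθ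
    rw [e1, ← hz0def, heq]
    congr 1
    ring
  have hgpos : 0 < Int.gcd z0 T0 := Int.gcd_pos_of_ne_zero_left _ hz0
  obtain ⟨z1, T1, hcop, hz1, hT1⟩ := Int.exists_gcd_one hgpos
  obtain ⟨g, hg⟩ : ∃ g : ℤ, g = (Int.gcd z0 T0 : ℤ) := ⟨_, rfl⟩
  have hg0 : g ≠ 0 := by
    rw [hg]
    exact_mod_cast hgpos.ne'
  rw [← hg] at hz1 hT1
  rw [hT1] at hsum
  rw [hz1] at hprod
  obtain ⟨α, hα⟩ := G2b_div (q := (p : ℤ)) hg0 hsum hprod
  have hg' : (g : 𝓞 K) ≠ 0 := by exact_mod_cast hg0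
  have hσα : σ a0 = (g : 𝓞 K) * σ α := by
    rw [hα, map_mul, map_intCast]
  refine ⟨α, T1, z1, ?_, Int.isCoprime_iff_gcd_eq_one.2 hcop, ?_, ?_⟩
  · rintro rfl
    apply hz0
    rw [hz1]
    ring
  · apply mul_left_cancel₀ hg'
    rw [mul_add, ← hα, ← hσα, hsum]
    push_cast
    ring
  · apply mul_left_cancel₀ (mul_ne_zero hg' hg')
    have e : (g : 𝓞 K) * g * (α * σ α) = a0 * σ a0 := by
      rw [hσα]
      conv_rhs => rw [hα]
      ring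
    rw [e, hprod]
    push_cast
    ring

end PP
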