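import Mathlib

namespace PP

/-- signs prescribed at the primes dividing `N` -/
theorem exists_signs (N : ℕ) (hN : 0 < N) (ε : ℕ → ℤ) :
    ∃ r : ℤ, ∀ p : ℕ, p.Prime → ((p ^ N.factorization p : ℕ) : ℤ) ∣ r - ε p := by
  induction N using Nat.recOnPosPrimePosCoprime with
  | prime_pow p n hp hn =>
    refine ⟨ε p, fun q hq => ?_⟩
    by_cases h : q = p
    · subst h; simp
    · rw [hp.factorization_pow, Finsupp.single_eq_of_ne h]
      simp
  | zero => omega
  | one => exact ⟨0, fun q _ => by simp⟩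
  | coprime a b ha hb hab iha ihb =>
    obtain ⟨ra, hra⟩ := iha (by omega)
    obtain ⟨rb, hrb⟩ := ihb (by omega)
    have hco : IsCoprime (a : ℤ) (b : ℤ) := Nat.isCoprime_iff_coprime.2 hab
    obtain ⟨u, v, huv⟩ := hco
    refine ⟨ra * (v * b) + rb * (u * a), fun q hq => ?_⟩
    have h1 : ra * (v * b) + rb * (u * a) - ra = (rb - ra) * u * a := by
      have : v * (b : ℤ) = 1 - u * a := by linarith
      rw [this]; ring
    have h2 : ra * (v * b) + rb * (u * a) - rb = (ra - rb) * v * b := by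
      have : u * (a : ℤ) = 1 - v * b := by linarith
      rw [this]; ring
    have hf : (a * b).factorization q = a.factorization q + b.factorization q := by
      rw [Nat.factorization_mul (by omega) (by omega)]; rfl
    rw [hf]
    by_cases hqa : q ∣ a
    · have hqb : b.factorization q = 0 := by
        apply Nat.factorization_eq_zero_of_not_dvd
        intro hqb
        have := Nat.dvd_gcd hqa hqb
        rw [hab] at this
        exact hq.one_lt.ne' (Nat.dvd_one.1 this)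
      rw [hqb, add_zero]
      have h3 : ((q ^ a.factorization q : ℕ) : ℤ) ∣ (a : ℤ) :=
        Int.natCast_dvd_natCast.2 (Nat.ordProj_dvd a q)
      have h4 : ((q ^ a.factorization q : ℕ) : ℤ) ∣ ra * (v * b) + rb * (u * a) - ra := by
        rw [h1]; exact Dvd.dvd.mul_left h3 _
      have := dvd_add h4 (hra q hq)
      simpa using this
    · have hqa' : a.factorization q = 0 := Nat.factorization_eq_zero_of_not_dvd hqa
      rw [hqa', zero_add]
      have h3 : ((q ^ b.factorization q : ℕ) : ℤ) ∣ (b : ℤ) :=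
        Int.natCast_dvd_natCast.2 (Nat.ordProj_dvd b q)
      have h4 : ((q ^ b.factorization q : ℕ) : ℤ) ∣ ra * (v * b) + rb * (u * a) - rb := by
        rw [h2]; exact Dvd.dvd.mul_left h3 _
      have := dvd_add h4 (hrb q hq)
      simpa using this

theorem split_two {X : ℤ} (h : ¬ (8 : ℤ) ∣ X) :
    ∃ v M : ℤ, v ∣ 8 ∧ v ≠ 0 ∧ X = v * M ∧ ¬ (2 : ℤ) ∣ M := by
  by_cases h1 : (2 : ℤ) ∣ X
  · obtain ⟨Y, rfl⟩ := h1
    by_cases h2 : (2 : ℤ) ∣ Y
    · obtain ⟨Z, rfl⟩ := h2
      by_cases h3 : (2 : ℤ) ∣ Z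
      · obtain ⟨W, rfl⟩ := h3
        exact absurd ⟨W, by ring⟩ h
      · exact ⟨4, Z, by norm_num, by norm_num, by ring, h3⟩
    · exact ⟨2, Y, by norm_num, by norm_num, rfl, h2⟩
  · exact ⟨1, X, by norm_num, by norm_num, by ring, h1⟩

/-- Row G3. Choice of signs. Let M(r) = (r² + n) z + r T. For a prime l ∣ 2 f choose a sign ε(l): for l odd with l ∤ 2z + ε T (both signs
bad: l ∣ 4z and l ∣ 2T, so l ∣ z and l ∣ T, against IsCoprime z T); for l = 2 with 8 ∤ 2z + ε T (both bad: 8 ∣ 4z, 8 ∣ 2T, so z and T even).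
By the Chinese remainder theorem there is r with r ≡ ε(l) mod l^(v_l(8f)) for all primes l ∣ 8f (Nat.chineseRemainderOfFinset or
induction; or split 8f = a b, a the part of the primes with ε = 1, r ≡ 1 mod a, r ≡ -1 mod b). So r² ≡ 1 mod 8f, hence 8f ∣ n - r²,
and M(r) ≡ 2z + ε T mod l (mod 8 for l = 2). So M(r) is prime to the odd primes l ∣ f, and 8 ∤ M(r): M(r) = v M with v ∈ {1, 2, 4}, M odd. -/
theorem choose_r {f : ℕ} (hf : 0 < f) {T z n : ℤ} (hn : n ≡ 1 [ZMOD (8 * f : ℕ)]) (hc : IsCoprime z T) :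
    ∃ r v M : ℤ, v ∣ 8 ∧ v ≠ 0 ∧ (r ^ 2 + n) * z + r * T = v * M ∧ IsCoprime M (f : ℤ) ∧ M ≠ 0 ∧
      ((8 * f : ℕ) : ℤ) ∣ n - r ^ 2 := by
  classical
  -- the modulus used at the prime `l`
  have key : ∀ l : ℕ, l.Prime → ∃ e : ℤ, e ^ 2 = 1 ∧
      ¬ ((if l = 2 then 8 else (l : ℤ)) ∣ 2 * z + e * T) := by
    intro l hl
    by_contra hcon
    push Not at hcon
    have h1 := hcon 1 (by norm_num)
    have h2 := hcon (-1) (by norm_num)
    obtain ⟨a, b, hab⟩ := hc
    by_cases h : l = 2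
    · rw [if_pos h] at h1 h2
      have h3 : (8 : ℤ) ∣ 4 * z := by
        have := dvd_add h1 h2
        have e : 2 * z + 1 * T + (2 * z + -1 * T) = 4 * z := by ring
        rwa [e] at this
      have h4 : (8 : ℤ) ∣ 2 * T := by
        have := dvd_sub h1 h2
        have e : 2 * z + 1 * T - (2 * z + -1 * T) = 2 * T := by ring
        rwa [e] at this
      have h5 : (2 : ℤ) ∣ z := by omega
      have h6 : (2 : ℤ) ∣ T := by omega
      have h7 : (2 : ℤ) ∣ 1 := by
        rw [← hab]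
        exact dvd_add (Dvd.dvd.mul_left h5 _) (Dvd.dvd.mul_left h6 _)
      omega
    · rw [if_neg h] at h1 h2
      have hp : Prime (l : ℤ) := Nat.prime_iff_prime_int.1 hl
      have hl2 : ¬ (l : ℤ) ∣ 2 := by
        intro hd
        have : l ∣ 2 := by exact_mod_cast hd
        exact h ((Nat.prime_dvd_prime_iff_eq hl Nat.prime_two).1 this)
      have h3 : (l : ℤ) ∣ 2 * (2 * z) := by
        have := dvd_add h1 h2
        have e : 2 * z + 1 * T + (2 * z + -1 * T) = 2 * (2 * z) := by ring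
        rwa [e] at this
      have h4 : (l : ℤ) ∣ 2 * T := by
        have := dvd_sub h1 h2
        have e : 2 * z + 1 * T - (2 * z + -1 * T) = 2 * T := by ring
        rwa [e] at this
      have h5 : (l : ℤ) ∣ z :=
        (hp.dvd_or_dvd ((hp.dvd_or_dvd h3).resolve_left hl2)).resolve_left hl2
      have h6 : (l : ℤ) ∣ T := (hp.dvd_or_dvd h4).resolve_left hl2
      have h7 : (l : ℤ) ∣ 1 := by
        rw [← hab]
        exact dvd_add (Dvd.dvd.mul_left h5 _) (Dvd.dvd.mul_left h6 _)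
      exact hp.not_dvd_one h7
  choose! ε hε1 hε2 using key
  have hN : 0 < 8 * f := by omega
  obtain ⟨r, hr⟩ := exists_signs (8 * f) hN ε
  have hsq : ((8 * f : ℕ) : ℤ) ∣ r ^ 2 - 1 := by
    rw [← Int.dvd_natAbs, Int.natCast_dvd_natCast, Nat.dvd_iff_prime_pow_dvd_dvd]
    intro p k hp hpk
    have h1 : ((p ^ (8 * f).factorization p : ℕ) : ℤ) ∣ r ^ 2 - 1 := by
      have e : r ^ 2 - 1 = (r - ε p) * (r + ε p) := by
        have := hε1 p hp
        linear_combination this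
      rw [e]
      exact Dvd.dvd.mul_right (hr p hp) _
    have h2 : p ^ k ∣ p ^ (8 * f).factorization p :=
      pow_dvd_pow p ((hp.pow_dvd_iff_le_factorization (by omega)).1 hpk)
    have h3 : ((p ^ k : ℕ) : ℤ) ∣ r ^ 2 - 1 := (Int.natCast_dvd_natCast.2 h2).trans h1
    rw [← Int.natCast_dvd_natCast, Int.dvd_natAbs]
    exact h3
  have hn1 : ((8 * f : ℕ) : ℤ) ∣ n - 1 := by
    have := (Int.modEq_iff_dvd.1 hn.symm)
    exact this
  have hlast : ((8 * f : ℕ) : ℤ) ∣ n - r ^ 2 := by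
    have := dvd_sub hn1 hsq
    have e : n - 1 - (r ^ 2 - 1) = n - r ^ 2 := by ring
    rwa [e] at this
  -- congruence of M(r)
  have hM : ∀ p : ℕ, p.Prime → ∀ m : ℤ, m ∣ ((8 * f : ℕ) : ℤ) →
      m ∣ ((p ^ (8 * f).factorization p : ℕ) : ℤ) → m ∣ (r ^ 2 + n) * z + r * T →
      m ∣ 2 * z + ε p * T := by
    intro p hp m hm1 hm2 hm3
    have a1 : m ∣ r ^ 2 - 1 := hm1.trans hsq
    have a2 : m ∣ n - 1 := hm1.trans hn1
    have a3 : m ∣ r - ε p := hm2.trans (hr p hp)
    have e : 2 * z + ε p * T = ((r ^ 2 + n) * z + r * T) - (r ^ 2 - 1) * z - (n - 1) * z -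
        (r - ε p) * T := by ring
    rw [e]
    exact dvd_sub (dvd_sub (dvd_sub hm3 (Dvd.dvd.mul_right a1 _)) (Dvd.dvd.mul_right a2 _))
      (Dvd.dvd.mul_right a3 _)
  have h8 : ¬ (8 : ℤ) ∣ (r ^ 2 + n) * z + r * T := by
    intro h
    have h1 : (8 : ℤ) ∣ ((8 * f : ℕ) : ℤ) := ⟨f, by push_cast; ring⟩
    have h2 : (8 : ℤ) ∣ ((2 ^ (8 * f).factorization 2 : ℕ) : ℤ) := by
      have h3 : 2 ^ 3 ∣ 2 ^ (8 * f).factorization 2 := by
        apply pow_dvd_pow
        exact (Nat.prime_two.pow_dvd_iff_le_factorization (by omega)).1 ⟨f, by norm_num⟩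
      have : (8 : ℕ) ∣ 2 ^ (8 * f).factorization 2 := by simpa using h3
      exact_mod_cast this
    have := hM 2 Nat.prime_two 8 h1 h2 h
    have h4 := hε2 2 Nat.prime_two
    rw [if_pos rfl] at h4
    exact h4 this
  obtain ⟨v, M, hv, hv0, hvM, hM2⟩ := split_two h8
  refine ⟨r, v, M, hv, hv0, hvM, ?_, ?_, hlast⟩
  · rw [Int.isCoprime_iff_gcd_eq_one]
    by_contra hg
    obtain ⟨p, hp, hpg⟩ := Nat.exists_prime_and_dvd hg
    have hpM : (p : ℤ) ∣ M := (Int.natCast_dvd_natCast.2 hpg).trans (Int.gcd_dvd_left ..)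
    have hpf : (p : ℤ) ∣ (f : ℤ) := (Int.natCast_dvd_natCast.2 hpg).trans (Int.gcd_dvd_right ..)
    by_cases h2 : p = 2
    · subst h2
      exact hM2 (by exact_mod_cast hpM)
    · have hpN : p ∣ 8 * f := Dvd.dvd.mul_left (Int.natCast_dvd_natCast.1 hpf) 8
      have h1 : (p : ℤ) ∣ ((8 * f : ℕ) : ℤ) := Int.natCast_dvd_natCast.2 hpN
      have h3 : (p : ℤ) ∣ ((p ^ (8 * f).factorization p : ℕ) : ℤ) := by
        apply Int.natCast_dvd_natCast.2
        apply dvd_pow_self
        have := (hp.dvd_iff_one_le_factorization (by omega)).1 hpN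
        omega
      have h4 : (p : ℤ) ∣ (r ^ 2 + n) * z + r * T := by
        rw [hvM]; exact Dvd.dvd.mul_left hpM _
      have h5 := hM p hp p h1 h3 h4
      have h6 := hε2 p hp
      rw [if_neg h2] at h6
      exact h6 h5
  · rintro rfl
    exact hM2 (dvd_zero _)

end PP
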