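import Pool.Agent.Lib.MP_0f5a55_nt.PP.D
import Pool.Agent.Lib.MP_0f5a55_nt.HC.H13

open Complex MeasureTheory Set Filter Topology
open scoped Real ComplexConjugate NumberField

namespace PP

open HC NR

variable {K : Type*} [Field K] [NumberField K]

theorem G4_cop_mul {f : ℕ} {a b : Ideal (𝓞 K)} : Cop f (a * b) ↔ Cop f a ∧ Cop f b := by
  unfold Cop
  rw [IsCoprime.mul_left_iff, Ne, Ideal.mul_eq_bot]
  tauto

/-- Row G4. A real ring class character depends on the norm only. G = A ⊔ B (the gcd): A = G A1, B = G B1, A1 ⊔ B1 = ⊤, N A1 = N B1 = m.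
HC.H13_exists: B1 J = (m), A1 J' = (m), N J = m. A1 ∣ (m) = B1 J and A1 is prime to B1, so A1 ∣ J, and the norms agree: A1 = J.
ξ(B1) ξ(J) = ξ((m)) = 1 (h.triv, (m : 𝓞 K) is in the order; all ideals are prime to f) and ξ(B1)² = 1, so ξ(A1) = ξ(J) = ξ(B1). -/
theorem eq_of_norm (h2 : Module.finrank ℚ K = 2) {f : ℕ} {ξ : Ideal (𝓞 K) →*₀ ℂ} (h : RC f ξ)
    (hq : ∀ I, Cop f I → ξ I ^ 2 = 1) {A B : Ideal (𝓞 K)} (hA : Cop f A) (hB : Cop f B)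
    (hAB : Ideal.absNorm A = Ideal.absNorm B) : ξ A = ξ B := by
  obtain ⟨G, hG⟩ : ∃ G, G = A ⊔ B := ⟨_, rfl⟩
  have hGA : G ∣ A := by
    rw [Ideal.dvd_iff_le, hG]
    exact le_sup_left
  have hGB : G ∣ B := by
    rw [Ideal.dvd_iff_le, hG]
    exact le_sup_right
  obtain ⟨A1, hA1⟩ := hGA
  obtain ⟨B1, hB1⟩ := hGB
  have cA := hA
  have cB := hB
  rw [hA1, G4_cop_mul] at cA
  rw [hB1, G4_cop_mul] at cB
  have hG0 : G ≠ 0 := cA.1.1
  have hsup : A1 ⊔ B1 = ⊤ := by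
    have e1 : G * (A1 ⊔ B1) = G * 1 := by
      rw [Ideal.mul_sup, ← hA1, ← hB1, mul_one, hG]
    have e2 := mul_left_cancel₀ hG0 e1
    rw [e2, Ideal.one_eq_top]
  have hcop : IsCoprime A1 B1 := Ideal.isCoprime_iff_sup_eq.2 hsup
  have hN : Ideal.absNorm A1 = Ideal.absNorm B1 := by
    have e1 := hAB
    rw [hA1, hB1, map_mul, map_mul] at e1
    refine Nat.eq_of_mul_eq_mul_left (Nat.pos_of_ne_zero ?_) e1
    rw [Ne, Ideal.absNorm_eq_zero_iff]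
    exact cA.1.1
  obtain ⟨J, hJ1, hJ2⟩ := H13_exists h2 B1
  obtain ⟨J', _, hJ'2⟩ := H13_exists h2 A1
  have hdvd : A1 ∣ J := by
    refine hcop.dvd_of_dvd_mul_left ?_
    rw [hJ2, ← hN, ← hJ'2]
    exact Dvd.intro _ rfl
  obtain ⟨C, hC⟩ := hdvd
  have hA1n : Ideal.absNorm A1 ≠ 0 := by
    rw [Ne, Ideal.absNorm_eq_zero_iff]
    exact cA.2.1
  have hC1 : C = ⊤ := by
    rw [← Ideal.absNorm_eq_one_iff]
    have e1 := hJ1
    rw [hC, map_mul, ← hN] at e1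
    exact Nat.eq_of_mul_eq_mul_left (Nat.pos_of_ne_zero hA1n) (e1.trans (mul_one _).symm)
  have hJA : J = A1 := by
    rw [hC, hC1, Ideal.mul_top]
  rw [hJA] at hJ2
  have hcm : Cop f (Ideal.span {((Ideal.absNorm B1 : ℕ) : 𝓞 K)}) := by
    rw [← hJ2, G4_cop_mul]
    exact ⟨cB.2, cA.2⟩
  have h1 := h.triv _ (⟨(Ideal.absNorm B1 : ℤ), by simp⟩ : Ord f ((Ideal.absNorm B1 : ℕ) : 𝓞 K)) hcm
  rw [← hJ2, map_mul] at h1
  have h3 := hq B1 cB.2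
  have h4 : ξ B1 ≠ 0 := by
    intro h0
    rw [h0, zero_mul] at h1
    exact zero_ne_one h1
  have h5 : ξ A1 = ξ B1 := by
    refine mul_left_cancel₀ h4 ?_
    rw [h1, ← sq, h3]
  rw [hA1, hB1, map_mul, map_mul, h5]

end PP
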