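import Pool.Agent.Lib.MP_0f5a55_nt.PP.G2
import Pool.Agent.Lib.MP_0f5a55_nt.PP.G3
import Pool.Agent.Lib.MP_0f5a55_nt.PP.G4

open Complex MeasureTheory Set Filter Topology
open scoped Real ComplexConjugate NumberField

namespace PP

open HC NR

variable {K : Type*} [Field K] [NumberField K]

omit [NumberField K] in
/-- the identity -/
theorem G5_id {α β n T z r v M e : 𝓞 K} (hab : α + β = T) (hn : α * β = n * z ^ 2)
    (hM : (r ^ 2 + n) * z + r * T = v * M) (he : v * e = n - r ^ 2) :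
    v ^ 2 * ((r * M + e * (β + r * z)) * (r * M + e * (α + r * z))) = v ^ 2 * (n * M ^ 2) := by
  have h1 : v ^ 2 * ((r * M + e * (β + r * z)) * (r * M + e * (α + r * z))) =
      r ^ 2 * (v * M) ^ 2 + r * (v * M) * (v * e) * ((α + β) + 2 * (r * z)) +
        (v * e) ^ 2 * (α * β + r * z * (α + β) + r ^ 2 * z ^ 2) := by ring
  have h2 : v ^ 2 * (n * M ^ 2) = n * (v * M) ^ 2 := by ring
  rw [h1, h2, hab, hn, he, ← hM]
  ring

theorem G5_absNorm_int (h2 : Module.finrank ℚ K = 2) (M : ℤ) :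
    Ideal.absNorm (Ideal.span {(M : 𝓞 K)}) = M.natAbs ^ 2 := by
  rw [Ideal.absNorm_span_singleton]
  have h1 : Algebra.norm ℤ ((M : ℤ) : 𝓞 K) = M ^ Module.finrank ℤ (𝓞 K) := by
    have := Algebra.norm_algebraMap (S := 𝓞 K) M
    simpa using this
  rw [h1, NumberField.RingOfIntegers.rank, h2, Int.natAbs_pow]

/-- Row G5. The principal genus theorem (prime ideals). q = 8 f |D|. Let n = p = N P. exists_sig, exists_elt (α, T, z), choose_r (n = p; r, v, M).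
e = (n - r²)/v is an integer divisible by f. ω = r M + e (σ α + r z). Then ω σ(ω) = n M² (v² times this is the identity
E² n z² + E T u + u² = n (v M)² with E = n - r², u = r v M + r z E, v M = (r² + n) z + r T), so N(ω) = n M², Ord f ω (f ∣ ω - r M; r is prime to f since
r² ≡ n ≡ 1 mod f), and (ω), B = (M) P are prime to f (HC.cop_iff, the norm n M² is prime to f), with equal norms n M². eq_of_norm:
ξ((ω)) = ξ((M)) ξ(P); ξ((ω)) = 1, ξ((M)) = 1 by h.triv. -/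
theorem genus (h2 : Module.finrank ℚ K = 2) {f : ℕ} {ξ : Ideal (𝓞 K) →*₀ ℂ} (h : RC f ξ)
    (hq : ∀ I, Cop f I → ξ I ^ 2 = 1) : ∃ q : ℕ, 0 < q ∧ ∀ P : Ideal (𝓞 K), (Ideal.absNorm P).Prime →
      Ideal.absNorm P ≡ 1 [MOD q] → ξ P = 1 := by
  have hf := h.pos
  obtain ⟨σ, θ, hσ, hθ, hθ'⟩ := exists_sig (K := K) h2
  have hD2 := (discr_ns (K := K) h2).2
  refine ⟨8 * f * (NumberField.discr K).natAbs, by positivity, ?_⟩
  intro P hp hpq
  obtain ⟨p, hpdef⟩ : ∃ p : ℕ, p = Ideal.absNorm P := ⟨_, rfl⟩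
  rw [← hpdef] at hp hpq
  have hp8D : p ≡ 1 [MOD 8 * (NumberField.discr K).natAbs] :=
    hpq.of_dvd ⟨f, by ring⟩
  have hp8f : p ≡ 1 [MOD 8 * f] := hpq.of_dvd ⟨(NumberField.discr K).natAbs, rfl⟩
  have hpf : Nat.Coprime p f := by
    rw [Nat.Prime.coprime_iff_not_dvd hp]
    intro hd
    have h3 : p ≡ 1 [MOD p] := hp8f.of_dvd (hd.mul_left 8)
    have h4 : (0 : ℕ) ≡ 1 [MOD p] := by
      have h5 : p ≡ 0 [MOD p] := by simp [Nat.ModEq]
      exact h5.symm.trans h3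
    have h6 := (Nat.modEq_iff_dvd' (by norm_num)).1 h4
    exact hp.one_lt.ne' (Nat.dvd_one.1 h6)
  obtain ⟨α, T, z, hz0, hzT, hsum, hprod⟩ := exists_elt h2 hσ hθ hθ' hp hp8D
  have hn : (p : ℤ) ≡ 1 [ZMOD (8 * f : ℕ)] := by
    have := (Int.natCast_modEq_iff (a := p) (b := 1) (n := 8 * f)).2 hp8f
    exact_mod_cast this
  obtain ⟨r, v, M, ⟨v', hv8⟩, hv0, hM, hMf, hM0, ⟨k, hk⟩⟩ := choose_r hf hn hzT
  obtain ⟨e, he⟩ : ∃ e : ℤ, e = v' * f * k := ⟨_, rfl⟩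
  have hve : v * e = (p : ℤ) - r ^ 2 := by
    rw [he, hk]
    push_cast
    rw [hv8]
    ring
  obtain ⟨ω, hω⟩ : ∃ ω : 𝓞 K, ω = (r : 𝓞 K) * M + e * (σ α + r * z) := ⟨_, rfl⟩
  have hσσ : σ (σ α) = α := by
    have h3 : σ α = T - α := by rw [← hsum]; ring
    have h4 : σ (σ α) = T - σ α := by
      conv_lhs => rw [h3]
      rw [map_sub, map_intCast]
    rw [h4, h3]
    ring
  have hσω : σ ω = (r : 𝓞 K) * M + e * (α + r * z) := by
    rw [hω]
    simp only [map_add, map_mul, map_intCast, hσσ]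
  have hvK : (v : 𝓞 K) ≠ 0 := by exact_mod_cast hv0
  have hprod' : α * σ α = ((p : ℕ) : 𝓞 K) * (z : 𝓞 K) ^ 2 := by
    rw [hprod]
    push_cast
    ring
  have hM' : ((r : 𝓞 K) ^ 2 + ((p : ℕ) : 𝓞 K)) * (z : 𝓞 K) + (r : 𝓞 K) * (T : 𝓞 K) = (v : 𝓞 K) * (M : 𝓞 K) := by
    have := congrArg (Int.cast : ℤ → 𝓞 K) hM
    push_cast at this
    exact this
  have hve' : (v : 𝓞 K) * (e : 𝓞 K) = ((p : ℕ) : 𝓞 K) - (r : 𝓞 K) ^ 2 := by
    have := congrArg (Int.cast : ℤ → 𝓞 K) hve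
    push_cast at this
    exact this
  have hnorm : ω * σ ω = ((p : ℕ) : 𝓞 K) * (M : 𝓞 K) ^ 2 := by
    have h3 := G5_id (α := α) (β := σ α) hsum hprod' hM' hve'
    rw [← hω, ← hσω] at h3
    exact mul_left_cancel₀ (pow_ne_zero 2 hvK) h3
  have hN : Algebra.norm ℤ ω = (p : ℤ) * M ^ 2 := by
    have h3 := hσ ω
    rw [hnorm] at h3
    have h4 : (((p : ℤ) * M ^ 2 : ℤ) : 𝓞 K) = ((Algebra.norm ℤ ω : ℤ) : 𝓞 K) := by
      rw [← h3]
      push_cast
      ring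
    exact (Int.cast_injective h4).symm
  have hNω : Ideal.absNorm (Ideal.span {ω}) = p * M.natAbs ^ 2 := by
    rw [Ideal.absNorm_span_singleton, hN, Int.natAbs_mul, Int.natAbs_natCast, Int.natAbs_pow]
  have hNM : Ideal.absNorm (Ideal.span {(M : 𝓞 K)}) = M.natAbs ^ 2 := G5_absNorm_int h2 M
  have hMc : (M.natAbs).Coprime f := by
    have := Int.isCoprime_iff_gcd_eq_one.1 hMf
    rw [Int.gcd_eq_natAbs] at this
    simpa using this
  have hMn : M.natAbs ≠ 0 := Int.natAbs_ne_zero.2 hM0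
  have hCω : Cop f (Ideal.span {ω}) := by
    rw [cop_iff h2 hf]
    refine ⟨?_, ?_⟩
    · intro h0
      rw [h0, Ideal.absNorm_bot] at hNω
      exact (mul_ne_zero hp.ne_zero (pow_ne_zero 2 hMn)) hNω.symm
    · rw [hNω]
      exact Nat.Coprime.mul_left hpf (hMc.pow_left 2)
  have hCM : Cop f (Ideal.span {(M : 𝓞 K)}) := by
    rw [cop_iff h2 hf]
    refine ⟨?_, ?_⟩
    · intro h0
      rw [h0, Ideal.absNorm_bot] at hNM
      exact (pow_ne_zero 2 hMn) hNM.symm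
    · rw [hNM]
      exact hMc.pow_left 2
  have hCP : Cop f P := by
    rw [cop_iff h2 hf]
    refine ⟨?_, ?_⟩
    · rintro rfl
      rw [Ideal.absNorm_bot] at hpdef
      exact hp.ne_zero hpdef
    · rw [← hpdef]
      exact hpf
  have hCB : Cop f (Ideal.span {(M : 𝓞 K)} * P) := cop_mul.2 ⟨hCM, hCP⟩
  have hNB : Ideal.absNorm (Ideal.span {ω}) = Ideal.absNorm (Ideal.span {(M : 𝓞 K)} * P) := by
    rw [map_mul, hNω, hNM, ← hpdef]
    ring
  have hOω : Ord f ω := by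
    refine ⟨r * M, ((v' : 𝓞 K) * k) * (σ α + r * z), ?_⟩
    rw [hω, he]
    push_cast
    ring
  have hOM : Ord f (M : 𝓞 K) := ⟨M, by rw [sub_self]; exact dvd_zero _⟩
  have hfin := eq_of_norm h2 h hq hCω hCB hNB
  rw [map_mul, h.triv _ hOω hCω, h.triv _ hOM hCM, one_mul] at hfin
  exact hfin.symm

end PP
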