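import Pool.Agent.Lib.MP_0f5a55_nt.PP.P04
import Pool.Agent.Lib.MP_0f5a55_nt.NR.E1
import Pool.Agent.Lib.MP_0f5a55_nt.NR.E2
import Pool.Agent.Lib.MP_0f5a55_nt.NR.E3
import Pool.Agent.Lib.MP_0f5a55_nt.NR.E6

open Complex MeasureTheory Set Filter Topology
open scoped Real ComplexConjugate

namespace PP

open NR NH

/-- sum of exp(-x n) over the multiples of d -/
noncomputable def One_E (x : ℝ) (d : ℕ) : ℝ := (Real.exp (d * x) - 1)⁻¹

theorem One_E_le {x : ℝ} (hx : 0 < x) {d : ℕ} (hd : 0 < d) : One_E x d ≤ 1 / (d * x) := by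
  unfold One_E
  have hd' : (0:ℝ) < d := by exact_mod_cast hd
  have h1 : (d:ℝ) * x ≤ Real.exp (d * x) - 1 := by
    have := Real.add_one_le_exp ((d:ℝ) * x)
    linarith
  rw [← one_div]
  exact one_div_le_one_div_of_le (by positivity) h1

theorem One_E_ge {x : ℝ} (hx : 0 < x) {d : ℕ} (hd : 0 < d) : 1 / (d * x) - 1 ≤ One_E x d := by
  unfold One_E
  have hd' : (0:ℝ) < d := by exact_mod_cast hd
  have hy : 0 < (d:ℝ) * x := by positivity
  obtain ⟨y, hyd⟩ : ∃ y, y = (d:ℝ) * x := ⟨_, rfl⟩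
  rw [← hyd] at hy ⊢
  have he : 0 < Real.exp y - 1 := by
    have := Real.add_one_lt_exp hy.ne'
    linarith
  rcases le_or_gt 1 y with h | h
  · have h1 : 1 / y ≤ 1 := by rw [div_le_one hy]; exact h
    have h2 : 0 < (Real.exp y - 1)⁻¹ := inv_pos.2 he
    linarith
  · have h1 : Real.exp y * (1 - y) ≤ 1 := by
      have h2 := Real.add_one_le_exp (-y)
      have h3 : Real.exp y * Real.exp (-y) = 1 := by rw [← Real.exp_add]; simp
      nlinarith [Real.exp_pos y]
    rw [← one_div, le_div_iff₀ he]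
    have h2 : (1 / y - 1) * (Real.exp y - 1) = ((1 - y) * Real.exp y - (1 - y)) / y := by
      field_simp
    rw [h2, div_le_one hy]
    linarith

theorem One_mult {x : ℝ} (hx : 0 < x) {d : ℕ} (hd : 0 < d) :
    HasSum (fun n : ℕ => if d ∣ n + 1 then Real.exp (-(x * ((n : ℝ) + 1))) else 0) (One_E x d) := by
  have hd' : (0:ℝ) < d := by exact_mod_cast hd
  have hinj : Function.Injective (fun m : ℕ => d * (m + 1) - 1) := by
    intro m k h
    simp only at h
    have h1 : 0 < d * (m + 1) := by positivity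
    have h2 : 0 < d * (k + 1) := by positivity
    have h3 : d * (m + 1) = d * (k + 1) := by omega
    have := Nat.eq_of_mul_eq_mul_left hd h3
    omega
  rw [← hinj.hasSum_iff]
  · obtain ⟨r, hr⟩ : ∃ r, r = Real.exp (-(d * x)) := ⟨_, rfl⟩
    have hr0 : 0 ≤ r := by rw [hr]; positivity
    have hr1 : r < 1 := by rw [hr, Real.exp_lt_one_iff]; have := mul_pos hd' hx; linarith
    have h := (hasSum_geometric_of_lt_one hr0 hr1).mul_left r
    have e : r * (1 - r)⁻¹ = One_E x d := by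
      unfold One_E
      have h1 : Real.exp (d * x) = r⁻¹ := by rw [hr, Real.exp_neg, inv_inv]
      have hrp : 0 < r := by rw [hr]; positivity
      have h2 : 1 - r ≠ 0 := by linarith
      rw [h1]
      field_simp
    rw [e] at h
    have hf : ((fun n : ℕ => if d ∣ n + 1 then Real.exp (-(x * ((n : ℝ) + 1))) else 0) ∘
        (fun m : ℕ => d * (m + 1) - 1)) = fun m => r * r ^ m := by
     funext m
     have h1 : 0 < d * (m + 1) := by positivity
     have h2 : d * (m + 1) - 1 + 1 = d * (m + 1) := by omega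
     simp only [Function.comp_apply, h2, dvd_mul_right, if_true]
     have h3 : (((d * (m + 1) - 1 : ℕ) : ℝ) + 1) = d * ((m:ℝ) + 1) := by
      have : (((d * (m + 1) - 1 + 1 : ℕ)) : ℝ) = ((d * (m + 1) : ℕ) : ℝ) := by rw [h2]
      push_cast at this
      exact this
     rw [h3, hr, ← pow_succ', ← Real.exp_nat_mul]
     congr 1
     push_cast
     ring
    rw [hf]
    exact h
  · intro n hn
    rw [if_neg]
    rintro ⟨k, hk⟩
    apply hn
    have hk0 : k ≠ 0 := by rintro rfl; simp at hk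
    obtain ⟨m, rfl⟩ := Nat.exists_eq_succ_of_ne_zero hk0
    refine ⟨m, ?_⟩
    simp only [Nat.succ_eq_add_one] at hk
    simp only
    omega

open Classical in
/-- few n have a(n) not zero, if a vanishes at the primes of P -/
theorem One_sparse {a : ℕ → ℂ} (D : Pre a) {P : Finset ℕ} (hP : ∀ p ∈ P, p.Prime ∧ a p = 0) {S C0 : ℝ}
    (hS : S = ∑ p ∈ P, 1 / (p : ℝ)) (hS0 : 0 < S) (hC0 : ∑ p ∈ P, 1 / (p : ℝ) ^ 2 ≤ C0) {x : ℝ} (hx : 0 < x) :
    Summable (fun n : ℕ => if a (n + 1) ≠ 0 then Real.exp (-(x * ((n : ℝ) + 1))) else 0) ∧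
    ∑' n : ℕ, (if a (n + 1) ≠ 0 then Real.exp (-(x * ((n : ℝ) + 1))) else 0) ≤
      (2 * C0 + 1) / S / x + 2 * P.card / S := by
  have hpos : ∀ p ∈ P, 0 < p := fun p hp => (hP p hp).1.pos
  obtain ⟨H, hH⟩ : ∃ H : ℕ → ℝ, H = fun n : ℕ => (if 1 ∣ n + 1 then Real.exp (-(x * ((n : ℝ) + 1))) else 0) -
      (2 / S) * (∑ p ∈ P, ((if p ∣ n + 1 then Real.exp (-(x * ((n : ℝ) + 1))) else 0) -
        (if p ^ 2 ∣ n + 1 then Real.exp (-(x * ((n : ℝ) + 1))) else 0))) +
      (1 / S ^ 2) * (∑ p ∈ P, ∑ q ∈ P, (if (if p = q then p else p * q) ∣ n + 1 then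
        Real.exp (-(x * ((n : ℝ) + 1))) else 0)) := ⟨_, rfl⟩
  have hHs : HasSum H (One_E x 1 - (2 / S) * (∑ p ∈ P, (One_E x p - One_E x (p ^ 2))) +
      (1 / S ^ 2) * (∑ p ∈ P, ∑ q ∈ P, One_E x (if p = q then p else p * q))) := by
    rw [hH]
    refine ((One_mult hx one_pos).sub (HasSum.mul_left _ (hasSum_sum fun p hp => ?_))).add
      (HasSum.mul_left _ (hasSum_sum fun p hp => hasSum_sum fun q hq => ?_))
    · exact (One_mult hx (hpos p hp)).sub (One_mult hx (pow_pos (hpos p hp) 2))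
    · refine One_mult hx ?_
      split_ifs
      · exact hpos p hp
      · exact Nat.mul_pos (hpos p hp) (hpos q hq)
  -- pointwise
  have hpt : ∀ n : ℕ, (if a (n + 1) ≠ 0 then Real.exp (-(x * ((n : ℝ) + 1))) else 0) ≤ H n := by
    intro n
    obtain ⟨e, he⟩ : ∃ e, e = Real.exp (-(x * ((n : ℝ) + 1))) := ⟨_, rfl⟩
    have he0 : 0 < e := by rw [he]; positivity
    obtain ⟨g, hg⟩ : ∃ g : ℕ → ℝ, g = fun p => (if p ∣ n + 1 then 1 else 0) - (if p ^ 2 ∣ n + 1 then (1:ℝ) else 0) :=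
      ⟨_, rfl⟩
    have hg0 : ∀ p, 0 ≤ g p := by
      intro p
      rw [hg]
      simp only
      split_ifs with h1 h2 h2
      · simp
      · simp
      · exact absurd ((dvd_pow_self p two_ne_zero).trans h2) h1
      · simp
    have hg1 : ∀ p, g p ≤ 1 := by
      intro p
      rw [hg]
      simp only
      split_ifs <;> norm_num
    have hH1 : H n = e * (1 - (2 / S) * (∑ p ∈ P, g p) + (1 / S ^ 2) * (∑ p ∈ P, ∑ q ∈ P,
        (if (if p = q then p else p * q) ∣ n + 1 then (1:ℝ) else 0))) := by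
      rw [hH, hg]
      simp only [← he, one_dvd, if_true]
      have e1 : ∀ c : Prop, [Decidable c] → (if c then e else 0) = e * (if c then 1 else 0) := by
        intro c _; split_ifs <;> simp
      simp only [e1, ← mul_sub, ← Finset.mul_sum]
      ring
    have hgg : (∑ p ∈ P, g p) ^ 2 ≤ ∑ p ∈ P, ∑ q ∈ P, (if (if p = q then p else p * q) ∣ n + 1 then (1:ℝ) else 0) := by
      rw [sq, Finset.sum_mul_sum]
      refine Finset.sum_le_sum fun p hp => Finset.sum_le_sum fun q hq => ?_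
      have hle : ∀ p, g p ≤ if p ∣ n + 1 then 1 else 0 := by
        intro p
        rw [hg]
        simp only
        split_ifs <;> norm_num
      by_cases hpq : p = q
      · rw [if_pos hpq, ← hpq]
        calc g p * g p ≤ g p * 1 := mul_le_mul_of_nonneg_left (hg1 p) (hg0 p)
          _ ≤ _ := by rw [mul_one]; exact hle p
      · rw [if_neg hpq]
        by_cases h1 : p ∣ n + 1
        · by_cases h2 : q ∣ n + 1
          · have h3 : p * q ∣ n + 1 := by
              refine Nat.Coprime.mul_dvd_of_dvd_of_dvd ?_ h1 h2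
              exact (Nat.coprime_primes (hP p hp).1 (hP q hq).1).2 hpq
            rw [if_pos h3]
            calc g p * g q ≤ 1 * 1 := mul_le_mul (hg1 p) (hg1 q) (hg0 q) zero_le_one
              _ = 1 := one_mul 1
          · have := hle q
            rw [if_neg h2] at this
            have h4 : g q = 0 := le_antisymm this (hg0 q)
            rw [h4, mul_zero]
            split_ifs <;> norm_num
        · have := hle p
          rw [if_neg h1] at this
          have h4 : g p = 0 := le_antisymm this (hg0 p)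
          rw [h4, zero_mul]
          split_ifs <;> norm_num
    have hsq : (1 - (∑ p ∈ P, g p) / S) ^ 2 ≤ 1 - (2 / S) * (∑ p ∈ P, g p) + (1 / S ^ 2) * (∑ p ∈ P, ∑ q ∈ P,
        (if (if p = q then p else p * q) ∣ n + 1 then (1:ℝ) else 0)) := by
      have h1 : (1 - (∑ p ∈ P, g p) / S) ^ 2 = 1 - (2 / S) * (∑ p ∈ P, g p) + (1 / S ^ 2) * (∑ p ∈ P, g p) ^ 2 := by
        field_simp
        ring
      rw [h1]
      have h2 := mul_le_mul_of_nonneg_left hgg (show 0 ≤ 1 / S ^ 2 by positivity)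
      linarith
    rw [hH1, ← he]
    by_cases ha : a (n + 1) ≠ 0
    · rw [if_pos ha]
      have hz : ∀ p ∈ P, g p = 0 := by
        intro p hp
        rw [hg]
        simp only
        by_cases h1 : p ∣ n + 1
        · by_cases h2 : p ^ 2 ∣ n + 1
          · simp [h1, h2]
          · exfalso
            apply ha
            obtain ⟨m, hm⟩ := h1
            have hcop : Nat.Coprime p m := by
              rw [(hP p hp).1.coprime_iff_not_dvd]
              rintro ⟨k, rfl⟩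
              exact h2 ⟨k, by rw [hm]; ring⟩
            have hm0 : 0 < m := by
              rcases Nat.eq_zero_or_pos m with h | h
              · rw [h, mul_zero] at hm; omega
              · exact h
            rw [hm, D.mul p m (hpos p hp) hm0 hcop, (hP p hp).2, zero_mul]
        · have h2 : ¬ p ^ 2 ∣ n + 1 := fun h => h1 ((dvd_pow_self p two_ne_zero).trans h)
          simp [h1, h2]
      have h0 : ∑ p ∈ P, g p = 0 := Finset.sum_eq_zero hz
      have h1 := hsq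
      rw [h0] at h1 ⊢
      have h2 : (1 - 0 / S) ^ 2 = (1:ℝ) := by simp
      rw [h2] at h1
      calc e = e * 1 := (mul_one e).symm
        _ ≤ _ := mul_le_mul_of_nonneg_left h1 he0.le
    · rw [if_neg ha]
      exact mul_nonneg he0.le ((sq_nonneg _).trans hsq)
  have hnn : ∀ n : ℕ, 0 ≤ (if a (n + 1) ≠ 0 then Real.exp (-(x * ((n : ℝ) + 1))) else 0) := by
    intro n
    split_ifs
    · positivity
    · exact le_rfl
  have hsum := Summable.of_nonneg_of_le hnn hpt hHs.summable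
  refine ⟨hsum, (hsum.tsum_le_tsum hpt hHs.summable).trans ?_⟩
  rw [hHs.tsum_eq]
  -- bound
  have b1 : One_E x 1 ≤ 1 / x := by
    have := One_E_le hx one_pos
    simpa using this
  have b2 : S / x - P.card - C0 / x ≤ ∑ p ∈ P, (One_E x p - One_E x (p ^ 2)) := by
    have h1 : ∑ p ∈ P, (1 / (p:ℝ) / x - 1 - 1 / (p:ℝ) ^ 2 / x) ≤ ∑ p ∈ P, (One_E x p - One_E x (p ^ 2)) := by
      refine Finset.sum_le_sum fun p hp => ?_
      have h2 := One_E_ge hx (hpos p hp)
      have h3 := One_E_le hx (pow_pos (hpos p hp) 2)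
      rw [← div_div] at h2 h3
      push_cast at h3
      linarith
    refine le_trans ?_ h1
    rw [Finset.sum_sub_distrib, Finset.sum_sub_distrib, ← Finset.sum_div, ← Finset.sum_div, ← hS,
      Finset.sum_const, nsmul_eq_mul, mul_one]
    have : (∑ p ∈ P, 1 / (p:ℝ) ^ 2) / x ≤ C0 / x := div_le_div_of_nonneg_right hC0 hx.le
    linarith
  have b3 : ∑ p ∈ P, ∑ q ∈ P, One_E x (if p = q then p else p * q) ≤ S ^ 2 / x + S / x := by
    have h1 : ∑ p ∈ P, ∑ q ∈ P, One_E x (if p = q then p else p * q) ≤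
        ∑ p ∈ P, ∑ q ∈ P, (1 / (p:ℝ) * (1 / (q:ℝ)) / x + if p = q then 1 / (p:ℝ) / x else 0) := by
      refine Finset.sum_le_sum fun p hp => Finset.sum_le_sum fun q hq => ?_
      have hp' : (0:ℝ) < p := by exact_mod_cast hpos p hp
      have hq' : (0:ℝ) < q := by exact_mod_cast hpos q hq
      by_cases hpq : p = q
      · rw [if_pos hpq, if_pos hpq]
        have h2 := One_E_le hx (hpos p hp)
        rw [← div_div] at h2
        have : 0 ≤ 1 / (p:ℝ) * (1 / (q:ℝ)) / x := by positivity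
        linarith
      · rw [if_neg hpq, if_neg hpq, add_zero]
        have h2 := One_E_le hx (Nat.mul_pos (hpos p hp) (hpos q hq))
        push_cast at h2
        refine h2.trans (le_of_eq ?_)
        field_simp
    refine h1.trans (le_of_eq ?_)
    simp only [Finset.sum_add_distrib]
    congr 1
    · rw [hS, sq, Finset.sum_mul_sum, Finset.sum_div]
      refine Finset.sum_congr rfl fun p _ => ?_
      rw [Finset.sum_div]
    · rw [hS, Finset.sum_div]
      refine Finset.sum_congr rfl fun p hp => ?_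
      rw [Finset.sum_ite_eq P p, if_pos hp]
  have c2 := mul_le_mul_of_nonneg_left b2 (show 0 ≤ 2 / S by positivity)
  have c3 := mul_le_mul_of_nonneg_left b3 (show 0 ≤ 1 / S ^ 2 by positivity)
  have e2 : 2 / S * (S / x - P.card - C0 / x) = 2 / x - 2 * P.card / S - 2 * C0 / S / x := by
    field_simp
  have e3 : 1 / S ^ 2 * (S ^ 2 / x + S / x) = 1 / x + 1 / S / x := by
    field_simp
  rw [e2] at c2
  rw [e3] at c3
  have e4 : (2 * C0 + 1) / S / x = 2 * C0 / S / x + 1 / S / x := by ring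
  rw [e4]
  have e5 : (2:ℝ) / x = 1 / x + 1 / x := by ring
  linarith

open Classical in
theorem One_sparse2 {N : ℕ} {a : ℕ → ℂ} {L : ℂ → ℂ} (D : NR.Dat N a L) {δ : ℝ} (hδ : 0 < δ) :
    ∃ K : ℝ, 0 ≤ K ∧ ∀ x : ℝ, 0 < x →
    Summable (fun n : ℕ => if a (n + 1) ≠ 0 then Real.exp (-(x * ((n : ℝ) + 1))) else 0) ∧
    ∑' n : ℕ, (if a (n + 1) ≠ 0 then Real.exp (-(x * ((n : ℝ) + 1))) else 0) ≤ δ / x + K := by
  obtain ⟨m, r, hm, hr, hz⟩ := D.ze
  have hdiv := NR.div_res hm hr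
  have hnn : ∀ n : ℕ, 0 ≤ (if n.Prime ∧ n ≡ r [MOD m] then ((n : ℝ))⁻¹ else 0) := by
    intro n
    split_ifs
    · positivity
    · exact le_rfl
  rw [not_summable_iff_tendsto_nat_atTop_of_nonneg hnn] at hdiv
  obtain ⟨C0, hC0⟩ : ∃ C0 : ℝ, C0 = ∑' n : ℕ, 1 / (n : ℝ) ^ 2 := ⟨_, rfl⟩
  have hsq : Summable (fun n : ℕ => 1 / (n : ℝ) ^ 2) := Real.summable_one_div_nat_pow.2 one_lt_two
  have hC00 : 0 ≤ C0 := by rw [hC0]; exact tsum_nonneg fun n => by positivity
  obtain ⟨M, hM⟩ := ((tendsto_atTop.1 hdiv) ((2 * C0 + 1) / δ)).exists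
  obtain ⟨P, hPd⟩ : ∃ P : Finset ℕ, P = (Finset.range M).filter (fun n => n.Prime ∧ n ≡ r [MOD m]) := ⟨_, rfl⟩
  have hP : ∀ p ∈ P, p.Prime ∧ a p = 0 := by
    intro p hp
    rw [hPd, Finset.mem_filter] at hp
    exact ⟨hp.2.1, hz p hp.2.1 hp.2.2⟩
  obtain ⟨S, hS⟩ : ∃ S : ℝ, S = ∑ p ∈ P, 1 / (p : ℝ) := ⟨_, rfl⟩
  have hSM : (2 * C0 + 1) / δ ≤ S := by
    refine hM.trans (le_of_eq ?_)
    rw [hS, hPd, Finset.sum_filter]
    refine Finset.sum_congr rfl fun n _ => ?_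
    rw [one_div]
  have hS0 : 0 < S := lt_of_lt_of_le (by positivity) hSM
  have hC : ∑ p ∈ P, 1 / (p : ℝ) ^ 2 ≤ C0 := by
    rw [hC0]
    exact hsq.sum_le_tsum P fun n _ => by positivity
  refine ⟨2 * P.card / S, by positivity, fun x hx => ?_⟩
  obtain ⟨h1, h2⟩ := One_sparse D.toPre hP hS hS0 hC hx
  refine ⟨h1, h2.trans ?_⟩
  have h3 : (2 * C0 + 1) / S ≤ δ := by
    rw [div_le_iff₀ hδ] at hSM
    rw [div_le_iff₀ hS0]
    linarith
  have h4 : (2 * C0 + 1) / S / x ≤ δ / x := div_le_div_of_nonneg_right h3 hx.le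
  linarith

/-- the mean value of the coefficients is small -/
theorem One_small {N : ℕ} {a : ℕ → ℂ} {L : ℂ → ℂ} (D : NR.Dat N a L) {δ : ℝ} (hδ : 0 < δ) :
    ∃ K : ℝ, 0 ≤ K ∧ ∀ x : ℝ, 0 < x →
    Summable (fun n : ℕ => ‖a (n + 1)‖ * Real.exp (-(x * ((n : ℝ) + 1)))) ∧
    ∑' n : ℕ, ‖a (n + 1)‖ * Real.exp (-(x * ((n : ℝ) + 1))) ≤ δ / x + K := by
  classical
  obtain ⟨C, hC, hms⟩ := D.ms
  obtain ⟨l, hl⟩ : ∃ l : ℝ, l = δ / (C + 1) := ⟨_, rfl⟩
  have hl0 : 0 < l := by rw [hl]; positivity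
  obtain ⟨K, hK, h⟩ := One_sparse2 D (δ := δ * l) (by positivity)
  refine ⟨K / (2 * l), by positivity, fun x hx => ?_⟩
  obtain ⟨h1, h2⟩ := h x hx
  have hs2 : Summable (fun n : ℕ => ‖a (n + 1)‖ ^ 2 * Real.exp (-(x * ((n : ℝ) + 1)))) := by
    have hb : ∀ n : ℕ, ‖a (n + 1)‖ ^ 2 * Real.exp (-(x * ((n : ℝ) + 1))) ≤
        ((n + 1 : ℕ) : ℝ) ^ 2 * Real.exp (-x) ^ (n + 1) := by
      intro n
      have h3 : ‖a (n + 1)‖ ≤ ((n + 1 : ℕ) : ℝ) := by
        refine (D.bd (n + 1) (Nat.succ_pos n)).trans ?_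
        exact_mod_cast Nat.card_divisors_le_self (n + 1)
      have h4 : Real.exp (-(x * ((n : ℝ) + 1))) = Real.exp (-x) ^ (n + 1) := by
        rw [← Real.exp_nat_mul]
        congr 1
        push_cast
        ring
      rw [h4]
      gcongr
    refine Summable.of_nonneg_of_le (fun n => by positivity) hb ?_
    have h5 := summable_pow_mul_geometric_of_norm_lt_one 2 (r := Real.exp (-x)) (by
      rw [Real.norm_of_nonneg (Real.exp_pos _).le, Real.exp_lt_one_iff]
      linarith)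
    exact (summable_nat_add_iff 1).2 h5
  have hpt : ∀ n : ℕ, ‖a (n + 1)‖ * Real.exp (-(x * ((n : ℝ) + 1))) ≤
      l / 2 * (‖a (n + 1)‖ ^ 2 * Real.exp (-(x * ((n : ℝ) + 1)))) +
      1 / (2 * l) * (if a (n + 1) ≠ 0 then Real.exp (-(x * ((n : ℝ) + 1))) else 0) := by
    intro n
    by_cases ha : a (n + 1) = 0
    · simp [ha]
    · rw [if_pos ha]
      have he := Real.exp_pos (-(x * ((n : ℝ) + 1)))
      have h3 : ‖a (n + 1)‖ ≤ l / 2 * ‖a (n + 1)‖ ^ 2 + 1 / (2 * l) := by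
        have h4 : 0 ≤ (l * ‖a (n + 1)‖ - 1) ^ 2 / (2 * l) := by positivity
        have h5 : (l * ‖a (n + 1)‖ - 1) ^ 2 / (2 * l) = l / 2 * ‖a (n + 1)‖ ^ 2 + 1 / (2 * l) - ‖a (n + 1)‖ := by
          field_simp
          ring
        rw [h5] at h4
        linarith
      calc ‖a (n + 1)‖ * Real.exp (-(x * ((n : ℝ) + 1)))
          ≤ (l / 2 * ‖a (n + 1)‖ ^ 2 + 1 / (2 * l)) * Real.exp (-(x * ((n : ℝ) + 1))) :=
            mul_le_mul_of_nonneg_right h3 he.le
        _ = _ := by ring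
  have hsb := (hs2.mul_left (l / 2)).add (h1.mul_left (1 / (2 * l)))
  have hs1 := Summable.of_nonneg_of_le (fun n => by positivity) hpt hsb
  refine ⟨hs1, (hs1.tsum_le_tsum hpt hsb).trans ?_⟩
  rw [(hs2.mul_left (l / 2)).tsum_add (h1.mul_left (1 / (2 * l))), tsum_mul_left, tsum_mul_left]
  have h3 := mul_le_mul_of_nonneg_left (hms x hx) (show 0 ≤ l / 2 by positivity)
  have h4 := mul_le_mul_of_nonneg_left h2 (show 0 ≤ 1 / (2 * l) by positivity)
  have e1 : l / 2 * (C / x) ≤ δ / 2 / x := by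
    rw [hl]
    have : δ / (C + 1) / 2 * (C / x) = (δ / 2 / x) * (C / (C + 1)) := by ring
    rw [this]
    have h5 : C / (C + 1) ≤ 1 := by rw [div_le_one (by positivity)]; linarith
    have h6 : 0 ≤ δ / 2 / x := by positivity
    calc δ / 2 / x * (C / (C + 1)) ≤ δ / 2 / x * 1 := mul_le_mul_of_nonneg_left h5 h6
      _ = _ := mul_one _
  have e2 : 1 / (2 * l) * (δ * l / x + K) = δ / 2 / x + K / (2 * l) := by
    field_simp
  rw [e2] at h4
  have e3 : δ / x = δ / 2 / x + δ / 2 / x := by ring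
  linarith

theorem One_Rf {N : ℕ} {a : ℕ → ℂ} {L : ℂ → ℂ} (D : NR.Dat N a L) {δ : ℝ} (hδ : 0 < δ) :
    ∃ K : ℝ, 0 ≤ K ∧ ∀ ε : ℝ, 0 < ε → ε ≤ 1 / 2 → ‖∫ t : ℝ, Rf N L ε t‖ ≤ δ / ε + K := by
  have hθ := NR.E2_tht D.pos
  obtain ⟨θ, hθd⟩ : ∃ θ, θ = FF.tht N 1 := ⟨_, rfl⟩
  rw [← hθd] at hθ
  have hpi := Real.pi_pos
  obtain ⟨K, hK, h⟩ := One_small D (δ := δ * (4 * θ) / (2 * π)) (by positivity)
  refine ⟨2 * π * K, by positivity, fun ε h0 h1 => ?_⟩
  have hm := NR.mellin_f D h0 h1 0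
  have e1 : (∫ t : ℝ, Rf N L ε t * exp (-(t * ((0:ℝ) : ℂ) * I))) = ∫ t : ℝ, Rf N L ε t := by
    refine integral_congr_ae (Eventually.of_forall fun t => ?_)
    simp
  rw [e1, zero_div, Real.exp_zero, ofReal_one, one_mul, ← hθd] at hm
  have hpc : (2 * (π : ℂ)) ≠ 0 := by
    have : (π : ℂ) ≠ 0 := by exact_mod_cast hpi.ne'
    exact mul_ne_zero two_ne_zero this
  have e2 : (∫ t : ℝ, Rf N L ε t) = 2 * (π : ℂ) * II.FE a θ ε 1 := by
    rw [← hm]
    field_simp
  have hx : 0 < 4 * θ * ε := by positivity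
  obtain ⟨h2, h3⟩ := h (4 * θ * ε) hx
  have hre : (II.om ε).re = Real.sin ε := by
    unfold II.om
    rw [exp_ofReal_mul_I_re, Real.cos_pi_div_two_sub]
  have hsin : 2 / π * ε ≤ Real.sin ε := Real.mul_le_sin h0.le (by
    have := Real.pi_gt_three
    linarith)
  have hterm : ∀ n : ℕ, ‖a (n + 1) * exp (-(2 * π * θ * ((n : ℂ) + 1) * ((1:ℝ) : ℂ) * II.om ε))‖ ≤
      ‖a (n + 1)‖ * Real.exp (-(4 * θ * ε * ((n : ℝ) + 1))) := by
    intro n
    rw [norm_mul, Complex.norm_exp]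
    refine mul_le_mul_of_nonneg_left (Real.exp_le_exp.2 ?_) (norm_nonneg _)
    have e3 : (-(2 * π * θ * ((n : ℂ) + 1) * ((1:ℝ) : ℂ) * II.om ε)).re =
        -(2 * π * θ * ((n : ℝ) + 1) * (II.om ε).re) := by
      have : (-(2 * π * θ * ((n : ℂ) + 1) * ((1:ℝ) : ℂ) * II.om ε)) =
          ((-(2 * π * θ * ((n : ℝ) + 1)) : ℝ) : ℂ) * II.om ε := by
        push_cast
        ring
      rw [this, re_ofReal_mul]
      ring
    rw [e3, hre]
    have h4 : 4 * θ * ε * ((n : ℝ) + 1) = 2 * π * θ * ((n : ℝ) + 1) * (2 / π * ε) := by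
      field_simp
      ring
    rw [h4]
    have h5 : 0 ≤ 2 * π * θ * ((n : ℝ) + 1) := by positivity
    have := mul_le_mul_of_nonneg_left hsin h5
    linarith
  have hsn := Summable.of_nonneg_of_le (fun n => norm_nonneg _) hterm h2
  have hFE : ‖II.FE a θ ε 1‖ ≤ δ * (4 * θ) / (2 * π) / (4 * θ * ε) + K := by
    unfold II.FE
    exact (norm_tsum_le_tsum_norm hsn).trans ((hsn.tsum_le_tsum hterm h2).trans h3)
  rw [e2, norm_mul]
  have e4 : ‖(2 * (π : ℂ))‖ = 2 * π := by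
    rw [norm_mul, Complex.norm_two, norm_real, Real.norm_of_nonneg hpi.le]
  rw [e4]
  calc 2 * π * ‖II.FE a θ ε 1‖ ≤ 2 * π * (δ * (4 * θ) / (2 * π) / (4 * θ * ε) + K) :=
        mul_le_mul_of_nonneg_left hFE (by positivity)
    _ = δ / ε + 2 * π * K := by
        field_simp

theorem One_sign {N : ℕ} {a : ℕ → ℂ} {L : ℂ → ℂ} (D : NR.Dat N a L) {u : ℂ} {v W : ℝ → ℂ} {C : ℝ}
    (hp : NR.Ph N L u v W C) (hfin : {g : ℝ | 0 < g ∧ Odd (analyticOrderNatAt L (1 / 2 + g * I))}.Finite) :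
    ∃ T0 : ℝ, 0 < T0 ∧ ((∀ t, T0 < t → 0 ≤ NR.Zf L v t) ∨ (∀ t, T0 < t → NR.Zf L v t ≤ 0)) := by
  obtain ⟨T0, hT0, hev⟩ : ∃ T0 : ℝ, 0 < T0 ∧ ∀ t : ℝ, T0 < t → Even (analyticOrderNatAt L (1 / 2 + t * I)) := by
    obtain ⟨M, hM⟩ := hfin.bddAbove
    refine ⟨max M 1, lt_of_lt_of_le one_pos (le_max_right _ _), ?_⟩
    intro t ht
    by_contra hodd
    rw [Nat.not_even_iff_odd] at hodd
    have hmem := hM (show t ∈ {g : ℝ | 0 < g ∧ Odd (analyticOrderNatAt L (1 / 2 + g * I))} from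
        ⟨lt_of_lt_of_le one_pos ((le_max_right M 1).trans ht.le), hodd⟩)
    exact absurd (lt_of_le_of_lt (le_max_left M 1) ht) (not_lt.mpr hmem)
  refine ⟨T0, hT0, ?_⟩
  have hv : ∀ t, v t ≠ 0 := by
    intro t h
    have := hp.nv t
    rw [h, norm_zero] at this
    norm_num at this
  have key : ∀ b : ℝ, (∀ t ∈ Ioo T0 b, 0 ≤ NR.Zf L v t) ∨ (∀ t ∈ Ioo T0 b, NR.Zf L v t ≤ 0) := by
    intro b
    refine OO.F_sign L v (fun t => NR.Zf L v t) hp.cv hv (fun t => (NR.Zf_abs hp t).2)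
      (fun t => D.ent.analyticAt _) (fun t => P04_topL D _) T0 b ?_
    intro t ht
    exact hev t ht.1
  by_contra hcon
  push Not at hcon
  obtain ⟨⟨a', ha, ha'⟩, b, hb, hb'⟩ := hcon
  rcases key (max a' b + 1) with h | h
  · exact absurd (h a' ⟨ha, lt_of_le_of_lt (le_max_left a' b) (lt_add_one _)⟩) (not_le.mpr ha')
  · exact absurd (h b ⟨hb, lt_of_le_of_lt (le_max_right a' b) (lt_add_one _)⟩) (not_le.mpr hb')

theorem One_pow_exp (a : ℝ) (ha : 0 < a) (n : ℕ) :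
    ∃ C : ℝ, 0 ≤ C ∧ ∀ t : ℝ, (1 + |t|) ^ n * Real.exp (-(a * |t|)) ≤ C := by
  refine ⟨(n.factorial : ℝ) / a ^ n * Real.exp a, by positivity, fun t => ?_⟩
  have h0 : 0 ≤ |t| := abs_nonneg t
  have h1 : (a * (1 + |t|)) ^ n / n.factorial ≤ Real.exp (a * (1 + |t|)) :=
    Real.pow_div_factorial_le_exp _ (by positivity) n
  have hf : (0 : ℝ) < n.factorial := by exact_mod_cast n.factorial_pos
  have han : 0 < a ^ n := by positivity
  have h2 : (1 + |t|) ^ n ≤ (n.factorial : ℝ) / a ^ n * Real.exp (a * (1 + |t|)) := by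
    rw [div_le_iff₀ hf, mul_pow] at h1
    rw [div_mul_eq_mul_div, le_div_iff₀ han]
    linarith
  calc (1 + |t|) ^ n * Real.exp (-(a * |t|))
      ≤ (n.factorial : ℝ) / a ^ n * Real.exp (a * (1 + |t|)) * Real.exp (-(a * |t|)) :=
        mul_le_mul_of_nonneg_right h2 (Real.exp_pos _).le
    _ = (n.factorial : ℝ) / a ^ n * Real.exp a := by
        rw [mul_assoc, ← Real.exp_add]
        congr 2
        ring

theorem One_int (a : ℝ) (ha : 0 < a) (n : ℕ) :
    Integrable (fun t : ℝ => (1 + |t|) ^ n * Real.exp (-(a * |t|))) := by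
  obtain ⟨C, hC0, hC⟩ := One_pow_exp a ha (n + 2)
  have hi : Integrable (fun t : ℝ => C * (1 + t ^ 2)⁻¹) := integrable_inv_one_add_sq.const_mul C
  refine hi.mono' (by fun_prop) (Eventually.of_forall fun t => ?_)
  have h0 : 0 ≤ |t| := abs_nonneg t
  rw [Real.norm_of_nonneg (by positivity)]
  have h1 := hC t
  have h2 : (0:ℝ) < 1 + t ^ 2 := by positivity
  rw [← div_eq_mul_inv, le_div_iff₀ h2]
  refine le_trans ?_ h1
  have h3 : 1 + t ^ 2 ≤ (1 + |t|) ^ 2 := by
    have : |t| ^ 2 = t ^ 2 := sq_abs t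
    nlinarith
  calc (1 + |t|) ^ n * Real.exp (-(a * |t|)) * (1 + t ^ 2)
      ≤ (1 + |t|) ^ n * Real.exp (-(a * |t|)) * (1 + |t|) ^ 2 :=
        mul_le_mul_of_nonneg_left h3 (by positivity)
    _ = _ := by rw [pow_add]; ring

/-- constant sign: the integral of abs r2 is at most the abs of the integral of Rf, up to a constant -/
theorem One_up {N : ℕ} {a : ℕ → ℂ} {L : ℂ → ℂ} (D : NR.Dat N a L) {u : ℂ} {v W : ℝ → ℂ} {C0 : ℝ}
    (hp : NR.Ph N L u v W C0) {T0 : ℝ} (hT0 : 0 < T0)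
    (hs : (∀ t, T0 < t → 0 ≤ NR.Zf L v t) ∨ (∀ t, T0 < t → NR.Zf L v t ≤ 0)) :
    ∃ K : ℝ, 0 ≤ K ∧ ∀ ε : ℝ, 0 < ε → ε ≤ 1 / 2 → Integrable (fun t => NR.r2 N L v ε t) ∧
      ∫ t in Ioi T0, |NR.r2 N L v ε t| ≤ ‖∫ t : ℝ, Rf N L ε t‖ + K := by
  obtain ⟨K1, hK1, hW⟩ := NR.r2_W D hp
  obtain ⟨C, hC, hr⟩ := NR.r2_le D
  refine ⟨(∫ t : ℝ, K1 * ((1 + |t|) ^ 4 * Real.exp (-(1 * |t|)))) +
    ∫ t : ℝ, C * Real.exp T0 * ((1 + |t|) ^ 4 * Real.exp (-(1 * |t|))),
    add_nonneg (integral_nonneg fun t => by positivity) (integral_nonneg fun t => by positivity),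
    fun ε h0 h1 => ?_⟩
  obtain ⟨r, hrd⟩ : ∃ r : ℝ → ℝ, r = fun t => NR.r2 N L v ε t := ⟨_, rfl⟩
  have hrc : Continuous r := by rw [hrd]; exact NR.r2_cont D hp.cv ε
  have hri : Integrable r := by
    refine ((One_int ε h0 4).const_mul C).mono' hrc.aestronglyMeasurable (Eventually.of_forall fun t => ?_)
    rw [Real.norm_eq_abs, hrd]
    refine ((hr v ε hp.nv h0 h1 t).1).trans (le_of_eq (by ring))
  have hrI : Integrable (fun t => NR.r2 N L v ε t) := by rw [← hrd]; exact hri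
  refine ⟨hrI, ?_⟩
  obtain ⟨c, hcd⟩ : ∃ c : ℂ, c = u * exp (((π / 2 - ε : ℝ) : ℂ) * I / 2) := ⟨_, rfl⟩
  have hc1 : ‖c‖ = 1 := by
    rw [hcd, norm_mul, hp.nu, one_mul, Complex.norm_exp]
    simp
  have e1 : ∀ t, c * Rf N L ε t = ((r t : ℝ) : ℂ) * W t := by
    intro t
    rw [hcd, hrd]
    exact NR.Rf_r2 D.pos hp h0 h1 t
  have hint1 : Integrable (fun t => ((r t : ℝ) : ℂ) * W t) := by
    have : (fun t => ((r t : ℝ) : ℂ) * W t) = fun t => c * Rf N L ε t := by
      funext t; exact (e1 t).symm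
    refine (hri.norm).mono' ?_ (Eventually.of_forall fun t => ?_)
    · rw [this]
      exact (continuous_const.mul (NR.Rf_cont D ε)).aestronglyMeasurable
    · rw [norm_mul, hp.nW t, mul_one, norm_real]
  have hint2 : Integrable (fun t => ((r t : ℝ) : ℂ)) := hri.ofReal
  have e2 : ‖∫ t : ℝ, Rf N L ε t‖ = ‖∫ t : ℝ, ((r t : ℝ) : ℂ) * W t‖ := by
    have : (∫ t : ℝ, ((r t : ℝ) : ℂ) * W t) = c * ∫ t : ℝ, Rf N L ε t := by
      rw [← integral_const_mul]
      exact integral_congr_ae (Eventually.of_forall fun t => (e1 t).symm)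
    rw [this, norm_mul, hc1, one_mul]
  have e3 : ‖(∫ t : ℝ, ((r t : ℝ) : ℂ) * W t) - ∫ t : ℝ, ((r t : ℝ) : ℂ)‖ ≤
      ∫ t : ℝ, K1 * ((1 + |t|) ^ 4 * Real.exp (-(1 * |t|))) := by
    rw [← integral_sub hint1 hint2]
    refine norm_integral_le_of_norm_le ((One_int 1 one_pos 4).const_mul K1) (Eventually.of_forall fun t => ?_)
    have : ((r t : ℝ) : ℂ) * W t - ((r t : ℝ) : ℂ) = ((r t : ℝ) : ℂ) * (W t - 1) := by ring
    rw [this, norm_mul, norm_real, Real.norm_eq_abs, one_mul, hrd]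
    exact hW ε h0 h1 t
  have e4 : |∫ t, r t| ≤ ‖∫ t : ℝ, Rf N L ε t‖ + ∫ t : ℝ, K1 * ((1 + |t|) ^ 4 * Real.exp (-(1 * |t|))) := by
    have h2 : ‖∫ t : ℝ, ((r t : ℝ) : ℂ)‖ = |∫ t, r t| := by
      rw [integral_complex_ofReal, norm_real, Real.norm_eq_abs]
    rw [← h2, e2]
    have h3 := norm_sub_norm_le (∫ t : ℝ, ((r t : ℝ) : ℂ)) (∫ t : ℝ, ((r t : ℝ) : ℂ) * W t)
    rw [norm_sub_rev] at h3
    linarith
  have e5 : ‖∫ t in Iic T0, r t‖ ≤ ∫ t : ℝ, C * Real.exp T0 * ((1 + |t|) ^ 4 * Real.exp (-(1 * |t|))) := by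
    have hi : Integrable (fun t : ℝ => C * Real.exp T0 * ((1 + |t|) ^ 4 * Real.exp (-(1 * |t|)))) :=
      (One_int 1 one_pos 4).const_mul _
    calc ‖∫ t in Iic T0, r t‖
        ≤ ∫ t in Iic T0, C * Real.exp T0 * ((1 + |t|) ^ 4 * Real.exp (-(1 * |t|))) := by
          refine norm_integral_le_of_norm_le hi.integrableOn ?_
          refine (ae_restrict_iff' measurableSet_Iic).mpr (Eventually.of_forall fun t ht => ?_)
          have ht' : t ≤ T0 := ht
          rw [Real.norm_eq_abs, hrd, one_mul]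
          obtain ⟨b1, b2⟩ := hr v ε hp.nv h0 h1 t
          rcases le_or_gt t 0 with h | h
          · refine (b2 h).trans ?_
            have h3 : 1 ≤ Real.exp T0 := Real.one_le_exp hT0.le
            have h4 : 0 ≤ C * ((1 + |t|) ^ 4 * Real.exp (-|t|)) := by positivity
            calc C * (1 + |t|) ^ 4 * Real.exp (-|t|) = 1 * (C * ((1 + |t|) ^ 4 * Real.exp (-|t|))) := by ring
              _ ≤ Real.exp T0 * (C * ((1 + |t|) ^ 4 * Real.exp (-|t|))) := mul_le_mul_of_nonneg_right h3 h4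
              _ = _ := by ring
          · refine b1.trans ?_
            have h3 : Real.exp (-(ε * |t|)) ≤ Real.exp T0 * Real.exp (-|t|) := by
              rw [← Real.exp_add]
              refine Real.exp_le_exp.2 ?_
              rw [abs_of_pos h]
              nlinarith
            calc C * (1 + |t|) ^ 4 * Real.exp (-(ε * |t|)) ≤
                  C * (1 + |t|) ^ 4 * (Real.exp T0 * Real.exp (-|t|)) :=
                  mul_le_mul_of_nonneg_left h3 (by positivity)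
              _ = _ := by ring
      _ ≤ _ := setIntegral_le_integral hi (Eventually.of_forall fun t => by positivity)
  have hsplit : ∫ t in Ioi T0, r t = (∫ t, r t) - ∫ t in Iic T0, r t := by
    have := integral_add_compl (measurableSet_Ioi (a := T0)) hri
    rw [compl_Ioi] at this
    linarith
  have hfac : ∀ t, ∃ w : ℝ, 0 ≤ w ∧ r t = w * NR.Zf L v t := by
    intro t
    refine ⟨Real.exp ((π / 2 - ε) * t) * (√(√N / (2 * π)) * √(π / Real.cosh (π * t))), by positivity, ?_⟩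
    rw [hrd]
    unfold NR.r2
    ring
  have habs : ∫ t in Ioi T0, |r t| = |∫ t in Ioi T0, r t| := by
    rcases hs with hs | hs
    · have hpos : ∀ t, T0 < t → 0 ≤ r t := by
        intro t ht
        obtain ⟨w, hw, hw2⟩ := hfac t
        rw [hw2]
        exact mul_nonneg hw (hs t ht)
      rw [abs_of_nonneg]
      · exact setIntegral_congr_fun measurableSet_Ioi fun t ht => by
          simp only [abs_of_nonneg (hpos t ht)]
      · exact setIntegral_nonneg measurableSet_Ioi fun t ht => hpos t ht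
    · have hneg : ∀ t, T0 < t → r t ≤ 0 := by
        intro t ht
        obtain ⟨w, hw, hw2⟩ := hfac t
        rw [hw2]
        exact mul_nonpos_of_nonneg_of_nonpos hw (hs t ht)
      rw [abs_of_nonpos, ← integral_neg]
      · exact setIntegral_congr_fun measurableSet_Ioi fun t ht => by
          simp only [abs_of_nonpos (hneg t ht)]
      · exact setIntegral_nonpos measurableSet_Ioi fun t ht => hneg t ht
  have e6 : ∫ t in Ioi T0, |NR.r2 N L v ε t| = ∫ t in Ioi T0, |r t| := by rw [hrd]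
  rw [e6, habs, hsplit]
  rw [Real.norm_eq_abs] at e5
  have := abs_sub (∫ t, r t) (∫ t in Iic T0, r t)
  linarith

/-- far to the right L is close to 1 -/
theorem One_far {N : ℕ} {a : ℕ → ℂ} {L : ℂ → ℂ} (D : NR.Dat N a L) :
    ∃ b : ℝ, 2 ≤ b ∧ ∀ s : ℂ, s.re = b → ‖L s - 1‖ ≤ 1 / 8 := by
  have hs2 := (D.ser 2 (by simp)).summable.norm
  set S0 : ℝ := ∑' n : ℕ, ‖a (n + 1) * ((n : ℂ) + 1) ^ (-(2 : ℂ))‖ with hS0
  have hS0n : 0 ≤ S0 := tsum_nonneg fun n => norm_nonneg _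
  obtain ⟨k, hk⟩ : ∃ k : ℕ, 8 * S0 < 2 ^ k := pow_unbounded_of_one_lt (8 * S0) (by norm_num)
  refine ⟨2 + k, by have : (0:ℝ) ≤ k := Nat.cast_nonneg k; linarith, fun s hs => ?_⟩
  have hser := D.ser s (by rw [hs]; have : (0:ℝ) ≤ k := Nat.cast_nonneg k; linarith)
  have hterm : ∀ n : ℕ, ‖a (n + 2) * (((n + 1 : ℕ) : ℂ) + 1) ^ (-s)‖ ≤
      ‖a (n + 2) * (((n + 1 : ℕ) : ℂ) + 1) ^ (-(2 : ℂ))‖ * (1 / 2 ^ k) := by
    intro n
    have hn : (0 : ℝ) < ((n + 1 : ℕ) : ℝ) + 1 := by positivity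
    have hcast : (((n + 1 : ℕ) : ℂ) + 1) = ((((n + 1 : ℕ) : ℝ) + 1 : ℝ) : ℂ) := by push_cast; rfl
    rw [norm_mul, norm_mul, hcast, Complex.norm_cpow_eq_rpow_re_of_pos hn,
      Complex.norm_cpow_eq_rpow_re_of_pos hn, mul_assoc]
    apply mul_le_mul_of_nonneg_left _ (norm_nonneg _)
    have e1 : (-s).re = (-(2 : ℂ)).re + -(k : ℝ) := by
      rw [neg_re, hs]
      simp
      ring
    rw [e1, Real.rpow_add hn]
    apply mul_le_mul_of_nonneg_left _ (by positivity)
    rw [Real.rpow_neg hn.le, Real.rpow_natCast, one_div]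
    apply inv_anti₀ (by positivity)
    apply pow_le_pow_left₀ (by norm_num)
    push_cast
    have : (0 : ℝ) ≤ n := by positivity
    linarith
  have hsplit := hser.summable.tsum_eq_zero_add
  rw [hser.tsum_eq] at hsplit
  have h0 : a (0 + 1) * (((0 : ℕ) : ℂ) + 1) ^ (-s) = 1 := by
    rw [zero_add, D.one]; simp
  rw [h0] at hsplit
  have hsum1 : Summable fun n : ℕ => ‖a (n + 1 + 1) * (((n + 1 : ℕ) : ℂ) + 1) ^ (-(2 : ℂ))‖ :=
    (summable_nat_add_iff 1).mpr hs2
  have hsum2 : Summable fun n : ℕ => ‖a (n + 1 + 1) * (((n + 1 : ℕ) : ℂ) + 1) ^ (-s)‖ :=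
    Summable.of_nonneg_of_le (fun n => norm_nonneg _) hterm (hsum1.mul_right _)
  have h1 : ‖∑' n : ℕ, a (n + 1 + 1) * (((n + 1 : ℕ) : ℂ) + 1) ^ (-s)‖ ≤ S0 * (1 / 2 ^ k) := by
    refine (norm_tsum_le_tsum_norm hsum2).trans ((hsum2.tsum_le_tsum hterm (hsum1.mul_right _)).trans ?_)
    rw [tsum_mul_right]
    apply mul_le_mul_of_nonneg_right _ (by positivity)
    rw [hS0, hs2.tsum_eq_zero_add]
    have := norm_nonneg (a (0 + 1) * (((0 : ℕ) : ℂ) + 1) ^ (-(2 : ℂ)))
    linarith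
  have h2 : L s - 1 = ∑' n : ℕ, a (n + 1 + 1) * (((n + 1 : ℕ) : ℂ) + 1) ^ (-s) := by
    rw [hsplit]; ring
  rw [h2]
  refine h1.trans ?_
  rw [mul_one_div, div_le_iff₀ (by positivity)]
  linarith

/-- the function w = exp(i η (s - 1/2)) and 1/(1+w) -/
theorem One_h {η : ℝ} {s : ℂ} (h1 : 0 ≤ η * (s.re - 1 / 2)) (h2 : η * (s.re - 1 / 2) ≤ 1) :
    ∃ w : ℂ, w = exp (I * η * (s - 1 / 2)) ∧ 1 + w ≠ 0 ∧ ‖(1 + w)⁻¹‖ ≤ 1 ∧
      ‖(1 + w)⁻¹‖ ≤ Real.exp (η * s.im) ∧ ‖(1 + w)⁻¹‖ / 2 ≤ ((1 + w)⁻¹).re ∧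
      (0 ≤ η * s.im → 1 / 2 ≤ ‖(1 + w)⁻¹‖) := by
  refine ⟨_, rfl, ?_⟩
  obtain ⟨w, hw⟩ : ∃ w, w = exp (I * η * (s - 1 / 2)) := ⟨_, rfl⟩
  rw [← hw]
  obtain ⟨ρ, hρ⟩ : ∃ ρ, ρ = Real.exp (-(η * s.im)) := ⟨_, rfl⟩
  obtain ⟨θ, hθ⟩ : ∃ θ, θ = η * (s.re - 1 / 2) := ⟨_, rfl⟩
  rw [← hθ] at h1 h2
  have hρ0 : 0 < ρ := by rw [hρ]; positivity
  have he : I * η * (s - 1 / 2) = ((-(η * s.im) : ℝ) : ℂ) + (θ : ℂ) * I := by
    rw [hθ]
    apply Complex.ext
    · simp
    · simp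
  have hnw : ‖w‖ = ρ := by
    rw [hw, Complex.norm_exp, he, hρ]
    simp
  have hrw : w.re = ρ * Real.cos θ := by
    rw [hw, he, exp_add, ← ofReal_exp, re_ofReal_mul, exp_ofReal_mul_I_re, hρ]
  have hcos : 1 / 2 ≤ Real.cos θ := by
    have h3 : Real.cos 1 ≤ Real.cos θ := Real.cos_le_cos_of_nonneg_of_le_pi h1 (by
      have := Real.pi_gt_three; linarith) h2
    have h4 := Real.cos_one_pos
    have h5 : (1:ℝ) / 2 ≤ Real.cos 1 := by
      have := Real.one_sub_sq_div_two_le_cos (x := 1)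
      linarith
    linarith
  have hre : 1 + ρ / 2 ≤ (1 + w).re := by
    rw [add_re, one_re, hrw]
    nlinarith
  have hne : 1 + w ≠ 0 := by
    intro h
    rw [h, zero_re] at hre
    linarith
  have hn0 : 0 < ‖1 + w‖ := norm_pos_iff.2 hne
  have hge1 : 1 ≤ ‖1 + w‖ := by
    have := (1 + w).re_le_norm
    linarith
  have hgeρ : ρ ≤ ‖1 + w‖ := by
    have h3 : ρ ^ 2 ≤ ‖1 + w‖ ^ 2 := by
      rw [← Complex.normSq_eq_norm_sq, Complex.normSq_apply, ← hnw, ← Complex.normSq_eq_norm_sq,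
        Complex.normSq_apply]
      simp only [add_re, one_re, add_im, one_im, zero_add]
      have h4 : 0 ≤ w.re := by rw [hrw]; have : 0 ≤ Real.cos θ := by linarith
                               positivity
      nlinarith
    exact abs_le_of_sq_le_sq' h3 (norm_nonneg _) |>.2
  have hle : ‖1 + w‖ ≤ 1 + ρ := by
    refine (norm_add_le _ _).trans ?_
    rw [norm_one, hnw]
  refine ⟨hne, ?_, ?_, ?_, fun h3 => ?_⟩
  · rw [norm_inv]
    exact inv_le_one_of_one_le₀ hge1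
  · rw [norm_inv]
    have : Real.exp (η * s.im) = ρ⁻¹ := by rw [hρ, Real.exp_neg, inv_inv]
    rw [this]
    exact inv_anti₀ hρ0 hgeρ
  · rw [norm_inv, Complex.inv_re, Complex.normSq_eq_norm_sq, div_le_div_iff₀ two_pos (by positivity)]
    have h4 : ‖1 + w‖⁻¹ * ‖1 + w‖ ^ 2 = ‖1 + w‖ := by field_simp
    rw [h4]
    linarith
  · rw [norm_inv, one_div]
    refine inv_anti₀ hn0 ?_
    have : ρ ≤ 1 := by
      rw [hρ, Real.exp_le_one_iff]
      linarith
    linarith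

/-- lower bound for the first moment with an exponential weight -/
theorem One_low {N : ℕ} {a : ℕ → ℂ} {L : ℂ → ℂ} (D : NR.Dat N a L) {T0 : ℝ} (hT0 : 0 < T0) :
    ∃ K e0 : ℝ, 0 ≤ K ∧ 0 < e0 ∧ ∀ ε : ℝ, 0 < ε → ε ≤ e0 →
      3 / 16 / ε ≤ (∫ t in Ioi T0, Real.exp (-(ε * t)) * ‖L (1 / 2 + t * I)‖) + K := by
  obtain ⟨b, hb, hfar⟩ := One_far D
  obtain ⟨C1, hC1, hgr⟩ := D.gr
  obtain ⟨η, hη⟩ : ∃ η : ℝ, η = 1 / b := ⟨_, rfl⟩
  have hb0 : 0 < b := by linarith
  have hη0 : 0 < η := by rw [hη]; positivity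
  have hηs : ∀ s : ℂ, 1 / 2 ≤ s.re → s.re ≤ b → 0 ≤ η * (s.re - 1 / 2) ∧ η * (s.re - 1 / 2) ≤ 1 := by
    intro s h1 h2
    refine ⟨mul_nonneg hη0.le (by linarith), ?_⟩
    calc η * (s.re - 1 / 2) ≤ η * b := mul_le_mul_of_nonneg_left (by linarith) hη0.le
      _ = 1 := by rw [hη]; field_simp
  obtain ⟨h, hh⟩ : ∃ h : ℂ → ℂ, h = fun s => (1 + exp (I * η * (s - 1 / 2)))⁻¹ := ⟨_, rfl⟩
  have hprop : ∀ s : ℂ, 1 / 2 ≤ s.re → s.re ≤ b → 1 + exp (I * η * (s - 1 / 2)) ≠ 0 ∧ ‖h s‖ ≤ 1 ∧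
      ‖h s‖ ≤ Real.exp (η * s.im) ∧ ‖h s‖ / 2 ≤ (h s).re ∧ (0 ≤ η * s.im → 1 / 2 ≤ ‖h s‖) := by
    intro s h1 h2
    obtain ⟨w, hw, q1, q2, q3, q4, q5⟩ := One_h (hηs s h1 h2).1 (hηs s h1 h2).2
    rw [hh]
    simp only
    rw [← hw]
    exact ⟨q1, q2, q3, q4, q5⟩
  obtain ⟨K, hKd⟩ : ∃ K : ℝ, K = ∫ t : ℝ, C1 * Real.exp (η * T0) * ((1 + |t|) ^ 2 * Real.exp (-(η / 2 * |t|))) :=
    ⟨_, rfl⟩
  refine ⟨K, η / 2, by rw [hKd]; exact integral_nonneg fun t => by positivity, by positivity, fun ε h0 h1 => ?_⟩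
  obtain ⟨M, hM⟩ : ∃ M : ℂ → ℂ, M = fun s => (s - 1) * (h s * exp ((ε : ℂ) * I * s) * L s) := ⟨_, rfl⟩
  have hMd : ∀ s : ℂ, 1 / 2 ≤ s.re → s.re ≤ b → DifferentiableAt ℂ M s := by
    intro s h1 h2
    have d1 : DifferentiableAt ℂ h s := by
      rw [hh]
      refine DifferentiableAt.inv ?_ (hprop s h1 h2).1
      fun_prop
    have d2 : DifferentiableAt ℂ (fun s : ℂ => exp ((ε : ℂ) * I * s)) s := by fun_prop
    have d3 : DifferentiableAt ℂ (fun s : ℂ => s - 1) s := by fun_prop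
    rw [hM]
    exact d3.mul ((d1.mul d2).mul (D.ent s))
  have hnexp : ∀ s : ℂ, ‖exp ((ε : ℂ) * I * s)‖ = Real.exp (-(ε * s.im)) := by
    intro s
    rw [Complex.norm_exp]
    congr 1
    simp
  have hhe : ∀ s : ℂ, 1 / 2 ≤ s.re → s.re ≤ b → ‖h s‖ * Real.exp (-(ε * s.im)) ≤ Real.exp (-(ε * |s.im|)) := by
    intro s h2 h3
    obtain ⟨-, q1, q2, -, -⟩ := hprop s h2 h3
    rcases le_or_gt 0 s.im with h4 | h4
    · rw [abs_of_nonneg h4]
      calc ‖h s‖ * Real.exp (-(ε * s.im)) ≤ 1 * Real.exp (-(ε * s.im)) :=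
            mul_le_mul_of_nonneg_right q1 (Real.exp_pos _).le
        _ = _ := one_mul _
    · calc ‖h s‖ * Real.exp (-(ε * s.im)) ≤ Real.exp (η * s.im) * Real.exp (-(ε * s.im)) :=
            mul_le_mul_of_nonneg_right q2 (Real.exp_pos _).le
        _ = Real.exp (η * s.im + -(ε * s.im)) := (Real.exp_add _ _).symm
        _ ≤ _ := by
            refine Real.exp_le_exp.2 ?_
            rw [abs_of_neg h4]
            nlinarith
  have hMb : ∀ s : ℂ, 1 / 2 ≤ s.re → s.re ≤ b → ‖M s‖ ≤ (b * C1) * (1 + |s.im|) ^ 8 *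
      Real.exp (-(ε * |s.im|)) := by
    intro s h2 h3
    have e1 : ‖M s‖ = ‖s - 1‖ * ((‖h s‖ * Real.exp (-(ε * s.im))) * ‖L s‖) := by
      rw [hM]
      simp only [norm_mul, hnexp]
    have e2 : ‖s - 1‖ ≤ b * (1 + |s.im|) := by
      have h4 := Complex.norm_le_abs_re_add_abs_im (s - 1)
      have h5 : |(s - 1).re| ≤ b := by
        rw [sub_re, one_re, abs_le]
        constructor <;> linarith
      have h6 : (s - 1).im = s.im := by simp
      rw [h6] at h4
      have h7 : 0 ≤ |s.im| := abs_nonneg _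
      nlinarith
    have e3 := hgr s h2
    have e4 := hhe s h2 h3
    have hP : (1 : ℝ) ≤ 1 + |s.im| := by have := abs_nonneg s.im; linarith
    rw [e1]
    calc ‖s - 1‖ * ((‖h s‖ * Real.exp (-(ε * s.im))) * ‖L s‖) ≤
          (b * (1 + |s.im|)) * (Real.exp (-(ε * |s.im|)) * (C1 * (1 + |s.im|) ^ 2)) := by
          gcongr
      _ = (b * C1) * (1 + |s.im|) ^ 3 * Real.exp (-(ε * |s.im|)) := by ring
      _ ≤ _ := by
          have : (1 + |s.im|) ^ 3 ≤ (1 + |s.im|) ^ 8 := pow_le_pow_right₀ hP (by norm_num)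
          gcongr
  obtain ⟨ia, ib, hsh⟩ := OO.T_shift (N := M) (a := 1 / 2) (b := b) (by norm_num) (by linarith) hMd h0 hMb
  have c1 : (((1 / 2 : ℝ)) : ℂ) = 1 / 2 := by push_cast; ring
  have hM1 : M 1 = 0 := by simp [hM]
  rw [hM1, mul_zero, add_zero] at hsh
  rw [c1] at hsh ia
  have hNM : ∀ s : ℂ, s ≠ 1 → M s / (s - 1) = h s * exp ((ε : ℂ) * I * s) * L s := by
    intro s hs
    have hs' : s - 1 ≠ 0 := sub_ne_zero.mpr hs
    rw [hM]
    simp only
    field_simp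
  have i1 : ∀ y : ℝ, M ((b : ℂ) + y * I) / ((b : ℂ) + y * I - 1) = h ((b : ℂ) + y * I) *
      exp ((ε : ℂ) * I * ((b : ℂ) + y * I)) * L ((b : ℂ) + y * I) := by
    intro y
    apply hNM
    intro h2
    have := congrArg Complex.re h2
    simp at this
    linarith
  have i2 : ∀ t : ℝ, M (1 / 2 + t * I) / (1 / 2 + t * I - 1) = h (1 / 2 + t * I) *
      exp ((ε : ℂ) * I * (1 / 2 + t * I)) * L (1 / 2 + t * I) := by
    intro t
    apply hNM
    intro h2
    have := congrArg Complex.re h2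
    norm_num at this
  simp only [i1, i2] at hsh ia ib
  -- right side
  have hR : 3 / 16 / ε ≤ ‖∫ y : ℝ, h ((b : ℂ) + y * I) * exp ((ε : ℂ) * I * ((b : ℂ) + y * I)) *
      L ((b : ℂ) + y * I)‖ := by
    obtain ⟨c, hc⟩ : ∃ c : ℂ, c = exp (-((ε : ℂ) * I * b)) := ⟨_, rfl⟩
    have hc1 : ‖c‖ = 1 := by
      rw [hc, Complex.norm_exp]
      simp
    obtain ⟨G, hG⟩ : ∃ G : ℝ → ℂ, G = fun y : ℝ => c * (h ((b : ℂ) + y * I) *
      exp ((ε : ℂ) * I * ((b : ℂ) + y * I)) * L ((b : ℂ) + y * I)) := ⟨_, rfl⟩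
    have hGi : Integrable G := by rw [hG]; exact ib.const_mul c
    have hGr : ∀ y : ℝ, (G y).re = Real.exp (-(ε * y)) * (h ((b : ℂ) + y * I) * L ((b : ℂ) + y * I)).re := by
      intro y
      have e1 : G y = ((Real.exp (-(ε * y)) : ℝ) : ℂ) * (h ((b : ℂ) + y * I) * L ((b : ℂ) + y * I)) := by
        rw [hG]
        simp only
        have e2 : c * exp ((ε : ℂ) * I * ((b : ℂ) + y * I)) = ((Real.exp (-(ε * y)) : ℝ) : ℂ) := by
          rw [hc, ← exp_add, ofReal_exp]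
          congr 1
          push_cast
          linear_combination ((ε : ℂ) * y) * I_mul_I
        rw [← e2]
        ring
      rw [e1, re_ofReal_mul]
    have hpt : ∀ y : ℝ, 3 / 8 * ‖h ((b : ℂ) + y * I)‖ ≤ (h ((b : ℂ) + y * I) * L ((b : ℂ) + y * I)).re := by
      intro y
      have hre : ((b : ℂ) + y * I).re = b := by simp
      obtain ⟨-, -, -, q3, -⟩ := hprop ((b : ℂ) + y * I) (by rw [hre]; linarith) hre.le
      have q6 := hfar ((b : ℂ) + y * I) hre
      have e1 : h ((b : ℂ) + y * I) * L ((b : ℂ) + y * I) = h ((b : ℂ) + y * I) +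
          h ((b : ℂ) + y * I) * (L ((b : ℂ) + y * I) - 1) := by ring
      rw [e1, add_re]
      have e2 := (abs_le.1 (Complex.abs_re_le_norm (h ((b : ℂ) + y * I) * (L ((b : ℂ) + y * I) - 1)))).1
      rw [norm_mul] at e2
      have e3 := mul_le_mul_of_nonneg_left q6 (norm_nonneg (h ((b : ℂ) + y * I)))
      linarith
    have hpos : ∀ y : ℝ, 0 ≤ (G y).re := by
      intro y
      rw [hGr y]
      refine mul_nonneg (Real.exp_pos _).le (le_trans ?_ (hpt y))
      positivity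
    have hlow : ∀ y : ℝ, 0 < y → 3 / 16 * Real.exp (-(ε * y)) ≤ (G y).re := by
      intro y hy
      have hre : ((b : ℂ) + y * I).re = b := by simp
      have him : ((b : ℂ) + y * I).im = y := by simp
      obtain ⟨-, -, -, -, q5⟩ := hprop ((b : ℂ) + y * I) (by rw [hre]; linarith) hre.le
      rw [him] at q5
      have e1 := q5 (by positivity)
      have e2 := hpt y
      rw [hGr y]
      have e3 : 3 / 16 ≤ (h ((b : ℂ) + y * I) * L ((b : ℂ) + y * I)).re := by linarith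
      have := mul_le_mul_of_nonneg_left e3 (Real.exp_pos (-(ε * y))).le
      linarith
    have hGre : Integrable (fun y => (G y).re) := hGi.re
    have e1 : 3 / 16 / ε ≤ ∫ y, (G y).re := by
      calc 3 / 16 / ε = ∫ y in Ioi (0:ℝ), 3 / 16 * Real.exp (-(ε * y)) := by
            rw [integral_const_mul]
            have := integral_exp_mul_Ioi (neg_lt_zero.2 h0) 0
            simp only [neg_mul] at this
            rw [this]
            simp
            ring
        _ ≤ ∫ y in Ioi (0:ℝ), (G y).re := by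
            refine setIntegral_mono_on ?_ hGre.integrableOn measurableSet_Ioi fun y hy => hlow y hy
            have h4 := integrableOn_exp_mul_Ioi (neg_lt_zero.2 h0) 0
            simp only [neg_mul] at h4
            exact h4.const_mul _
        _ ≤ ∫ y, (G y).re := setIntegral_le_integral hGre (Eventually.of_forall fun y => hpos y)
    have e2 : (∫ y, (G y).re) = (∫ y, G y).re := by
      have := integral_re hGi
      simpa using this
    have e3 : (∫ y, G y) = c * ∫ y : ℝ, h ((b : ℂ) + y * I) * exp ((ε : ℂ) * I * ((b : ℂ) + y * I)) *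
      L ((b : ℂ) + y * I) := by
      rw [hG, integral_const_mul]
    have e4 : (∫ y, G y).re ≤ ‖∫ y, G y‖ := Complex.re_le_norm _
    rw [e3, norm_mul, hc1, one_mul] at e4
    rw [e2, e3] at e1
    exact e1.trans e4
  rw [hsh] at hR
  refine hR.trans ?_
  -- left side
  obtain ⟨J, hJ⟩ : ∃ J : ℝ → ℂ, J = fun t : ℝ => h (1 / 2 + t * I) * exp ((ε : ℂ) * I * (1 / 2 + t * I)) *
      L (1 / 2 + t * I) := ⟨_, rfl⟩
  have hJi : Integrable J := by rw [hJ]; exact ia
  have hJn : ∀ t : ℝ, ‖J t‖ = ‖h (1 / 2 + t * I)‖ * Real.exp (-(ε * t)) * ‖L (1 / 2 + t * I)‖ := by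
    intro t
    rw [hJ]
    simp only [norm_mul, hnexp]
    congr 3
    simp
  have hq : ∀ t : ℝ, ‖h (1 / 2 + t * I)‖ ≤ 1 ∧ ‖h (1 / 2 + t * I)‖ ≤ Real.exp (η * t) := by
    intro t
    have hre : ((1 / 2 : ℂ) + t * I).re = 1 / 2 := by simp
    have him : ((1 / 2 : ℂ) + t * I).im = t := by simp
    obtain ⟨-, q1, q2, -, -⟩ := hprop (1 / 2 + t * I) hre.ge (by rw [hre]; linarith)
    rw [him] at q2
    exact ⟨q1, q2⟩
  have hLb : ∀ t : ℝ, ‖L (1 / 2 + t * I)‖ ≤ C1 * (1 + |t|) ^ 2 := by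
    intro t
    have := hgr (1 / 2 + t * I) (by simp)
    simpa using this
  have hsp : (∫ t, J t) = (∫ t in Ioi T0, J t) + ∫ t in Iic T0, J t := by
    have := integral_add_compl (measurableSet_Ioi (a := T0)) hJi
    rw [compl_Ioi] at this
    exact this.symm
  have hLc : Continuous fun t : ℝ => L (1 / 2 + t * I) :=
    D.ent.continuous.comp (by fun_prop : Continuous fun t : ℝ => (1 / 2 + t * I : ℂ))
  have hIi : IntegrableOn (fun t : ℝ => Real.exp (-(ε * t)) * ‖L (1 / 2 + t * I)‖) (Ioi T0) := by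
    refine Integrable.mono' ((One_int ε h0 2).const_mul C1).integrableOn ?_ ?_
    · exact ((by fun_prop : Continuous fun t : ℝ => Real.exp (-(ε * t))).mul hLc.norm).aestronglyMeasurable
    · refine (ae_restrict_iff' measurableSet_Ioi).mpr (Eventually.of_forall fun t ht => ?_)
      have ht' : 0 < t := hT0.trans ht
      rw [Real.norm_of_nonneg (by positivity), abs_of_pos ht']
      have := hLb t
      rw [abs_of_pos ht'] at this
      calc Real.exp (-(ε * t)) * ‖L (1 / 2 + t * I)‖ ≤ Real.exp (-(ε * t)) * (C1 * (1 + t) ^ 2) :=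
            mul_le_mul_of_nonneg_left this (Real.exp_pos _).le
        _ = _ := by ring
  have p1 : ‖∫ t in Ioi T0, J t‖ ≤ ∫ t in Ioi T0, Real.exp (-(ε * t)) * ‖L (1 / 2 + t * I)‖ := by
    refine norm_integral_le_of_norm_le hIi (Eventually.of_forall fun t => ?_)
    rw [hJn t]
    calc ‖h (1 / 2 + t * I)‖ * Real.exp (-(ε * t)) * ‖L (1 / 2 + t * I)‖ ≤
          1 * Real.exp (-(ε * t)) * ‖L (1 / 2 + t * I)‖ := by
          have := (hq t).1
          gcongr
      _ = _ := by ring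
  have p2 : ‖∫ t in Iic T0, J t‖ ≤ K := by
    have hi : Integrable (fun t : ℝ => C1 * Real.exp (η * T0) * ((1 + |t|) ^ 2 * Real.exp (-(η / 2 * |t|)))) :=
      (One_int (η / 2) (by positivity) 2).const_mul _
    rw [hKd]
    calc ‖∫ t in Iic T0, J t‖
        ≤ ∫ t in Iic T0, C1 * Real.exp (η * T0) * ((1 + |t|) ^ 2 * Real.exp (-(η / 2 * |t|))) := by
          refine norm_integral_le_of_norm_le hi.integrableOn ?_
          refine (ae_restrict_iff' measurableSet_Iic).mpr (Eventually.of_forall fun t ht => ?_)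
          have ht' : t ≤ T0 := ht
          rw [hJn t]
          have e1 : ‖h (1 / 2 + t * I)‖ * Real.exp (-(ε * t)) ≤ Real.exp (η * T0) * Real.exp (-(η / 2 * |t|)) := by
            rw [← Real.exp_add]
            rcases le_or_gt 0 t with h4 | h4
            · calc ‖h (1 / 2 + t * I)‖ * Real.exp (-(ε * t)) ≤ 1 * 1 := by
                    refine mul_le_mul (hq t).1 ?_ (Real.exp_pos _).le zero_le_one
                    rw [Real.exp_le_one_iff]
                    have := mul_nonneg h0.le h4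
                    linarith
                _ ≤ _ := by
                    rw [one_mul]
                    refine Real.one_le_exp ?_
                    rw [abs_of_nonneg h4]
                    have := mul_le_mul_of_nonneg_left ht' hη0.le
                    have h5 := mul_nonneg hη0.le h4
                    linarith
            · calc ‖h (1 / 2 + t * I)‖ * Real.exp (-(ε * t)) ≤ Real.exp (η * t) * Real.exp (-(ε * t)) :=
                    mul_le_mul_of_nonneg_right (hq t).2 (Real.exp_pos _).le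
                _ = Real.exp (η * t + -(ε * t)) := (Real.exp_add _ _).symm
                _ ≤ _ := by
                    refine Real.exp_le_exp.2 ?_
                    rw [abs_of_neg h4]
                    have h5 := mul_pos hη0 hT0
                    nlinarith
          calc ‖h (1 / 2 + t * I)‖ * Real.exp (-(ε * t)) * ‖L (1 / 2 + t * I)‖ ≤
                (Real.exp (η * T0) * Real.exp (-(η / 2 * |t|))) * (C1 * (1 + |t|) ^ 2) :=
                mul_le_mul e1 (hLb t) (norm_nonneg _) (by positivity)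
            _ = _ := by ring
      _ ≤ _ := setIntegral_le_integral hi (Eventually.of_forall fun t => by positivity)
  have e5 : (∫ t : ℝ, h (1 / 2 + t * I) * exp ((ε : ℂ) * I * (1 / 2 + t * I)) * L (1 / 2 + t * I)) = ∫ t, J t := by
    rw [hJ]
  rw [e5, hsp]
  exact (norm_add_le _ _).trans (add_le_add p1 p2)

/-- one L-function of degree two -/
theorem one_odd {N : ℕ} {a : ℕ → ℂ} {L : ℂ → ℂ} (D : NR.Dat N a L) :
    {g : ℝ | 0 < g ∧ Odd (analyticOrderNatAt L (1 / 2 + g * I))}.Infinite := by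
  intro hfin
  obtain ⟨u, v, W, C, hp⟩ := D.ph
  obtain ⟨T0, hT0, hsg⟩ := One_sign D hp hfin
  obtain ⟨K1, hK1, hup⟩ := One_up D hp hT0 hsg
  obtain ⟨K2, e0, hK2, he0, hlow⟩ := One_low D hT0
  have hpi := Real.pi_gt_three
  have hN : (0:ℝ) < N := by exact_mod_cast D.pos
  obtain ⟨c, hc⟩ : ∃ c : ℝ, c = √(√N / (2 * π)) * √π := ⟨_, rfl⟩
  have hc0 : 0 < c := by rw [hc]; positivity
  obtain ⟨K3, hK3, hRf⟩ := One_Rf D (δ := c / 16) (by positivity)
  -- the bound for r2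
  have hr : ∀ ε t : ℝ, 0 < t → c * (Real.exp (-(ε * t)) * ‖L (1 / 2 + t * I)‖) ≤ |NR.r2 N L v ε t| := by
    intro ε t ht
    rw [NR.r2_abs hp ε t]
    have h1 : √π * Real.exp (-(ε * t)) ≤ Real.exp ((π / 2 - ε) * t) * √(π / Real.cosh (π * t)) := by
      have h2 : Real.cosh (π * t) ≤ Real.exp (π * t) := by
        have hh : 0 ≤ π * t := by positivity
        rw [Real.cosh_eq]
        have : Real.exp (-(π * t)) ≤ Real.exp (π * t) := Real.exp_le_exp.mpr (by linarith)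
        linarith
      have h3 : √π * Real.exp (-(π * t) / 2) ≤ √(π / Real.cosh (π * t)) := by
        apply Real.le_sqrt_of_sq_le
        rw [mul_pow, Real.sq_sqrt (by positivity), ← Real.exp_nat_mul, div_eq_mul_inv π]
        refine mul_le_mul_of_nonneg_left ?_ (by positivity)
        have e1 : ((2:ℕ):ℝ) * (-(π * t) / 2) = -(π * t) := by push_cast; ring
        rw [e1, Real.exp_neg]
        exact inv_anti₀ (Real.cosh_pos _) h2
      calc √π * Real.exp (-(ε * t)) = Real.exp ((π / 2 - ε) * t) * (√π * Real.exp (-(π * t) / 2)) := by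
            have : Real.exp (-(ε * t)) = Real.exp ((π / 2 - ε) * t) * Real.exp (-(π * t) / 2) := by
              rw [← Real.exp_add]
              congr 1
              ring
            rw [this]
            ring
        _ ≤ _ := mul_le_mul_of_nonneg_left h3 (Real.exp_pos _).le
    calc c * (Real.exp (-(ε * t)) * ‖L (1 / 2 + t * I)‖) =
          (√π * Real.exp (-(ε * t))) * (√(√N / (2 * π)) * ‖L (1 / 2 + t * I)‖) := by rw [hc]; ring
      _ ≤ (Real.exp ((π / 2 - ε) * t) * √(π / Real.cosh (π * t))) * (√(√N / (2 * π)) * ‖L (1 / 2 + t * I)‖) :=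
          mul_le_mul_of_nonneg_right h1 (by positivity)
      _ = _ := by ring
  have hLc : Continuous fun t : ℝ => L (1 / 2 + t * I) :=
    D.ent.continuous.comp (by fun_prop : Continuous fun t : ℝ => (1 / 2 + t * I : ℂ))
  have main : ∀ ε : ℝ, 0 < ε → ε ≤ 1 / 2 → ε ≤ e0 → c / 8 / ε ≤ K3 + K1 + c * K2 := by
    intro ε h0 h1 h2
    obtain ⟨hri, hu⟩ := hup ε h0 h1
    have hl := hlow ε h0 h2
    have hR := hRf ε h0 h1
    have hra : IntegrableOn (fun t => |NR.r2 N L v ε t|) (Ioi T0) := hri.abs.integrableOn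
    have h3 : c * ∫ t in Ioi T0, Real.exp (-(ε * t)) * ‖L (1 / 2 + t * I)‖ ≤ ∫ t in Ioi T0, |NR.r2 N L v ε t| := by
      rw [← integral_const_mul]
      refine setIntegral_mono_on ?_ hra measurableSet_Ioi fun t ht => hr ε t (hT0.trans ht)
      refine Integrable.mono' hra ?_ ?_
      · exact (continuous_const.mul ((by fun_prop : Continuous fun t : ℝ => Real.exp (-(ε * t))).mul
          hLc.norm)).aestronglyMeasurable
      · refine (ae_restrict_iff' measurableSet_Ioi).mpr (Eventually.of_forall fun t ht => ?_)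
        rw [Real.norm_of_nonneg (by positivity)]
        exact hr ε t (hT0.trans ht)
    have h4 := mul_le_mul_of_nonneg_left hl hc0.le
    have e1 : c * (3 / 16 / ε) = c / 8 / ε + c / 16 / ε := by ring
    rw [e1] at h4
    linarith
  obtain ⟨B, hB⟩ : ∃ B : ℝ, B = K3 + K1 + c * K2 := ⟨_, rfl⟩
  have hB0 : 0 ≤ B := by rw [hB]; positivity
  obtain ⟨ε, hε⟩ : ∃ ε : ℝ, ε = min (min (1 / 2) e0) (c / 8 / (B + 1)) := ⟨_, rfl⟩
  have h0 : 0 < ε := by rw [hε]; positivity
  have h1 : ε ≤ 1 / 2 := by rw [hε]; exact (min_le_left _ _).trans (min_le_left _ _)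
  have h2 : ε ≤ e0 := by rw [hε]; exact (min_le_left _ _).trans (min_le_right _ _)
  have h3 : ε ≤ c / 8 / (B + 1) := by rw [hε]; exact min_le_right _ _
  have h4 := main ε h0 h1 h2
  rw [← hB, div_le_iff₀ h0] at h4
  rw [le_div_iff₀ (by positivity)] at h3
  nlinarith

end PP
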