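import Pool.Agent.Lib.MP_0f5a55_nt.PP.D
import Pool.Agent.Lib.MP_0f5a55_nt.NR.M14
import Pool.Agent.Lib.MP_0f5a55_nt.NR.M17
import Pool.Agent.Lib.MP_0f5a55_nt.II.I03

open Complex MeasureTheory Set Filter Topology
open scoped Real ComplexConjugate

namespace PP

open II

theorem P01_z {θ1 θ2 ε : ℝ} (h1 : 0 < θ1) (h2 : 0 < θ2) (h0 : 0 < ε) (he : ε ≤ 1 / 2) (k n m : ℕ) :
    Real.sin ε * θ1 * n ≤ ‖((Real.exp k : ℝ) : ℂ) * zz θ1 θ2 ε n m‖ ∧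
    Real.sin ε * θ2 * m ≤ ‖((Real.exp k : ℝ) : ℂ) * zz θ1 θ2 ε n m‖ := by
  have hs : 0 < Real.sin ε := Real.sin_pos_of_pos_of_lt_pi h0 (by have := Real.pi_gt_three; linarith)
  have hk : 1 ≤ Real.exp k := Real.one_le_exp (Nat.cast_nonneg k)
  have hre : (((Real.exp k : ℝ) : ℂ) * zz θ1 θ2 ε n m).re = Real.exp k * (Real.sin ε * (θ1 * n + θ2 * m)) := by
    rw [re_ofReal_mul, zz_re]
  have hn : (0:ℝ) ≤ n := Nat.cast_nonneg n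
  have hm : (0:ℝ) ≤ m := Nat.cast_nonneg m
  have a1 : 0 ≤ Real.sin ε * (θ1 * n) := by positivity
  have a2 : 0 ≤ Real.sin ε * (θ2 * m) := by positivity
  have hle : Real.sin ε * (θ1 * n + θ2 * m) ≤ Real.exp k * (Real.sin ε * (θ1 * n + θ2 * m)) :=
    le_mul_of_one_le_left (by positivity) hk
  have habs := (le_abs_self _).trans (abs_re_le_norm (((Real.exp k : ℝ) : ℂ) * zz θ1 θ2 ε n m))
  rw [hre] at habs
  refine ⟨?_, ?_⟩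
  · linarith [hle, habs]
  · linarith [hle, habs]

theorem P01_sum {θ1 θ2 : ℝ} (h1 : 0 < θ1) (h2 : 0 < θ2) {α β : ℕ → ℝ} (pa : ∀ n, 0 ≤ α n)
    (pb : ∀ n, 0 ≤ β n) (ha : ∀ n : ℕ, α n ≤ n) (hb : ∀ n : ℕ, β n ≤ n) {ε : ℝ} (h0 : 0 < ε)
    (he : ε ≤ 1 / 2) (k : ℕ) :
    Summable (fun x : ℕ × ℕ => α (x.1 + 1) * β (x.2 + 1) *
        ((1 + ‖((Real.exp k : ℝ) : ℂ) * zz θ1 θ2 ε (x.1 + 1) (x.2 + 1)‖) ^ 12)⁻¹) := by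
  have hs : 0 < Real.sin ε := Real.sin_pos_of_pos_of_lt_pi h0 (by have := Real.pi_gt_three; linarith)
  set δ1 := Real.sin ε * θ1 with hδ1
  set δ2 := Real.sin ε * θ2 with hδ2
  have p1 : 0 < δ1 := by positivity
  have p2 : 0 < δ2 := by positivity
  have hs0 : Summable (fun n : ℕ => (((n : ℝ) + 1) ^ 2)⁻¹) := by
    have := (summable_nat_add_iff 1).mpr (Real.summable_nat_pow_inv.mpr (by norm_num : 1 < 2))
    refine this.congr fun n => ?_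
    push_cast
    rfl
  have hprod : Summable (fun x : ℕ × ℕ => (((x.1 : ℝ) + 1) ^ 2)⁻¹ * (((x.2 : ℝ) + 1) ^ 2)⁻¹) :=
    hs0.mul_of_nonneg hs0 (fun n => by positivity) (fun n => by positivity)
  refine Summable.of_nonneg_of_le (fun x => ?_) (fun x => ?_) (hprod.mul_left ((δ1 ^ 3 * δ2 ^ 3)⁻¹))
  · exact mul_nonneg (mul_nonneg (pa _) (pb _)) (by positivity)
  obtain ⟨n, m⟩ := x
  simp only
  obtain ⟨z1, z2⟩ := P01_z h1 h2 h0 he k (n + 1) (m + 1)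
  have e1 := ha (n + 1)
  have e2 := hb (m + 1)
  have q1 := pa (n + 1)
  have q2 := pb (m + 1)
  push_cast at e1 e2
  have c1 : ((n + 1 : ℕ) : ℝ) = (n : ℝ) + 1 := by push_cast; rfl
  have c2 : ((m + 1 : ℕ) : ℝ) = (m : ℝ) + 1 := by push_cast; rfl
  rw [c1] at z1
  rw [c2] at z2
  obtain ⟨r, hr⟩ : ∃ r, r = ‖((Real.exp k : ℝ) : ℂ) * zz θ1 θ2 ε (n + 1) (m + 1)‖ := ⟨_, rfl⟩
  rw [← hr] at z1 z2 ⊢
  have r0 : 0 ≤ r := by rw [hr]; exact norm_nonneg _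
  have z1' : δ1 * ((n : ℝ) + 1) ≤ r := z1
  have z2' : δ2 * ((m : ℝ) + 1) ≤ r := z2
  have hN : 0 < (n : ℝ) + 1 := by positivity
  have hM : 0 < (m : ℝ) + 1 := by positivity
  have b1 : (δ1 * ((n : ℝ) + 1)) ^ 3 * (δ2 * ((m : ℝ) + 1)) ^ 3 ≤ (1 + r) ^ 12 := by
    calc _ ≤ (1 + r) ^ 3 * (1 + r) ^ 3 := by
          gcongr
          · linarith
          · linarith
      _ = (1 + r) ^ 6 := by ring
      _ ≤ (1 + r) ^ 12 := pow_le_pow_right₀ (by linarith) (by norm_num)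
  have b2 : ((1 + r) ^ 12)⁻¹ ≤ ((δ1 * ((n : ℝ) + 1)) ^ 3 * (δ2 * ((m : ℝ) + 1)) ^ 3)⁻¹ :=
    inv_anti₀ (by positivity) b1
  calc _ ≤ ((n : ℝ) + 1) * ((m : ℝ) + 1) * ((δ1 * ((n : ℝ) + 1)) ^ 3 * (δ2 * ((m : ℝ) + 1)) ^ 3)⁻¹ := by
        gcongr
    _ = _ := by
        field_simp

/-- Row P01. Schur bound for the double sum. Models: NR/M14.lean (M14_maj, M14_total: the same with the divisor
function, the sum over n of (row n) there is already of this shape), NR/M17.lean (M17_maj, M17_piece), NR/M11.lean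
(M11_cs). Proof: α(n) β(m) ≤ (α(n)² + β(m)²)/2; |zz| ≥ c ε n, c ε m and |zz| ≥ c |θ1 n - θ2 m| (zz_re, zz_im,
cos ε ≥ 1/2), exp k ≥ 1, so (1 + X|zz|)^(-12) ≤ C (1 + X ε n)^(-4) (1 + |θ1 n - θ2 m|)^(-2) and the sum over m of the
last factor is ≤ C (θ's fixed). -/
theorem tot {θ1 θ2 : ℝ} (h1 : 0 < θ1) (h2 : 0 < θ2) : ∃ C : ℝ, 0 ≤ C ∧ ∀ α β : ℕ → ℝ, (∀ n, 0 ≤ α n) →
    (∀ n, 0 ≤ β n) → (∀ n : ℕ, α n ≤ n) → (∀ n : ℕ, β n ≤ n) → ∀ ε : ℝ, 0 < ε → ε ≤ 1 / 2 → ∀ k : ℕ,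
      Summable (fun x : ℕ × ℕ => α (x.1 + 1) * β (x.2 + 1) *
        ((1 + ‖((Real.exp k : ℝ) : ℂ) * zz θ1 θ2 ε (x.1 + 1) (x.2 + 1)‖) ^ 12)⁻¹) ∧
      ∑' x : ℕ × ℕ, α (x.1 + 1) * β (x.2 + 1) *
        ((1 + ‖((Real.exp k : ℝ) : ℂ) * zz θ1 θ2 ε (x.1 + 1) (x.2 + 1)‖) ^ 12)⁻¹ ≤
        C * (∑' n : ℕ, α (n + 1) ^ 2 * ((1 + Real.exp k * ε * ((n : ℝ) + 1)) ^ 4)⁻¹ +
          ∑' n : ℕ, β (n + 1) ^ 2 * ((1 + Real.exp k * ε * ((n : ℝ) + 1)) ^ 4)⁻¹) := by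
  obtain ⟨C, hC, hsch⟩ := schur h1 h2
  refine ⟨C, hC, fun α β pa pb ha hb ε h0 he k => ⟨P01_sum h1 h2 pa pb ha hb h0 he k, ?_⟩⟩
  refine (hsch α β pa pb ha hb ε h0 he k).trans (mul_le_mul_of_nonneg_left ?_ hC)
  have p1 : 0 ≤ ∑' n : ℕ, α (n + 1) ^ 2 * ((1 + Real.exp k * ε * ((n : ℝ) + 1)) ^ 4)⁻¹ :=
    tsum_nonneg fun n => by positivity
  have p2 : 0 ≤ ∑' n : ℕ, β (n + 1) ^ 2 * ((1 + Real.exp k * ε * ((n : ℝ) + 1)) ^ 4)⁻¹ :=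
    tsum_nonneg fun n => by positivity
  generalize ∑' n : ℕ, α (n + 1) ^ 2 * ((1 + Real.exp k * ε * ((n : ℝ) + 1)) ^ 4)⁻¹ = A at p1 ⊢
  generalize ∑' n : ℕ, β (n + 1) ^ 2 * ((1 + Real.exp k * ε * ((n : ℝ) + 1)) ^ 4)⁻¹ = B at p2 ⊢
  have q1 := Real.sq_sqrt p1
  have q2 := Real.sq_sqrt p2
  nlinarith [sq_nonneg (√A - √B), sq_nonneg (√A + √B)]

end PP
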