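import Pool.Agent.Lib.MP_0f5a55_nt.PP.P01

open Complex MeasureTheory Set Filter Topology
open scoped Real ComplexConjugate

namespace PP

open II

/-- Row P02. The pieces of the correlation integral, rational ratio, mean square bounds instead of the divisor
function. Model: NR/M14.lean, M14_main (copy it; replace dv(n) by ‖A n‖, ‖B n‖ and M14_total by P01.tot with
msA, msB at w = exp k ε (≤ 1: C/w; ≥ 1: NR.M17_large gives C/w^4)). M14_diag and M14_off are public. -/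
theorem blk {θ1 θ2 : ℝ} (h1 : 0 < θ1) (h2 : 0 < θ2) {r s : ℕ} (hr : 0 < r) (hs : 0 < s)
    (hcop : Nat.Coprime r s) (hrs : (r : ℝ) * θ1 = s * θ2) {A B : ℕ → ℂ} (hA : ∀ n : ℕ, ‖A n‖ ≤ n)
    (hB : ∀ n : ℕ, ‖B n‖ ≤ n)
    (msA : ∃ C : ℝ, 0 ≤ C ∧ ∀ x : ℝ, 0 < x → ∑' n : ℕ, ‖A (n + 1)‖ ^ 2 * ((1 + x * ((n : ℝ) + 1)) ^ 4)⁻¹ ≤ C / x)
    (msB : ∃ C : ℝ, 0 ≤ C ∧ ∀ x : ℝ, 0 < x → ∑' n : ℕ, ‖B (n + 1)‖ ^ 2 * ((1 + x * ((n : ℝ) + 1)) ^ 4)⁻¹ ≤ C / x)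
    {C : ℝ} (hC : 0 ≤ C) (h : ∀ x : ℕ, 1 ≤ x →
      ‖∑ l ∈ Finset.Icc 1 x, A (r * l) * conj (B (s * l))‖ ≤ C * (x : ℝ) ^ (9 / 10 : ℝ)) :
    ∃ C : ℝ, 0 ≤ C ∧
    ∀ ε : ℝ, 0 < ε → ε ≤ 1 / 2 → ∀ k : ℕ,
      (Real.exp k ≤ 1 / ε → ‖BK A B θ1 θ2 ε k‖ ≤
        C * (ε⁻¹ * Real.exp (-(k : ℝ)) + ε ^ (-(9 / 10 : ℝ)) * Real.exp ((k : ℝ) / 10))) ∧
      (1 / ε ≤ Real.exp k → ‖BK A B θ1 θ2 ε k‖ ≤
        C * (ε⁻¹ * ((Real.exp k * ε) ^ 2)⁻¹)) := by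
  classical
  obtain ⟨C12, hC12, hX12⟩ := Xi_bound 12
  obtain ⟨C13, hC13, hX13⟩ := Xi_bound 13
  obtain ⟨Ct, hCt, hT⟩ := tot h1 h2
  obtain ⟨CA, hCA, hSA⟩ := msA
  obtain ⟨CB, hCB, hSB⟩ := msB
  obtain ⟨CL, hCL, hL⟩ := NR.M17_large
  have hr' : (0 : ℝ) < r := by exact_mod_cast hr
  have hθ9 : 0 ≤ θ1 ^ (-(9 / 10 : ℝ)) := Real.rpow_nonneg h1.le _
  refine ⟨12 * Real.exp 2 * C * θ1 ^ (-(9 / 10 : ℝ)) + C13 * (2 * r / θ2) * (Ct * (CA + CB)) +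
    C12 * (Ct * (CL + CL)), by positivity, fun ε h0 he k => ?_⟩
  have hX0 : 0 < Real.exp (k : ℝ) := Real.exp_pos _
  have hw0 : 0 < Real.exp k * ε := mul_pos hX0 h0
  obtain ⟨hmaj, hTT⟩ : Summable (fun x : ℕ × ℕ => ‖A (x.1 + 1)‖ * ‖B (x.2 + 1)‖ *
        ((1 + ‖((Real.exp k : ℝ) : ℂ) * zz θ1 θ2 ε (x.1 + 1) (x.2 + 1)‖) ^ 12)⁻¹) ∧
      ∑' x : ℕ × ℕ, ‖A (x.1 + 1)‖ * ‖B (x.2 + 1)‖ *
        ((1 + ‖((Real.exp k : ℝ) : ℂ) * zz θ1 θ2 ε (x.1 + 1) (x.2 + 1)‖) ^ 12)⁻¹ ≤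
        Ct * (∑' n : ℕ, ‖A (n + 1)‖ ^ 2 * ((1 + Real.exp k * ε * ((n : ℝ) + 1)) ^ 4)⁻¹ +
          ∑' n : ℕ, ‖B (n + 1)‖ ^ 2 * ((1 + Real.exp k * ε * ((n : ℝ) + 1)) ^ 4)⁻¹) :=
    hT (fun n => ‖A n‖) (fun n => ‖B n‖) (fun n => norm_nonneg _) (fun n => norm_nonneg _) hA hB ε h0 he k
  have hT1 : ∑' x : ℕ × ℕ, ‖A (x.1 + 1)‖ * ‖B (x.2 + 1)‖ *
        ((1 + ‖((Real.exp k : ℝ) : ℂ) * zz θ1 θ2 ε (x.1 + 1) (x.2 + 1)‖) ^ 12)⁻¹ ≤
        Ct * (CA + CB) * (Real.exp k * ε)⁻¹ := by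
    refine hTT.trans ?_
    rw [mul_assoc]
    refine mul_le_mul_of_nonneg_left ?_ hCt
    have e1 := hSA _ hw0
    have e2 := hSB _ hw0
    rw [add_mul, ← div_eq_mul_inv, ← div_eq_mul_inv]
    exact add_le_add e1 e2
  have hT2 : ∑' x : ℕ × ℕ, ‖A (x.1 + 1)‖ * ‖B (x.2 + 1)‖ *
        ((1 + ‖((Real.exp k : ℝ) : ℂ) * zz θ1 θ2 ε (x.1 + 1) (x.2 + 1)‖) ^ 12)⁻¹ ≤
        Ct * (CL + CL) * ((Real.exp k * ε) ^ 4)⁻¹ := by
    refine hTT.trans ?_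
    rw [mul_assoc]
    refine mul_le_mul_of_nonneg_left ?_ hCt
    rw [add_mul]
    exact add_le_add (hL (fun n => ‖A n‖) (fun n => norm_nonneg _) hA _ hw0)
      (hL (fun n => ‖B n‖) (fun n => norm_nonneg _) hB _ hw0)
  have hHS := I02_BK_hasSum h1 h2 h0 he hA hB k
  have hGn : ∀ x : ℕ × ℕ, ‖∫ v : ℝ, I02_g A B θ1 θ2 ε k x v‖ ≤ ‖A (x.1 + 1)‖ * ‖B (x.2 + 1)‖ *
      (Real.exp k * ‖Xi (((Real.exp k : ℝ) : ℂ) * zz θ1 θ2 ε (x.1 + 1) (x.2 + 1))‖) := by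
    intro x
    rw [I02_g_integral, norm_mul, norm_mul, norm_mul, RCLike.norm_conj, norm_real,
      Real.norm_of_nonneg hX0.le]
    refine le_of_eq ?_
    ring
  have hre : ∀ x : ℕ × ℕ, 0 ≤ (((Real.exp k : ℝ) : ℂ) * zz θ1 θ2 ε (x.1 + 1) (x.2 + 1)).re := by
    intro x
    have hsin := TT.sin_pos' h0 he
    rw [re_ofReal_mul, zz_re]
    positivity
  obtain ⟨G, hG⟩ : ∃ G : ℕ × ℕ → ℂ, ∀ x, G x = ∫ v : ℝ, I02_g A B θ1 θ2 ε k x v := ⟨_, fun _ => rfl⟩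
  have hGs : HasSum G (BK A B θ1 θ2 ε k) := hHS.congr_fun hG
  refine ⟨fun hk => ?_, fun hk => ?_⟩
  · -- small k
    have hy0 : 0 < Real.exp k * ε := mul_pos hX0 h0
    have hy1 : Real.exp k * ε ≤ 1 := by
      rw [le_div_iff₀ h0] at hk
      exact hk
    obtain ⟨S, hS⟩ : ∃ S : Set (ℕ × ℕ), S = {x | s * (x.1 + 1) = r * (x.2 + 1)} := ⟨_, rfl⟩
    have hinj : Function.Injective (fun l : ℕ => ((r * (l + 1) - 1, s * (l + 1) - 1) : ℕ × ℕ)) := by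
      intro a b hab
      have h3 := congrArg (fun p : ℕ × ℕ => p.1 + 1) hab
      have p1 : 0 < r * (a + 1) := Nat.mul_pos hr (Nat.succ_pos a)
      have p2 : 0 < r * (b + 1) := Nat.mul_pos hr (Nat.succ_pos b)
      simp only [Nat.sub_add_cancel p1, Nat.sub_add_cancel p2] at h3
      have h4 := Nat.eq_of_mul_eq_mul_left hr h3
      omega
    have hmem : ∀ l : ℕ, ((r * (l + 1) - 1, s * (l + 1) - 1) : ℕ × ℕ) ∈ S := by
      intro l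
      rw [hS]
      show s * (r * (l + 1) - 1 + 1) = r * (s * (l + 1) - 1 + 1)
      rw [Nat.sub_add_cancel (Nat.mul_pos hr (Nat.succ_pos l)),
        Nat.sub_add_cancel (Nat.mul_pos hs (Nat.succ_pos l))]
      ring
    have hrange : Function.support (S.indicator G) ⊆
        Set.range (fun l : ℕ => ((r * (l + 1) - 1, s * (l + 1) - 1) : ℕ × ℕ)) := by
      intro x hx
      have hxS : x ∈ S := by
        by_contra hcon
        exact hx (Set.indicator_of_notMem hcon G)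
      rw [hS] at hxS
      have hxe : s * (x.1 + 1) = r * (x.2 + 1) := hxS
      have hdvd : r ∣ x.1 + 1 := by
        have : r ∣ s * (x.1 + 1) := ⟨x.2 + 1, hxe⟩
        exact hcop.dvd_of_dvd_mul_left this
      obtain ⟨j, hj⟩ := hdvd
      have hj0 : 0 < j := by
        rcases Nat.eq_zero_or_pos j with hj0 | hj0
        · rw [hj0, mul_zero] at hj
          omega
        · exact hj0
      obtain ⟨l, rfl⟩ : ∃ l, j = l + 1 := ⟨j - 1, by omega⟩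
      have hm : x.2 + 1 = s * (l + 1) := by
        rw [hj] at hxe
        have : r * (s * (l + 1)) = r * (x.2 + 1) := by rw [← hxe]; ring
        exact (Nat.eq_of_mul_eq_mul_left hr this).symm
      refine ⟨l, ?_⟩
      show (r * (l + 1) - 1, s * (l + 1) - 1) = x
      rw [← hj, ← hm]
      rfl
    have s1 : Summable (S.indicator G) := hGs.summable.indicator S
    have s2 : Summable (Sᶜ.indicator G) := hGs.summable.indicator Sᶜ
    have hsplit : BK A B θ1 θ2 ε k = ∑' x, S.indicator G x + ∑' x, Sᶜ.indicator G x := by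
      rw [← s1.tsum_add s2, ← hGs.tsum_eq]
      refine tsum_congr fun x => ?_
      exact (congrFun (Set.indicator_self_add_compl S G) x).symm
    have hd : ∑' x, S.indicator G x =
        ∑' l : ℕ, ∫ v : ℝ, I02_g A B θ1 θ2 ε k (r * (l + 1) - 1, s * (l + 1) - 1) v := by
      rw [← hinj.tsum_eq hrange]
      refine tsum_congr fun l => ?_
      rw [Set.indicator_of_mem (hmem l), hG]
    have hdb := NR.M14_diag h1 h2 hr hs hrs hA hB hC h h0 he k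
    have ho : ‖∑' x, Sᶜ.indicator G x‖ ≤ C13 * (2 * r / θ2) * ∑' x : ℕ × ℕ, ‖A (x.1 + 1)‖ * ‖B (x.2 + 1)‖ *
        ((1 + ‖((Real.exp k : ℝ) : ℂ) * zz θ1 θ2 ε (x.1 + 1) (x.2 + 1)‖) ^ 12)⁻¹ := by
      refine tsum_of_norm_bounded (hmaj.hasSum.mul_left (C13 * (2 * r / θ2))) fun x => ?_
      by_cases hx : x ∈ S
      · rw [Set.indicator_of_notMem (fun hcon : x ∈ Sᶜ => hcon hx), norm_zero]
        positivity
      · rw [Set.indicator_of_mem (show x ∈ Sᶜ from hx), hG]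
        have hx' : s * (x.1 + 1) ≠ r * (x.2 + 1) := by
          intro hcon
          apply hx
          rw [hS]
          exact hcon
        have hb := NR.M14_off h1 h2 hr hrs hC13 hX13 h0 he k x hx'
        refine (hGn x).trans ?_
        have hdd : 0 ≤ ‖A (x.1 + 1)‖ * ‖B (x.2 + 1)‖ := mul_nonneg (norm_nonneg _) (norm_nonneg _)
        refine (mul_le_mul_of_nonneg_left hb hdd).trans (le_of_eq ?_)
        ring
    have hyinv : (Real.exp k * ε)⁻¹ = ε⁻¹ * Real.exp (-(k : ℝ)) := by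
      rw [mul_inv, Real.exp_neg, mul_comm]
    have hE1 : 0 ≤ ε⁻¹ * Real.exp (-(k : ℝ)) := by positivity
    have hE2 : 0 ≤ ε ^ (-(9 / 10 : ℝ)) * Real.exp ((k : ℝ) / 10) := by
      have : 0 ≤ ε ^ (-(9 / 10 : ℝ)) := Real.rpow_nonneg h0.le _
      positivity
    rw [hyinv] at hT1
    rw [hsplit, hd]
    refine (norm_add_le _ _).trans ((add_le_add hdb (ho.trans (mul_le_mul_of_nonneg_left hT1
      (by positivity)))).trans ?_)
    have w1 : 0 ≤ 12 * Real.exp 2 * C * θ1 ^ (-(9 / 10 : ℝ)) := by positivity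
    have w2 : 0 ≤ C13 * (2 * r / θ2) * (Ct * (CA + CB)) := by positivity
    have w3 : 0 ≤ C12 * (Ct * (CL + CL)) := by positivity
    rw [← mul_assoc (C13 * (2 * (r : ℝ) / θ2)) (Ct * (CA + CB))]
    generalize ε⁻¹ * Real.exp (-(k : ℝ)) = E1 at hE1 ⊢
    generalize ε ^ (-(9 / 10 : ℝ)) * Real.exp ((k : ℝ) / 10) = E2 at hE2 ⊢
    generalize 12 * Real.exp 2 * C * θ1 ^ (-(9 / 10 : ℝ)) = W1 at w1 ⊢
    generalize C13 * (2 * r / θ2) * (Ct * (CA + CB)) = W2 at w2 ⊢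
    generalize C12 * (Ct * (CL + CL)) = W3 at w3 ⊢
    nlinarith [mul_nonneg w1 hE1, mul_nonneg w2 hE2, mul_nonneg w3 hE1, mul_nonneg w3 hE2]
  · -- large k
    have hy0 : 0 < Real.exp k * ε := mul_pos hX0 h0
    have hy1 : 1 ≤ Real.exp k * ε := by
      rw [div_le_iff₀ h0] at hk
      exact hk
    have hb : ‖BK A B θ1 θ2 ε k‖ ≤ C12 * Real.exp k * ∑' x : ℕ × ℕ, ‖A (x.1 + 1)‖ * ‖B (x.2 + 1)‖ *
        ((1 + ‖((Real.exp k : ℝ) : ℂ) * zz θ1 θ2 ε (x.1 + 1) (x.2 + 1)‖) ^ 12)⁻¹ := by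
      rw [← hGs.tsum_eq]
      refine tsum_of_norm_bounded (hmaj.hasSum.mul_left (C12 * Real.exp k)) fun x => ?_
      rw [hG]
      refine (hGn x).trans ?_
      have hdd : 0 ≤ ‖A (x.1 + 1)‖ * ‖B (x.2 + 1)‖ := mul_nonneg (norm_nonneg _) (norm_nonneg _)
      refine (mul_le_mul_of_nonneg_left (mul_le_mul_of_nonneg_left (hX12 _ (hre x)) hX0.le)
        hdd).trans (le_of_eq ?_)
      ring
    refine hb.trans ((mul_le_mul_of_nonneg_left hT2 (by positivity)).trans ?_)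
    have hfin : Real.exp k * ((Real.exp k * ε) ^ 4)⁻¹ ≤ ε⁻¹ * ((Real.exp k * ε) ^ 2)⁻¹ := by
      have u1 : Real.exp k = ε⁻¹ * (Real.exp k * ε) := by
        field_simp
      revert u1 hy0 hy1
      generalize Real.exp k * ε = y
      intro hy0 hy1 u1
      rw [u1, mul_assoc]
      refine mul_le_mul_of_nonneg_left ?_ (by positivity)
      have u2 : y * (y ^ 4)⁻¹ = (y ^ 3)⁻¹ := by
        have : y ≠ 0 := hy0.ne'
        field_simp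
      rw [u2]
      exact inv_anti₀ (by positivity) (pow_le_pow_right₀ hy1 (by norm_num))
    have w1 : 0 ≤ 12 * Real.exp 2 * C * θ1 ^ (-(9 / 10 : ℝ)) := by positivity
    have w2 : 0 ≤ C13 * (2 * r / θ2) * (Ct * (CA + CB)) := by positivity
    have w3 : 0 ≤ C12 * (Ct * (CL + CL)) := by positivity
    have w4 : 0 ≤ ε⁻¹ * ((Real.exp k * ε) ^ 2)⁻¹ := by positivity
    have w5 : C12 * Real.exp k * (Ct * (CL + CL) * ((Real.exp k * ε) ^ 4)⁻¹) =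
        C12 * (Ct * (CL + CL)) * (Real.exp k * ((Real.exp k * ε) ^ 4)⁻¹) := by ring
    rw [w5]
    refine (mul_le_mul_of_nonneg_left hfin w3).trans (mul_le_mul_of_nonneg_right ?_ w4)
    linarith

end PP
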