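import Pool.Agent.Lib.MP_0f5a55_nt.PP.P02
import Pool.Agent.Lib.MP_0f5a55_nt.NR.M15

open Complex MeasureTheory Set Filter Topology
open scoped Real ComplexConjugate

namespace PP

private theorem P03_ifsum (n : ℕ) (f : ℕ → ℝ) :
    HasSum (fun k : ℕ => if k ∈ Finset.range n then f k else 0) (∑ k ∈ Finset.range n, f k) := by
  have := hasSum_sum_of_ne_finset_zero (L := SummationFilter.unconditional ℕ)
    (f := fun k : ℕ => if k ∈ Finset.range n then f k else 0) (s := Finset.range n)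
    (fun b hb => if_neg hb)
  rwa [Finset.sum_ite_mem, Finset.inter_self] at this

private theorem P03_geo (n : ℕ) {r : ℝ} (hr0 : 0 ≤ r) (hr1 : r < 1) :
    HasSum (fun k : ℕ => if k < n then 0 else r ^ (k - n)) (1 - r)⁻¹ := by
  have h := hasSum_geometric_of_lt_one hr0 hr1
  have e : (1 - r)⁻¹ = (1 - r)⁻¹ + ∑ i ∈ Finset.range n, (if i < n then 0 else r ^ (i - n)) := by
    rw [Finset.sum_eq_zero fun i hi => if_pos (Finset.mem_range.1 hi), add_zero]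
  rw [e, ← hasSum_nat_add_iff n]
  refine h.congr_fun ?_
  intro k
  simp

private theorem P03_L0 {ε : ℝ} (h0 : 0 < ε) (h2 : ε ≤ 1 / 2) : 0 ≤ Real.log (1 / ε) := by
  refine Real.log_nonneg ?_
  rw [le_div_iff₀ h0]
  linarith

private theorem P03_gsum {ε : ℝ} (h0 : 0 < ε) (h2 : ε ≤ 1 / 2) :
    ∑ k ∈ Finset.range (⌊Real.log (1 / ε)⌋₊ + 1), ε ^ (-(9 / 10 : ℝ)) * Real.exp ((k : ℝ) / 10) ≤
      Real.exp (1 / 10) / (Real.exp (1 / 10) - 1) * ε⁻¹ := by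
  have hL0 : 0 ≤ Real.log (1 / ε) := P03_L0 h0 h2
  set L := Real.log (1 / ε) with hL
  set x := Real.exp (1 / 10) with hx
  have hx1 : 1 < x := Real.one_lt_exp_iff.2 (by norm_num)
  have hx0 : 0 < x - 1 := by linarith
  have e1 : ∀ k : ℕ, Real.exp ((k : ℝ) / 10) = x ^ k := by
    intro k
    rw [hx, ← Real.exp_nat_mul]
    ring_nf
  simp only [e1]
  rw [← Finset.mul_sum, geom_sum_eq hx1.ne']
  have h4 : x ^ (⌊L⌋₊ + 1) ≤ x * ε ^ (-(1 / 10 : ℝ)) := by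
    rw [pow_succ', ← e1]
    refine mul_le_mul_of_nonneg_left ?_ (by linarith)
    have h5 : ε ^ (-(1 / 10 : ℝ)) = Real.exp (L / 10) := by
      have h8 : L = -Real.log ε := by rw [hL, one_div, Real.log_inv]
      rw [Real.rpow_def_of_pos h0, h8]
      ring_nf
    rw [h5]
    refine Real.exp_le_exp.2 ?_
    have := Nat.floor_le hL0
    linarith
  have h6 : ε ^ (-(9 / 10 : ℝ)) * ε ^ (-(1 / 10 : ℝ)) = ε⁻¹ := by
    rw [← Real.rpow_add h0, ← Real.rpow_neg_one]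
    norm_num
  have h7 : 0 < ε ^ (-(9 / 10 : ℝ)) := Real.rpow_pos_of_pos h0 _
  calc ε ^ (-(9 / 10 : ℝ)) * ((x ^ (⌊L⌋₊ + 1) - 1) / (x - 1))
      ≤ ε ^ (-(9 / 10 : ℝ)) * ((x * ε ^ (-(1 / 10 : ℝ))) / (x - 1)) := by
        refine mul_le_mul_of_nonneg_left ?_ h7.le
        refine div_le_div_of_nonneg_right ?_ hx0.le
        linarith
    _ = x / (x - 1) * (ε ^ (-(9 / 10 : ℝ)) * ε ^ (-(1 / 10 : ℝ))) := by ring
    _ = x / (x - 1) * ε⁻¹ := by rw [h6]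

/-- summation of the pieces -/
private theorem P03_main {ε : ℝ} (h0 : 0 < ε) (h2 : ε ≤ 1 / 2) {b : ℕ → ℂ} {J : ℂ} (hJ : HasSum b J)
    {C : ℝ} (hC : 0 ≤ C)
    (hmid : ∀ k : ℕ, Real.exp k ≤ 1 / ε → ‖b k‖ ≤ C * (ε⁻¹ * Real.exp (-(k : ℝ)) +
      ε ^ (-(9 / 10 : ℝ)) * Real.exp ((k : ℝ) / 10)))
    (hlg : ∀ k : ℕ, 1 / ε ≤ Real.exp k → ‖b k‖ ≤ C * (ε⁻¹ * ((Real.exp k * ε) ^ 2)⁻¹)) :
    ‖J‖ ≤ C * ((1 - Real.exp (-1))⁻¹ + Real.exp (1 / 10) / (Real.exp (1 / 10) - 1) +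
      (1 - Real.exp (-2))⁻¹) * ε⁻¹ := by
  have hL0 : 0 ≤ Real.log (1 / ε) := P03_L0 h0 h2
  have hgs := P03_gsum h0 h2
  set L := Real.log (1 / ε) with hLd
  have hi0 : 0 < ε⁻¹ := inv_pos.2 h0
  have hr1 : Real.exp (-2) < 1 := Real.exp_lt_one_iff.2 (by norm_num)
  have hr1' : Real.exp (-1) < 1 := Real.exp_lt_one_iff.2 (by norm_num)
  have g2 := (hasSum_geometric_of_lt_one (Real.exp_nonneg (-1)) hr1').mul_left (C * ε⁻¹)
  have g3 := P03_ifsum (⌊L⌋₊ + 1) (fun k => C * (ε ^ (-(9 / 10 : ℝ)) * Real.exp ((k : ℝ) / 10)))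
  have g4 := (P03_geo ⌈L⌉₊ (Real.exp_nonneg (-2)) hr1).mul_left (C * ε⁻¹)
  have h7 : 0 < ε ^ (-(9 / 10 : ℝ)) := Real.rpow_pos_of_pos h0 _
  have hbk : ∀ k : ℕ, ‖b k‖ ≤ C * ε⁻¹ * Real.exp (-1) ^ k +
      (if k ∈ Finset.range (⌊L⌋₊ + 1) then C * (ε ^ (-(9 / 10 : ℝ)) * Real.exp ((k : ℝ) / 10)) else 0) +
      C * ε⁻¹ * (if k < ⌈L⌉₊ then 0 else Real.exp (-2) ^ (k - ⌈L⌉₊)) := by
    intro k
    have i2 : 0 ≤ C * ε⁻¹ * Real.exp (-1) ^ k := by positivity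
    have i3 : 0 ≤ (if k ∈ Finset.range (⌊L⌋₊ + 1) then C * (ε ^ (-(9 / 10 : ℝ)) * Real.exp ((k : ℝ) / 10)) else 0) := by
      split_ifs
      · positivity
      · exact le_refl _
    have i4 : 0 ≤ C * ε⁻¹ * (if k < ⌈L⌉₊ then 0 else Real.exp (-2) ^ (k - ⌈L⌉₊)) := by
      refine mul_nonneg (by positivity) ?_
      split_ifs
      · exact le_refl _
      · positivity
    rcases le_or_gt (1 / ε) (Real.exp k) with hk2 | hk2
    · have m1 := hlg k hk2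
      have m2 : L ≤ k := by
        rw [hLd, Real.log_le_iff_le_exp (by positivity)]
        exact hk2
      have m3 : ¬ k < ⌈L⌉₊ := by
        rw [not_lt]
        exact Nat.ceil_le.2 m2
      have m4 : ((Real.exp k * ε) ^ 2)⁻¹ ≤ Real.exp (-2) ^ (k - ⌈L⌉₊) := by
        have e1 : ε = Real.exp (-L) := by
          rw [hLd, one_div, Real.log_inv, neg_neg, Real.exp_log h0]
        have e2 : ((Real.exp k * ε) ^ 2)⁻¹ = Real.exp (-2 * (k - L)) := by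
          rw [e1, ← Real.exp_add, ← Real.exp_nat_mul, ← Real.exp_neg]
          push_cast
          ring_nf
        rw [e2, ← Real.exp_nat_mul, Nat.cast_sub (not_lt.1 m3)]
        refine Real.exp_le_exp.2 ?_
        have := Nat.le_ceil L
        linarith
      have m5 : C * (ε⁻¹ * ((Real.exp k * ε) ^ 2)⁻¹) ≤ C * ε⁻¹ * Real.exp (-2) ^ (k - ⌈L⌉₊) := by
        rw [← mul_assoc]
        exact mul_le_mul_of_nonneg_left m4 (by positivity)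
      rw [if_neg m3] at i4 ⊢
      linarith
    · have m1 : k ∈ Finset.range (⌊L⌋₊ + 1) := by
        rw [Finset.mem_range, Nat.lt_succ_iff]
        refine Nat.le_floor ?_
        exact (Real.le_log_iff_exp_le (by positivity)).2 hk2.le
      have m2 := hmid k hk2.le
      have m3 : Real.exp (-(k : ℝ)) = Real.exp (-1) ^ k := by
        rw [← Real.exp_nat_mul]
        congr 1
        ring
      rw [m3, mul_add, ← mul_assoc] at m2
      rw [if_pos m1] at i3 ⊢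
      linarith
  have hfin := tsum_of_norm_bounded ((g2.add g3).add g4) hbk
  rw [hJ.tsum_eq] at hfin
  refine hfin.trans ?_
  have r3 : ∑ k ∈ Finset.range (⌊L⌋₊ + 1), C * (ε ^ (-(9 / 10 : ℝ)) * Real.exp ((k : ℝ) / 10)) ≤
      C * (Real.exp (1 / 10) / (Real.exp (1 / 10) - 1) * ε⁻¹) := by
    rw [← Finset.mul_sum]
    exact mul_le_mul_of_nonneg_left hgs hC
  calc _ ≤ C * ε⁻¹ * (1 - Real.exp (-1))⁻¹ + C * (Real.exp (1 / 10) / (Real.exp (1 / 10) - 1) * ε⁻¹) +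
        C * ε⁻¹ * (1 - Real.exp (-2))⁻¹ := add_le_add (add_le_add le_rfl r3) le_rfl
    _ = _ := by ring

/-- Row P03. The correlation integral is O(1/ε). Model: NR/M15.lean (M15_hasSum: II.BK_sum gives HasSum (BK a1 a2 ..)
(JJ a1 a2 ..), replace the value at 0 by 0; M15_gsum, M15_geo for the sums over k) and NR/M14.lean, large_k_rat (the
value at 0). The mean squares from NR.ms_poly. Sum over k: Σ ε⁻¹ e^(-k) ≤ 2 ε⁻¹; Σ_{e^k ≤ 1/ε} ε^(-9/10) e^(k/10) ≤ C ε⁻¹;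
Σ_{e^k ≥ 1/ε} ε⁻¹ (e^k ε)^(-2) ≤ C ε⁻¹. -/
theorem J_le {N1 N2 : ℕ} {a1 a2 : ℕ → ℂ} {L1 L2 : ℂ → ℂ} (D1 : NR.Dat N1 a1 L1) (D2 : NR.Dat N2 a2 L2)
    {r s : ℕ} (hr : 0 < r) (hs : 0 < s) (hcop : Nat.Coprime r s)
    (hrs : (r : ℝ) * FF.tht N1 1 = s * FF.tht N2 1)
    (h : ∃ C : ℝ, 0 ≤ C ∧ ∀ x : ℕ, 1 ≤ x →
      ‖∑ l ∈ Finset.Icc 1 x, a1 (r * l) * conj (a2 (s * l))‖ ≤ C * (x : ℝ) ^ (9 / 10 : ℝ)) :
    ∃ C : ℝ, 0 ≤ C ∧ ∀ ε : ℝ, 0 < ε → ε ≤ 1 / 2 →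
      ‖JJ a1 a2 (FF.tht N1 1) (FF.tht N2 1) ε‖ ≤ C * ε⁻¹ := by
  have tpos : ∀ N : ℕ, 0 < N → 0 < FF.tht N 1 := by
    intro N hN
    unfold FF.tht
    have : (0 : ℝ) < N := by exact_mod_cast hN
    positivity
  have h1 := tpos N1 D1.pos
  have h2 := tpos N2 D2.pos
  obtain ⟨b1, hb1⟩ : ∃ b : ℕ → ℂ, ∀ n, b n = if n = 0 then 0 else a1 n := ⟨_, fun _ => rfl⟩
  obtain ⟨b2, hb2⟩ : ∃ b : ℕ → ℂ, ∀ n, b n = if n = 0 then 0 else a2 n := ⟨_, fun _ => rfl⟩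
  have e1 : ∀ n : ℕ, a1 (n + 1) = b1 (n + 1) := fun n => by rw [hb1, if_neg (Nat.succ_ne_zero n)]
  have e2 : ∀ n : ℕ, a2 (n + 1) = b2 (n + 1) := fun n => by rw [hb2, if_neg (Nat.succ_ne_zero n)]
  have bd1 : ∀ n : ℕ, ‖b1 n‖ ≤ n := by
    intro n
    rw [hb1]
    split_ifs with hn
    · rw [norm_zero]
      exact Nat.cast_nonneg _
    · refine (D1.bd n (Nat.pos_of_ne_zero hn)).trans ?_
      exact_mod_cast Nat.card_divisors_le_self n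
  have bd2 : ∀ n : ℕ, ‖b2 n‖ ≤ n := by
    intro n
    rw [hb2]
    split_ifs with hn
    · rw [norm_zero]
      exact Nat.cast_nonneg _
    · refine (D2.bd n (Nat.pos_of_ne_zero hn)).trans ?_
      exact_mod_cast Nat.card_divisors_le_self n
  have ms1 : ∃ C : ℝ, 0 ≤ C ∧ ∀ x : ℝ, 0 < x →
      ∑' n : ℕ, ‖b1 (n + 1)‖ ^ 2 * ((1 + x * ((n : ℝ) + 1)) ^ 4)⁻¹ ≤ C / x := by
    obtain ⟨C, hC, hx⟩ := NR.ms_poly D1
    refine ⟨C, hC, fun x h0 => ?_⟩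
    simp only [← e1]
    exact (hx x h0).2
  have ms2 : ∃ C : ℝ, 0 ≤ C ∧ ∀ x : ℝ, 0 < x →
      ∑' n : ℕ, ‖b2 (n + 1)‖ ^ 2 * ((1 + x * ((n : ℝ) + 1)) ^ 4)⁻¹ ≤ C / x := by
    obtain ⟨C, hC, hx⟩ := NR.ms_poly D2
    refine ⟨C, hC, fun x h0 => ?_⟩
    simp only [← e2]
    exact (hx x h0).2
  obtain ⟨C0, hC0, hd⟩ := h
  have hd' : ∀ x : ℕ, 1 ≤ x →
      ‖∑ l ∈ Finset.Icc 1 x, b1 (r * l) * conj (b2 (s * l))‖ ≤ C0 * (x : ℝ) ^ (9 / 10 : ℝ) := by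
    intro x hx
    have e : ∑ l ∈ Finset.Icc 1 x, b1 (r * l) * conj (b2 (s * l)) =
        ∑ l ∈ Finset.Icc 1 x, a1 (r * l) * conj (a2 (s * l)) := by
      refine Finset.sum_congr rfl fun l hl => ?_
      have hl1 := (Finset.mem_Icc.1 hl).1
      have u1 : r * l ≠ 0 := (Nat.mul_pos hr hl1).ne'
      have u2 : s * l ≠ 0 := (Nat.mul_pos hs hl1).ne'
      rw [hb1, hb2, if_neg u1, if_neg u2]
    rw [e]
    exact hd x hx
  obtain ⟨C, hC, hblk⟩ := blk h1 h2 hr hs hcop hrs bd1 bd2 ms1 ms2 hC0 hd'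
  have hK : 0 ≤ (1 - Real.exp (-1))⁻¹ + Real.exp (1 / 10) / (Real.exp (1 / 10) - 1) +
      (1 - Real.exp (-2))⁻¹ := by
    have u1 : 0 < Real.exp (1 / 10) - 1 := by
      have := Real.one_lt_exp_iff.2 (show (0 : ℝ) < 1 / 10 by norm_num)
      linarith
    have u2 : 0 < 1 - Real.exp (-2) := by
      have := Real.exp_lt_one_iff.2 (show (-2 : ℝ) < 0 by norm_num)
      linarith
    have u3 : 0 < 1 - Real.exp (-1) := by
      have := Real.exp_lt_one_iff.2 (show (-1 : ℝ) < 0 by norm_num)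
      linarith
    positivity
  refine ⟨C * ((1 - Real.exp (-1))⁻¹ + Real.exp (1 / 10) / (Real.exp (1 / 10) - 1) +
      (1 - Real.exp (-2))⁻¹), mul_nonneg hC hK, fun ε h0 he => ?_⟩
  have hJ := II.BK_sum h1 h2 h0 he bd1 bd2
  have hJe : (∫ u : ℝ, ((TT.tau u * Real.exp u : ℝ) : ℂ) *
      II.FE b1 (FF.tht N1 1) ε (Real.exp u) * conj (II.FE b2 (FF.tht N2 1) ε (Real.exp u))) =
      JJ a1 a2 (FF.tht N1 1) (FF.tht N2 1) ε := by
    unfold JJ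
    simp only [NR.M14_FE e1, NR.M14_FE e2]
  rw [hJe] at hJ
  exact P03_main h0 he hJ hC (fun k => (hblk ε h0 he k).1) (fun k => (hblk ε h0 he k).2)

end PP
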