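import Pool.Agent.Lib.MP_0f5a55_nt.PP.D
import Pool.Agent.Lib.MP_0f5a55_nt.NR.M16

open Complex MeasureTheory Set Filter Topology
open scoped Real ComplexConjugate

namespace PP

open NR NH

/-- the function L is not identically zero -/
theorem P04_nz {N : ℕ} {a : ℕ → ℂ} {L : ℂ → ℂ} (D : NR.Dat N a L) : ∃ s : ℂ, L s ≠ 0 := by
  by_contra hcon
  push Not at hcon
  have hs2 := (D.ser 2 (by simp)).summable.norm
  set S0 : ℝ := ∑' n : ℕ, ‖a (n + 1) * ((n : ℂ) + 1) ^ (-(2 : ℂ))‖ with hS0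
  have hS0n : 0 ≤ S0 := tsum_nonneg fun n => norm_nonneg _
  obtain ⟨k, hk⟩ : ∃ k : ℕ, S0 < 2 ^ k := pow_unbounded_of_one_lt S0 (by norm_num)
  have hser := D.ser ((2 + k : ℝ) : ℂ) (by simp)
  rw [hcon] at hser
  -- every term but the first
  have hterm : ∀ n : ℕ, ‖a (n + 2) * (((n + 1 : ℕ) : ℂ) + 1) ^ (-((2 + k : ℝ) : ℂ))‖ ≤
      ‖a (n + 2) * (((n + 1 : ℕ) : ℂ) + 1) ^ (-(2 : ℂ))‖ * (1 / 2 ^ k) := by
    intro n
    have hn : (0 : ℝ) < ((n + 1 : ℕ) : ℝ) + 1 := by positivity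
    have hcast : (((n + 1 : ℕ) : ℂ) + 1) = ((((n + 1 : ℕ) : ℝ) + 1 : ℝ) : ℂ) := by push_cast; rfl
    rw [norm_mul, norm_mul, hcast, Complex.norm_cpow_eq_rpow_re_of_pos hn,
      Complex.norm_cpow_eq_rpow_re_of_pos hn, mul_assoc]
    apply mul_le_mul_of_nonneg_left _ (norm_nonneg _)
    have e1 : (-((2 + k : ℝ) : ℂ)).re = (-(2 : ℂ)).re + -(k : ℝ) := by
      simp
      ring
    rw [e1, Real.rpow_add hn]
    apply mul_le_mul_of_nonneg_left _ (by positivity)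
    rw [Real.rpow_neg hn.le, Real.rpow_natCast, one_div]
    apply inv_anti₀ (by positivity)
    apply pow_le_pow_left₀ (by norm_num)
    push_cast
    have : (0 : ℝ) ≤ n := by positivity
    linarith
  have hsplit := hser.summable.tsum_eq_zero_add
  rw [hser.tsum_eq] at hsplit
  have h0 : a (0 + 1) * (((0 : ℕ) : ℂ) + 1) ^ (-((2 + k : ℝ) : ℂ)) = 1 := by
    rw [zero_add, D.one]; simp
  rw [h0] at hsplit
  have hsum1 : Summable fun n : ℕ => ‖a (n + 1 + 1) * (((n + 1 : ℕ) : ℂ) + 1) ^ (-(2 : ℂ))‖ :=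
    (summable_nat_add_iff 1).mpr hs2
  have hsum2 : Summable fun n : ℕ => ‖a (n + 1 + 1) * (((n + 1 : ℕ) : ℂ) + 1) ^ (-((2 + k : ℝ) : ℂ))‖ :=
    Summable.of_nonneg_of_le (fun n => norm_nonneg _) hterm (hsum1.mul_right _)
  have h1 : ‖∑' n : ℕ, a (n + 1 + 1) * (((n + 1 : ℕ) : ℂ) + 1) ^ (-((2 + k : ℝ) : ℂ))‖ ≤ S0 * (1 / 2 ^ k) := by
    refine (norm_tsum_le_tsum_norm hsum2).trans ((hsum2.tsum_le_tsum hterm (hsum1.mul_right _)).trans ?_)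
    rw [tsum_mul_right]
    apply mul_le_mul_of_nonneg_right _ (by positivity)
    rw [hS0, hs2.tsum_eq_zero_add]
    have := norm_nonneg (a (0 + 1) * (((0 : ℕ) : ℂ) + 1) ^ (-(2 : ℂ)))
    linarith
  have h2 : (∑' n : ℕ, a (n + 1 + 1) * (((n + 1 : ℕ) : ℂ) + 1) ^ (-((2 + k : ℝ) : ℂ))) = -1 := by
    linear_combination -hsplit
  rw [h2, norm_neg, norm_one] at h1
  rw [mul_one_div, le_div_iff₀ (by positivity)] at h1
  linarith

theorem P04_topL {N : ℕ} {a : ℕ → ℂ} {L : ℂ → ℂ} (D : NR.Dat N a L) (z : ℂ) :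
    analyticOrderAt L z ≠ ⊤ := by
  intro htop
  have h0 : L =ᶠ[𝓝 z] 0 := by
    rw [analyticOrderAt_eq_top] at htop
    exact htop
  have hA : AnalyticOnNhd ℂ L univ := fun w _ => D.ent.analyticAt w
  have h1 : EqOn L 0 univ :=
    hA.eqOn_zero_of_preconnected_of_eventuallyEq_zero isPreconnected_univ (mem_univ z) h0
  obtain ⟨s, hs⟩ := P04_nz D
  exact hs (h1 (mem_univ s))

theorem P04_mul {f g : ℂ → ℂ} {z : ℂ} (a1 : AnalyticAt ℂ f z) (a2 : AnalyticAt ℂ g z)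
    (t1 : analyticOrderAt f z ≠ ⊤) (t2 : analyticOrderAt g z ≠ ⊤) :
    AnalyticAt ℂ (f * g) z ∧ analyticOrderAt (f * g) z ≠ ⊤ ∧
      analyticOrderNatAt (f * g) z = analyticOrderNatAt f z + analyticOrderNatAt g z := by
  refine ⟨a1.mul a2, ?_, analyticOrderNatAt_mul a1 a2 t1 t2⟩
  rw [analyticOrderAt_mul a1 a2]
  intro h
  rcases ENat.add_eq_top.mp h with h | h
  · exact t1 h
  · exact t2 h

theorem P04_orders {N1 N2 : ℕ} {a1 a2 : ℕ → ℂ} {L1 L2 : ℂ → ℂ} (D1 : NR.Dat N1 a1 L1) (D2 : NR.Dat N2 a2 L2)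
    (t : ℝ) :
    AnalyticAt ℂ (L1 * L2) (1 / 2 + t * I) ∧
      analyticOrderAt (L1 * L2) (1 / 2 + t * I) ≠ ⊤ ∧
      analyticOrderNatAt (L1 * L2) (1 / 2 + t * I) =
        analyticOrderNatAt L1 (1 / 2 + t * I) + analyticOrderNatAt L2 (1 / 2 + t * I) :=
  P04_mul (D1.ent.analyticAt _) (D2.ent.analyticAt _) (P04_topL D1 _) (P04_topL D2 _)

/-- Row P04. Sign of the product of the two Hardy functions. Model: NR/M16.lean, sign_f (and M16_topL, M16_mul,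
M16_orders there, private: copy). -/
theorem sign2 {N1 N2 : ℕ} {a1 a2 : ℕ → ℂ} {L1 L2 : ℂ → ℂ} (D1 : NR.Dat N1 a1 L1) (D2 : NR.Dat N2 a2 L2)
    {u1 u2 : ℂ} {v1 W1 v2 W2 : ℝ → ℂ} {C1 C2 : ℝ} (hp1 : NR.Ph N1 L1 u1 v1 W1 C1) (hp2 : NR.Ph N2 L2 u2 v2 W2 C2)
    (hfin : {g : ℝ | 0 < g ∧ Odd (analyticOrderNatAt L1 (1 / 2 + g * I) +
      analyticOrderNatAt L2 (1 / 2 + g * I))}.Finite) :
    ∃ T0 : ℝ, 0 < T0 ∧ ((∀ t, T0 < t → 0 ≤ NR.Zf L1 v1 t * NR.Zf L2 v2 t) ∨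
        (∀ t, T0 < t → NR.Zf L1 v1 t * NR.Zf L2 v2 t ≤ 0)) := by
  obtain ⟨T0, hT0, hev⟩ : ∃ T0 : ℝ, 0 < T0 ∧ ∀ t : ℝ, T0 < t → Even (analyticOrderNatAt L1 (1 / 2 + t * I) +
      analyticOrderNatAt L2 (1 / 2 + t * I)) := by
    obtain ⟨M, hM⟩ := hfin.bddAbove
    refine ⟨max M 1, lt_of_lt_of_le one_pos (le_max_right _ _), ?_⟩
    intro t ht
    by_contra hodd
    rw [Nat.not_even_iff_odd] at hodd
    have hmem := hM (show t ∈ {g : ℝ | 0 < g ∧ Odd (analyticOrderNatAt L1 (1 / 2 + g * I) +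
      analyticOrderNatAt L2 (1 / 2 + g * I))} from
        ⟨lt_of_lt_of_le one_pos ((le_max_right M 1).trans ht.le), hodd⟩)
    exact absurd (lt_of_le_of_lt (le_max_left M 1) ht) (not_lt.mpr hmem)
  refine ⟨T0, hT0, ?_⟩
  have hv1 : ∀ t, v1 t ≠ 0 := by
    intro t h
    have := hp1.nv t
    rw [h, norm_zero] at this
    norm_num at this
  have hv2 : ∀ t, v2 t ≠ 0 := by
    intro t h
    have := hp2.nv t
    rw [h, norm_zero] at this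
    norm_num at this
  have hZ1 : ∀ t : ℝ, ((NR.Zf L1 v1 t : ℝ) : ℂ) = v1 t * L1 (1 / 2 + t * I) := fun t => (NR.Zf_abs hp1 t).2
  have hZ2 : ∀ t : ℝ, ((NR.Zf L2 v2 t : ℝ) : ℂ) = v2 t * L2 (1 / 2 + t * I) := fun t => (NR.Zf_abs hp2 t).2
  have key : ∀ b : ℝ, (∀ t ∈ Ioo T0 b, 0 ≤ NR.Zf L1 v1 t * NR.Zf L2 v2 t) ∨
      (∀ t ∈ Ioo T0 b, NR.Zf L1 v1 t * NR.Zf L2 v2 t ≤ 0) := by
    intro b
    refine OO.F_sign (L1 * L2) (fun t => v1 t * v2 t)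
      (fun t => NR.Zf L1 v1 t * NR.Zf L2 v2 t) (hp1.cv.mul hp2.cv) ?_ ?_
      (fun t => (P04_orders D1 D2 t).1) (fun t => (P04_orders D1 D2 t).2.1) T0 b ?_
    · intro t
      exact mul_ne_zero (hv1 t) (hv2 t)
    · intro t
      rw [ofReal_mul, hZ1 t, hZ2 t]
      show _ = v1 t * v2 t * (L1 (1 / 2 + t * I) * L2 (1 / 2 + t * I))
      ring
    · intro t ht
      rw [(P04_orders D1 D2 t).2.2]
      exact hev t ht.1
  by_contra hcon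
  push Not at hcon
  obtain ⟨⟨a', ha, ha'⟩, b, hb, hb'⟩ := hcon
  rcases key (max a' b + 1) with h | h
  · exact absurd (h a' ⟨ha, lt_of_le_of_lt (le_max_left a' b) (lt_add_one _)⟩) (not_le.mpr ha')
  · exact absurd (h b ⟨hb, lt_of_le_of_lt (le_max_right a' b) (lt_add_one _)⟩) (not_le.mpr hb')

end PP
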