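import Pool.Agent.Lib.MP_0f5a55_nt.PP.D
import Pool.Agent.Lib.MP_0f5a55_nt.NR.M16

open Complex MeasureTheory Set Filter Topology
open scoped Real ComplexConjugate

namespace PP

open NR NH

private theorem P05_expn (x : ℝ) : ‖exp ((x : ℂ) * I / 2)‖ = 1 := by
  have : (x : ℂ) * I / 2 = ((x / 2 : ℝ) : ℂ) * I := by push_cast; ring
  rw [this, norm_exp_ofReal_mul_I]

private theorem P05_cc {c : ℂ} (h : ‖c‖ = 1) : conj c * c = 1 := by
  rw [mul_comm, mul_conj, normSq_eq_norm_sq, h]; simp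

private theorem P05_Rf {N : ℕ} (hN : 0 < N) {L : ℂ → ℂ} {u : ℂ} {v W : ℝ → ℂ} {C : ℝ}
    (hp : NR.Ph N L u v W C) {ε : ℝ} (h0 : 0 < ε) (h1 : ε ≤ 1 / 2) (t : ℝ) :
    Rf N L ε t = conj (u * exp (((π / 2 - ε : ℝ) : ℂ) * I / 2)) * (((NR.r2 N L v ε t : ℝ) : ℂ) * W t) := by
  have h2 := Rf_r2 hN hp h0 h1 t
  have h3 : ‖u * exp (((π / 2 - ε : ℝ) : ℂ) * I / 2)‖ = 1 := by
    rw [norm_mul, hp.nu, P05_expn, one_mul]
  rw [← h2, ← mul_assoc, P05_cc h3, one_mul]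

private theorem P05_u0 {N : ℕ} {L : ℂ → ℂ} {u : ℂ} {v W : ℝ → ℂ} {C : ℝ} (hp : NR.Ph N L u v W C) :
    u ≠ 0 := by
  intro h
  have := hp.nu
  rw [h, norm_zero] at this
  norm_num at this

private theorem P05_A {N : ℕ} (hN : 0 < N) : 0 < √(N : ℝ) / (2 * π) := by
  have : (0 : ℝ) < N := by exact_mod_cast hN
  have := Real.pi_pos
  positivity

/-- Row P05. The product is a constant times the weight times the product of the Hardy functions, up to a small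
error. Model: NR/M16.lean, Rf_prod (both factors now have the shape of M16_Rf; copy the private lemmas). -/
theorem prod2 {N1 N2 : ℕ} {a1 a2 : ℕ → ℂ} {L1 L2 : ℂ → ℂ} (D1 : NR.Dat N1 a1 L1) (D2 : NR.Dat N2 a2 L2)
    {u1 u2 : ℂ} {v1 W1 v2 W2 : ℝ → ℂ} {C1 C2 : ℝ} (hp1 : NR.Ph N1 L1 u1 v1 W1 C1)
    (hp2 : NR.Ph N2 L2 u2 v2 W2 C2) : ∃ (κ : ℂ) (C : ℝ), κ ≠ 0 ∧ 0 ≤ C ∧
    ∀ ε : ℝ, 0 < ε → ε ≤ 1 / 2 → ∀ t : ℝ,
      ‖Rf N1 L1 ε t * conj (Rf N2 L2 ε t) -
        κ * ((FF.wt ε t * (NR.Zf L1 v1 t * NR.Zf L2 v2 t) : ℝ) : ℂ)‖ ≤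
        C * (1 + |t|) ^ 12 * Real.exp (-|t|) := by
  obtain ⟨K1, hK1, hL1⟩ := L_line D1
  obtain ⟨K2, hK2, hL2⟩ := L_line D2
  have hZ1 : ∀ t, |Zf L1 v1 t| ≤ K1 * (1 + |t|) ^ 2 := fun t => by rw [(Zf_abs hp1 t).1]; exact hL1 t
  have hZ2 : ∀ t, |Zf L2 v2 t| ≤ K2 * (1 + |t|) ^ 2 := fun t => by rw [(Zf_abs hp2 t).1]; exact hL2 t
  have hpi := Real.pi_gt_three
  have hA1 := P05_A D1.pos
  have hA2 := P05_A D2.pos
  have hC1 : 0 ≤ C1 := by
    have := (norm_nonneg _).trans (hp1.W1 0)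
    simpa using this
  have hC2 : 0 ≤ C2 := by
    have := (norm_nonneg _).trans (hp2.W1 0)
    simpa using this
  set s1 : ℝ := √(√(N1 : ℝ) / (2 * π)) with hs1
  set s2 : ℝ := √(√(N2 : ℝ) / (2 * π)) with hs2
  have hs10 : 0 < s1 := Real.sqrt_pos.mpr hA1
  have hs20 : 0 < s2 := Real.sqrt_pos.mpr hA2
  have hu1 := P05_u0 hp1
  have hu2 := P05_u0 hp2
  have hcu1 : conj u1 ≠ 0 := by simpa using hu1
  refine ⟨(π : ℂ) * (conj u1 * u2 * s1 * s2), ‖(π : ℂ) * (conj u1 * u2 * s1 * s2)‖ * (K1 * K2) *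
    (2 * (4 + C1 + C2)), ?_, by positivity, fun ε hε hε1 t => ?_⟩
  · refine mul_ne_zero (by exact_mod_cast Real.pi_ne_zero) (mul_ne_zero (mul_ne_zero
      (mul_ne_zero hcu1 hu2) ?_) ?_)
    · exact_mod_cast hs10.ne'
    · exact_mod_cast hs20.ne'
  · set g : ℝ := ‖Gamma (1 / 2 + t * I)‖ with hg
    set e : ℝ := Real.exp ((π / 2 - ε) * t) with he
    have hg2 : √(π / Real.cosh (π * t)) = g := by
      rw [← FF.F03_gam, hg, Real.sqrt_sq (norm_nonneg _)]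
    have hwt : e * e * g ^ 2 = π * FF.wt ε t := by
      unfold FF.wt
      rw [hg, FF.F03_gam, he, ← Real.exp_add]
      have : (π / 2 - ε) * t + (π / 2 - ε) * t = (π - 2 * ε) * t := by ring
      rw [this]
      ring
    have hr1 : NR.r2 N1 L1 v1 ε t = e * (s1 * g * Zf L1 v1 t) := by
      unfold NR.r2
      rw [hg2]
    have hr2 : NR.r2 N2 L2 v2 ε t = e * (s2 * g * Zf L2 v2 t) := by
      unfold NR.r2
      rw [hg2]
    have hE := P05_cc (P05_expn (π / 2 - ε))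
    have e3 : Rf N1 L1 ε t * conj (Rf N2 L2 ε t) -
        (π : ℂ) * (conj u1 * u2 * s1 * s2) * ((FF.wt ε t * (Zf L1 v1 t * Zf L2 v2 t) : ℝ) : ℂ) =
        (π : ℂ) * (conj u1 * u2 * s1 * s2) * ((FF.wt ε t * (Zf L1 v1 t * Zf L2 v2 t) : ℝ) : ℂ) *
          (W1 t * conj (W2 t) - 1) := by
      rw [P05_Rf D1.pos hp1 hε hε1 t, P05_Rf D2.pos hp2 hε hε1 t, hr1, hr2]
      generalize exp (((π / 2 - ε : ℝ) : ℂ) * I / 2) = E at hE
      have hwt' : (e : ℂ) * e * (g : ℂ) ^ 2 = π * (FF.wt ε t : ℂ) := by exact_mod_cast hwt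
      simp only [map_mul, conj_conj, conj_ofReal]
      push_cast
      linear_combination ((conj u1 * u2 * s1 * s2) * ((e : ℂ) * e * (g : ℂ) ^ 2) *
        ((Zf L1 v1 t : ℂ) * Zf L2 v2 t) * W1 t * conj (W2 t)) * hE +
        ((conj u1 * u2 * s1 * s2) * ((Zf L1 v1 t : ℂ) * Zf L2 v2 t) * W1 t * conj (W2 t)) * hwt'
    rw [e3, norm_mul, norm_mul, norm_real, Real.norm_eq_abs]
    have hsplit : ‖W1 t * conj (W2 t) - 1‖ ≤ ‖W1 t - 1‖ + ‖W2 t - 1‖ := by
      have e4 : W1 t * conj (W2 t) - 1 = W1 t * conj (W2 t - 1) + (W1 t - 1) := by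
        rw [map_sub, map_one]; ring
      rw [e4]
      refine (norm_add_le _ _).trans ?_
      rw [norm_mul, hp1.nW, one_mul, RCLike.norm_conj]
      linarith
    have hd1 : ‖W1 t * conj (W2 t) - 1‖ ≤ 4 := by
      have k1 : ‖W1 t - 1‖ ≤ 2 := by
        refine (norm_sub_le _ _).trans ?_
        rw [hp1.nW, norm_one]
        norm_num
      have k2 : ‖W2 t - 1‖ ≤ 2 := by
        refine (norm_sub_le _ _).trans ?_
        rw [hp2.nW, norm_one]
        norm_num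
      linarith
    have hd2 : ‖W1 t * conj (W2 t) - 1‖ ≤ (4 + C1 + C2) * Real.exp (-(π * t)) := by
      have k1 := hp1.W1 t
      have k2 := hp2.W1 t
      have h9 := Real.exp_pos (-(π * t))
      linarith
    have hw0 : 0 ≤ FF.wt ε t := by unfold FF.wt; positivity
    have hwle : FF.wt ε t ≤ 2 * Real.exp ((π - 2 * ε) * t - π * |t|) := by
      unfold FF.wt
      have h5 : Real.exp (π * |t|) / 2 ≤ Real.cosh (π * t) := by
        rw [← Real.cosh_abs, abs_mul, abs_of_pos Real.pi_pos, Real.cosh_eq]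
        have := Real.exp_pos (-(π * |t|))
        linarith
      rw [div_le_iff₀ (Real.cosh_pos _)]
      have h6 : 2 * Real.exp ((π - 2 * ε) * t - π * |t|) * (Real.exp (π * |t|) / 2) ≤
          2 * Real.exp ((π - 2 * ε) * t - π * |t|) * Real.cosh (π * t) :=
        mul_le_mul_of_nonneg_left h5 (by positivity)
      have h7 : 2 * Real.exp ((π - 2 * ε) * t - π * |t|) * (Real.exp (π * |t|) / 2) =
          Real.exp ((π - 2 * ε) * t) := by
        have : Real.exp ((π - 2 * ε) * t) = Real.exp ((π - 2 * ε) * t - π * |t|) * Real.exp (π * |t|) := by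
          rw [← Real.exp_add]; congr 1; ring
        rw [this]
        ring
      linarith
    have key : FF.wt ε t * ‖W1 t * conj (W2 t) - 1‖ ≤ 2 * (4 + C1 + C2) * Real.exp (-|t|) := by
      rcases le_total 0 t with ht | ht
      · rw [abs_of_nonneg ht] at hwle ⊢
        calc FF.wt ε t * ‖W1 t * conj (W2 t) - 1‖
            ≤ (2 * Real.exp ((π - 2 * ε) * t - π * t)) * ((4 + C1 + C2) * Real.exp (-(π * t))) := by gcongr
          _ = 2 * (4 + C1 + C2) * Real.exp ((π - 2 * ε) * t - π * t + -(π * t)) := by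
            rw [Real.exp_add]; ring
          _ ≤ 2 * (4 + C1 + C2) * Real.exp (-t) := by
            gcongr
            nlinarith
      · rw [abs_of_nonpos ht] at hwle ⊢
        calc FF.wt ε t * ‖W1 t * conj (W2 t) - 1‖
            ≤ (2 * Real.exp ((π - 2 * ε) * t - π * -t)) * 4 := by gcongr
          _ = 8 * Real.exp ((π - 2 * ε) * t - π * -t) := by ring
          _ ≤ 8 * Real.exp (-(-t)) := by
            gcongr
            nlinarith
          _ ≤ 2 * (4 + C1 + C2) * Real.exp (-(-t)) := by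
            gcongr
            linarith
    have hZZ : |Zf L1 v1 t * Zf L2 v2 t| ≤ (K1 * K2) * (1 + |t|) ^ 4 := by
      rw [abs_mul]
      have ha := abs_nonneg t
      calc |Zf L1 v1 t| * |Zf L2 v2 t|
          ≤ (K1 * (1 + |t|) ^ 2) * (K2 * (1 + |t|) ^ 2) := by
            have := hZ1 t; have := hZ2 t
            gcongr
        _ = _ := by ring
    have h26 : (1 + |t|) ^ 4 ≤ (1 + |t|) ^ 12 :=
      pow_le_pow_right₀ (by linarith [abs_nonneg t]) (by norm_num)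
    rw [abs_mul, abs_of_nonneg hw0]
    calc ‖(π : ℂ) * (conj u1 * u2 * s1 * s2)‖ * (FF.wt ε t * |Zf L1 v1 t * Zf L2 v2 t|) *
          ‖W1 t * conj (W2 t) - 1‖
        = ‖(π : ℂ) * (conj u1 * u2 * s1 * s2)‖ * |Zf L1 v1 t * Zf L2 v2 t| *
          (FF.wt ε t * ‖W1 t * conj (W2 t) - 1‖) := by ring
      _ ≤ ‖(π : ℂ) * (conj u1 * u2 * s1 * s2)‖ * ((K1 * K2) * (1 + |t|) ^ 12) *
          (2 * (4 + C1 + C2) * Real.exp (-|t|)) := by
        have : |Zf L1 v1 t * Zf L2 v2 t| ≤ (K1 * K2) * (1 + |t|) ^ 12 :=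
          hZZ.trans (mul_le_mul_of_nonneg_left h26 (by positivity))
        gcongr
      _ = _ := by ring

end PP
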