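import Pool.Agent.Lib.MP_0f5a55_nt.PP.D
import Pool.Agent.Lib.MP_0f5a55_nt.NR.M17

open Complex MeasureTheory Set Filter Topology
open scoped Real ComplexConjugate

namespace PP

open NR NH II

/-- Row P06. Parseval and folding u to -u. Model: NR/M17.lean, parseval_f (now both factors are treated as the second
one there: M17_G, M17_T, M17_sq2, Rf_real, Rf_cont; the constant c1, D1 of FF.mellin_pair is 0). -/
theorem pars2 {N1 N2 : ℕ} {a1 a2 : ℕ → ℂ} {L1 L2 : ℂ → ℂ} (D1 : NR.Dat N1 a1 L1) (D2 : NR.Dat N2 a2 L2) :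
    ∃ C : ℝ, 0 ≤ C ∧ ∀ ε : ℝ, 0 < ε → ε ≤ 1 / 2 → ‖∫ t : ℝ, Rf N1 L1 ε t * conj (Rf N2 L2 ε t)‖ ≤
      C * ‖JJ a1 a2 (FF.tht N1 1) (FF.tht N2 1) ε‖ + C * ε ^ (-(3 / 4 : ℝ)) := by
  obtain ⟨η1, G1, hG1, hη1, hr1⟩ := Rf_real D1
  obtain ⟨η2, G2, hG2, hη2, hr2⟩ := Rf_real D2
  have q12 : 0 < FF.tht N1 1 := M17_tht_pos D1.pos
  have q34 : 0 < FF.tht N2 1 := M17_tht_pos D2.pos
  obtain ⟨A1, hA1, hs1⟩ := M17_sq2 D1 q12
  obtain ⟨A2, hA2, hs2⟩ := M17_sq2 D2 q34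
  set K := ∫ t : ℝ, (1 + |t|) ^ 12 * Real.exp (-(2 * |t|)) with hK
  have hK0 : 0 ≤ K := integral_nonneg fun t => by positivity
  set E := ∫ u : ℝ, TT.tau u * Real.exp (-u) with hE
  have hE0 : 0 ≤ E := integral_nonneg fun u => mul_nonneg (TT.tau_nonneg u) (Real.exp_pos _).le
  obtain ⟨c, hc⟩ : ∃ c : ℝ, c = 0 := ⟨_, rfl⟩
  have hc0 : 0 ≤ c := by rw [hc]
  set A0 := (A1 + A2) * 21 ^ 5 with hA0
  have hA00 : 0 ≤ A0 := by positivity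
  set B := (G1 ^ 2 + G2 ^ 2) * K with hB
  have hB0 : 0 ≤ B := by positivity
  set DD := 4 * π * (c * A0 + c * E + c ^ 2 * E) + (2 * π * (2 * A0 + 2 * c ^ 2 * E) + 2 * B) with hD
  have hD0 : 0 ≤ DD := by
    have := Real.pi_pos
    positivity
  refine ⟨4 * π + DD, by positivity, fun ε hε hε2 => ?_⟩
  set δ := √ε with hδ
  have hδ0 : 0 < δ := Real.sqrt_pos.mpr hε
  set w := ε ^ (-(3 / 4 : ℝ)) with hw
  have hw1 : 1 ≤ w := Real.one_le_rpow_of_pos_of_le_one_of_nonpos hε (by linarith) (by norm_num)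
  have hδ1 : δ ≤ 1 := by
    rw [hδ]
    exact Real.sqrt_le_one.mpr (by linarith)
  have hδw : δ ≤ w := le_trans hδ1 hw1
  have hδe : δ = ε ^ (1 / 2 : ℝ) := by rw [hδ, Real.sqrt_eq_rpow]
  have hδi : 1 / δ ≤ w := by
    rw [hδe, one_div, ← Real.rpow_neg hε.le]
    exact Real.rpow_le_rpow_of_exponent_ge hε (by linarith) (by norm_num)
  set A := (A1 + A2) * ε⁻¹ * (1 + Real.log (1 / ε)) ^ 5 with hA
  have hL0 : 0 ≤ Real.log (1 / ε) := by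
    refine Real.log_nonneg ?_
    rw [le_div_iff₀ hε]
    linarith
  have hδA : δ * A ≤ A0 * w := by
    have h := FF.F05_log hε hε2
    have e : w = ε ^ (1 / 2 : ℝ) * ε⁻¹ * ε ^ (-(1 / 4 : ℝ)) := by
      rw [← Real.rpow_neg_one ε, ← Real.rpow_add hε, ← Real.rpow_add hε, hw]
      congr 1
      norm_num
    calc δ * A = (A1 + A2) * (δ * ε⁻¹) * (1 + Real.log (1 / ε)) ^ 5 := by rw [hA]; ring
      _ ≤ (A1 + A2) * (δ * ε⁻¹) * (21 ^ 5 * ε ^ (-(1 / 4 : ℝ))) := by gcongr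
      _ = A0 * w := by rw [e, ← hδe, hA0]; ring
  -- the two squares
  have sq_id : ∀ (f : ℝ → ℂ), (fun u : ℝ => TT.tau u *
      ‖((Real.exp (u / 2) : ℝ) : ℂ) * f u‖ ^ 2) = fun u => TT.tau u * Real.exp u * ‖f u‖ ^ 2 := by
    intro f
    funext u
    have e : Real.exp u = Real.exp (u / 2) ^ 2 := by
      rw [← Real.exp_nat_mul]; congr 1; push_cast; ring
    rw [norm_mul, Complex.norm_real, Real.norm_of_nonneg (Real.exp_pos _).le, e]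
    ring
  have i1 : Integrable (fun u : ℝ => TT.tau u * ‖((Real.exp (u / 2) : ℝ) : ℂ) *
      FE a1 (FF.tht N1 1) ε (Real.exp u)‖ ^ 2) := by
    rw [sq_id]; exact (hs1 ε hε hε2).1
  have i2 : Integrable (fun u : ℝ => TT.tau u * ‖((Real.exp (u / 2) : ℝ) : ℂ) *
      FE a2 (FF.tht N2 1) ε (Real.exp u)‖ ^ 2) := by
    rw [sq_id]; exact (hs2 ε hε hε2).1
  have hpos : 0 ≤ ε⁻¹ * (1 + Real.log (1 / ε)) ^ 5 := by positivity
  have b1' : ∫ u : ℝ, TT.tau u * ‖((Real.exp (u / 2) : ℝ) : ℂ) *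
      FE a1 (FF.tht N1 1) ε (Real.exp u)‖ ^ 2 ≤ A := by
    rw [sq_id]
    refine le_trans (hs1 ε hε hε2).2 ?_
    rw [hA, mul_assoc, mul_assoc]
    exact mul_le_mul_of_nonneg_right (by linarith) hpos
  have b2' : ∫ u : ℝ, TT.tau u * ‖((Real.exp (u / 2) : ℝ) : ℂ) *
      FE a2 (FF.tht N2 1) ε (Real.exp u)‖ ^ 2 ≤ A := by
    rw [sq_id]
    refine le_trans (hs2 ε hε hε2).2 ?_
    rw [hA, mul_assoc, mul_assoc]
    exact mul_le_mul_of_nonneg_right (by linarith) hpos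
  have b1 : ∫ t, ‖Rf N1 L1 ε t - η1 ε * conj (Rf N1 L1 ε t)‖ ^ 2 ≤ B := by
    refine le_trans (FF.F05_real (Rf_cont D1 ε) (hr1 ε hε hε2)) ?_
    rw [hB]
    exact mul_le_mul_of_nonneg_right (le_add_of_nonneg_right (sq_nonneg _)) hK0
  have b2 : ∫ t, ‖Rf N2 L2 ε t - η2 ε * conj (Rf N2 L2 ε t)‖ ^ 2 ≤ B := by
    refine le_trans (FF.F05_real (Rf_cont D2 ε) (hr2 ε hε hε2)) ?_
    rw [hB]
    exact mul_le_mul_of_nonneg_right (le_add_of_nonneg_left (sq_nonneg _)) hK0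
  have hm1 : ∀ u, FF.F05_T (Rf N1 L1 ε) u = ((Real.exp (u / 2) : ℝ) : ℂ) *
      FE a1 (FF.tht N1 1) ε (Real.exp u) - (0 : ℂ) * ((Real.exp (-(u / 2)) : ℝ) : ℂ) := by
    intro u
    rw [M17_T D1 hε hε2 u, zero_mul, sub_zero]
    rfl
  have hm2 : ∀ u, FF.F05_T (Rf N2 L2 ε) u = M17_P N2 a2 ε u -
      (0 : ℂ) * ((Real.exp (-(u / 2)) : ℝ) : ℂ) := by
    intro u
    rw [M17_T D2 hε hε2 u, zero_mul, sub_zero]
  have fold := FF.F05_fold (M17_G D1 hε hε2) (M17_G D2 hε hε2) (hη1 ε) (hη2 ε) hδ0 hc0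
    (by rw [norm_zero]; exact hc0) (by rw [norm_zero]; exact hc0) hm1
    hm2 i1 i2 b1' b2' b1 b2 hE.symm
  have eJ : ∫ u : ℝ, ((TT.tau u : ℝ) : ℂ) * (((Real.exp (u / 2) : ℝ) : ℂ) *
      FE a1 (FF.tht N1 1) ε (Real.exp u) * conj (M17_P N2 a2 ε u)) =
      JJ a1 a2 (FF.tht N1 1) (FF.tht N2 1) ε := by
    unfold JJ M17_P
    refine integral_congr_ae (ae_of_all _ fun u => ?_)
    have e : Real.exp u = Real.exp (u / 2) * Real.exp (u / 2) := by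
      rw [← Real.exp_add]; congr 1; ring
    have e2 : ((TT.tau u * Real.exp u : ℝ) : ℂ) =
        ((TT.tau u : ℝ) : ℂ) * (((Real.exp (u / 2) : ℝ) : ℂ) * ((Real.exp (u / 2) : ℝ) : ℂ)) := by
      rw [← ofReal_mul, ← e, ofReal_mul]
    simp only
    rw [e2, map_mul, conj_ofReal]
    ring
  rw [eJ] at fold
  exact le_trans fold (FF.F05_num (norm_nonneg _) hc0 hE0 hB0 hD0 hw1 hδw hδi hδA hD)

end PP
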