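import Pool.Agent.Lib.MP_0f5a55_nt.PP.D
import Pool.Agent.Lib.MP_0f5a55_nt.NR.M03
import Pool.Agent.Lib.MP_0f5a55_nt.NR.M05

open Complex MeasureTheory Set Filter Topology
open scoped Real ComplexConjugate

namespace PP

open NR NH

/-- Row P07. The square root of the product. Models: NR/M03.lean (bf_mult, M03_bf_sq, M03_bf_pp, M03_lo_le, bx_prime,
bx_le, bx_summable, bx_sq_summable), NR/M05.lean (M05_bx, E_bounds_f, M05_bounds), with bf α2 β2 in place of GG.bb x. -/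
theorem b_sq {N1 N2 : ℕ} {a1 a2 : ℕ → ℂ} {L1 L2 : ℂ → ℂ} (D1 : NR.Dat N1 a1 L1) (D2 : NR.Dat N2 a2 L2)
    {α1 β1 α2 β2 : ℕ → ℂ} (h1 : Loc a1 α1 β1) (h2 : Loc a2 α2 β2) :
    (bf α1 β1 * bf α2 β2) * (bf α1 β1 * bf α2 β2) = af a1 * af a2 := by
  rw [mul_mul_mul_comm, M03_bf_sq D1 h1, M03_bf_sq D2 h2]

/-- the value of one factor at a prime -/
theorem P07_one {a : ℕ → ℂ} {α β : ℕ → ℂ} (h : Loc a α β) {p : ℕ} (hp : p.Prime) :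
    bf α β p = 1 / 2 * a p := by
  have h1 := M03_bf_pp α β hp 1
  have h2 := (h p hp).2.2 1
  rw [pow_one] at h1 h2
  rw [h1, h2]
  simp only [lo, Finset.sum_range_succ, Finset.sum_range_zero, Nat.centralBinom_zero, pow_zero,
    Nat.cast_one, div_one, mul_one, one_mul, zero_add, Nat.sub_zero, Nat.sub_self, pow_one]
  have h3 : (1 : ℕ).centralBinom = 2 := by decide
  rw [h3]
  push_cast
  ring

theorem P07_mult (α1 β1 α2 β2 : ℕ → ℂ) : (bf α1 β1 * bf α2 β2).IsMultiplicative :=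
  (bf_mult α1 β1).mul (bf_mult α2 β2)

theorem b_prime {a1 a2 : ℕ → ℂ} {α1 β1 α2 β2 : ℕ → ℂ} (h1 : Loc a1 α1 β1) (h2 : Loc a2 α2 β2) {p : ℕ}
    (hp : p.Prime) : (bf α1 β1 * bf α2 β2) p = 1 / 2 * (a1 p + a2 p) := by
  rw [ArithmeticFunction.mul_apply, Nat.sum_divisorsAntidiagonal
      (f := fun x' y => bf α1 β1 x' * bf α2 β2 y), hp.sum_divisors, Nat.div_self hp.pos, Nat.div_one,
    (bf_mult α1 β1).map_one, (bf_mult α2 β2).map_one, P07_one h1 hp, P07_one h2 hp]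
  ring

theorem P07_le {a1 a2 : ℕ → ℂ} {α1 β1 α2 β2 : ℕ → ℂ} (h1 : Loc a1 α1 β1) (h2 : Loc a2 α2 β2) {p : ℕ}
    (hp : p.Prime) (r : ℕ) : ‖(bf α1 β1 * bf α2 β2) (p ^ r)‖ ≤ ((r : ℝ) + 1) ^ 3 := by
  rw [ArithmeticFunction.mul_apply, Nat.sum_divisorsAntidiagonal
      (f := fun x' y => bf α1 β1 x' * bf α2 β2 y), Nat.sum_divisors_prime_pow hp]
  refine (norm_sum_le _ _).trans ?_
  have hh : ∀ i ∈ Finset.range (r + 1), ‖bf α1 β1 (p ^ i) * bf α2 β2 (p ^ r / p ^ i)‖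
      ≤ ((r : ℝ) + 1) * ((r : ℝ) + 1) := by
    intro i hi
    have hi' : i ≤ r := Nat.lt_succ_iff.1 (Finset.mem_range.1 hi)
    have hir : (i : ℝ) ≤ r := by exact_mod_cast hi'
    rw [Nat.pow_div hi' hp.pos, norm_mul, M03_bf_pp α1 β1 hp, M03_bf_pp α2 β2 hp]
    have h3 := M03_lo_le (h1 p hp).1 (h1 p hp).2.1 i
    have h3' : ((i : ℝ) + 1) ≤ (r : ℝ) + 1 := by linarith
    have h4 := M03_lo_le (h2 p hp).1 (h2 p hp).2.1 (r - i)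
    have h5 : (((r - i : ℕ) : ℝ) + 1) ≤ (r : ℝ) + 1 := by
      have : ((r - i : ℕ) : ℝ) ≤ r := by exact_mod_cast Nat.sub_le r i
      linarith
    exact mul_le_mul (h3.trans h3') (h4.trans h5) (norm_nonneg _) (by positivity)
  refine (Finset.sum_le_sum hh).trans ?_
  rw [Finset.sum_const, Finset.card_range, nsmul_eq_mul]
  push_cast
  exact le_of_eq (by ring)

theorem b_summable {a1 a2 : ℕ → ℂ} {α1 β1 α2 β2 : ℕ → ℂ} (h1 : Loc a1 α1 β1) (h2 : Loc a2 α2 β2) {σ : ℝ}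
    (hσ : 1 < σ) : Summable (fun n : ℕ => ‖(bf α1 β1 * bf α2 β2) n‖ * (n : ℝ) ^ (-σ)) := by
  have h3 := M03_sum (P07_mult α1 β1 α2 β2) 3 0 (fun _ r hp => P07_le h1 h2 hp r) hσ
  simpa using h3

theorem b_sq_summable {a1 a2 : ℕ → ℂ} {α1 β1 α2 β2 : ℕ → ℂ} (h1 : Loc a1 α1 β1) (h2 : Loc a2 α2 β2) {σ : ℝ}
    (hσ : 1 < σ) : Summable (fun n : ℕ => ‖(bf α1 β1 * bf α2 β2) n‖ ^ 2 * (n : ℝ) ^ (-σ)) :=
  M03_sum (P07_mult α1 β1 α2 β2) 3 1 (fun _ r hp => P07_le h1 h2 hp r) hσ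

theorem P07_H {a1 a2 : ℕ → ℂ} {α1 β1 α2 β2 : ℕ → ℂ} (h1 : Loc a1 α1 β1) (h2 : Loc a2 α2 β2) :
    M05_H (fun n => ‖(bf α1 β1 * bf α2 β2) n‖ ^ 2) (3 * 2) := by
  have hm : (bf α1 β1 * bf α2 β2).IsMultiplicative := P07_mult α1 β1 α2 β2
  refine ⟨?_, ?_, fun n => sq_nonneg _, ?_, ?_, ?_⟩
  · simp [hm.map_one]
  · simp
  · intro m n hmn
    simp only [hm.map_mul_of_coprime hmn, norm_mul, mul_pow]
  · intro p r hp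
    have h3 := P07_le h1 h2 hp r
    rw [pow_mul]
    exact pow_le_pow_left₀ (norm_nonneg _) h3 2
  · intro δ hδ
    exact b_sq_summable h1 h2 (by linarith)

theorem b_bounds {a1 a2 : ℕ → ℂ} {α1 β1 α2 β2 : ℕ → ℂ} (h1 : Loc a1 α1 β1) (h2 : Loc a2 α2 β2) :
    ∃ c1 C1 : ℝ, 0 < c1 ∧ ∀ δ : ℝ, 0 < δ → δ ≤ 1 →
      Summable (fun p : Nat.Primes => ‖(bf α1 β1 * bf α2 β2) (p : ℕ)‖ ^ 2 * ((p : ℕ) : ℝ) ^ (-(1 + δ))) ∧
      c1 * Real.exp (∑' p : Nat.Primes, ‖(bf α1 β1 * bf α2 β2) (p : ℕ)‖ ^ 2 * ((p : ℕ) : ℝ) ^ (-(1 + δ))) ≤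
        ∑' n : ℕ, ‖(bf α1 β1 * bf α2 β2) n‖ ^ 2 * (n : ℝ) ^ (-(1 + δ)) ∧
      ∑' n : ℕ, ‖(bf α1 β1 * bf α2 β2) n‖ ^ 2 * (n : ℝ) ^ (-(1 + δ)) ≤
        C1 * Real.exp (∑' p : Nat.Primes, ‖(bf α1 β1 * bf α2 β2) (p : ℕ)‖ ^ 2 * ((p : ℕ) : ℝ) ^ (-(1 + δ))) := by
  obtain ⟨c1, C1, h3, h4, h5⟩ := M05_bounds (P07_H h1 h2)
  exact ⟨c1, C1, h3, h5⟩

end PP
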