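import Pool.Agent.Lib.MP_0f5a55_nt.PP.P07
import Pool.Agent.Lib.MP_0f5a55_nt.NH.M02
import Pool.Agent.Lib.MP_0f5a55_nt.NR.M04
import Pool.Agent.Lib.MP_0f5a55_nt.NR.M06
import Pool.Agent.Lib.MP_0f5a55_nt.NR.E2

open Complex MeasureTheory Set Filter Topology
open scoped Real ComplexConjugate

namespace PP

open NR NH

/-- the prime sum -/
noncomputable def P08_S (b : ArithmeticFunction ℂ) (δ : ℝ) : ℝ :=
  ∑' p : Nat.Primes, ‖b (p : ℕ)‖ ^ 2 * ((p : ℕ) : ℝ) ^ (-(1 + δ))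

theorem P08_four {N1 N2 : ℕ} {a1 a2 : ℕ → ℂ} {L1 L2 : ℂ → ℂ} (D1 : NR.Dat N1 a1 L1) (D2 : NR.Dat N2 a2 L2)
    {α1 β1 α2 β2 : ℕ → ℂ} (h1 : Loc a1 α1 β1) (h2 : Loc a2 α2 β2) (p : Nat.Primes) :
    ‖(bf α1 β1 * bf α2 β2) (p : ℕ)‖ ^ 2 ≤ 4 := by
  have e1 := M06_two D1 p
  have e2 := M06_two D2 p
  have n1 : ‖a1 (p : ℕ)‖ ≤ 2 := by nlinarith [norm_nonneg (a1 (p : ℕ))]
  have n2 : ‖a2 (p : ℕ)‖ ≤ 2 := by nlinarith [norm_nonneg (a2 (p : ℕ))]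
  have h : ‖(bf α1 β1 * bf α2 β2) (p : ℕ)‖ ≤ 2 := by
    rw [b_prime h1 h2 p.2, norm_mul, norm_div, norm_one, Complex.norm_two]
    have := norm_add_le (a1 (p : ℕ)) (a2 (p : ℕ))
    linarith
  nlinarith [norm_nonneg ((bf α1 β1 * bf α2 β2) (p : ℕ))]

theorem P08_slow {b : ArithmeticFunction ℂ} (h4 : ∀ p : Nat.Primes, ‖b (p : ℕ)‖ ^ 2 ≤ 4)
    (hs : ∀ δ : ℝ, 0 < δ → δ ≤ 1 → Summable (fun p : Nat.Primes => ‖b (p : ℕ)‖ ^ 2 *
      ((p : ℕ) : ℝ) ^ (-(1 + δ)))) : ∃ M : ℝ, ∀ δ : ℝ, 0 < δ → δ ≤ 1 → P08_S b (δ / 2) ≤ P08_S b δ + M := by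
  obtain ⟨C, hC⟩ := M06_triv
  refine ⟨4 * (Real.log 2 + 2 * C), fun δ hδ h1 => ?_⟩
  have a1 := hC δ hδ h1
  have a2 := hC (δ / 2) (by linarith) (by linarith)
  have u1 : Summable (fun p : Nat.Primes => ((p : ℕ) : ℝ) ^ (-(1 + δ))) :=
    Nat.Primes.summable_rpow.mpr (by linarith)
  have u2 : Summable (fun p : Nat.Primes => ((p : ℕ) : ℝ) ^ (-(1 + δ / 2))) :=
    Nat.Primes.summable_rpow.mpr (by linarith)
  have b1 : P08_S b (δ / 2) - P08_S b δ ≤ 4 * (∑' p : Nat.Primes, ((p : ℕ) : ℝ) ^ (-(1 + δ / 2)) -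
      ∑' p : Nat.Primes, ((p : ℕ) : ℝ) ^ (-(1 + δ))) := by
    unfold P08_S
    rw [← (hs (δ / 2) (by linarith) (by linarith)).tsum_sub (hs δ hδ h1), ← u2.tsum_sub u1, ← tsum_mul_left]
    refine Summable.tsum_le_tsum (fun p => ?_) ((hs (δ / 2) (by linarith) (by linarith)).sub (hs δ hδ h1))
      ((u2.sub u1).mul_left 4)
    rw [← mul_sub]
    exact mul_le_mul_of_nonneg_right (h4 p) (sub_nonneg.2 (M06_mono p (by linarith)))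
  have c1 := (abs_le.1 a1).1
  have c2 := (abs_le.1 a2).2
  have e : Real.log (1 / (δ / 2)) = Real.log 2 + Real.log (1 / δ) := by
    rw [← Real.log_mul (by norm_num) (by positivity)]
    congr 1
    field_simp
  rw [e] at c2
  linarith

theorem P08_S_lim {a1 a2 : ℕ → ℂ} (hd : Div a1 a2) {b : ArithmeticFunction ℂ}
    (hb : ∀ p : ℕ, p.Prime → b p = 1 / 2 * (a1 p + a2 p))
    (hs : ∀ δ : ℝ, 0 < δ → δ ≤ 1 → Summable (fun p : Nat.Primes => ‖b (p : ℕ)‖ ^ 2 *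
      ((p : ℕ) : ℝ) ^ (-(1 + δ)))) : Tendsto (P08_S b) (𝓝[>] 0) atTop := by
  classical
  rw [tendsto_atTop]
  intro A
  unfold Div at hd
  have hnn : ∀ n : ℕ, 0 ≤ (if n.Prime then ‖a1 n + a2 n‖ ^ 2 * ((n : ℝ))⁻¹ else 0) := by
    intro n
    split_ifs
    · positivity
    · exact le_rfl
  rw [not_summable_iff_tendsto_nat_atTop_of_nonneg hnn] at hd
  obtain ⟨N, hN⟩ := ((tendsto_atTop.1 hd) (4 * (A + 1))).exists
  set g : ℝ → ℝ := fun δ => ∑ n ∈ Finset.range N, if n.Prime then ‖b n‖ ^ 2 * (n : ℝ) ^ (-(1 + δ)) else 0 with hg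
  have hg0 : A + 1 ≤ g 0 := by
    have e : 4 * g 0 = ∑ n ∈ Finset.range N, (if n.Prime then ‖a1 n + a2 n‖ ^ 2 * ((n : ℝ))⁻¹ else 0) := by
      rw [hg]
      simp only
      rw [Finset.mul_sum]
      refine Finset.sum_congr rfl fun n _ => ?_
      split_ifs with hp
      · have hn : (0:ℝ) < n := by exact_mod_cast hp.pos
        rw [hb n hp, norm_mul, mul_pow, norm_div, norm_one, Complex.norm_two, add_zero, Real.rpow_neg_one]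
        ring
      · simp
    linarith
  have hcont : ContinuousAt g 0 := by
    rw [hg]
    refine tendsto_finsetSum _ fun n _ => ?_
    by_cases hp : n.Prime
    · simp only [hp, if_true]
      have hn : (n : ℝ) ≠ 0 := by exact_mod_cast hp.ne_zero
      refine Tendsto.const_mul _ ?_
      have h1 : ContinuousAt (fun δ : ℝ => (n : ℝ) ^ (-(1 + δ))) 0 :=
        ContinuousAt.rpow continuousAt_const (by fun_prop) (Or.inl hn)
      exact h1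
    · simp only [hp, if_false]
      exact tendsto_const_nhds
  have h1 : ∀ᶠ δ in 𝓝[>] (0:ℝ), A ≤ g δ := by
    have h2 : ∀ᶠ δ in 𝓝 (0:ℝ), A < g δ := hcont.eventually_const_lt (by linarith)
    exact (h2.filter_mono nhdsWithin_le_nhds).mono fun δ h => h.le
  have h3 : Ioc (0 : ℝ) 1 ∈ 𝓝[>] (0 : ℝ) := Ioc_mem_nhdsGT (by norm_num)
  filter_upwards [h1, h3] with δ hA hδ
  refine hA.trans ?_
  rw [hg]
  simp only
  rw [← Finset.sum_filter]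
  have e2 : ∑ n ∈ (Finset.range N).filter Nat.Prime, ‖b n‖ ^ 2 * (n : ℝ) ^ (-(1 + δ)) =
      ∑ p ∈ (Finset.range N).subtype Nat.Prime, ‖b (p : ℕ)‖ ^ 2 * ((p : ℕ) : ℝ) ^ (-(1 + δ)) := by
    rw [← Finset.subtype_map, Finset.sum_map]
    rfl
  rw [e2]
  have h5 : Summable (fun p : {n : ℕ // n.Prime} => ‖b (p : ℕ)‖ ^ 2 * ((p : ℕ) : ℝ) ^ (-(1 + δ))) :=
    hs δ hδ.1 hδ.2
  have h6 := h5.sum_le_tsum ((Finset.range N).subtype Nat.Prime)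
    (fun p _ => mul_nonneg (by positivity) (Real.rpow_nonneg (Nat.cast_nonneg _) _))
  exact h6

/-- Row P08. Lower bound for the first absolute moment. Model: NR/M09.lean (M09_double, M09_lim, M09_core) with
NH.dyadic (NH/M02.lean), F = L1 L2 (entire: G s = (s - 1) L1 s L2 s), b = bf α1 β1 * bf α2 β2. Doubling: b_bounds and
‖b p‖² ≤ 4, Σ_p (p^(-1-δ/2) - p^(-1-δ)) ≤ C (NR/M06.lean: M06_triv, Sp_slow). Limit: ∑' n ≥ Σ over finitely many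
primes of ‖b p‖² p^(-1-δ), and Σ_p ‖b p‖²/p = ∞ by hd (b_prime). Series: NR.L_series and LSeries_convolution /
LSeries.mul (see M04.FLf_series). Growth: NR.Dat.gr. -/
theorem low {N1 N2 : ℕ} {a1 a2 : ℕ → ℂ} {L1 L2 : ℂ → ℂ} (D1 : NR.Dat N1 a1 L1) (D2 : NR.Dat N2 a2 L2)
    (hd : Div a1 a2) (A : ℝ) : ∃ T0 : ℝ, 3 ≤ T0 ∧ ∀ T : ℝ, T0 ≤ T →
      A * T ≤ ∫ t in Icc T (2 * T), ‖L1 (1 / 2 + t * I) * L2 (1 / 2 + t * I)‖ := by
  obtain ⟨α1, β1, h1⟩ := D1.loc_ex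
  obtain ⟨α2, β2, h2⟩ := D2.loc_ex
  obtain ⟨b, hb⟩ : ∃ b : ArithmeticFunction ℂ, b = bf α1 β1 * bf α2 β2 := ⟨_, rfl⟩
  obtain ⟨c1, C1, hc1, hE⟩ := b_bounds h1 h2
  have h4 := P08_four D1 D2 h1 h2
  have hpr : ∀ p : ℕ, p.Prime → b p = 1 / 2 * (a1 p + a2 p) := fun p hp => by
    rw [hb]; exact b_prime h1 h2 hp
  rw [← hb] at hE h4
  have hs : ∀ δ : ℝ, 0 < δ → δ ≤ 1 → Summable (fun p : Nat.Primes => ‖b (p : ℕ)‖ ^ 2 *
      ((p : ℕ) : ℝ) ^ (-(1 + δ))) := fun δ h0 h1 => (hE δ h0 h1).1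
  obtain ⟨M, hM⟩ := P08_slow h4 hs
  have hSlim := P08_S_lim hd hpr hs
  have hlo : ∀ δ : ℝ, 0 < δ → δ ≤ 1 → c1 * Real.exp (P08_S b δ) ≤
      ∑' n : ℕ, ‖b n‖ ^ 2 * (n : ℝ) ^ (-(1 + δ)) := fun δ h0 h1 => (hE δ h0 h1).2.1
  have hhi : ∀ δ : ℝ, 0 < δ → δ ≤ 1 → ∑' n : ℕ, ‖b n‖ ^ 2 * (n : ℝ) ^ (-(1 + δ)) ≤
      max C1 1 * Real.exp (P08_S b δ) := fun δ h0 h1 =>
    ((hE δ h0 h1).2.2).trans (mul_le_mul_of_nonneg_right (le_max_left _ _) (Real.exp_pos _).le)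
  have hlim : Tendsto (fun δ : ℝ => ∑' n : ℕ, ‖b n‖ ^ 2 * (n : ℝ) ^ (-(1 + δ))) (𝓝[>] 0) atTop := by
    have h5 : Tendsto (fun δ : ℝ => c1 * Real.exp (P08_S b δ)) (𝓝[>] 0) atTop :=
      Tendsto.const_mul_atTop hc1 (Real.tendsto_exp_atTop.comp hSlim)
    refine tendsto_atTop_mono' _ ?_ h5
    have h3 : Ioc (0 : ℝ) 1 ∈ 𝓝[>] (0 : ℝ) := Ioc_mem_nhdsGT (by norm_num)
    filter_upwards [h3] with δ hδ
    exact hlo δ hδ.1 hδ.2
  have hK : ∀ δ : ℝ, 0 < δ → δ ≤ 1 → Summable (fun n : ℕ => ‖b n‖ ^ 2 * (n : ℝ) ^ (-(1 + δ))) ∧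
      ∑' n : ℕ, ‖b n‖ ^ 2 * (n : ℝ) ^ (-(1 + δ / 2)) ≤
        (max C1 1 * Real.exp M / c1) * ∑' n : ℕ, ‖b n‖ ^ 2 * (n : ℝ) ^ (-(1 + δ)) := by
    intro δ h0 h3
    refine ⟨?_, ?_⟩
    · rw [hb]
      exact b_sq_summable h1 h2 (by linarith)
    have hm : 0 ≤ max C1 1 := zero_le_one.trans (le_max_right _ _)
    calc ∑' n : ℕ, ‖b n‖ ^ 2 * (n : ℝ) ^ (-(1 + δ / 2))
        ≤ max C1 1 * Real.exp (P08_S b (δ / 2)) := hhi (δ / 2) (by linarith) (by linarith)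
      _ ≤ max C1 1 * (Real.exp M * Real.exp (P08_S b δ)) := by
          refine mul_le_mul_of_nonneg_left ?_ hm
          rw [← Real.exp_add]
          refine Real.exp_le_exp.mpr ?_
          have := hM δ h0 h3
          linarith
      _ = max C1 1 * Real.exp M / c1 * (c1 * Real.exp (P08_S b δ)) := by
          field_simp
      _ ≤ _ := mul_le_mul_of_nonneg_left (hlo δ h0 h3) (by positivity)
  have hG : ∃ G : ℂ → ℂ, (∀ s : ℂ, 0 < s.re → DifferentiableAt ℂ G s) ∧ ∀ s : ℂ, s ≠ 1 →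
      G s = (s - 1) * (L1 s * L2 s) :=
    ⟨fun s => (s - 1) * (L1 s * L2 s), fun s _ =>
      ((differentiableAt_id.sub_const 1).mul ((D1.ent s).mul (D2.ent s))), fun s _ => rfl⟩
  obtain ⟨A1, hA1, hp1⟩ := L_pol D1
  obtain ⟨A2, hA2, hp2⟩ := L_pol D2
  have hpol : ∀ s : ℂ, 1 / 2 ≤ s.re → s.re ≤ 2 → 1 ≤ |s.im| → ‖L1 s * L2 s‖ ≤ (A1 * A2) * (1 + |s.im|) ^ 4 := by
    intro s hs1 _ hs3
    rw [norm_mul]
    calc ‖L1 s‖ * ‖L2 s‖ ≤ (A1 * (1 + |s.im|) ^ 2) * (A2 * (1 + |s.im|) ^ 2) :=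
          mul_le_mul (hp1 s hs1 hs3) (hp2 s hs1 hs3) (norm_nonneg _) (by positivity)
      _ = _ := by ring
  have hFa : ∀ s : ℂ, 1 < s.re → LSeriesSummable (⇑(af a1 * af a2)) s ∧
      L1 s * L2 s = LSeries (⇑(af a1 * af a2)) s := by
    intro s hs
    obtain ⟨s1, e1⟩ := L_series D1 hs
    obtain ⟨s2, e2⟩ := L_series D2 hs
    refine ⟨ArithmeticFunction.LSeriesSummable_mul s1 s2, ?_⟩
    rw [e1, e2]
    exact (ArithmeticFunction.LSeries_mul' s1 s2).symm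
  have hab : b * b = af a1 * af a2 := by
    rw [hb]
    exact b_sq D1 D2 h1 h2
  have hb1 : b 1 = 1 := by
    rw [hb]
    exact ((bf_mult α1 β1).mul (bf_mult α2 β2)).map_one
  have hbs : Summable (fun n : ℕ => ‖b n‖ * (n : ℝ) ^ (-(3 / 2 : ℝ))) := by
    rw [hb]
    exact b_summable h1 h2 (by norm_num)
  obtain ⟨c, T0, hc, hT0, hdy⟩ := dyadic (F := fun s => L1 s * L2 s) hG hpol hFa hab hb1 hbs hK hlim
  have hlog : Tendsto (fun T : ℝ => 1 / Real.log T) atTop (𝓝[>] 0) := by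
    simp only [one_div]
    exact tendsto_inv_atTop_nhdsGT_zero.comp Real.tendsto_log_atTop
  have hev := (tendsto_atTop.1 (hlim.comp hlog)) (A / c)
  obtain ⟨T1, hT1⟩ := eventually_atTop.1 hev
  refine ⟨max T0 T1, hT0.trans (le_max_left _ _), fun T hT => ?_⟩
  have e1 := hT1 T ((le_max_right _ _).trans hT)
  have e2 := hdy T ((le_max_left _ _).trans hT)
  refine le_trans ?_ e2
  have hT' : 0 < T := by
    have := hT0.trans ((le_max_left _ _).trans hT)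
    linarith
  have e3 : A / c ≤ ∑' n : ℕ, ‖b n‖ ^ 2 * (n : ℝ) ^ (-(1 + 1 / Real.log T)) := e1
  rw [div_le_iff₀ hc] at e3
  calc A * T ≤ ((∑' n : ℕ, ‖b n‖ ^ 2 * (n : ℝ) ^ (-(1 + 1 / Real.log T))) * c) * T :=
        mul_le_mul_of_nonneg_right e3 hT'.le
    _ = _ := by ring

end PP
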