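import Pool.Agent.Lib.MP_0f5a55_nt.PP.P03
import Pool.Agent.Lib.MP_0f5a55_nt.PP.P04
import Pool.Agent.Lib.MP_0f5a55_nt.PP.P05
import Pool.Agent.Lib.MP_0f5a55_nt.PP.P06
import Pool.Agent.Lib.MP_0f5a55_nt.PP.P08

open Complex MeasureTheory Set Filter Topology
open scoped Real ComplexConjugate

namespace PP

open NR NH

theorem P09_pow_exp (a : ℝ) (ha : 0 < a) (n : ℕ) :
    ∃ C : ℝ, 0 ≤ C ∧ ∀ t : ℝ, (1 + |t|) ^ n * Real.exp (-(a * |t|)) ≤ C := by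
  refine ⟨(n.factorial : ℝ) / a ^ n * Real.exp a, by positivity, fun t => ?_⟩
  have h0 : 0 ≤ |t| := abs_nonneg t
  have h1 : (a * (1 + |t|)) ^ n / n.factorial ≤ Real.exp (a * (1 + |t|)) :=
    Real.pow_div_factorial_le_exp _ (by positivity) n
  have hf : (0 : ℝ) < n.factorial := by exact_mod_cast n.factorial_pos
  have han : 0 < a ^ n := by positivity
  have h2 : (1 + |t|) ^ n ≤ (n.factorial : ℝ) / a ^ n * Real.exp (a * (1 + |t|)) := by
    rw [div_le_iff₀ hf, mul_pow] at h1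
    rw [div_mul_eq_mul_div, le_div_iff₀ han]
    linarith
  calc (1 + |t|) ^ n * Real.exp (-(a * |t|))
      ≤ (n.factorial : ℝ) / a ^ n * Real.exp (a * (1 + |t|)) * Real.exp (-(a * |t|)) :=
        mul_le_mul_of_nonneg_right h2 (Real.exp_pos _).le
    _ = (n.factorial : ℝ) / a ^ n * Real.exp a := by
        rw [mul_assoc, ← Real.exp_add]
        congr 2
        ring

theorem P09_int (a : ℝ) (ha : 0 < a) (n : ℕ) :
    Integrable (fun t : ℝ => (1 + |t|) ^ n * Real.exp (-(a * |t|))) := by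
  obtain ⟨C, hC0, hC⟩ := P09_pow_exp a ha (n + 2)
  have hi : Integrable (fun t : ℝ => C * (1 + t ^ 2)⁻¹) := integrable_inv_one_add_sq.const_mul C
  refine hi.mono' (by fun_prop) (Eventually.of_forall fun t => ?_)
  have h0 : 0 ≤ |t| := abs_nonneg t
  rw [Real.norm_of_nonneg (by positivity)]
  have h1 := hC t
  have h2 : (0:ℝ) < 1 + t ^ 2 := by positivity
  rw [← div_eq_mul_inv, le_div_iff₀ h2]
  refine le_trans ?_ h1
  have h3 : 1 + t ^ 2 ≤ (1 + |t|) ^ 2 := by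
    have : |t| ^ 2 = t ^ 2 := sq_abs t
    nlinarith
  calc (1 + |t|) ^ n * Real.exp (-(a * |t|)) * (1 + t ^ 2)
      ≤ (1 + |t|) ^ n * Real.exp (-(a * |t|)) * (1 + |t|) ^ 2 :=
        mul_le_mul_of_nonneg_left h3 (by positivity)
    _ = _ := by rw [pow_add]; ring

theorem P09_wt_pos (ε t : ℝ) : 0 < FF.wt ε t := by
  unfold FF.wt
  exact div_pos (Real.exp_pos _) (Real.cosh_pos _)

theorem P09_wt_cont (ε : ℝ) : Continuous (FF.wt ε) := by
  unfold FF.wt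
  refine Continuous.div (by fun_prop) (by fun_prop) fun t => (Real.cosh_pos _).ne'

/-- cosh(pi t) >= exp(pi |t|)/2 -/
theorem P09_cosh (x : ℝ) : Real.exp |x| / 2 ≤ Real.cosh x := by
  rw [← Real.cosh_abs x, Real.cosh_eq]
  have := Real.exp_pos (-|x|)
  linarith

theorem P09_wt_le (ε t : ℝ) : FF.wt ε t ≤ 2 * Real.exp ((π - 2 * ε) * t - π * |t|) := by
  unfold FF.wt
  rw [div_le_iff₀ (Real.cosh_pos _), Real.exp_sub]
  have h1 := P09_cosh (π * t)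
  have h2 : |π * t| = π * |t| := by rw [abs_mul, abs_of_pos Real.pi_pos]
  rw [h2] at h1
  have h3 : 0 < Real.exp (π * |t|) := Real.exp_pos _
  have h4 : 0 < Real.exp ((π - 2 * ε) * t) := Real.exp_pos _
  calc Real.exp ((π - 2 * ε) * t)
      = 2 * (Real.exp ((π - 2 * ε) * t) / Real.exp (π * |t|)) * (Real.exp (π * |t|) / 2) := by
        field_simp
    _ ≤ _ := mul_le_mul_of_nonneg_left h1 (by positivity)

theorem P09_wt_le2 {ε : ℝ} (h0 : 0 < ε) (h1 : ε ≤ 1 / 2) (t : ℝ) :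
    FF.wt ε t ≤ 2 * Real.exp (-(2 * ε * |t|)) := by
  refine (P09_wt_le ε t).trans ?_
  have hpi := Real.pi_gt_three
  have : (π - 2 * ε) * t - π * |t| ≤ -(2 * ε * |t|) := by
    rcases le_total 0 t with h | h
    · rw [abs_of_nonneg h]; nlinarith
    · rw [abs_of_nonpos h]; nlinarith
  have := Real.exp_le_exp.mpr this
  linarith

theorem P09_wt_le3 {ε T0 : ℝ} (h0 : 0 < ε) (h1 : ε ≤ 1 / 2) (hT : 0 < T0) {t : ℝ} (ht : t ≤ T0) :
    FF.wt ε t ≤ 2 * Real.exp T0 * Real.exp (-|t|) := by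
  refine (P09_wt_le ε t).trans ?_
  have hpi := Real.pi_gt_three
  have : (π - 2 * ε) * t - π * |t| ≤ T0 + -|t| := by
    rcases le_total 0 t with h | h
    · rw [abs_of_nonneg h]; nlinarith
    · rw [abs_of_nonpos h]; nlinarith
  have := Real.exp_le_exp.mpr this
  rw [Real.exp_add] at this
  linarith

theorem P09_wt_ge {ε t : ℝ} (ht : 0 ≤ t) : Real.exp (-(2 * ε * t)) ≤ FF.wt ε t := by
  unfold FF.wt
  rw [le_div_iff₀ (Real.cosh_pos _)]
  have h1 : Real.cosh (π * t) ≤ Real.exp (π * t) := by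
    have hh : 0 ≤ π * t := by positivity
    rw [Real.cosh_eq]
    have : Real.exp (-(π * t)) ≤ Real.exp (π * t) := Real.exp_le_exp.mpr (by linarith)
    linarith
  calc Real.exp (-(2 * ε * t)) * Real.cosh (π * t)
      ≤ Real.exp (-(2 * ε * t)) * Real.exp (π * t) := mul_le_mul_of_nonneg_left h1 (Real.exp_pos _).le
    _ = Real.exp ((π - 2 * ε) * t) := by rw [← Real.exp_add]; congr 1; ring

/-- The analytic core: the weighted integral over (T0, oo). -/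
theorem P09_core {Z : ℝ → ℝ} (hZc : Continuous Z) {CZ : ℝ} (hCZ : 0 ≤ CZ)
    (hZ : ∀ t, |Z t| ≤ CZ * (1 + |t|) ^ 4) {T0 : ℝ} (hT0 : 0 < T0)
    (hs : (∀ t, T0 < t → 0 ≤ Z t) ∨ (∀ t, T0 < t → Z t ≤ 0)) : ∃ K : ℝ, 0 ≤ K ∧
    ∀ ε : ℝ, 0 < ε → ε ≤ 1 / 2 → Integrable (fun t => FF.wt ε t * Z t) ∧
      ∫ t in Ioi T0, FF.wt ε t * |Z t| ≤ |∫ t, FF.wt ε t * Z t| + K := by
  refine ⟨∫ t : ℝ, CZ * (2 * Real.exp T0) * ((1 + |t|) ^ 4 * Real.exp (-(1 * |t|))),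
    integral_nonneg fun t => by positivity, fun ε h0 h1 => ?_⟩
  have hint : Integrable (fun t => FF.wt ε t * Z t) := by
    refine ((P09_int (2 * ε) (by positivity) 4).const_mul (2 * CZ)).mono'
      ((P09_wt_cont ε).mul hZc).aestronglyMeasurable (Eventually.of_forall fun t => ?_)
    rw [norm_mul, Real.norm_of_nonneg (P09_wt_pos ε t).le, Real.norm_eq_abs]
    calc FF.wt ε t * |Z t| ≤ (2 * Real.exp (-(2 * ε * |t|))) * (CZ * (1 + |t|) ^ 4) :=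
          mul_le_mul (P09_wt_le2 h0 h1 t) (hZ t) (abs_nonneg _) (by positivity)
      _ = _ := by ring
  refine ⟨hint, ?_⟩
  have hK : ‖∫ t in Iic T0, FF.wt ε t * Z t‖ ≤
      ∫ t : ℝ, CZ * (2 * Real.exp T0) * ((1 + |t|) ^ 4 * Real.exp (-(1 * |t|))) := by
    have hi : Integrable (fun t : ℝ => CZ * (2 * Real.exp T0) * ((1 + |t|) ^ 4 * Real.exp (-(1 * |t|)))) :=
      (P09_int 1 one_pos 4).const_mul _
    calc ‖∫ t in Iic T0, FF.wt ε t * Z t‖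
        ≤ ∫ t in Iic T0, CZ * (2 * Real.exp T0) * ((1 + |t|) ^ 4 * Real.exp (-(1 * |t|))) := by
          refine norm_integral_le_of_norm_le hi.integrableOn ?_
          refine (ae_restrict_iff' measurableSet_Iic).mpr (Eventually.of_forall fun t ht => ?_)
          rw [norm_mul, Real.norm_of_nonneg (P09_wt_pos ε t).le, Real.norm_eq_abs]
          calc FF.wt ε t * |Z t| ≤ (2 * Real.exp T0 * Real.exp (-|t|)) * (CZ * (1 + |t|) ^ 4) :=
                mul_le_mul (P09_wt_le3 h0 h1 hT0 ht) (hZ t) (abs_nonneg _) (by positivity)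
            _ = _ := by rw [one_mul]; ring
      _ ≤ _ := setIntegral_le_integral hi (Eventually.of_forall fun t => by positivity)
  have hsplit : ∫ t in Ioi T0, FF.wt ε t * Z t = (∫ t, FF.wt ε t * Z t) - ∫ t in Iic T0, FF.wt ε t * Z t := by
    have := integral_add_compl (measurableSet_Ioi (a := T0)) hint
    rw [compl_Ioi] at this
    linarith
  have habs : ∫ t in Ioi T0, FF.wt ε t * |Z t| = |∫ t in Ioi T0, FF.wt ε t * Z t| := by
    rcases hs with hs | hs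
    · rw [abs_of_nonneg]
      · exact setIntegral_congr_fun measurableSet_Ioi fun t ht => by
          simp only [abs_of_nonneg (hs t ht)]
      · exact setIntegral_nonneg measurableSet_Ioi fun t ht => mul_nonneg (P09_wt_pos ε t).le (hs t ht)
    · rw [abs_of_nonpos, ← integral_neg]
      · exact setIntegral_congr_fun measurableSet_Ioi fun t ht => by
          simp only [abs_of_nonpos (hs t ht)]; ring
      · exact setIntegral_nonpos measurableSet_Ioi fun t ht =>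
          mul_nonpos_of_nonneg_of_nonpos (P09_wt_pos ε t).le (hs t ht)
  rw [habs, hsplit]
  rw [Real.norm_eq_abs] at hK
  have := abs_sub (∫ t, FF.wt ε t * Z t) (∫ t in Iic T0, FF.wt ε t * Z t)
  linarith

/-- Lower bound. -/
theorem P09_lower {Z : ℝ → ℝ} (hZc : Continuous Z) {T0 T : ℝ} (hT0 : 0 < T0) (hT : T0 < T)
    (hint : Integrable (fun t => FF.wt T⁻¹ t * Z t)) :
    Real.exp (-4) * ∫ t in Icc T (2 * T), |Z t| ≤ ∫ t in Ioi T0, FF.wt T⁻¹ t * |Z t| := by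
  have hTp : 0 < T := hT0.trans hT
  have hint' : Integrable (fun t => FF.wt T⁻¹ t * |Z t|) := by
    refine hint.norm.congr (Eventually.of_forall fun t => ?_)
    simp only [norm_mul, Real.norm_eq_abs, abs_of_pos (P09_wt_pos _ _)]
  have hsub : Icc T (2 * T) ⊆ Ioi T0 := fun t ht => lt_of_lt_of_le hT ht.1
  calc Real.exp (-4) * ∫ t in Icc T (2 * T), |Z t|
      = ∫ t in Icc T (2 * T), Real.exp (-4) * |Z t| := (integral_const_mul _ _).symm
    _ ≤ ∫ t in Icc T (2 * T), FF.wt T⁻¹ t * |Z t| := by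
        refine setIntegral_mono_on ?_ hint'.integrableOn measurableSet_Icc fun t ht => ?_
        · exact ((continuous_const.mul hZc.abs).continuousOn).integrableOn_Icc
        · refine mul_le_mul_of_nonneg_right ?_ (abs_nonneg _)
          refine le_trans (Real.exp_le_exp.mpr ?_) (P09_wt_ge (hTp.le.trans ht.1))
          have h1 : T⁻¹ * t ≤ 2 := by
            rw [inv_mul_le_iff₀ hTp]; linarith [ht.2]
          linarith
    _ ≤ ∫ t in Ioi T0, FF.wt T⁻¹ t * |Z t| :=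
        setIntegral_mono_set hint'.integrableOn
          (Eventually.of_forall fun t => mul_nonneg (P09_wt_pos _ _).le (abs_nonneg _))
          hsub.eventuallyLE

/-- The upper bound for the weighted integral of |Z|. -/
theorem P09_up {Z : ℝ → ℝ} (hZc : Continuous Z) {CZ : ℝ} (hCZ : 0 ≤ CZ)
    (hZ : ∀ t, |Z t| ≤ CZ * (1 + |t|) ^ 4) {T0 : ℝ} (hT0 : 0 < T0)
    (hs : (∀ t, T0 < t → 0 ≤ Z t) ∨ (∀ t, T0 < t → Z t ≤ 0)) {R : ℝ → ℝ → ℂ}
    (hRc : ∀ ε, Continuous (R ε)) {κ : ℂ} (hκ : κ ≠ 0) {C1 : ℝ} (hC1 : 0 ≤ C1)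
    (hR : ∀ ε : ℝ, 0 < ε → ε ≤ 1 / 2 → ∀ t : ℝ, ‖R ε t - κ * ((FF.wt ε t * Z t : ℝ) : ℂ)‖ ≤
      C1 * (1 + |t|) ^ 12 * Real.exp (-|t|)) :
    ∃ K K1 : ℝ, 0 ≤ K ∧ 0 ≤ K1 ∧ ∀ ε : ℝ, 0 < ε → ε ≤ 1 / 2 → Integrable (fun t => FF.wt ε t * Z t) ∧
      ∀ B : ℝ, ‖∫ t, R ε t‖ ≤ B → ∫ t in Ioi T0, FF.wt ε t * |Z t| ≤ ‖κ‖⁻¹ * (B + K1) + K := by
  obtain ⟨K, hK0, hK⟩ := P09_core hZc hCZ hZ hT0 hs
  refine ⟨K, ∫ t : ℝ, C1 * ((1 + |t|) ^ 12 * Real.exp (-(1 * |t|))), hK0,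
    integral_nonneg fun t => by positivity, fun ε h0 h12 => ⟨(hK ε h0 h12).1, fun B hB => ?_⟩⟩
  obtain ⟨K1, hK1⟩ : ∃ y, y = ∫ t : ℝ, C1 * ((1 + |t|) ^ 12 * Real.exp (-(1 * |t|))) := ⟨_, rfl⟩
  have hκp : 0 < ‖κ‖ := norm_pos_iff.mpr hκ
  obtain ⟨hi, hle⟩ := hK ε h0 h12
  have hiC : Integrable (fun t => κ * ((FF.wt ε t * Z t : ℝ) : ℂ)) := hi.ofReal.const_mul κ
  have hiE : Integrable (fun t => R ε t - κ * ((FF.wt ε t * Z t : ℝ) : ℂ)) := by
    refine ((P09_int 1 one_pos 12).const_mul C1).mono' ?_ (Eventually.of_forall fun t => ?_)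
    · refine ((hRc ε).sub (continuous_const.mul ?_)).aestronglyMeasurable
      exact continuous_ofReal.comp ((P09_wt_cont ε).mul hZc)
    · have := hR ε h0 h12 t
      rw [one_mul, ← mul_assoc]
      exact this
  have hE : ‖∫ t, (R ε t - κ * ((FF.wt ε t * Z t : ℝ) : ℂ))‖ ≤ K1 := by
    rw [hK1]
    refine norm_integral_le_of_norm_le ((P09_int 1 one_pos 12).const_mul C1)
      (Eventually.of_forall fun t => ?_)
    have := hR ε h0 h12 t
    rw [one_mul, ← mul_assoc]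
    exact this
  have hiR : Integrable (R ε) := by
    have := hiE.add hiC
    refine this.congr (Eventually.of_forall fun t => ?_)
    simp
  rw [integral_sub hiR hiC, integral_const_mul] at hE
  have h5 : ‖κ * ∫ t, ((FF.wt ε t * Z t : ℝ) : ℂ)‖ ≤ ‖∫ t, R ε t‖ + K1 := by
    have := norm_sub_norm_le (κ * ∫ t, ((FF.wt ε t * Z t : ℝ) : ℂ)) (∫ t, R ε t)
    rw [norm_sub_rev] at this
    linarith
  have h6 : ‖κ * ∫ t, ((FF.wt ε t * Z t : ℝ) : ℂ)‖ = ‖κ‖ * |∫ t, FF.wt ε t * Z t| := by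
    rw [norm_mul, integral_complex_ofReal, Complex.norm_real, Real.norm_eq_abs]
  rw [h6] at h5
  have h8 : |∫ t, FF.wt ε t * Z t| ≤ ‖κ‖⁻¹ * (B + K1) := by
    rw [← div_eq_inv_mul, le_div_iff₀ hκp, mul_comm]
    exact h5.trans (add_le_add_left hB K1)
  rw [← hK1]
  exact hle.trans (add_le_add_left h8 K)



theorem P09_comb {k B K1 K e T I W C A : ℝ} (hk : 0 ≤ k) (hK10 : 0 ≤ K1) (hK0 : 0 ≤ K) (hT : 0 < T)
    (hT1 : 1 ≤ T) (hB : B ≤ C * T)
    (h1 : W ≤ k * (B + K1) + K) (h2 : e * I ≤ W) (he : 0 < e)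
    (h3 : A * T ≤ I) (hA : (k * (C + K1) + K) / e < A) : False := by
  have e1 : K1 ≤ K1 * T := le_mul_of_one_le_right hK10 hT1
  have e2 : K ≤ K * T := le_mul_of_one_le_right hK0 hT1
  have e3 : k * (B + K1) ≤ k * (C * T + K1 * T) := mul_le_mul_of_nonneg_left (by linarith) hk
  have e4 : e * (A * T) ≤ e * I := mul_le_mul_of_nonneg_left h3 he.le
  have e5 : e * (A * T) ≤ (k * (C + K1) + K) * T := by
    calc e * (A * T) ≤ k * (C * T + K1 * T) + K * T := by linarith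
      _ = _ := by ring
  rw [div_lt_iff₀ he] at hA
  have e6 : (k * (C + K1) + K) * T < A * e * T := mul_lt_mul_of_pos_right hA hT
  have e7 : A * e * T = e * (A * T) := by ring
  linarith

/-- Row P09. Main theorem for two forms. Model: NR/M18.lean (copy the private lemmas M18_core, M18_lower, M18_up; final
choice much easier: ε = 1/T, ‖∫ Rf1 conj Rf2‖ ≤ C ε⁻¹ + C ε^(-3/4) ≤ 2 C T, lower bound A T for every A). -/
theorem odd_ff {N1 N2 : ℕ} {a1 a2 : ℕ → ℂ} {L1 L2 : ℂ → ℂ} (D1 : NR.Dat N1 a1 L1) (D2 : NR.Dat N2 a2 L2)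
    (hd : Div a1 a2) {r s : ℕ} (hr : 0 < r) (hs : 0 < s) (hcop : Nat.Coprime r s)
    (hrs : (r : ℝ) * FF.tht N1 1 = s * FF.tht N2 1)
    (h : ∃ C : ℝ, 0 ≤ C ∧ ∀ x : ℕ, 1 ≤ x →
      ‖∑ l ∈ Finset.Icc 1 x, a1 (r * l) * conj (a2 (s * l))‖ ≤ C * (x : ℝ) ^ (9 / 10 : ℝ)) :
    {g : ℝ | 0 < g ∧ Odd (analyticOrderNatAt L1 (1 / 2 + g * I) +
      analyticOrderNatAt L2 (1 / 2 + g * I))}.Infinite := by
  intro hfin
  obtain ⟨u1, v1, W1, C1, hp1⟩ := D1.ph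
  obtain ⟨u2, v2, W2, C2, hp2⟩ := D2.ph
  obtain ⟨T0, hT0, hsg⟩ := sign2 D1 D2 hp1 hp2 hfin
  obtain ⟨κ, Cr, hκ, hCr, hR⟩ := prod2 D1 D2 hp1 hp2
  obtain ⟨Cp, hCp, hp⟩ := pars2 D1 D2
  obtain ⟨CJ, hCJ, hJ⟩ := J_le D1 D2 hr hs hcop hrs h
  obtain ⟨G1, hG1, hg1⟩ := L_line D1
  obtain ⟨G2, hG2, hg2⟩ := L_line D2
  have hZabs : ∀ t, |Zf L1 v1 t * Zf L2 v2 t| = ‖L1 (1 / 2 + t * I)‖ * ‖L2 (1 / 2 + t * I)‖ := by
    intro t
    rw [abs_mul, (Zf_abs hp1 t).1, (Zf_abs hp2 t).1]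
  have hZc : Continuous (fun t => Zf L1 v1 t * Zf L2 v2 t) :=
    (Zf_cont D1 hp1.cv).mul (Zf_cont D2 hp2.cv)
  have hZb : ∀ t, |Zf L1 v1 t * Zf L2 v2 t| ≤ (G1 * G2) * (1 + |t|) ^ 4 := by
    intro t
    rw [hZabs]
    have h0 : 0 ≤ 1 + |t| := by positivity
    calc ‖L1 (1 / 2 + t * I)‖ * ‖L2 (1 / 2 + t * I)‖
        ≤ (G1 * (1 + |t|) ^ 2) * (G2 * (1 + |t|) ^ 2) := by
          gcongr
          · exact hg1 t
          · exact hg2 t
      _ = _ := by ring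
  obtain ⟨K, K1, hK0, hK10, hup⟩ := P09_up (Z := fun t => Zf L1 v1 t * Zf L2 v2 t) hZc
    (CZ := G1 * G2) (mul_nonneg hG1 hG2) hZb hT0 hsg
    (R := fun ε t => Rf N1 L1 ε t * conj (Rf N2 L2 ε t))
    (fun ε => (Rf_cont D1 ε).mul (continuous_conj.comp (Rf_cont D2 ε))) hκ hCr hR
  have he : 0 < Real.exp (-4) := Real.exp_pos _
  obtain ⟨T1, hT1, hlow⟩ := low D1 D2 hd
    ((‖κ‖⁻¹ * ((Cp * CJ + Cp) + K1) + K) / Real.exp (-4) + 1)
  obtain ⟨T, hTdef⟩ : ∃ T, T = T0 + T1 := ⟨_, rfl⟩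
  have hTT0 : T0 < T := by rw [hTdef]; linarith
  have hTT1 : T1 ≤ T := by rw [hTdef]; linarith
  have hT3 : 3 ≤ T := hT1.trans hTT1
  have hTp : 0 < T := by linarith
  have hT1' : 1 ≤ T := by linarith
  have hTi : 0 < T⁻¹ := inv_pos.2 hTp
  have hTh : T⁻¹ ≤ 1 / 2 := by
    rw [inv_le_comm₀ hTp (by norm_num)]
    norm_num
    linarith
  have hA1 := hp T⁻¹ hTi hTh
  have hJ1 := hJ T⁻¹ hTi hTh
  rw [inv_inv] at hJ1
  have h5 : (T⁻¹) ^ (-(3 / 4 : ℝ)) ≤ T := by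
    rw [Real.inv_rpow hTp.le, Real.rpow_neg hTp.le, inv_inv]
    calc T ^ (3 / 4 : ℝ) ≤ T ^ (1 : ℝ) := Real.rpow_le_rpow_of_exponent_le hT1' (by norm_num)
      _ = T := Real.rpow_one T
  have hB : ‖∫ t : ℝ, Rf N1 L1 T⁻¹ t * conj (Rf N2 L2 T⁻¹ t)‖ ≤ (Cp * CJ + Cp) * T := by
    refine hA1.trans ?_
    have e1 := mul_le_mul_of_nonneg_left hJ1 hCp
    have e2 := mul_le_mul_of_nonneg_left h5 hCp
    calc Cp * ‖JJ a1 a2 (FF.tht N1 1) (FF.tht N2 1) T⁻¹‖ + Cp * T⁻¹ ^ (-(3 / 4 : ℝ))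
        ≤ Cp * (CJ * T) + Cp * T := add_le_add e1 e2
      _ = _ := by ring
  have h1 := (hup T⁻¹ hTi hTh).2 _ hB
  have h2 := P09_lower hZc hT0 hTT0 (hup T⁻¹ hTi hTh).1
  have h3 := hlow T hTT1
  have h4 : ∫ t in Icc T (2 * T), ‖L1 (1 / 2 + t * I) * L2 (1 / 2 + t * I)‖ =
      ∫ t in Icc T (2 * T), |Zf L1 v1 t * Zf L2 v2 t| := by
    refine setIntegral_congr_fun measurableSet_Icc fun t _ => ?_
    rw [hZabs, norm_mul]
  rw [h4] at h3
  exact P09_comb (inv_nonneg.2 (norm_nonneg κ)) hK10 hK0 hTp hT1' le_rfl h1 h2 he h3 (lt_add_one _)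

end PP
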