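import Pool.Agent.Lib.MP_0f5a55_nt.PP.D
import Pool.Agent.Lib.MP_0f5a55_nt.NH.M07
import Pool.Agent.Lib.MP_0f5a55_nt.NH.N11
import Pool.Agent.Lib.MP_0f5a55_nt.NH.N12
import Pool.Agent.Lib.MP_0f5a55_nt.FF.F03
import Pool.Agent.Lib.MP_0f5a55_nt.HC.H24
import Pool.Agent.Lib.MP_0f5a55_nt.NR.A0b
import Pool.Agent.Lib.MP_0f5a55_nt.NR.A18

open Complex MeasureTheory Set Filter Topology
open scoped Real ComplexConjugate NumberField

namespace PP

theorem P10_ze {N : ℕ} {a : ℕ → ℂ} (hN : 0 < N)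
    (hz : ∀ p : ℕ, p.Prime → N ∣ p + 1 → a p = 0) :
    ∃ m r : ℕ, 0 < m ∧ Nat.Coprime r m ∧ ∀ p : ℕ, p.Prime → p ≡ r [MOD m] → a p = 0 := by
  refine ⟨N, N - 1, hN, ?_, fun p hp h => hz p hp ?_⟩
  · obtain ⟨k, rfl⟩ : ∃ k, N = k + 1 := ⟨N - 1, by omega⟩
    simp
  · have h1 : p + 1 ≡ N - 1 + 1 [MOD N] := Nat.ModEq.add_right 1 h
    rw [Nat.sub_add_cancel hN] at h1
    exact (Nat.modEq_zero_iff_dvd).1 (h1.trans (by simp [Nat.ModEq]))

theorem P10_gr {N : ℕ} {a : ℕ → ℂ} {L : ℂ → ℂ} (D : NH.Dat N a L) :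
    ∃ C : ℝ, 0 < C ∧ ∀ s : ℂ, 1 / 2 ≤ s.re → ‖L s‖ ≤ C * (1 + |s.im|) ^ 2 := by
  obtain ⟨C1, hC1, h1⟩ := NH.L_pol D
  have hs2 := (D.ser 2 (by simp)).summable.norm
  set S0 : ℝ := ∑' n : ℕ, ‖a (n + 1) * ((n : ℂ) + 1) ^ (-(2 : ℂ))‖ with hS0
  have hS0n : 0 ≤ S0 := tsum_nonneg fun n => norm_nonneg _
  have hcomp : IsCompact (Icc (1 / 2 : ℝ) 2 ×ℂ Icc (-1 : ℝ) 1) := isCompact_Icc.reProdIm isCompact_Icc
  obtain ⟨C2, hC2⟩ := hcomp.exists_bound_of_continuousOn D.ent.continuous.continuousOn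
  refine ⟨C1 + S0 + |C2|, by positivity, fun s hs => ?_⟩
  have hT : 1 ≤ (1 + |s.im|) ^ 2 := one_le_pow₀ (by linarith [abs_nonneg s.im])
  have hT0 : 0 ≤ (1 + |s.im|) ^ 2 := by positivity
  have hC2n : 0 ≤ |C2| := abs_nonneg C2
  rcases le_total 1 |s.im| with h2 | h2
  · refine (h1 s hs h2).trans ?_
    apply mul_le_mul_of_nonneg_right _ hT0
    linarith
  · rcases le_total s.re 2 with h3 | h3
    · have h4 : s ∈ Icc (1 / 2 : ℝ) 2 ×ℂ Icc (-1 : ℝ) 1 := by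
        rw [Complex.mem_reProdIm]
        exact ⟨⟨hs, h3⟩, abs_le.1 h2⟩
      have h5 : ‖L s‖ ≤ |C2| := (hC2 s h4).trans (le_abs_self _)
      calc ‖L s‖ ≤ |C2| * 1 := by linarith
        _ ≤ (C1 + S0 + |C2|) * (1 + |s.im|) ^ 2 := by
            apply mul_le_mul _ hT (by norm_num) (by positivity)
            linarith
    · have hs := D.ser s h3
      have b1 : ∀ n : ℕ, ‖a (n + 1) * ((n : ℂ) + 1) ^ (-s)‖ ≤
          ‖a (n + 1) * ((n : ℂ) + 1) ^ (-(2 : ℂ))‖ := by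
        intro n
        have hn : (0 : ℝ) < (n : ℝ) + 1 := by positivity
        have hn1 : (1 : ℝ) ≤ (n : ℝ) + 1 := by
          have : (0 : ℝ) ≤ n := by positivity
          linarith
        have hcast : ((n : ℂ) + 1) = (((n : ℝ) + 1 : ℝ) : ℂ) := by push_cast; rfl
        rw [norm_mul, norm_mul, hcast, Complex.norm_cpow_eq_rpow_re_of_pos hn,
          Complex.norm_cpow_eq_rpow_re_of_pos hn]
        apply mul_le_mul_of_nonneg_left _ (norm_nonneg _)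
        apply Real.rpow_le_rpow_of_exponent_le hn1
        simp
        linarith
      have b2 : Summable fun n : ℕ => ‖a (n + 1) * ((n : ℂ) + 1) ^ (-s)‖ :=
        Summable.of_nonneg_of_le (fun n => norm_nonneg _) b1 hs2
      have b3 : ‖L s‖ ≤ S0 := by
        rw [← hs.tsum_eq]
        exact (norm_tsum_le_tsum_norm b2).trans (b2.tsum_le_tsum b1 hs2)
      calc ‖L s‖ ≤ S0 * 1 := by linarith
        _ ≤ (C1 + S0 + |C2|) * (1 + |s.im|) ^ 2 := by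
            apply mul_le_mul _ hT (by norm_num) (by positivity)
            linarith

theorem P10_ph {N : ℕ} {a : ℕ → ℂ} {L : ℂ → ℂ} (D : NH.Dat N a L) :
    ∃ (u : ℂ) (v W : ℝ → ℂ) (C : ℝ), NR.Ph N L u v W C := by
  obtain ⟨u, hu⟩ := NH.unit_ex D
  have hN0 : (0 : ℝ) < N := by exact_mod_cast D.pos
  have hpi := Real.pi_pos
  set A : ℝ := √(N : ℝ) / (2 * π) with hA
  have hApos : 0 < A := by positivity
  have hAc : (A : ℂ) ≠ 0 := ofReal_ne_zero.mpr hApos.ne'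
  have hk : ∀ t : ℝ, 0 < √A * √(π / Real.cosh (π * t)) := by
    intro t
    have := Real.cosh_pos (π * t)
    positivity
  have hkc : ∀ t : ℝ, ((√A * √(π / Real.cosh (π * t)) : ℝ) : ℂ) ≠ 0 := fun t =>
    ofReal_ne_zero.mpr (hk t).ne'
  have hG : ∀ t : ℝ, ‖Gamma (1 / 2 + t * I)‖ = √(π / Real.cosh (π * t)) := by
    intro t
    rw [← FF.F03_gam t, Real.sqrt_sq (norm_nonneg _)]
  have hAn : ∀ t : ℝ, ‖(A : ℂ) ^ (1 / 2 + t * I : ℂ)‖ = √A := by
    intro t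
    rw [Complex.norm_cpow_eq_rpow_re_of_pos hApos, Real.sqrt_eq_rpow]
    congr 1
    simp
  refine ⟨u, fun t => u * ((A : ℂ) ^ (1 / 2 + t * I : ℂ) * Gamma (1 / 2 + t * I)) /
    ((√A * √(π / Real.cosh (π * t)) : ℝ) : ℂ), fun _ => 1, 0, ⟨hu.1, ?_, ?_, ?_, ?_, ?_, ?_⟩⟩
  · intro t
    rw [norm_div, norm_mul, norm_mul, hu.1, hG t, hAn t, norm_real, Real.norm_eq_abs,
      abs_of_pos (hk t), one_mul]
    exact div_self (hk t).ne'
  · have c1 : Continuous fun t : ℝ => (1 / 2 + t * I : ℂ) := by fun_prop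
    have c2 : Continuous fun t : ℝ => (A : ℂ) ^ (1 / 2 + t * I : ℂ) :=
      c1.const_cpow (Or.inl hAc)
    have c3 : Continuous fun t : ℝ => Gamma (1 / 2 + t * I) := by
      rw [continuous_iff_continuousAt]
      intro t
      have hd : DifferentiableAt ℂ Gamma (1 / 2 + t * I) := by
        apply differentiableAt_Gamma
        intro m hm
        have := congrArg re hm
        simp at this
        have h0 : (0 : ℝ) ≤ m := Nat.cast_nonneg m
        linarith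
      exact hd.continuousAt.comp (f := fun t : ℝ => (1 / 2 + t * I : ℂ)) c1.continuousAt
    have c4 : Continuous fun t : ℝ => ((√A * √(π / Real.cosh (π * t)) : ℝ) : ℂ) := by
      refine continuous_ofReal.comp (continuous_const.mul (Real.continuous_sqrt.comp ?_))
      refine continuous_const.div (Real.continuous_cosh.comp (continuous_const.mul continuous_id)) ?_
      intro t
      exact (Real.cosh_pos _).ne'
    exact (continuous_const.mul (c2.mul c3)).div c4 hkc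
  · intro t
    have h1 := NH.lam_real D hu t
    unfold NH.Lam at h1
    have h2 : u * ((A : ℂ) ^ (1 / 2 + t * I : ℂ) * Gamma (1 / 2 + t * I)) /
        ((√A * √(π / Real.cosh (π * t)) : ℝ) : ℂ) * L (1 / 2 + t * I) =
        (((√A * √(π / Real.cosh (π * t)))⁻¹ : ℝ) : ℂ) *
          (u * ((A : ℂ) ^ (1 / 2 + t * I : ℂ) * Gamma (1 / 2 + t * I) * L (1 / 2 + t * I))) := by
      rw [ofReal_inv, div_eq_mul_inv]
      ring
    show (u * ((A : ℂ) ^ (1 / 2 + t * I : ℂ) * Gamma (1 / 2 + t * I)) /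
        ((√A * √(π / Real.cosh (π * t)) : ℝ) : ℂ) * L (1 / 2 + t * I)).im = 0
    rw [h2, im_ofReal_mul, h1, mul_zero]
  · intro t
    simp
  · intro t
    simp
  · intro t
    show u * ((A : ℂ) ^ (1 / 2 + t * I : ℂ) * Gamma (1 / 2 + t * I)) =
      ((√A * √(π / Real.cosh (π * t)) : ℝ) : ℂ) *
        (u * ((A : ℂ) ^ (1 / 2 + t * I : ℂ) * Gamma (1 / 2 + t * I)) /
          ((√A * √(π / Real.cosh (π * t)) : ℝ) : ℂ)) * 1
    rw [mul_one, mul_div_cancel₀ _ (hkc t)]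

/-- Row P10. The holomorphic forms satisfy the weaker structure. Fields: ms, ent, ser, pos from D; tw: NH.twist_sum
(NH/M07.lean); ze: m = N, r = N - 1; gr: NH.L_pol for |im| ≥ 1, for |im| ≤ 1: compactness of 1/2 ≤ re ≤ 2 and
‖L s‖ ≤ Σ ‖a(n+1)‖ (n+1)^(-2) for re ≥ 2 (ser, D.bd); ph: u from NH.unit_ex, v t = u A^(1/2+it) Γ(1/2+it) /
(√A √(π/cosh πt)), A = √N/(2π), W = 1, C = 0: NH.lam_real, ‖Γ(1/2+it)‖² = π/cosh(πt) (FF.F03_gam). -/
theorem nr_of_nh {N : ℕ} {a : ℕ → ℂ} {L : ℂ → ℂ} (D : NH.Dat N a L)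
    (hz : ∀ p : ℕ, p.Prime → N ∣ p + 1 → a p = 0) : NR.Dat N a L where
  one := D.one
  mul := D.mul
  loc := D.loc
  bd := D.bd
  pos := D.pos
  ms := D.ms
  tw := fun _ hM w hw => NH.twist_sum D hM w hw
  ze := P10_ze D.pos hz
  ent := D.ent
  ser := D.ser
  gr := P10_gr D
  ph := P10_ph D

theorem dat_all {K : Type*} [Field K] [NumberField K] (h2 : Module.finrank ℚ K = 2) {f : ℕ}
    {ψ : Ideal (𝓞 K) →*₀ ℂ} (h : HC.RingClass f ψ) (hψ : ∃ I, HC.Cop f I ∧ ψ I ^ 2 ≠ 1) :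
    ∃ L : ℂ → ℂ, NR.Dat (HC.lev K f) (HC.ac ψ) L ∧ ∀ s : ℂ, 1 < s.re → LSeriesHasSum (HC.ac ψ) s (L s) := by
  obtain hr | hc := NR.real_or_complex (K := K) h2
  · exact NR.dat_real h2 h hψ
  · obtain ⟨L, hL, hs⟩ := HC.dat h2 h hψ
    exact ⟨L, nr_of_nh hL (fun p hp hd => HC.ac_inert h2 h p hp hd), hs⟩

end PP
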