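import Pool.Agent.Lib.MP_0f5a55_nt.PP.D
import Pool.Agent.Lib.MP_0f5a55_nt.HC.H11
import Pool.Agent.Lib.MP_0f5a55_nt.NR.A12

open Complex MeasureTheory Set Filter Topology
open scoped Real ComplexConjugate NumberField NumberTheorySymbols

namespace PP

variable {K : Type*} [Field K] [NumberField K]

/-- an integral basis `1, w` with its multiplication and the discriminant -/
theorem P11_basis (h2 : Module.finrank ℚ K = 2) : ∃ (b : Module.Basis (Fin 2) ℤ (𝓞 K)) (c d : ℤ), b 0 = 1 ∧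
    b 1 * b 1 = (c : 𝓞 K) + (d : 𝓞 K) * b 1 := by
  obtain ⟨b, hb⟩ := HC.H11_basis h2
  refine ⟨b, b.repr (b 1 * b 1) 0, b.repr (b 1 * b 1) 1, hb, ?_⟩
  have h := b.sum_repr (b 1 * b 1)
  rw [Fin.sum_univ_two, zsmul_eq_mul, zsmul_eq_mul, hb, mul_one] at h
  exact h.symm

omit [NumberField K] in
/-- a root of `x² = d x + c` modulo `p` gives a homomorphism to `ZMod p` -/
theorem P11_hom {b : Module.Basis (Fin 2) ℤ (𝓞 K)} {c d : ℤ} (hb : b 0 = 1)
    (hw : b 1 * b 1 = (c : 𝓞 K) + (d : 𝓞 K) * b 1) {p : ℕ} {t : ZMod p} (ht : t * t = (c : ZMod p) + (d : ZMod p) * t) :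
    ∃ φ : 𝓞 K →+* ZMod p, Function.Surjective φ := by
  have hz : ∀ z : 𝓞 K, z = (b.repr z 0 : 𝓞 K) + (b.repr z 1 : 𝓞 K) * b 1 := by
    intro z
    have h := b.sum_repr z
    rw [Fin.sum_univ_two, zsmul_eq_mul, zsmul_eq_mul, hb, mul_one] at h
    exact h.symm
  have hr : ∀ x y : ℤ, b.repr ((x : 𝓞 K) + (y : 𝓞 K) * b 1) 0 = x ∧ b.repr ((x : 𝓞 K) + (y : 𝓞 K) * b 1) 1 = y := by
    intro x y
    have e : (x : 𝓞 K) + (y : 𝓞 K) * b 1 = x • b 0 + y • b 1 := by
      rw [zsmul_eq_mul, zsmul_eq_mul, hb, mul_one]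
    rw [e, map_add, map_zsmul, map_zsmul, Module.Basis.repr_self, Module.Basis.repr_self]
    constructor <;> simp
  have hmul : ∀ z z' : 𝓞 K, b.repr (z * z') 0 = b.repr z 0 * b.repr z' 0 + b.repr z 1 * b.repr z' 1 * c ∧
      b.repr (z * z') 1 = b.repr z 0 * b.repr z' 1 + b.repr z 1 * b.repr z' 0 + b.repr z 1 * b.repr z' 1 * d := by
    intro z z'
    have e : z * z' = ((b.repr z 0 * b.repr z' 0 + b.repr z 1 * b.repr z' 1 * c : ℤ) : 𝓞 K) +
        ((b.repr z 0 * b.repr z' 1 + b.repr z 1 * b.repr z' 0 + b.repr z 1 * b.repr z' 1 * d : ℤ) : 𝓞 K) * b 1 := by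
      conv_lhs => rw [hz z, hz z']
      push_cast
      linear_combination ((b.repr z 1 : ℤ) : 𝓞 K) * ((b.repr z' 1 : ℤ) : 𝓞 K) * hw
    have h := hr (b.repr z 0 * b.repr z' 0 + b.repr z 1 * b.repr z' 1 * c)
      (b.repr z 0 * b.repr z' 1 + b.repr z 1 * b.repr z' 0 + b.repr z 1 * b.repr z' 1 * d)
    rw [← e] at h
    exact h
  have h1 : b.repr 1 0 = 1 ∧ b.repr 1 1 = 0 := by
    rw [← hb, Module.Basis.repr_self]
    constructor <;> simp
  refine ⟨{ toFun := fun z => (b.repr z 0 : ZMod p) + (b.repr z 1 : ZMod p) * t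
            map_one' := ?_
            map_mul' := ?_
            map_zero' := ?_
            map_add' := ?_ }, ?_⟩
  · show ((b.repr 1 0 : ℤ) : ZMod p) + ((b.repr 1 1 : ℤ) : ZMod p) * t = 1
    rw [h1.1, h1.2]
    simp
  · intro z z'
    show ((b.repr (z * z') 0 : ℤ) : ZMod p) + ((b.repr (z * z') 1 : ℤ) : ZMod p) * t = _
    rw [(hmul z z').1, (hmul z z').2]
    push_cast
    linear_combination (-((b.repr z 1 : ℤ) : ZMod p) * ((b.repr z' 1 : ℤ) : ZMod p)) * ht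
  · show ((b.repr 0 0 : ℤ) : ZMod p) + ((b.repr 0 1 : ℤ) : ZMod p) * t = 0
    simp
  · intro z z'
    show ((b.repr (z + z') 0 : ℤ) : ZMod p) + ((b.repr (z + z') 1 : ℤ) : ZMod p) * t = _
    rw [map_add, Finsupp.add_apply, Finsupp.add_apply]
    push_cast
    ring
  · intro x
    obtain ⟨n, rfl⟩ := ZMod.intCast_surjective x
    refine ⟨(n : 𝓞 K), ?_⟩
    rw [map_intCast]

/-- Row P11. Primes congruent to 1 split. -/
theorem exists_split (h2 : Module.finrank ℚ K = 2) : ∃ Q : ℕ, 0 < Q ∧ ∀ p : ℕ, p.Prime → p ≡ 1 [MOD Q] →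
    ∃ P : Ideal (𝓞 K), Ideal.absNorm P = p := by
  obtain ⟨b, c, d, hb, hw⟩ := P11_basis h2
  by_cases hD : d ^ 2 + 4 * c = 0
  · refine ⟨2, by norm_num, fun p hp hp2 => ?_⟩
    have : Fact p.Prime := ⟨hp⟩
    have h20 : (2 : ZMod p) ≠ 0 := by
      intro h
      have h' : ((2 : ℕ) : ZMod p) = 0 := by exact_mod_cast h
      rw [ZMod.natCast_eq_zero_iff] at h'
      have h3 : p = 2 := (Nat.prime_dvd_prime_iff_eq hp Nat.prime_two).1 h'
      rw [h3] at hp2
      exact absurd hp2 (by decide)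
    have hDz : (d : ZMod p) ^ 2 + 4 * (c : ZMod p) = 0 := by exact_mod_cast congrArg (Int.cast : ℤ → ZMod p) hD
    have ht : ((d : ZMod p) / 2) * ((d : ZMod p) / 2) = (c : ZMod p) + (d : ZMod p) * ((d : ZMod p) / 2) := by
      field_simp
      linear_combination -hDz
    obtain ⟨φ, hφ⟩ := P11_hom hb hw ht
    refine ⟨RingHom.ker φ, ?_⟩
    rw [Ideal.absNorm_apply, Submodule.cardQuot_apply, Nat.card_congr (RingHom.quotientKerEquivOfSurjective hφ).toEquiv,
      Nat.card_zmod]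
  · obtain ⟨m, hmdef⟩ : ∃ m, m = (d ^ 2 + 4 * c).natAbs := ⟨_, rfl⟩
    have hm0 : m ≠ 0 := by rw [hmdef]; exact Int.natAbs_ne_zero.2 hD
    refine ⟨8 * m, by omega, fun p hp hpQ => ?_⟩
    have : Fact p.Prime := ⟨hp⟩
    have h8 : p ≡ 1 [MOD 8] := hpQ.of_dvd (Dvd.intro _ rfl)
    have hm : p ≡ 1 [MOD m] := hpQ.of_dvd (Dvd.intro_left _ rfl)
    have h8' : p % 8 = 1 := h8
    have h20 : (2 : ZMod p) ≠ 0 := by
      intro h
      have h' : ((2 : ℕ) : ZMod p) = 0 := by exact_mod_cast h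
      rw [ZMod.natCast_eq_zero_iff] at h'
      have h3 : p = 2 := (Nat.prime_dvd_prime_iff_eq hp Nat.prime_two).1 h'
      omega
    have hJ := NR.A12_one hm0 h8 hm
    have hsq0 : IsSquare ((m : ℕ) : ZMod p) := by
      rw [← jacobiSym.legendreSym.to_jacobiSym] at hJ
      refine (legendreSym.eq_one_iff' p (a := m) ?_).1 hJ
      intro h0
      have h4 : legendreSym p ((m : ℕ) : ℤ) = 0 := by
        rw [legendreSym.eq_zero_iff]
        exact_mod_cast h0
      rw [h4] at hJ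
      exact absurd hJ (by norm_num)
    have hsq : IsSquare (((d ^ 2 + 4 * c : ℤ)) : ZMod p) := by
      rcases Int.natAbs_eq (d ^ 2 + 4 * c) with h | h
      · rw [h, ← hmdef, Int.cast_natCast]
        exact hsq0
      · have h1 : IsSquare (-1 : ZMod p) := by
          rw [ZMod.exists_sq_eq_neg_one_iff]
          omega
        rw [h, ← hmdef, Int.cast_neg, Int.cast_natCast, ← neg_one_mul]
        exact h1.mul hsq0
    obtain ⟨x, hx⟩ := hsq
    have hx' : (d : ZMod p) ^ 2 + 4 * (c : ZMod p) = x * x := by exact_mod_cast hx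
    have ht : (((d : ZMod p) + x) / 2) * (((d : ZMod p) + x) / 2) = (c : ZMod p) + (d : ZMod p) * (((d : ZMod p) + x) / 2) := by
      field_simp
      linear_combination -hx'
    obtain ⟨φ, hφ⟩ := P11_hom hb hw ht
    refine ⟨RingHom.ker φ, ?_⟩
    rw [Ideal.absNorm_apply, Submodule.cardQuot_apply, Nat.card_congr (RingHom.quotientKerEquivOfSurjective hφ).toEquiv,
      Nat.card_zmod]

end PP
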