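import Pool.Agent.Lib.MP_0f5a55_nt.PP.D
import Pool.Agent.Lib.MP_0f5a55_nt.NR.A14

open Complex MeasureTheory Set Filter Topology
open scoped Real ComplexConjugate NumberField

namespace PP

open HC NR

variable {K : Type*} [Field K] [NumberField K]

/-- the ideals of norm p -/
private theorem P12_set {p : ℕ} (hp : p.Prime) {P J : Ideal (𝓞 K)} (hP : Ideal.absNorm P = p)
    (hJ : Ideal.absNorm J = p) (hIJ : P * J = Ideal.span {(p : 𝓞 K)}) (L : Ideal (𝓞 K)) :
    Ideal.absNorm L = p ↔ L = P ∨ L = J := by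
  constructor
  · intro hL
    have hLp : L.IsPrime := by
      apply Ideal.isPrime_of_irreducible_absNorm
      rw [hL]
      exact hp
    have hL0 : L ≠ ⊥ := by
      rintro rfl
      rw [Ideal.absNorm_bot] at hL
      exact hp.ne_zero hL.symm
    have hLP : Prime L := Ideal.prime_of_isPrime hL0 hLp
    have hmem : (p : 𝓞 K) ∈ L := by
      have h1 := Ideal.absNorm_mem L
      rw [hL] at h1
      exact h1
    have hd : L ∣ P * J := by
      rw [hIJ, Ideal.dvd_span_singleton]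
      exact hmem
    have heq : ∀ M : Ideal (𝓞 K), Ideal.absNorm M = p → L ∣ M → L = M := by
      rintro M hM ⟨Q, rfl⟩
      rw [map_mul, hL] at hM
      have hQ : Ideal.absNorm Q = 1 := by
        have h3 : p * Ideal.absNorm Q = p * 1 := by rw [hM, mul_one]
        exact Nat.eq_of_mul_eq_mul_left hp.pos h3
      rw [Ideal.absNorm_eq_one_iff] at hQ
      rw [hQ, Ideal.mul_top]
    rcases hLP.dvd_or_dvd hd with h3 | h3
    · exact Or.inl (heq P hP h3)
    · exact Or.inr (heq J hJ h3)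
  · rintro (rfl | rfl)
    · exact hP
    · exact hJ

/-- Row P12. The coefficient at a prime which is a norm. Model: NR/A14.lean (ac_sq: the ideals of norm p are P and its
conjugate P', P P' = (p), ψ(P') = conj ψ(P); if P' = P then ψ(P)² = ψ((p)) = 1). -/
theorem ac_prime (h2 : Module.finrank ℚ K = 2) {p : ℕ} (hp : p.Prime) {P : Ideal (𝓞 K)}
    (hP : Ideal.absNorm P = p) :
    (∀ (f : ℕ) (ψ : Ideal (𝓞 K) →*₀ ℂ), RC f ψ → p.Coprime f → ac ψ p = ψ P + conj (ψ P)) ∨
    (∀ (f : ℕ) (ψ : Ideal (𝓞 K) →*₀ ℂ), RC f ψ → p.Coprime f → ac ψ p = ψ P ∧ ψ P ^ 2 = 1) := by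
  classical
  obtain ⟨J, hJ, hIJ⟩ := H13_exists (K := K) h2 P
  rw [hP] at hJ hIJ
  have hset := P12_set hp hP hJ hIJ
  have hP0 : P ≠ ⊥ := by
    rintro rfl
    rw [Ideal.absNorm_bot] at hP
    exact hp.ne_zero hP.symm
  have hJ0 : J ≠ ⊥ := by
    rintro rfl
    rw [Ideal.absNorm_bot] at hJ
    exact hp.ne_zero hJ.symm
  have hmul : ∀ (f : ℕ) (ψ : Ideal (𝓞 K) →*₀ ℂ), RC f ψ → p.Coprime f → ψ P * ψ J = 1 ∧ ‖ψ P‖ = 1 := by
    intro f ψ h hc
    have hcP : Cop f P := by
      rw [cop_iff h2 h.pos, hP]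
      exact ⟨hP0, hc⟩
    have hcJ : Cop f J := by
      rw [cop_iff h2 h.pos, hJ]
      exact ⟨hJ0, hc⟩
    have hN : Cop f (Ideal.span {(p : 𝓞 K)}) := by
      rw [← hIJ]
      exact ⟨mul_ne_zero hP0 hJ0, hcP.2.mul_left hcJ.2⟩
    have hO : Ord f (p : 𝓞 K) := ⟨(p : ℤ), by simp⟩
    have h1 := h.triv _ hO hN
    rw [← hIJ, map_mul] at h1
    exact ⟨h1, h.cop P hcP⟩
  by_cases hPJ : P = J
  · right
    intro f ψ h hc
    have hS : H09_S K p = {P} := by
      ext L
      rw [H09_mem, hset, Finset.mem_singleton, ← hPJ, or_self]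
    obtain ⟨h1, -⟩ := hmul f ψ h hc
    rw [H09_ac ψ, hS, Finset.sum_singleton]
    rw [← hPJ] at h1
    exact ⟨rfl, by rw [sq]; exact h1⟩
  · left
    intro f ψ h hc
    have hS : H09_S K p = {P, J} := by
      ext L
      rw [H09_mem, hset, Finset.mem_insert, Finset.mem_singleton]
    obtain ⟨h1, h3⟩ := hmul f ψ h hc
    have h4 : ψ P * conj (ψ P) = 1 := by
      rw [Complex.mul_conj, Complex.normSq_eq_norm_sq, h3]
      simp
    have h5 : ψ P ≠ 0 := by
      intro h0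
      rw [h0, norm_zero] at h3
      exact zero_ne_one h3
    have h6 : conj (ψ P) = ψ J := mul_left_cancel₀ h5 (h4.trans h1.symm)
    rw [H09_ac ψ, hS, Finset.sum_pair hPJ, h6]

end PP
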