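import Pool.Agent.Lib.MP_0f5a55_nt.PP.P11
import Pool.Agent.Lib.MP_0f5a55_nt.PP.P12
import Pool.Agent.Lib.MP_0f5a55_nt.NR.E6

open Complex MeasureTheory Set Filter Topology
open scoped Real ComplexConjugate NumberField

namespace PP

open HC NR

variable {K : Type*} [Field K] [NumberField K]

theorem P13_div {a1 a2 : ℕ → ℂ} {Q : ℕ} (hQ : 0 < Q) {c : ℝ} (hc : 0 < c)
    (h : ∀ p : ℕ, p.Prime → p ≡ 1 [MOD Q] → c ≤ ‖a1 p + a2 p‖ ^ 2) : Div a1 a2 := by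
  intro hs
  refine div_res hQ (r := 1) (Nat.coprime_one_left Q) ?_
  have h1 := hs.mul_left (c⁻¹)
  refine Summable.of_nonneg_of_le (fun n => ?_) (fun n => ?_) h1
  · split_ifs
    · positivity
    · exact le_refl _
  · by_cases hn : n.Prime
    · by_cases hm : n ≡ 1 [MOD Q]
      · rw [if_pos ⟨hn, hm⟩, if_pos hn]
        have h2 := h n hn hm
        have h3 : 0 ≤ ((n : ℝ))⁻¹ := by positivity
        have h4 : c * ((n : ℝ))⁻¹ ≤ ‖a1 n + a2 n‖ ^ 2 * ((n : ℝ))⁻¹ := mul_le_mul_of_nonneg_right h2 h3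
        calc ((n : ℝ))⁻¹ = c⁻¹ * (c * ((n : ℝ))⁻¹) := by
              rw [← mul_assoc, inv_mul_cancel₀ hc.ne', one_mul]
          _ ≤ _ := mul_le_mul_of_nonneg_left h4 (by positivity)
      · rw [if_neg (fun h => hm h.2), if_pos hn]
        positivity
    · rw [if_neg (fun h => hn h.1), if_neg hn, mul_zero]

theorem P13_ne {m : ℕ} (hm : Odd m) {x y : ℂ} (hx : x ^ m = 1) (hy : y ^ m = 1) : x + y ≠ 0 := by
  intro h
  have h1 : y = -x := by linear_combination h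
  rw [h1, hm.neg_pow, hx] at hy
  norm_num at hy

theorem P13_conj {m : ℕ} (hm : Odd m) {x : ℂ} (hx : x ^ m = 1) : x * conj x = 1 := by
  have h1 : ‖x‖ = 1 := Complex.norm_eq_one_of_pow_eq_one hx hm.pos.ne'
  rw [Complex.mul_conj, Complex.normSq_eq_norm_sq, h1]
  norm_num

theorem P13_ne2 {m : ℕ} (hm : Odd m) {x y : ℂ} (hx : x ^ m = 1) (hy : y ^ m = 1) :
    x + conj x + (y + conj y) ≠ 0 := by
  have h1 := P13_conj hm hx
  have h2 := P13_conj hm hy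
  have h3 : x + conj x + (y + conj y) = (x + y) * (1 + conj x * conj y) := by
    linear_combination (-conj y) * h1 - conj x * h2
  rw [h3]
  refine mul_ne_zero (P13_ne hm hx hy) ?_
  refine P13_ne hm (one_pow m) ?_
  rw [← map_mul, ← map_pow, mul_pow, hx, hy, mul_one, map_one]

theorem P13_min {m : ℕ} (hm : Odd m) : ∃ c : ℝ, 0 < c ∧ ∀ x y : ℂ, x ^ m = 1 → y ^ m = 1 →
    c ≤ ‖x + conj x + (y + conj y)‖ ^ 2 ∧ c ≤ ‖x + y‖ ^ 2 := by
  classical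
  set S : Finset ℂ := (Polynomial.nthRoots m (1 : ℂ)).toFinset with hS
  have hmem : ∀ x : ℂ, x ∈ S ↔ x ^ m = 1 := by
    intro x
    rw [hS, Multiset.mem_toFinset, Polynomial.mem_nthRoots hm.pos]
  obtain ⟨z, hz, hzmin⟩ := Finset.exists_min_image (S ×ˢ S)
    (fun z : ℂ × ℂ => min (‖z.1 + conj z.1 + (z.2 + conj z.2)‖ ^ 2) (‖z.1 + z.2‖ ^ 2))
    ⟨(1, 1), by simp [hmem]⟩
  rw [Finset.mem_product, hmem, hmem] at hz
  have hp1 := norm_pos_iff.2 (P13_ne2 hm hz.1 hz.2)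
  have hp2 := norm_pos_iff.2 (P13_ne hm hz.1 hz.2)
  refine ⟨min (‖z.1 + conj z.1 + (z.2 + conj z.2)‖ ^ 2) (‖z.1 + z.2‖ ^ 2),
    lt_min (pow_pos hp1 2) (pow_pos hp2 2), fun x y hx hy => ?_⟩
  have h1 := hzmin (x, y) (by rw [Finset.mem_product, hmem, hmem]; exact ⟨hx, hy⟩)
  exact ⟨h1.trans (min_le_left _ _), h1.trans (min_le_right _ _)⟩

/-- Row P13. Divergence. With Q from exists_split take the primes p ≡ 1 mod Q f1 f2 (q in the second theorem); P of norm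
p is prime to f1, f2 (HC.cop_iff). Odd orders: x = ψ1 P, y = ψ2 P satisfy x^m = y^m = 1 with m = m1 m2 odd; by ac_prime
the sum is x + conj x + y + conj y = (x + y)(1 + conj (x y)) (conj x = x⁻¹) or x + y with x² = y² = 1 (so x = y = 1); x + y ≠ 0
and xy ≠ -1 since m is odd; finitely many values, so |a1 p + a2 p| ≥ c > 0. Then NR.div_res (NR/E6.lean) with r = 1. -/
theorem div_odd (h2 : Module.finrank ℚ K = 2) {f1 f2 : ℕ} {ψ1 ψ2 : Ideal (𝓞 K) →*₀ ℂ} (h1 : RC f1 ψ1)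
    (h1' : RC f2 ψ2) {m1 m2 : ℕ} (o1 : Odd m1) (o2 : Odd m2) (e1 : ∀ I, Cop f1 I → ψ1 I ^ m1 = 1)
    (e2 : ∀ I, Cop f2 I → ψ2 I ^ m2 = 1) : Div (ac ψ1) (ac ψ2) := by
  obtain ⟨Q, hQ, hsp⟩ := exists_split (K := K) h2
  obtain ⟨c, hc, hmin⟩ := P13_min (o1.mul o2)
  have hpos1 := h1.pos
  have hpos2 := h1'.pos
  refine P13_div (Q := Q * (f1 * f2)) (by positivity) hc (fun p hp hpQ => ?_)
  obtain ⟨P, hP⟩ := hsp p hp (hpQ.of_mul_right _)
  have hf : p ≡ 1 [MOD f1 * f2] := hpQ.of_mul_left _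
  have hc1 : p.Coprime f1 := by
    have := (hf.of_mul_right f2).gcd_eq
    rwa [Nat.gcd_one_left] at this
  have hc2 : p.Coprime f2 := by
    have := (hf.of_mul_left f1).gcd_eq
    rwa [Nat.gcd_one_left] at this
  have hP0 : P ≠ ⊥ := by
    rintro rfl
    rw [Ideal.absNorm_bot] at hP
    exact hp.ne_zero hP.symm
  have hx : ψ1 P ^ (m1 * m2) = 1 := by
    rw [pow_mul, e1 P ((cop_iff h2 h1.pos).2 ⟨hP0, by rw [hP]; exact hc1⟩), one_pow]
  have hy : ψ2 P ^ (m1 * m2) = 1 := by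
    rw [mul_comm, pow_mul, e2 P ((cop_iff h2 h1'.pos).2 ⟨hP0, by rw [hP]; exact hc2⟩), one_pow]
  obtain ⟨b1, b2⟩ := hmin _ _ hx hy
  rcases ac_prime h2 hp hP with h | h
  · rw [h f1 ψ1 h1 hc1, h f2 ψ2 h1' hc2]
    exact b1
  · rw [(h f1 ψ1 h1 hc1).1, (h f2 ψ2 h1' hc2).1]
    exact b2

/-- here the sum is ±4 or ±2 -/
theorem div_four (h2 : Module.finrank ℚ K = 2) {f1 f2 : ℕ} {ψ1 ψ2 : Ideal (𝓞 K) →*₀ ℂ} (h1 : RC f1 ψ1)
    (h1' : RC f2 ψ2) {q : ℕ} (hq : 0 < q) (e : ∀ I, Cop f1 I → Cop f2 I → Ideal.absNorm I ≡ 1 [MOD q] →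
      ψ1 I ^ 2 = 1 ∧ ψ2 I = ψ1 I) : Div (ac ψ1) (ac ψ2) := by
  obtain ⟨Q, hQ, hsp⟩ := exists_split (K := K) h2
  have hpos1 := h1.pos
  have hpos2 := h1'.pos
  refine P13_div (Q := Q * (q * (f1 * f2))) (by positivity) (c := 4) (by norm_num) (fun p hp hpQ => ?_)
  obtain ⟨P, hP⟩ := hsp p hp (hpQ.of_mul_right _)
  have hq1 : p ≡ 1 [MOD q] := (hpQ.of_mul_left _).of_mul_right _
  have hf : p ≡ 1 [MOD f1 * f2] := (hpQ.of_mul_left _).of_mul_left _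
  have hc1 : p.Coprime f1 := by
    have := (hf.of_mul_right f2).gcd_eq
    rwa [Nat.gcd_one_left] at this
  have hc2 : p.Coprime f2 := by
    have := (hf.of_mul_left f1).gcd_eq
    rwa [Nat.gcd_one_left] at this
  have hP0 : P ≠ ⊥ := by
    rintro rfl
    rw [Ideal.absNorm_bot] at hP
    exact hp.ne_zero hP.symm
  obtain ⟨hx, hy⟩ := e P ((cop_iff h2 h1.pos).2 ⟨hP0, by rw [hP]; exact hc1⟩)
    ((cop_iff h2 h1'.pos).2 ⟨hP0, by rw [hP]; exact hc2⟩) (by rw [hP]; exact hq1)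
  have hx' : ψ1 P = 1 ∨ ψ1 P = -1 := by
    have h3 : (ψ1 P - 1) * (ψ1 P + 1) = 0 := by linear_combination hx
    rcases mul_eq_zero.1 h3 with h | h
    · left
      linear_combination h
    · right
      linear_combination h
  rcases ac_prime h2 hp hP with h | h
  · rw [h f1 ψ1 h1 hc1, h f2 ψ2 h1' hc2, hy]
    rcases hx' with hx' | hx' <;> rw [hx'] <;> norm_num
  · rw [(h f1 ψ1 h1 hc1).1, (h f2 ψ2 h1' hc2).1, hy]
    rcases hx' with hx' | hx' <;> rw [hx'] <;> norm_num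

end PP
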