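import Pool.Agent.Lib.MP_0f5a55_nt.PP.R47
import Pool.Agent.Lib.MP_0f5a55_nt.PP.P09
import Pool.Agent.Lib.MP_0f5a55_nt.PP.P10
import Pool.Agent.Lib.MP_0f5a55_nt.PP.P13

open Complex MeasureTheory Set Filter Topology
open scoped Real ComplexConjugate NumberField

namespace PP

open HC NR

variable {K : Type*} [Field K] [NumberField K]

theorem disc_pos (h2 : Module.finrank ℚ K = 2) : 0 < (NumberField.discr K).natAbs :=
  Int.natAbs_pos.2 (NumberField.discr_ne_zero K)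

theorem P14_tht (f : ℕ) :
    FF.tht (lev K f) 1 = (√(((NumberField.discr K).natAbs : ℕ) : ℝ) * f)⁻¹ := by
  unfold FF.tht lev
  congr 1
  rw [Nat.cast_one, mul_one, Nat.cast_mul, Nat.cast_pow, Real.sqrt_mul (Nat.cast_nonneg _),
    Real.sqrt_sq (Nat.cast_nonneg _)]

theorem P14_inv {x y : ℂ} (hy : ‖y‖ = 1) (h : x * y = 1) : x = conj y := by
  have h1 : y * conj y = 1 := by
    rw [Complex.mul_conj, Complex.normSq_eq_norm_sq, hy]
    norm_num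
  calc x = x * (y * conj y) := by rw [h1, mul_one]
    _ = (x * y) * conj y := by ring
    _ = conj y := by rw [h, one_mul]

theorem P14_zero (h2 : Module.finrank ℚ K = 2) {f r g : ℕ} {ψ : Ideal (𝓞 K) →*₀ ℂ} (h1 : RingClass f ψ)
    (hf : f = r * g) (hr : r ≠ 1) {l : ℕ} (hl : 0 < l) : ac ψ (r * l) = 0 := by
  have hr0 : 0 < r := by
    rcases Nat.eq_zero_or_pos r with h | h
    · have := h1.pos
      rw [hf, h, zero_mul] at this
      exact absurd this (lt_irrefl _)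
    · exact h
  refine HC.ac_ncop h2 h1 (Nat.mul_pos hr0 hl) fun hc => hr ?_
  have h3 : r ∣ Nat.gcd (r * l) f := Nat.dvd_gcd (Dvd.intro _ rfl) (hf ▸ Dvd.intro _ rfl)
  have h4 : Nat.gcd (r * l) f = 1 := hc
  rw [h4] at h3
  exact Nat.dvd_one.1 h3

/-- Row P14. The diagonal of two primitive ring class characters. tht (lev K f) 1 = 1/(√|D| f). If f1 = f2: r = s = 1 and rs_sum
(hne; ψ I conj(ψ I) = 1 on the ideals prime to f). If f1 ≠ f2: r = f1/g, s = f2/g with g = gcd; r > 1 or s > 1, so r l or s l is not prime to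
f1 or f2, and all terms vanish (HC.ac_ncop), C = 0. -/
theorem diag (h2 : Module.finrank ℚ K = 2) {f1 f2 : ℕ} {ψ1 ψ2 : Ideal (𝓞 K) →*₀ ℂ} (h1 : RingClass f1 ψ1)
    (h1' : RingClass f2 ψ2) (hne : ψ1 ≠ ψ2) (hne' : ∃ I, ψ1 I ≠ conj (ψ2 I)) :
    ∃ r s : ℕ, 0 < r ∧ 0 < s ∧ Nat.Coprime r s ∧ (r : ℝ) * FF.tht (lev K f1) 1 = s * FF.tht (lev K f2) 1 ∧
      ∃ C : ℝ, 0 ≤ C ∧ ∀ x : ℕ, 1 ≤ x →
        ‖∑ l ∈ Finset.Icc 1 x, ac ψ1 (r * l) * conj (ac ψ2 (s * l))‖ ≤ C * (x : ℝ) ^ (9 / 10 : ℝ) := by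
  obtain ⟨r, s, hcop, hr, hs⟩ := Nat.exists_coprime f1 f2
  obtain ⟨g, hg⟩ : ∃ g, g = Nat.gcd f1 f2 := ⟨_, rfl⟩
  rw [← hg] at hr hs
  have hf1 := h1.pos
  have hf2 := h1'.pos
  have hr0 : 0 < r := by
    rcases Nat.eq_zero_or_pos r with h | h
    · rw [hr, h, zero_mul] at hf1
      exact absurd hf1 (lt_irrefl _)
    · exact h
  have hs0 : 0 < s := by
    rcases Nat.eq_zero_or_pos s with h | h
    · rw [hs, h, zero_mul] at hf2
      exact absurd hf2 (lt_irrefl _)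
    · exact h
  have hg0 : 0 < g := by
    rcases Nat.eq_zero_or_pos g with h | h
    · rw [hr, h, mul_zero] at hf1
      exact absurd hf1 (lt_irrefl _)
    · exact h
  have hD : 0 < √(((NumberField.discr K).natAbs : ℕ) : ℝ) :=
    Real.sqrt_pos.2 (Nat.cast_pos.2 (disc_pos h2))
  have hrs : (r : ℝ) * FF.tht (lev K f1) 1 = s * FF.tht (lev K f2) 1 := by
    rw [P14_tht, P14_tht]
    have e1 : (f1 : ℝ) = r * g := by exact_mod_cast hr
    have e2 : (f2 : ℝ) = s * g := by exact_mod_cast hs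
    rw [e1, e2]
    have n1 : (r : ℝ) ≠ 0 := Nat.cast_ne_zero.2 hr0.ne'
    have n2 : (s : ℝ) ≠ 0 := Nat.cast_ne_zero.2 hs0.ne'
    have n3 : (g : ℝ) ≠ 0 := Nat.cast_ne_zero.2 hg0.ne'
    field_simp
  refine ⟨r, s, hr0, hs0, hcop, hrs, ?_⟩
  by_cases h11 : r = 1 ∧ s = 1
  · obtain ⟨rfl, rfl⟩ := h11
    have hff : f2 = f1 := by rw [hr, hs]
    subst hff
    have hp : ∃ I, HC.Cop f2 I ∧ ψ1 I * ψ2 I ≠ 1 := by
      obtain ⟨I, hI⟩ := hne'
      have hc : Cop f2 I := by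
        by_contra hc
        apply hI
        rw [h1.ncop I hc, h1'.ncop I hc, map_zero]
      exact ⟨I, hc, fun h => hI (P14_inv (h1'.cop I hc) h)⟩
    have hm : ∃ I, HC.Cop f2 I ∧ ψ1 I * conj (ψ2 I) ≠ 1 := by
      obtain ⟨I, hI⟩ := DFunLike.ne_iff.1 hne
      have hc : Cop f2 I := by
        by_contra hc
        apply hI
        rw [h1.ncop I hc, h1'.ncop I hc]
      refine ⟨I, hc, fun h => hI ?_⟩
      have h3 := P14_inv (y := conj (ψ2 I)) (by rw [Complex.norm_conj]; exact h1'.cop I hc) h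
      rw [Complex.conj_conj] at h3
      exact h3
    obtain ⟨C, hC, hx⟩ := rs_sum h2 (RC.of h1) (RC.of h1') hp hm
    refine ⟨C, hC, fun x hx1 => ?_⟩
    have h5 := hx x hx1
    simp only [one_mul]
    exact h5
  · refine ⟨0, le_rfl, fun x _ => ?_⟩
    have h6 : ∑ l ∈ Finset.Icc 1 x, ac ψ1 (r * l) * conj (ac ψ2 (s * l)) = 0 := by
      refine Finset.sum_eq_zero fun l hl => ?_
      have hl0 : 0 < l := (Finset.mem_Icc.1 hl).1
      rcases not_and_or.1 h11 with h | h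
      · rw [P14_zero h2 h1 hr h hl0, zero_mul]
      · rw [P14_zero h2 h1' hs h hl0, map_zero, mul_zero]
    rw [h6, norm_zero, zero_mul]

/-- the type of pairs which we treat -/
def Good (f1 f2 : ℕ) (ψ1 ψ2 : Ideal (𝓞 K) →*₀ ℂ) : Prop :=
  (∃ m : ℕ, Odd m ∧ (∀ I, Cop f1 I → ψ1 I ^ m = 1) ∧ ∀ I, Cop f2 I → ψ2 I ^ m = 1) ∨
  ∃ q : ℕ, 0 < q ∧ ∀ I, Cop f1 I → Cop f2 I → Ideal.absNorm I ≡ 1 [MOD q] → ψ1 I ^ 2 = 1 ∧ ψ2 I = ψ1 I

/-- the pair theorem -/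
theorem pair_odd (h2 : Module.finrank ℚ K = 2) {f1 f2 : ℕ} {ψ1 ψ2 : Ideal (𝓞 K) →*₀ ℂ} (h1 : RingClass f1 ψ1)
    (h1' : RingClass f2 ψ2) (hne : ψ1 ≠ ψ2) (hne' : ∃ I, ψ1 I ≠ conj (ψ2 I)) (hg : Good f1 f2 ψ1 ψ2)
    {L1 L2 : ℂ → ℂ} (D1 : NR.Dat (lev K f1) (ac ψ1) L1) (D2 : NR.Dat (lev K f2) (ac ψ2) L2) :
    {g : ℝ | 0 < g ∧ Odd (analyticOrderNatAt L1 (1 / 2 + g * I) +
      analyticOrderNatAt L2 (1 / 2 + g * I))}.Infinite := by
  obtain ⟨r, s, hr, hs, hcop, hrs, h⟩ := diag h2 h1 h1' hne hne'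
  refine odd_ff D1 D2 ?_ hr hs hcop hrs h
  obtain ⟨m, hm, e1, e2⟩ | ⟨q, hq, e⟩ := hg
  · exact div_odd h2 (RC.of h1) (RC.of h1') hm hm e1 e2
  · exact div_four h2 (RC.of h1) (RC.of h1') hq e

end PP
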