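import Pool.Agent.Lib.MP_0f5a55_nt.PP.P10

open Complex MeasureTheory Set Filter Topology
open scoped Real ComplexConjugate NumberField

namespace PP

open HC NR

/-- two entire functions with the same Dirichlet series -/
theorem L_unique {a b : ℕ → ℂ} (hab : ∀ n, 0 < n → a n = b n) {L M : ℂ → ℂ} (hL : Differentiable ℂ L)
    (hM : Differentiable ℂ M) (sL : ∀ s : ℂ, 1 < s.re → LSeriesHasSum a s (L s))
    (sM : ∀ s : ℂ, 1 < s.re → LSeriesHasSum b s (M s)) : L = M := by
  have aL : AnalyticOnNhd ℂ L univ := fun z _ => hL.analyticAt z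
  have aM : AnalyticOnNhd ℂ M univ := fun z _ => hM.analyticAt z
  have key : ∀ s : ℂ, 1 < s.re → L s = M s := by
    intro s hs
    have h1 := sL s hs
    have h2 := sM s hs
    have e : LSeries.term a s = LSeries.term b s := by
      funext n
      rcases Nat.eq_zero_or_pos n with h0 | h0
      · rw [h0, LSeries.term_zero, LSeries.term_zero]
      · rw [LSeries.term_of_ne_zero h0.ne', LSeries.term_of_ne_zero h0.ne', hab n h0]
    unfold LSeriesHasSum at h1 h2
    rw [e] at h1
    exact h1.unique h2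
  have hev : L =ᶠ[𝓝 (2 : ℂ)] M := by
    have ho : IsOpen {s : ℂ | 1 < s.re} := isOpen_lt continuous_const Complex.continuous_re
    filter_upwards [ho.mem_nhds (show (2 : ℂ) ∈ {s : ℂ | 1 < s.re} by simp)] with s hs
    exact key s hs
  have := aL.eqOn_of_preconnected_of_eventuallyEq aM isPreconnected_univ (mem_univ 2) hev
  funext s
  exact this (mem_univ s)

variable {K : Type*} [Field K] [NumberField K]

theorem dat_of (h2 : Module.finrank ℚ K = 2) {f : ℕ} {ψ : Ideal (𝓞 K) →*₀ ℂ} (h : RingClass f ψ)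
    (hψ : ∃ I, Cop f I ∧ ψ I ^ 2 ≠ 1) {L : ℂ → ℂ} (hL : Differentiable ℂ L)
    (hs : ∀ s : ℂ, 1 < s.re → LSeriesHasSum (ac ψ) s (L s)) : NR.Dat (lev K f) (ac ψ) L := by
  obtain ⟨M, hM, sM⟩ := dat_all h2 h hψ
  rw [L_unique (fun _ _ => rfl) hL hM.ent hs sM]
  exact hM

end PP
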