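import Pool.Agent.Lib.MP_0f5a55_nt.PP.P10
import Pool.Agent.Lib.MP_0f5a55_nt.PP.B1
import Pool.Agent.Lib.MP_0f5a55_nt.NR.M08

open Complex MeasureTheory Set Filter Topology
open scoped Real ComplexConjugate NumberField

namespace PP

open HC NR

variable {K : Type*} [Field K] [NumberField K]

/-- orthogonality -/
theorem P16_orth {q : ℕ} [NeZero q] (z : ℂ) (n : ℕ) :
    ∑ χ : DirichletCharacter ℂ q, (z * conj (χ (n : ZMod q))).re =
      (q.totient : ℝ) * (if n ≡ 1 [MOD q] then z.re else 0) := by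
  have h1 := DirichletCharacter.sum_characters_eq ℂ (n := q) (n : ZMod q)
  have h2 : ∑ χ : DirichletCharacter ℂ q, (z * conj (χ (n : ZMod q))).re =
      (z * conj (∑ χ : DirichletCharacter ℂ q, χ (n : ZMod q))).re := by
    rw [map_sum, Finset.mul_sum, Complex.re_sum]
  rw [h2, h1]
  have h3 : ((n : ZMod q) = 1) ↔ n ≡ 1 [MOD q] := by
    have := ZMod.natCast_eq_natCast_iff n 1 q
    rwa [Nat.cast_one] at this
  by_cases h4 : n ≡ 1 [MOD q]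
  · rw [if_pos (h3.2 h4), if_pos h4, Complex.conj_natCast, Complex.mul_re, Complex.natCast_re,
      Complex.natCast_im, mul_zero, sub_zero, mul_comm]
  · rw [if_neg (fun h => h4 (h3.1 h)), if_neg h4, map_zero, mul_zero, mul_zero, Complex.zero_re]

/-- the values at the primes that do not divide the conductor -/
theorem P16_ac (h2 : Module.finrank ℚ K = 2) {f : ℕ} (hf : 0 < f) {ξ ξ' : Ideal (𝓞 K) →*₀ ℂ}
    (hE : ∀ I, Cop f I → ξ' I = ξ I) {p : ℕ} (hp : p.Prime) (hpf : ¬ p ∣ f) : ac ξ' p = ac ξ p := by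
  unfold ac
  refine finsum_congr fun I => finsum_congr fun hI => hE I ?_
  rw [cop_iff h2 hf]
  refine ⟨?_, ?_⟩
  · rintro rfl
    rw [Ideal.absNorm_bot] at hI
    exact hp.ne_zero hI.symm
  · rw [hI]
    exact (Nat.Prime.coprime_iff_not_dvd hp).2 hpf

theorem P16_fin {f : ℕ} (hf : 0 < f) (B : ℕ → ℝ) :
    Summable fun p : Nat.Primes => if (p : ℕ) ∣ f then B (p : ℕ) else 0 := by
  have hfin : {p : Nat.Primes | (p : ℕ) ∣ f}.Finite := by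
    have h1 : (f.divisors : Set ℕ).Finite := Finset.finite_toSet _
    refine (h1.preimage (f := fun p : Nat.Primes => (p : ℕ)) Nat.Primes.coe_nat_injective.injOn).subset ?_
    intro p hp
    exact Nat.mem_divisors.2 ⟨hp, hf.ne'⟩
  refine summable_of_ne_finset_zero (s := hfin.toFinset) fun p hp => ?_
  rw [Set.Finite.mem_toFinset] at hp
  exact if_neg hp

/-- the primitive case -/
theorem P16_prim {N : ℕ} {a : ℕ → ℂ} {L : ℂ → ℂ} (D : NR.Dat N a L) {q : ℕ} (hq : 0 < q) :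
    ∃ C : ℝ, ∀ δ : ℝ, 0 < δ → δ ≤ 1 →
      Summable (fun p : Nat.Primes => (if (p : ℕ) ≡ 1 [MOD q] then
        (a (p : ℕ)).re * ((p : ℕ) : ℝ) ^ (-(1 + δ)) else 0)) ∧
      -C ≤ ∑' p : Nat.Primes, (if (p : ℕ) ≡ 1 [MOD q] then
        (a (p : ℕ)).re * ((p : ℕ) : ℝ) ^ (-(1 + δ)) else 0) := by
  have hq0 : NeZero q := ⟨hq.ne'⟩
  have hφ : (0 : ℝ) < (q.totient : ℝ) := by exact_mod_cast Nat.totient_pos.2 hq
  have hex : ∀ χ : DirichletCharacter ℂ q, ∃ C : ℝ, ∀ δ : ℝ, 0 < δ → δ ≤ 1 →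
      Summable (fun p : Nat.Primes => (a (p : ℕ) * conj (χ ((p : ℕ) : ZMod q))).re *
        ((p : ℕ) : ℝ) ^ (-(1 + δ))) ∧
      |∑' p : Nat.Primes, (a (p : ℕ) * conj (χ ((p : ℕ) : ZMod q))).re * ((p : ℕ) : ℝ) ^ (-(1 + δ))| ≤ C :=
    fun χ => twist_prime D χ
  choose C hC using hex
  refine ⟨(∑ χ, C χ) / q.totient, fun δ hδ hδ1 => ?_⟩
  have h1 : HasSum (fun p : Nat.Primes => ∑ χ : DirichletCharacter ℂ q,
      (a (p : ℕ) * conj (χ ((p : ℕ) : ZMod q))).re * ((p : ℕ) : ℝ) ^ (-(1 + δ)))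
      (∑ χ : DirichletCharacter ℂ q, ∑' p : Nat.Primes, (a (p : ℕ) * conj (χ ((p : ℕ) : ZMod q))).re *
        ((p : ℕ) : ℝ) ^ (-(1 + δ))) :=
    hasSum_sum fun χ _ => (hC χ δ hδ hδ1).1.hasSum
  have h2 : (fun p : Nat.Primes => ∑ χ : DirichletCharacter ℂ q,
      (a (p : ℕ) * conj (χ ((p : ℕ) : ZMod q))).re * ((p : ℕ) : ℝ) ^ (-(1 + δ))) =
      fun p : Nat.Primes => (q.totient : ℝ) * (if (p : ℕ) ≡ 1 [MOD q] then
        (a (p : ℕ)).re * ((p : ℕ) : ℝ) ^ (-(1 + δ)) else 0) := by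
    funext p
    rw [← Finset.sum_mul, P16_orth]
    split_ifs
    · ring
    · ring
  rw [h2] at h1
  have h3 := h1.mul_left (q.totient : ℝ)⁻¹
  have h4 : (fun p : Nat.Primes => (q.totient : ℝ)⁻¹ * ((q.totient : ℝ) *
      (if (p : ℕ) ≡ 1 [MOD q] then (a (p : ℕ)).re * ((p : ℕ) : ℝ) ^ (-(1 + δ)) else 0))) =
      fun p : Nat.Primes => (if (p : ℕ) ≡ 1 [MOD q] then
        (a (p : ℕ)).re * ((p : ℕ) : ℝ) ^ (-(1 + δ)) else 0) := by
    funext p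
    rw [← mul_assoc, inv_mul_cancel₀ hφ.ne', one_mul]
  rw [h4] at h3
  refine ⟨h3.summable, ?_⟩
  rw [h3.tsum_eq, neg_le, ← mul_neg, div_eq_inv_mul]
  refine mul_le_mul_of_nonneg_left ?_ (by positivity)
  rw [← Finset.sum_neg_distrib]
  refine Finset.sum_le_sum fun χ _ => ?_
  exact (neg_le_abs _).trans (hC χ δ hδ hδ1).2

/-- Row P16. Primes in the residue class 1. Proof. PP.exists_prim (B1): a primitive ξ' mod g, g ∣ f, equal to ξ on the ideals prime to f, so ξ' ^ 2 ≠ 1;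
PP.dat_all: D : NR.Dat; ac ξ' p = ac ξ p for p ∤ f (ideals of norm p are prime to f: HC.cop_iff; finitely many p | f
contribute O(1)). NR.twist_prime D χ for every χ : DirichletCharacter ℂ q bounds Σ Re(ac ξ' p conj χ(p)) p^(-1-δ); add
over χ: DirichletCharacter.sum_char_inv_mul_char_eq (orthogonality; for p ∣ q all χ(p) = 0) gives φ(q) times the sum over p ≡ 1 mod q. -/
theorem res_low (h2 : Module.finrank ℚ K = 2) {f : ℕ} {ξ : Ideal (𝓞 K) →*₀ ℂ} (h : RC f ξ)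
    (hξ : ∃ I, Cop f I ∧ ξ I ^ 2 ≠ 1) {q : ℕ} (hq : 0 < q) : ∃ C : ℝ, ∀ δ : ℝ, 0 < δ → δ ≤ 1 →
      -C ≤ ∑' p : Nat.Primes, (if (p : ℕ) ≡ 1 [MOD q] then (ac ξ (p : ℕ)).re * ((p : ℕ) : ℝ) ^ (-(1 + δ)) else 0) := by
  obtain ⟨g, hgf, ξ', hξ', hE⟩ := exists_prim h2 h
  have hne : ∃ I, Cop g I ∧ ξ' I ^ 2 ≠ 1 := by
    obtain ⟨I, hI, h1⟩ := hξ
    exact ⟨I, cop_mono hgf hI, by rw [hE I hI]; exact h1⟩
  obtain ⟨L, D, -⟩ := dat_all h2 hξ' hne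
  obtain ⟨C, hC⟩ := P16_prim D hq
  refine ⟨C + ∑' p : Nat.Primes, (if (p : ℕ) ∣ f then |(ac ξ (p : ℕ)).re - (ac ξ' (p : ℕ)).re| else 0),
    fun δ hδ hδ1 => ?_⟩
  have hB := P16_fin h.pos fun p : ℕ => |(ac ξ p).re - (ac ξ' p).re|
  obtain ⟨hs, hlow⟩ := hC δ hδ hδ1
  -- the difference
  have hG : ∀ p : Nat.Primes, |(if (p : ℕ) ≡ 1 [MOD q] then
      (ac ξ (p : ℕ)).re * ((p : ℕ) : ℝ) ^ (-(1 + δ)) else 0) -
      (if (p : ℕ) ≡ 1 [MOD q] then (ac ξ' (p : ℕ)).re * ((p : ℕ) : ℝ) ^ (-(1 + δ)) else 0)| ≤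
      if (p : ℕ) ∣ f then |(ac ξ (p : ℕ)).re - (ac ξ' (p : ℕ)).re| else 0 := by
    intro p
    have hp1 : (1 : ℝ) ≤ ((p : ℕ) : ℝ) := by exact_mod_cast p.2.one_lt.le
    have h3 : ((p : ℕ) : ℝ) ^ (-(1 + δ)) ≤ 1 :=
      Real.rpow_le_one_of_one_le_of_nonpos hp1 (by linarith)
    have h4 : 0 ≤ ((p : ℕ) : ℝ) ^ (-(1 + δ)) := Real.rpow_nonneg (by linarith) _
    by_cases h5 : (p : ℕ) ∣ f
    · rw [if_pos h5]
      split_ifs
      · rw [← sub_mul, abs_mul, abs_of_nonneg h4]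
        exact mul_le_of_le_one_right (abs_nonneg _) h3
      · rw [sub_zero, abs_zero]
        exact abs_nonneg _
    · rw [if_neg h5, P16_ac h2 h.pos hE p.2 h5, sub_self, abs_zero]
  have hGs := Summable.of_norm_bounded hB (fun p => by rw [Real.norm_eq_abs]; exact hG p)
  have hsum : Summable fun p : Nat.Primes => (if (p : ℕ) ≡ 1 [MOD q] then
      (ac ξ (p : ℕ)).re * ((p : ℕ) : ℝ) ^ (-(1 + δ)) else 0) :=
    (hGs.add hs).congr fun p => by ring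
  have h6 := hGs.tsum_add hs
  have h7 : ∑' p : Nat.Primes, (if (p : ℕ) ≡ 1 [MOD q] then
      (ac ξ (p : ℕ)).re * ((p : ℕ) : ℝ) ^ (-(1 + δ)) else 0) =
      ∑' p : Nat.Primes, (((if (p : ℕ) ≡ 1 [MOD q] then
      (ac ξ (p : ℕ)).re * ((p : ℕ) : ℝ) ^ (-(1 + δ)) else 0) -
      (if (p : ℕ) ≡ 1 [MOD q] then (ac ξ' (p : ℕ)).re * ((p : ℕ) : ℝ) ^ (-(1 + δ)) else 0)) +
      (if (p : ℕ) ≡ 1 [MOD q] then (ac ξ' (p : ℕ)).re * ((p : ℕ) : ℝ) ^ (-(1 + δ)) else 0)) :=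
    tsum_congr fun p => by ring
  rw [h7, h6]
  have h8 := tsum_of_norm_bounded hB.hasSum (fun p => by rw [Real.norm_eq_abs]; exact hG p)
  rw [Real.norm_eq_abs] at h8
  have h9 := (abs_le.1 h8).1
  linarith

end PP
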