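import Pool.Agent.Lib.MP_0f5a55_nt.PP.P16
import Pool.Agent.Lib.MP_0f5a55_nt.PP.P11
import Pool.Agent.Lib.MP_0f5a55_nt.PP.P12
import Pool.Agent.Lib.MP_0f5a55_nt.EY.R5b
import Pool.Agent.Lib.MP_0f5a55_nt.EY.R5d
import Pool.Agent.Lib.MP_0f5a55_nt.EY.R5e
import Pool.Agent.Lib.MP_0f5a55_nt.NR.E6

open Complex MeasureTheory Set Filter Topology
open scoped Real ComplexConjugate NumberField

namespace PP

open HC NR

variable {K : Type*} [Field K] [NumberField K]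

/-- Those of the characters ψ1², ψ2², ψ1 ψ2, ψ1/ψ2 whose square is 1 are 1 on the ideals of prime norm p ≡ 1 mod q. -/
def Gen (f1 f2 : ℕ) (ψ1 ψ2 : Ideal (𝓞 K) →*₀ ℂ) : Prop :=
  ∃ q : ℕ, 0 < q ∧ ∀ ξ : Ideal (𝓞 K) → ℂ,
    (ξ = fun I => ψ1 I ^ 2) ∨ (ξ = fun I => ψ2 I ^ 2) ∨ (ξ = fun I => ψ1 I * ψ2 I) ∨
      (ξ = fun I => ψ1 I * conj (ψ2 I)) →
    (∀ I, Cop f1 I → Cop f2 I → ξ I ^ 2 = 1) →
    ∀ I, Cop f1 I → Cop f2 I → (Ideal.absNorm I).Prime → Ideal.absNorm I ≡ 1 [MOD q] → ξ I = 1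

theorem P17_cop_mul {f1 f2 : ℕ} (I : Ideal (𝓞 K)) : Cop (f1 * f2) I ↔ Cop f1 I ∧ Cop f2 I := by
  unfold Cop
  rw [Nat.cast_mul, ← Ideal.span_singleton_mul_span_singleton, IsCoprime.mul_right_iff]
  tauto

theorem P17_cop_prod {f : ℕ} (I J : Ideal (𝓞 K)) : Cop f (I * J) ↔ Cop f I ∧ Cop f J := by
  unfold Cop
  rw [IsCoprime.mul_left_iff, ← Ideal.zero_eq_bot, mul_ne_zero_iff]
  tauto

/-- the character cut to the ideals prime to f2 -/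
theorem P17_cut {f1 f2 : ℕ} (hf2 : 0 < f2) {ψ : Ideal (𝓞 K) →*₀ ℂ} (h : RC f1 ψ) :
    ∃ φ : Ideal (𝓞 K) →*₀ ℂ, RC (f1 * f2) φ ∧ ∀ I, Cop f1 I → Cop f2 I → φ I = ψ I := by
  classical
  let φ : Ideal (𝓞 K) →*₀ ℂ :=
    { toFun := fun I => if Cop f2 I then ψ I else 0
      map_zero' := by
        show (if Cop f2 (0 : Ideal (𝓞 K)) then ψ 0 else 0) = 0
        rw [map_zero, ite_self]
      map_one' := by
        show (if Cop f2 (1 : Ideal (𝓞 K)) then ψ 1 else 0) = 1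
        rw [if_pos ⟨one_ne_zero, isCoprime_one_left⟩, map_one]
      map_mul' := fun I J => by
        show (if Cop f2 (I * J) then ψ (I * J) else 0) =
          (if Cop f2 I then ψ I else 0) * (if Cop f2 J then ψ J else 0)
        by_cases h1 : Cop f2 I
        · by_cases h2 : Cop f2 J
          · rw [if_pos h1, if_pos h2, if_pos ((P17_cop_prod I J).2 ⟨h1, h2⟩), map_mul]
          · rw [if_neg h2, if_neg (fun h3 => h2 ((P17_cop_prod I J).1 h3).2), mul_zero]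
        · rw [if_neg h1, if_neg (fun h3 => h1 ((P17_cop_prod I J).1 h3).1), zero_mul] }
  have e : ∀ I, φ I = if Cop f2 I then ψ I else 0 := fun _ => rfl
  refine ⟨φ, ⟨Nat.mul_pos h.pos hf2, ?_, ?_, ?_⟩, ?_⟩
  · intro I hI
    obtain ⟨h1, h2⟩ := (P17_cop_mul I).1 hI
    rw [e, if_pos h2, h.cop I h1]
  · intro I hI
    rw [e]
    by_cases h2 : Cop f2 I
    · rw [if_pos h2]
      exact h.ncop I fun h1 => hI ((P17_cop_mul I).2 ⟨h1, h2⟩)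
    · rw [if_neg h2]
  · intro α hα hI
    obtain ⟨h1, h2⟩ := (P17_cop_mul _).1 hI
    rw [e, if_pos h2]
    refine h.triv α ?_ h1
    obtain ⟨m, hm⟩ := hα
    refine ⟨m, dvd_trans ?_ hm⟩
    rw [Nat.cast_mul]
    exact dvd_mul_right _ _
  · intro I _ h2
    rw [e, if_pos h2]

/-- the coefficient at a prime which is a norm and does not divide the discriminant -/
theorem P17_split (h2 : Module.finrank ℚ K = 2) {p f : ℕ} (hp : p.Prime) (hc : p.Coprime f)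
    (hD : ¬ (p : ℤ) ∣ NumberField.discr K) {P : Ideal (𝓞 K)} (hP : Ideal.absNorm P = p)
    {ψ : Ideal (𝓞 K) →*₀ ℂ} (h : RC f ψ) : ac ψ p = ψ P + conj (ψ P) := by
  rcases ac_prime h2 hp hP with h1 | h1
  · exact h1 f ψ h hc
  · exfalso
    obtain ⟨-, ψ0, -, h0, -, e0⟩ := HC2.rc_prod h h
    have e1 : ∀ I, ψ0 I = ((‖ψ I‖ ^ 2 : ℝ) : ℂ) := by
      intro I
      rw [e0, Complex.mul_conj, Complex.normSq_eq_norm_sq]
    obtain ⟨k1, k2⟩ := h1 f ψ0 h0 hc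
    rw [e1] at k1 k2
    have k3 : (‖ψ P‖ ^ 2) ^ 2 = 1 := by exact_mod_cast k2
    have k4 : ‖ψ P‖ ^ 2 = 1 := by
      have k5 : 0 ≤ ‖ψ P‖ ^ 2 := by positivity
      nlinarith
    rw [k4, Complex.ofReal_one] at k1
    rcases HC2.loc3 (K := K) h2 p hp with ⟨P', Q', hPQ, hs⟩ | ⟨P', hPP, hN, -⟩ | hs
    · have hC : Cop f (Ideal.span {(p : 𝓞 K)}) := by
        refine (cop_iff h2 h.pos).2 ⟨?_, ?_⟩
        · intro h0
          have := H13_norm_nat (K := K) h2 p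
          rw [h0, Ideal.absNorm_bot] at this
          exact absurd this.symm (pow_ne_zero 2 hp.ne_zero)
        · rw [H13_norm_nat (K := K) h2 p]
          exact hc.pow_left 2
      have hO : Ord f (p : 𝓞 K) := ⟨p, by simp⟩
      have ht := h0.triv _ hO hC
      rw [hPQ, map_mul, e1, e1] at ht
      have hs1 := hs ψ0 1
      rw [pow_one, k1, Finset.sum_range_succ, Finset.sum_range_one] at hs1
      simp only [pow_zero, Nat.sub_zero, pow_one, one_mul, Nat.sub_self, mul_one] at hs1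
      rw [e1, e1] at hs1
      have a1 : ‖ψ P'‖ ^ 2 * ‖ψ Q'‖ ^ 2 = 1 := by exact_mod_cast ht
      have a2 : ‖ψ Q'‖ ^ 2 + ‖ψ P'‖ ^ 2 = 1 := by exact_mod_cast hs1.symm
      nlinarith [sq_nonneg (‖ψ P'‖ ^ 2 - ‖ψ Q'‖ ^ 2)]
    · exact hD (HC2.ram_dvd h2 hp hPP hN)
    · have hs1 := hs ψ0 1
      rw [pow_one, if_neg (by decide), k1] at hs1
      exact one_ne_zero hs1

theorem P17_key (x y : ℂ) (hx : ‖x‖ = 1) (hy : ‖y‖ = 1) :
    ‖(x + conj x) + (y + conj y)‖ ^ 2 = 4 + (x ^ 2 + conj (x ^ 2)).re + (y ^ 2 + conj (y ^ 2)).re +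
      2 * (x * y + conj (x * y)).re + 2 * (x * conj y + conj (x * conj y)).re := by
  have h1 : x + conj x + (y + conj y) = ((2 * x.re + 2 * y.re : ℝ) : ℂ) := by
    rw [Complex.add_conj, Complex.add_conj]
    push_cast
    ring
  have h2 : x.re * x.re + x.im * x.im = 1 := by
    have := Complex.sq_norm x
    rw [hx, Complex.normSq_apply] at this
    linarith
  have h3 : y.re * y.re + y.im * y.im = 1 := by
    have := Complex.sq_norm y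
    rw [hy, Complex.normSq_apply] at this
    linarith
  rw [h1, Complex.norm_real, Real.norm_eq_abs, sq_abs]
  simp only [pow_two, Complex.add_re, Complex.conj_re, Complex.mul_re, Complex.conj_im]
  linear_combination 2 * h2 + 2 * h3

theorem P17_low (h2 : Module.finrank ℚ K = 2) {f : ℕ} {ξ : Ideal (𝓞 K) →*₀ ℂ} (h : RC f ξ) {Q : ℕ}
    (hQ : 0 < Q) (hg : (∀ I, Cop f I → ξ I ^ 2 = 1) →
      ∀ p : ℕ, p.Prime → p ≡ 1 [MOD Q] → 0 ≤ (ac ξ p).re) :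
    ∃ C : ℝ, ∀ δ : ℝ, 0 < δ → δ ≤ 1 →
      -C ≤ ∑' p : Nat.Primes, (if (p : ℕ) ≡ 1 [MOD Q] then (ac ξ (p : ℕ)).re * ((p : ℕ) : ℝ) ^ (-(1 + δ)) else 0) := by
  by_cases hA : ∀ I, Cop f I → ξ I ^ 2 = 1
  · refine ⟨0, fun δ _ _ => ?_⟩
    rw [neg_zero]
    refine tsum_nonneg fun p => ?_
    split_ifs with hp
    · exact mul_nonneg (hg hA p p.2 hp) (by positivity)
    · exact le_rfl
  · have hA' : ∃ I, Cop f I ∧ ξ I ^ 2 ≠ 1 := by
      by_contra hcon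
      exact hA fun I hI => by
        by_contra h3
        exact hcon ⟨I, hI, h3⟩
    exact res_low h2 h hA' hQ

theorem P17_summ {Q : ℕ} {c : ℕ → ℝ} {B : ℝ} (hc : ∀ p : ℕ, p.Prime → p ≡ 1 [MOD Q] → |c p| ≤ B) {δ : ℝ}
    (hδ : 0 < δ) : Summable fun p : Nat.Primes => if (p : ℕ) ≡ 1 [MOD Q] then c (p : ℕ) * ((p : ℕ) : ℝ) ^ (-(1 + δ)) else 0 := by
  have h1 : Summable fun p : Nat.Primes => |B| * ((p : ℕ) : ℝ) ^ (-(1 + δ)) :=
    (Nat.Primes.summable_rpow.2 (by linarith)).mul_left _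
  refine Summable.of_norm_bounded h1 fun p => ?_
  have h0 : 0 ≤ ((p : ℕ) : ℝ) ^ (-(1 + δ)) := by positivity
  split_ifs with hp
  · rw [norm_mul, Real.norm_eq_abs, Real.norm_eq_abs, abs_of_nonneg h0]
    exact mul_le_mul_of_nonneg_right ((hc p p.2 hp).trans (le_abs_self _)) h0
  · rw [norm_zero]
    positivity

/-- a bound for the sums with exponent 1 + δ bounds the sum with exponent 1 -/
theorem P17_lim {Q : ℕ} {B : ℝ} (hB : ∀ δ : ℝ, 0 < δ → δ ≤ 1 →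
      ∑' p : Nat.Primes, (if (p : ℕ) ≡ 1 [MOD Q] then (1 : ℝ) * ((p : ℕ) : ℝ) ^ (-(1 + δ)) else 0) ≤ B) :
    Summable (fun n : ℕ => if n.Prime ∧ n ≡ 1 [MOD Q] then ((n : ℝ))⁻¹ else 0) := by
  classical
  refine summable_of_sum_le (c := B) (fun n => ?_) fun s => ?_
  · show (0 : ℝ) ≤ if n.Prime ∧ n ≡ 1 [MOD Q] then ((n : ℝ))⁻¹ else 0
    split_ifs
    · positivity
    · exact le_rfl
  · have h1 : ∀ δ : ℝ, 0 < δ → δ ≤ 1 →
        ∑ n ∈ s, (if n.Prime ∧ n ≡ 1 [MOD Q] then (n : ℝ) ^ (-(1 + δ)) else 0) ≤ B := by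
      intro δ h0 h1
      have h2 : ∑ n ∈ s, (if n.Prime ∧ n ≡ 1 [MOD Q] then (n : ℝ) ^ (-(1 + δ)) else 0) =
          ∑ p ∈ s.subtype Nat.Prime, (if (p : ℕ) ≡ 1 [MOD Q] then (1 : ℝ) * ((p : ℕ) : ℝ) ^ (-(1 + δ)) else 0) := by
        rw [Finset.sum_subtype_eq_sum_filter (f := fun n : ℕ =>
          (if n ≡ 1 [MOD Q] then (1 : ℝ) * (n : ℝ) ^ (-(1 + δ)) else 0)), Finset.sum_filter]
        refine Finset.sum_congr rfl fun n _ => ?_
        by_cases a1 : n.Prime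
        · by_cases a2 : n ≡ 1 [MOD Q]
          · rw [if_pos ⟨a1, a2⟩, if_pos a1, if_pos a2, one_mul]
          · rw [if_neg (fun h => a2 h.2), if_pos a1, if_neg a2]
        · rw [if_neg (fun h => a1 h.1), if_neg a1]
      rw [h2]
      refine le_trans ?_ (hB δ h0 h1)
      have h5 : Summable fun p : Nat.Primes =>
          if (p : ℕ) ≡ 1 [MOD Q] then (1 : ℝ) * ((p : ℕ) : ℝ) ^ (-(1 + δ)) else 0 :=
        P17_summ (c := fun _ => 1) (B := 1) (fun _ _ _ => by simp) h0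
      have h6 : ∀ p : Nat.Primes,
          0 ≤ (if (p : ℕ) ≡ 1 [MOD Q] then (1 : ℝ) * ((p : ℕ) : ℝ) ^ (-(1 + δ)) else 0) := by
        intro p
        split_ifs
        · positivity
        · exact le_rfl
      have h7 : ∀ s' : Finset Nat.Primes,
          ∑ p ∈ s', (if (p : ℕ) ≡ 1 [MOD Q] then (1 : ℝ) * ((p : ℕ) : ℝ) ^ (-(1 + δ)) else 0) ≤
          ∑' p : Nat.Primes, (if (p : ℕ) ≡ 1 [MOD Q] then (1 : ℝ) * ((p : ℕ) : ℝ) ^ (-(1 + δ)) else 0) :=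
        fun s' => sum_le_hasSum s' (fun p _ => h6 p) h5.hasSum
      exact h7 (s.subtype Nat.Prime)
    have h3 : Tendsto (fun δ : ℝ => ∑ n ∈ s, (if n.Prime ∧ n ≡ 1 [MOD Q] then (n : ℝ) ^ (-(1 + δ)) else 0))
        (𝓝[>] 0) (𝓝 (∑ n ∈ s, (if n.Prime ∧ n ≡ 1 [MOD Q] then ((n : ℝ))⁻¹ else 0))) := by
      refine tendsto_finsetSum _ fun n _ => ?_
      by_cases a : n.Prime ∧ n ≡ 1 [MOD Q]
      · simp only [if_pos a]
        have h4 : ContinuousAt (fun δ : ℝ => (n : ℝ) ^ (-(1 + δ))) 0 := by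
          refine ContinuousAt.rpow continuousAt_const (by fun_prop) (Or.inl ?_)
          exact_mod_cast a.1.ne_zero
        have h5 := h4.tendsto
        rw [add_zero, Real.rpow_neg_one] at h5
        exact h5.mono_left nhdsWithin_le_nhds
      · simp only [if_neg a]
        exact tendsto_const_nhds
    refine le_of_tendsto h3 ?_
    have h6 : Ioc (0 : ℝ) 1 ∈ 𝓝[>] (0 : ℝ) := Ioc_mem_nhdsGT one_pos
    filter_upwards [h6] with δ hδ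
    exact h1 δ hδ.1 hδ.2

/-- Row P17. Divergence. f = f1 f2. Products of RC characters, cut to the ideals prime to f, are RC f characters
ξ (build the four ψ1², ψ2², ψ1 ψ2, ψ1 conj ψ2 as MonoidWithZeroHom). Q = Q0 q f |D| (Q0 from P11). For p ≡ 1 mod Q, P of norm p, not
ramified (ramified primes divide D: EY files of helper47): with x = ψ1 P, y = ψ2 P, |x| = |y| = 1,
|a1 p + a2 p|² = (x + x̄ + y + ȳ)² = 4 + ac ψ1² p + ac ψ2² p + 2 ac (ψ1ψ2) p + 2 ac (ψ1/ψ2) p. A ξ with ξ² = 1 on the ideals prime to f has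
ac ξ p = 2 ≥ 0 (Gen); for the others P16 (modulus Q). So Σ_{p ≡ 1 (Q)} |a1 p + a2 p|² p^(-1-δ) ≥ 4 Σ_{p ≡ 1 (Q)} p^(-1-δ) - C, which is
unbounded as δ → 0 (NR.div_res with r = 1), so Σ |a1 p + a2 p|²/p diverges. -/
theorem div_gen (h2 : Module.finrank ℚ K = 2) {f1 f2 : ℕ} {ψ1 ψ2 : Ideal (𝓞 K) →*₀ ℂ} (h1 : RC f1 ψ1)
    (h1' : RC f2 ψ2) (hg : Gen f1 f2 ψ1 ψ2) : Div (ac ψ1) (ac ψ2) := by
  obtain ⟨q, hq, hgen⟩ := hg
  obtain ⟨Q0, hQ0, hsp⟩ := exists_split (K := K) h2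
  have hD0 : 0 < (NumberField.discr K).natAbs := Int.natAbs_pos.2 (NumberField.discr_ne_zero K)
  have hf1 := h1.pos
  have hf2 := h1'.pos
  set Q : ℕ := Q0 * q * (f1 * f2) * (NumberField.discr K).natAbs with hQdef
  have hQ : 0 < Q := by positivity
  have dQ0 : Q0 ∣ Q := ⟨q * (f1 * f2) * (NumberField.discr K).natAbs, by rw [hQdef]; ring⟩
  have dq : q ∣ Q := ⟨Q0 * (f1 * f2) * (NumberField.discr K).natAbs, by rw [hQdef]; ring⟩
  have df : f1 * f2 ∣ Q := ⟨Q0 * q * (NumberField.discr K).natAbs, by rw [hQdef]; ring⟩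
  have dD : (NumberField.discr K).natAbs ∣ Q := ⟨Q0 * q * (f1 * f2), by rw [hQdef]; ring⟩
  -- the primes
  have hpr : ∀ p : ℕ, p.Prime → p ≡ 1 [MOD Q] → ∃ P : Ideal (𝓞 K), Cop f1 P ∧ Cop f2 P ∧ Cop (f1 * f2) P ∧
      (Ideal.absNorm P).Prime ∧ Ideal.absNorm P ≡ 1 [MOD q] ∧ (∀ (g : ℕ) (ψ : Ideal (𝓞 K) →*₀ ℂ), RC g ψ → g ∣ f1 * f2 →
        ac ψ p = ψ P + conj (ψ P)) := by
    intro p hp hm
    obtain ⟨P, hP⟩ := hsp p hp (hm.of_dvd dQ0)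
    have hcop : p.Coprime Q := by
      unfold Nat.Coprime
      rw [hm.gcd_eq, Nat.gcd_one_left]
    have hcf : p.Coprime (f1 * f2) := Nat.Coprime.coprime_dvd_right df hcop
    have hP0 : P ≠ ⊥ := by
      rintro rfl
      rw [Ideal.absNorm_bot] at hP
      exact hp.ne_zero hP.symm
    have hC : Cop (f1 * f2) P := (cop_iff h2 (Nat.mul_pos hf1 hf2)).2 ⟨hP0, by rw [hP]; exact hcf⟩
    have hC' := (P17_cop_mul P).1 hC
    have hnD : ¬ (p : ℤ) ∣ NumberField.discr K := by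
      intro hd
      have h3 : p ∣ Q := (Int.natCast_dvd.1 hd).trans dD
      have h4 : p ∣ Nat.gcd p Q := Nat.dvd_gcd dvd_rfl h3
      rw [hcop.gcd_eq_one] at h4
      exact hp.one_lt.ne' (Nat.dvd_one.1 h4)
    refine ⟨P, hC'.1, hC'.2, hC, by rw [hP]; exact hp, by rw [hP]; exact hm.of_dvd dq, fun g ψ hψ hg => ?_⟩
    exact P17_split h2 hp (Nat.Coprime.coprime_dvd_right hg hcf) hnD hP hψ
  -- the characters
  obtain ⟨φ1, r1, e1⟩ := P17_cut hf2 h1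
  obtain ⟨φ2, r2', e2'⟩ := P17_cut hf1 h1'
  have r2 : RC (f1 * f2) φ2 := by rw [mul_comm f1 f2]; exact r2'
  have e2 : ∀ I, Cop f1 I → Cop f2 I → φ2 I = ψ2 I := fun I a b => e2' I b a
  obtain ⟨σ1, -, s1, -, E1, -⟩ := HC2.rc_prod r1 r1
  obtain ⟨σ2, -, s2, -, E2, -⟩ := HC2.rc_prod r2 r2
  obtain ⟨η1, η2, t1, t2, E3, E4⟩ := HC2.rc_prod r1 r2
  have V1 : ∀ I, Cop f1 I → Cop f2 I → σ1 I = ψ1 I ^ 2 := fun I a b => by
    rw [E1, e1 I a b, sq]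
  have V2 : ∀ I, Cop f1 I → Cop f2 I → σ2 I = ψ2 I ^ 2 := fun I a b => by
    rw [E2, e2 I a b, sq]
  have V3 : ∀ I, Cop f1 I → Cop f2 I → η1 I = ψ1 I * ψ2 I := fun I a b => by
    rw [E3, e1 I a b, e2 I a b]
  have V4 : ∀ I, Cop f1 I → Cop f2 I → η2 I = ψ1 I * conj (ψ2 I) := fun I a b => by
    rw [E4, e1 I a b, e2 I a b]
  have hlow : ∀ (ξ : Ideal (𝓞 K) →*₀ ℂ) (ζ : Ideal (𝓞 K) → ℂ), RC (f1 * f2) ξ →
      (∀ I, Cop f1 I → Cop f2 I → ξ I = ζ I) →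
      ((ζ = fun I => ψ1 I ^ 2) ∨ (ζ = fun I => ψ2 I ^ 2) ∨ (ζ = fun I => ψ1 I * ψ2 I) ∨
        (ζ = fun I => ψ1 I * conj (ψ2 I))) →
      ∃ C : ℝ, ∀ δ : ℝ, 0 < δ → δ ≤ 1 →
        -C ≤ ∑' p : Nat.Primes, (if (p : ℕ) ≡ 1 [MOD Q] then (ac ξ (p : ℕ)).re * ((p : ℕ) : ℝ) ^ (-(1 + δ)) else 0) := by
    intro ξ ζ hξ hv hζ
    refine P17_low h2 hξ hQ fun hA p hp hm => ?_
    obtain ⟨P, c1, c2, -, hPp, hN, hac⟩ := hpr p hp hm
    have h3 := hgen ζ hζ (fun I a b => by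
      rw [← hv I a b]
      exact hA I ((P17_cop_mul I).2 ⟨a, b⟩)) P c1 c2 hPp hN
    rw [hac _ ξ hξ dvd_rfl, hv P c1 c2, h3, map_one]
    norm_num
  obtain ⟨C1, L1⟩ := hlow σ1 _ s1 V1 (Or.inl rfl)
  obtain ⟨C2, L2⟩ := hlow σ2 _ s2 V2 (Or.inr (Or.inl rfl))
  obtain ⟨C3, L3⟩ := hlow η1 _ t1 V3 (Or.inr (Or.inr (Or.inl rfl)))
  obtain ⟨C4, L4⟩ := hlow η2 _ t2 V4 (Or.inr (Or.inr (Or.inr rfl)))
  have hbd : ∀ {ξ : Ideal (𝓞 K) →*₀ ℂ}, RC (f1 * f2) ξ → ∀ p : ℕ, p.Prime → p ≡ 1 [MOD Q] →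
      |(ac ξ p).re| ≤ 2 := by
    intro ξ hξ p hp hm
    obtain ⟨P, -, -, c, -, -, hac⟩ := hpr p hp hm
    rw [hac _ ξ hξ dvd_rfl]
    refine (Complex.abs_re_le_norm _).trans ((norm_add_le _ _).trans ?_)
    rw [Complex.norm_conj, hξ.cop P c]
    norm_num
  intro hS
  have hS' : Summable (fun p : Nat.Primes => ‖ac ψ1 (p : ℕ) + ac ψ2 (p : ℕ)‖ ^ 2 * (((p : ℕ) : ℝ))⁻¹) := by
    have h3 := hS.comp_injective (i := fun p : Nat.Primes => (p : ℕ)) Subtype.val_injective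
    refine h3.congr fun p => ?_
    show (if (p : ℕ).Prime then ‖ac ψ1 (p : ℕ) + ac ψ2 (p : ℕ)‖ ^ 2 * (((p : ℕ) : ℝ))⁻¹ else 0) = _
    rw [if_pos p.2]
  set S : ℝ := ∑' p : Nat.Primes, ‖ac ψ1 (p : ℕ) + ac ψ2 (p : ℕ)‖ ^ 2 * (((p : ℕ) : ℝ))⁻¹ with hSdef
  refine div_res (r := 1) hQ (Nat.coprime_one_left Q) (P17_lim (B := (S + C1 + C2 + 2 * C3 + 2 * C4) / 4) ?_)
  intro δ h0 hδ
  have b0 := P17_summ (Q := Q) (c := fun _ => 1) (B := 1) (fun _ _ _ => by simp) h0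
  have b1 := P17_summ (c := fun p => (ac σ1 p).re) (hbd s1) h0
  have b2 := P17_summ (c := fun p => (ac σ2 p).re) (hbd s2) h0
  have b3 := P17_summ (c := fun p => (ac η1 p).re) (hbd t1) h0
  have b4 := P17_summ (c := fun p => (ac η2 p).re) (hbd t2) h0
  have hsum := ((((b0.hasSum.mul_left 4).add b1.hasSum).add b2.hasSum).add (b3.hasSum.mul_left 2)).add
    (b4.hasSum.mul_left 2)
  have hle := hasSum_le (fun p : Nat.Primes => ?_) hsum hS'.hasSum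
  · have l1 := L1 δ h0 hδ
    have l2 := L2 δ h0 hδ
    have l3 := L3 δ h0 hδ
    have l4 := L4 δ h0 hδ
    rw [le_div_iff₀ (by norm_num)]
    linarith
  · have hp0 : (0 : ℝ) < ((p : ℕ) : ℝ) := by exact_mod_cast p.2.pos
    by_cases hm : (p : ℕ) ≡ 1 [MOD Q]
    · simp only [if_pos hm]
      obtain ⟨P, c1, c2, c, -, -, hac⟩ := hpr p p.2 hm
      rw [hac _ σ1 s1 dvd_rfl, hac _ σ2 s2 dvd_rfl, hac _ η1 t1 dvd_rfl, hac _ η2 t2 dvd_rfl,
        hac _ ψ1 h1 (dvd_mul_right _ _), hac _ ψ2 h1' (dvd_mul_left _ _), V1 P c1 c2, V2 P c1 c2,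
        V3 P c1 c2, V4 P c1 c2, P17_key (ψ1 P) (ψ2 P) (h1.cop P c1) (h1'.cop P c2)]
      have k0 : 0 ≤ 4 + (ψ1 P ^ 2 + conj (ψ1 P ^ 2)).re + (ψ2 P ^ 2 + conj (ψ2 P ^ 2)).re +
          2 * (ψ1 P * ψ2 P + conj (ψ1 P * ψ2 P)).re +
          2 * (ψ1 P * conj (ψ2 P) + conj (ψ1 P * conj (ψ2 P))).re := by
        rw [← P17_key (ψ1 P) (ψ2 P) (h1.cop P c1) (h1'.cop P c2)]
        positivity
      have k1 : ((p : ℕ) : ℝ) ^ (-(1 + δ)) ≤ (((p : ℕ) : ℝ))⁻¹ := by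
        rw [← Real.rpow_neg_one]
        apply Real.rpow_le_rpow_of_exponent_le
        · exact_mod_cast p.2.one_lt.le
        · linarith
      have k2 := mul_le_mul_of_nonneg_left k1 k0
      linarith
    · simp only [if_neg hm]
      have : 0 ≤ ‖ac ψ1 (p : ℕ) + ac ψ2 (p : ℕ)‖ ^ 2 * (((p : ℕ) : ℝ))⁻¹ := by positivity
      linarith

end PP
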