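import Pool.Agent.Lib.MP_0f5a55_nt.PP.P14
import Pool.Agent.Lib.MP_0f5a55_nt.PP.P17
import Pool.Agent.Lib.MP_0f5a55_nt.PP.G5

open Complex MeasureTheory Set Filter Topology
open scoped Real ComplexConjugate NumberField

namespace PP

open HC NR

variable {K : Type*} [Field K] [NumberField K]

theorem P18_cop_mul {f1 f2 : ℕ} (I : Ideal (𝓞 K)) : Cop (f1 * f2) I ↔ Cop f1 I ∧ Cop f2 I := by
  unfold Cop
  rw [Nat.cast_mul, ← Ideal.span_singleton_mul_span_singleton, IsCoprime.mul_right_iff]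
  tauto

theorem P18_cop_prod {f : ℕ} (I J : Ideal (𝓞 K)) : Cop f (I * J) ↔ Cop f I ∧ Cop f J := by
  unfold Cop
  rw [IsCoprime.mul_left_iff, ← Ideal.zero_eq_bot, mul_ne_zero_iff]
  tauto

/-- the character cut to the ideals prime to f2 -/
theorem P18_cut {f1 f2 : ℕ} (hf2 : 0 < f2) {ψ : Ideal (𝓞 K) →*₀ ℂ} (h : RC f1 ψ) :
    ∃ φ : Ideal (𝓞 K) →*₀ ℂ, RC (f1 * f2) φ ∧ ∀ I, Cop f1 I → Cop f2 I → φ I = ψ I := by
  classical
  let φ : Ideal (𝓞 K) →*₀ ℂ :=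
    { toFun := fun I => if Cop f2 I then ψ I else 0
      map_zero' := by
        show (if Cop f2 (0 : Ideal (𝓞 K)) then ψ 0 else 0) = 0
        rw [map_zero, ite_self]
      map_one' := by
        show (if Cop f2 (1 : Ideal (𝓞 K)) then ψ 1 else 0) = 1
        rw [if_pos ⟨one_ne_zero, isCoprime_one_left⟩, map_one]
      map_mul' := fun I J => by
        show (if Cop f2 (I * J) then ψ (I * J) else 0) =
          (if Cop f2 I then ψ I else 0) * (if Cop f2 J then ψ J else 0)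
        by_cases h1 : Cop f2 I
        · by_cases h2 : Cop f2 J
          · rw [if_pos h1, if_pos h2, if_pos ((P18_cop_prod I J).2 ⟨h1, h2⟩), map_mul]
          · rw [if_neg h2, if_neg (fun h3 => h2 ((P18_cop_prod I J).1 h3).2), mul_zero]
        · rw [if_neg h1, if_neg (fun h3 => h1 ((P18_cop_prod I J).1 h3).1), zero_mul] }
  have e : ∀ I, φ I = if Cop f2 I then ψ I else 0 := fun _ => rfl
  refine ⟨φ, ⟨Nat.mul_pos h.pos hf2, ?_, ?_, ?_⟩, ?_⟩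
  · intro I hI
    obtain ⟨h1, h2⟩ := (P18_cop_mul I).1 hI
    rw [e, if_pos h2, h.cop I h1]
  · intro I hI
    rw [e]
    by_cases h2 : Cop f2 I
    · rw [if_pos h2]
      exact h.ncop I fun h1 => hI ((P18_cop_mul I).2 ⟨h1, h2⟩)
    · rw [if_neg h2]
  · intro α hα hI
    obtain ⟨h1, h2⟩ := (P18_cop_mul _).1 hI
    rw [e, if_pos h2]
    refine h.triv α ?_ h1
    obtain ⟨m, hm⟩ := hα
    refine ⟨m, dvd_trans ?_ hm⟩
    rw [Nat.cast_mul]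
    exact dvd_mul_right _ _
  · intro I _ h2
    rw [e, if_pos h2]

/-- genus, with q = 1 if the square of the character is not 1 -/
theorem P18_genus (h2 : Module.finrank ℚ K = 2) {f : ℕ} {ξ : Ideal (𝓞 K) →*₀ ℂ} (h : RC f ξ) :
    ∃ q : ℕ, 0 < q ∧ ((∀ I, Cop f I → ξ I ^ 2 = 1) → ∀ P : Ideal (𝓞 K), (Ideal.absNorm P).Prime →
      Ideal.absNorm P ≡ 1 [MOD q] → ξ P = 1) := by
  by_cases hq : ∀ I, Cop f I → ξ I ^ 2 = 1
  · obtain ⟨q, hq0, hq1⟩ := genus h2 h hq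
    exact ⟨q, hq0, fun _ => hq1⟩
  · exact ⟨1, one_pos, fun h' => absurd h' hq⟩

/-- one of the four characters -/
theorem P18_one {f1 f2 q : ℕ} {σ : Ideal (𝓞 K) →*₀ ℂ} {ξ : Ideal (𝓞 K) → ℂ}
    (hσ : (∀ I, Cop (f1 * f2) I → σ I ^ 2 = 1) → ∀ P : Ideal (𝓞 K), (Ideal.absNorm P).Prime →
      Ideal.absNorm P ≡ 1 [MOD q] → σ P = 1)
    (hv : ∀ I, Cop f1 I → Cop f2 I → σ I = ξ I) (hsq : ∀ I, Cop f1 I → Cop f2 I → ξ I ^ 2 = 1)
    {I : Ideal (𝓞 K)} (h1 : Cop f1 I) (h2 : Cop f2 I) (hp : (Ideal.absNorm I).Prime)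
    (hm : Ideal.absNorm I ≡ 1 [MOD q]) : ξ I = 1 := by
  rw [← hv I h1 h2]
  refine hσ (fun J hJ => ?_) I hp hm
  obtain ⟨a, b⟩ := (P18_cop_mul J).1 hJ
  rw [hv J a b]
  exact hsq J a b

/-- Row P18. Gen always holds. genus for the characters ψ1², ψ2², ψ1 ψ2, ψ1 conj ψ2 cut to the ideals prime to f1 f2 (multiply with
(ψ1 conj ψ1)(ψ2 conj ψ2); MonoidWithZeroHom, RC (f1 f2)); q = product of the four moduli (for a ξ whose square is not 1 take the factor 1). -/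
theorem gen_all (h2 : Module.finrank ℚ K = 2) {f1 f2 : ℕ} {ψ1 ψ2 : Ideal (𝓞 K) →*₀ ℂ} (h1 : RC f1 ψ1)
    (h1' : RC f2 ψ2) : Gen f1 f2 ψ1 ψ2 := by
  obtain ⟨φ1, r1, e1⟩ := P18_cut h1'.pos h1
  obtain ⟨φ2, r2', e2'⟩ := P18_cut h1.pos h1'
  have r2 : RC (f1 * f2) φ2 := by rw [mul_comm f1 f2]; exact r2'
  have e2 : ∀ I, Cop f1 I → Cop f2 I → φ2 I = ψ2 I := fun I a b => e2' I b a
  obtain ⟨σ1, -, s1, -, E1, -⟩ := HC2.rc_prod r1 r1
  obtain ⟨σ2, -, s2, -, E2, -⟩ := HC2.rc_prod r2 r2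
  obtain ⟨η1, η2, t1, t2, E3, E4⟩ := HC2.rc_prod r1 r2
  obtain ⟨q1, q1p, g1⟩ := P18_genus h2 s1
  obtain ⟨q2, q2p, g2⟩ := P18_genus h2 s2
  obtain ⟨q3, q3p, g3⟩ := P18_genus h2 t1
  obtain ⟨q4, q4p, g4⟩ := P18_genus h2 t2
  refine ⟨q1 * q2 * (q3 * q4), by positivity, ?_⟩
  intro ξ hξ hsq I c1 c2 hp hm
  have d1 : q1 ∣ q1 * q2 * (q3 * q4) := (dvd_mul_right q1 q2).mul_right _
  have d2 : q2 ∣ q1 * q2 * (q3 * q4) := (dvd_mul_left q2 q1).mul_right _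
  have d3 : q3 ∣ q1 * q2 * (q3 * q4) := (dvd_mul_right q3 q4).mul_left _
  have d4 : q4 ∣ q1 * q2 * (q3 * q4) := (dvd_mul_left q4 q3).mul_left _
  rcases hξ with rfl | rfl | rfl | rfl
  · exact P18_one g1 (fun J a b => by rw [E1, e1 J a b, sq]) hsq c1 c2 hp (hm.of_dvd d1)
  · exact P18_one g2 (fun J a b => by rw [E2, e2 J a b, sq]) hsq c1 c2 hp (hm.of_dvd d2)
  · exact P18_one g3 (fun J a b => by rw [E3, e1 J a b, e2 J a b]) hsq c1 c2 hp (hm.of_dvd d3)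
  · exact P18_one g4 (fun J a b => by rw [E4, e1 J a b, e2 J a b]) hsq c1 c2 hp (hm.of_dvd d4)

/-- the pair theorem for all pairs -/
theorem pair_all (h2 : Module.finrank ℚ K = 2) {f1 f2 : ℕ} {ψ1 ψ2 : Ideal (𝓞 K) →*₀ ℂ} (h1 : RingClass f1 ψ1)
    (h1' : RingClass f2 ψ2) (hne : ψ1 ≠ ψ2) (hne' : ∃ I, ψ1 I ≠ conj (ψ2 I))
    {L1 L2 : ℂ → ℂ} (D1 : NR.Dat (lev K f1) (ac ψ1) L1) (D2 : NR.Dat (lev K f2) (ac ψ2) L2) :
    {g : ℝ | 0 < g ∧ Odd (analyticOrderNatAt L1 (1 / 2 + g * I) +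
      analyticOrderNatAt L2 (1 / 2 + g * I))}.Infinite := by
  obtain ⟨r, s, hr, hs, hcop, hrs, h⟩ := diag h2 h1 h1' hne hne'
  exact odd_ff D1 D2 (div_gen h2 (RC.of h1) (RC.of h1') (gen_all h2 (RC.of h1) (RC.of h1'))) hr hs hcop hrs h

end PP
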