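import Pool.Agent.Lib.MP_0f5a55_nt.PP.P11
import Pool.Agent.Lib.MP_0f5a55_nt.EY.R5d
import Pool.Agent.Lib.MP_0f5a55_nt.NR.A12
import Pool.Agent.Lib.MP_0f5a55_nt.NR.A13

set_option autoImplicit false

open Complex Filter Topology
open scoped Real ComplexConjugate NumberField

namespace PP

open HC NR

variable {K : Type*} [Field K] [NumberField K]

omit [NumberField K] in
/-- a root of `x² = d x + c` modulo `p` gives a homomorphism to `ZMod p` -/
theorem E2_hom {b : Module.Basis (Fin 2) ℤ (𝓞 K)} {c d : ℤ} (hb : b 0 = 1)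
    (hw : b 1 * b 1 = (c : 𝓞 K) + (d : 𝓞 K) * b 1) {p : ℕ} {t : ZMod p} (ht : t * t = (c : ZMod p) + (d : ZMod p) * t) :
    ∃ φ : 𝓞 K →+* ZMod p, Function.Surjective φ := by
  have hz : ∀ z : 𝓞 K, z = (b.repr z 0 : 𝓞 K) + (b.repr z 1 : 𝓞 K) * b 1 := by
    intro z
    have h := b.sum_repr z
    rw [Fin.sum_univ_two, zsmul_eq_mul, zsmul_eq_mul, hb, mul_one] at h
    exact h.symm
  have hr : ∀ x y : ℤ, b.repr ((x : 𝓞 K) + (y : 𝓞 K) * b 1) 0 = x ∧ b.repr ((x : 𝓞 K) + (y : 𝓞 K) * b 1) 1 = y := by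
    intro x y
    have e : (x : 𝓞 K) + (y : 𝓞 K) * b 1 = x • b 0 + y • b 1 := by
      rw [zsmul_eq_mul, zsmul_eq_mul, hb, mul_one]
    rw [e, map_add, map_zsmul, map_zsmul, Module.Basis.repr_self, Module.Basis.repr_self]
    constructor <;> simp
  have hmul : ∀ z z' : 𝓞 K, b.repr (z * z') 0 = b.repr z 0 * b.repr z' 0 + b.repr z 1 * b.repr z' 1 * c ∧
      b.repr (z * z') 1 = b.repr z 0 * b.repr z' 1 + b.repr z 1 * b.repr z' 0 + b.repr z 1 * b.repr z' 1 * d := by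
    intro z z'
    have e : z * z' = ((b.repr z 0 * b.repr z' 0 + b.repr z 1 * b.repr z' 1 * c : ℤ) : 𝓞 K) +
        ((b.repr z 0 * b.repr z' 1 + b.repr z 1 * b.repr z' 0 + b.repr z 1 * b.repr z' 1 * d : ℤ) : 𝓞 K) * b 1 := by
      conv_lhs => rw [hz z, hz z']
      push_cast
      linear_combination ((b.repr z 1 : ℤ) : 𝓞 K) * ((b.repr z' 1 : ℤ) : 𝓞 K) * hw
    have h := hr (b.repr z 0 * b.repr z' 0 + b.repr z 1 * b.repr z' 1 * c)
      (b.repr z 0 * b.repr z' 1 + b.repr z 1 * b.repr z' 0 + b.repr z 1 * b.repr z' 1 * d)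
    rw [← e] at h
    exact h
  have h1 : b.repr 1 0 = 1 ∧ b.repr 1 1 = 0 := by
    rw [← hb, Module.Basis.repr_self]
    constructor <;> simp
  refine ⟨{ toFun := fun z => (b.repr z 0 : ZMod p) + (b.repr z 1 : ZMod p) * t
            map_one' := ?_
            map_mul' := ?_
            map_zero' := ?_
            map_add' := ?_ }, ?_⟩
  · show ((b.repr 1 0 : ℤ) : ZMod p) + ((b.repr 1 1 : ℤ) : ZMod p) * t = 1
    rw [h1.1, h1.2]
    simp
  · intro z z'
    show ((b.repr (z * z') 0 : ℤ) : ZMod p) + ((b.repr (z * z') 1 : ℤ) : ZMod p) * t = _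
    rw [(hmul z z').1, (hmul z z').2]
    push_cast
    linear_combination (-((b.repr z 1 : ℤ) : ZMod p) * ((b.repr z' 1 : ℤ) : ZMod p)) * ht
  · show ((b.repr 0 0 : ℤ) : ZMod p) + ((b.repr 0 1 : ℤ) : ZMod p) * t = 0
    simp
  · intro z z'
    show ((b.repr (z + z') 0 : ℤ) : ZMod p) + ((b.repr (z + z') 1 : ℤ) : ZMod p) * t = _
    rw [map_add, Finsupp.add_apply, Finsupp.add_apply]
    push_cast
    ring
  · intro x
    obtain ⟨n, rfl⟩ := ZMod.intCast_surjective x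
    refine ⟨(n : 𝓞 K), ?_⟩
    rw [map_intCast]

/-- the symbol is periodic modulo `4 |D|` -/
theorem E2_mod (D : ℤ) {n : ℕ} (hn : n % 2 = 1) : jacobiSym D (n % (4 * D.natAbs)) = jacobiSym D n :=
  (jacobiSym.mod_right D (Nat.odd_iff.2 hn)).symm

theorem E2_odd {M n : ℕ} (h2 : 2 ∣ M) (h : Nat.Coprime n M) : n % 2 = 1 := by
  rcases Nat.mod_two_eq_zero_or_one n with h0 | h0
  · exfalso
    have h3 : 2 ∣ Nat.gcd n M := Nat.dvd_gcd (Nat.dvd_of_mod_eq_zero h0) h2
    rw [h] at h3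
    exact absurd h3 (by norm_num)
  · exact h0

open Classical in
/-- the quadratic character `n ↦ (D | n)` modulo `4 |D|` -/
noncomputable def E2_chi (D : ℤ) (hD : D ≠ 0) : DirichletCharacter ℂ (4 * D.natAbs) where
  toFun x := if IsUnit x then ((jacobiSym D x.val : ℤ) : ℂ) else 0
  map_one' := by
    rw [if_pos isUnit_one]
    have : Fact (1 < 4 * D.natAbs) := ⟨by have := Int.natAbs_pos.2 hD; omega⟩
    rw [ZMod.val_one, jacobiSym.one_right, Int.cast_one]
  map_mul' x y := by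
    by_cases hx : IsUnit x
    · by_cases hy : IsUnit y
      · rw [if_pos (hx.mul hy), if_pos hx, if_pos hy, ← Int.cast_mul, ← jacobiSym.mul_right' _
          (by
            intro h0
            obtain ⟨u, rfl⟩ := hx
            have h1 := ZMod.val_coe_unit_coprime u
            have h2 := E2_odd (Dvd.intro (2 * D.natAbs) (by ring)) h1
            omega)
          (by
            intro h0
            obtain ⟨u, rfl⟩ := hy
            have h1 := ZMod.val_coe_unit_coprime u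
            have h2 := E2_odd (Dvd.intro (2 * D.natAbs) (by ring)) h1
            omega), ZMod.val_mul, E2_mod]
        obtain ⟨u, rfl⟩ := hx
        obtain ⟨v, rfl⟩ := hy
        have h1 := E2_odd (Dvd.intro (2 * D.natAbs) (by ring)) (ZMod.val_coe_unit_coprime u)
        have h2 := E2_odd (Dvd.intro (2 * D.natAbs) (by ring)) (ZMod.val_coe_unit_coprime v)
        rw [Nat.mul_mod, h1, h2]
      · have h : ¬ IsUnit (x * y) := fun h => hy (isUnit_of_mul_isUnit_right h)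
        rw [if_neg h, if_neg hy, mul_zero]
    · have h : ¬ IsUnit (x * y) := fun h => hx (isUnit_of_mul_isUnit_left h)
      rw [if_neg h, if_neg hx, zero_mul]
  map_nonunit' x hx := if_neg hx

theorem E2_chi_nat {D : ℤ} (hD : D ≠ 0) {n : ℕ} (h : Nat.Coprime n (4 * D.natAbs)) :
    E2_chi D hD (n : ZMod (4 * D.natAbs)) = ((jacobiSym D n : ℤ) : ℂ) := by
  classical
  have hu : IsUnit ((n : ℕ) : ZMod (4 * D.natAbs)) := (ZMod.isUnit_iff_coprime n _).2 h
  have h1 : E2_chi D hD (n : ZMod (4 * D.natAbs)) = if IsUnit ((n : ℕ) : ZMod (4 * D.natAbs)) then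
    ((jacobiSym D ((n : ℕ) : ZMod (4 * D.natAbs)).val : ℤ) : ℂ) else 0 := rfl
  rw [h1, if_pos hu, ZMod.val_natCast, E2_mod D (E2_odd (Dvd.intro (2 * D.natAbs) (by ring)) h)]

theorem E2_chi_sq {D : ℤ} (hD : D ≠ 0) : E2_chi D hD ^ 2 = 1 := by
  classical
  refine MulChar.ext fun u => ?_
  have h1 : (E2_chi D hD) (u : ZMod (4 * D.natAbs)) = ((jacobiSym D (u : ZMod (4 * D.natAbs)).val : ℤ) : ℂ) := by
    have h2 : (E2_chi D hD) (u : ZMod (4 * D.natAbs)) = if IsUnit (u : ZMod (4 * D.natAbs)) then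
      ((jacobiSym D (u : ZMod (4 * D.natAbs)).val : ℤ) : ℂ) else 0 := rfl
    rw [h2, if_pos u.isUnit]
  rw [MulChar.pow_apply_coe, h1, MulChar.one_apply_coe, ← Int.cast_pow, jacobiSym.sq_one, Int.cast_one]
  have h3 := ZMod.val_coe_unit_coprime u
  have h4 : Nat.Coprime (u : ZMod (4 * D.natAbs)).val D.natAbs := h3.coprime_dvd_right (Dvd.intro_left _ rfl)
  rw [Int.gcd_def, Int.natAbs_natCast]
  exact h4.symm

/-- the discriminant is not a square -/
theorem E2_nsq {b : Module.Basis (Fin 2) ℤ (𝓞 K)} {c d : ℤ} (hb : b 0 = 1)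
    (hw : b 1 * b 1 = (c : 𝓞 K) + (d : 𝓞 K) * b 1) {e : ℤ} : d ^ 2 + 4 * c ≠ e * e := by
  intro h
  have h1 : (2 * b 1 - (d : 𝓞 K) - (e : 𝓞 K)) * (2 * b 1 - (d : 𝓞 K) + (e : 𝓞 K)) = 0 := by
    have h3 : ((d ^ 2 + 4 * c : ℤ) : 𝓞 K) = ((e * e : ℤ) : 𝓞 K) := by rw [h]
    push_cast at h3
    linear_combination 4 * hw + h3
  have key : ∀ x : ℤ, 2 * b 1 - (x : 𝓞 K) ≠ 0 := by
    intro x hx
    have h4 : b.repr (2 * b 1 - (x : 𝓞 K)) 1 = 2 := by
      have e1 : 2 * b 1 - (x : 𝓞 K) = (2 : ℤ) • b 1 - x • b 0 := by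
        rw [zsmul_eq_mul, zsmul_eq_mul, hb, mul_one]
        norm_num
      rw [e1, map_sub, map_zsmul, map_zsmul, Module.Basis.repr_self, Module.Basis.repr_self]
      simp
    rw [hx, map_zero] at h4
    simp at h4
  rcases mul_eq_zero.1 h1 with h3 | h3
  · apply key (d + e)
    push_cast
    linear_combination h3
  · apply key (d - e)
    push_cast
    linear_combination h3

/-- a residue class with the symbol -1 -/
theorem E2_neg {D c d : ℤ} (h : D = d ^ 2 + 4 * c) (hD : D ≠ 0) (hs : ∀ e : ℤ, D ≠ e * e) :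
    ∃ r : ℕ, Nat.Coprime r (4 * D.natAbs) ∧ jacobiSym D r = -1 := by
  have hpos := Int.natAbs_pos.2 hD
  rcases lt_or_gt_of_ne hD with hneg | hgt
  · refine ⟨4 * D.natAbs - 1, ?_, ?_⟩
    · have h1 : 4 * D.natAbs = (4 * D.natAbs - 1) + 1 := by omega
      rw [Nat.coprime_comm]
      conv_lhs => rw [h1]
      exact (Nat.coprime_self_add_left).2 (Nat.coprime_one_left _)
    · exact HC.H11_jac h hneg _ (by omega) ⟨4, by omega⟩
  · have hn : ((D.natAbs : ℕ) : ℤ) = D := Int.natAbs_of_nonneg hgt.le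
    obtain ⟨r, hr1, hrc, hrj⟩ := NR.exists_jac (D := D.natAbs) hpos (by
      rintro ⟨e, he⟩
      exact hs e (by rw [← hn, he]; push_cast; ring))
    rw [hn] at hrj
    have hro : Odd r := Nat.odd_iff.2 hr1
    refine ⟨r, ?_, hrj⟩
    have h5 : Nat.Coprime r (2 ^ 2) := Nat.Coprime.pow_right 2 hro.coprime_two_right
    exact Nat.Coprime.mul_right h5 hrc

/-- the splitting law of the quadratic character `n ↦ (D | n)` of K -/
theorem chi_split (h2 : Module.finrank ℚ K = 2) {D : ℤ} (hDdef : D = NumberField.discr K) (hD : D ≠ 0) (p : ℕ)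
    (hp : p.Prime) (hpM : ¬ p ∣ 4 * D.natAbs) :
    (E2_chi D hD (p : ZMod (4 * D.natAbs)) = 1 ∧ ∃ P : Ideal (𝓞 K), Ideal.absNorm P = p) ∨
      (E2_chi D hD (p : ZMod (4 * D.natAbs)) = -1 ∧ ∀ P : Ideal (𝓞 K), Ideal.absNorm P ≠ p) := by
  classical
  obtain ⟨b, c, d, hb, hw, hDd⟩ := HC2.quad_basis (K := K) h2
  rw [← hDdef] at hDd
  have hpos := Int.natAbs_pos.2 hD
  have hfp : Fact p.Prime := ⟨hp⟩
  have hcop : Nat.Coprime p (4 * D.natAbs) := (Nat.Prime.coprime_iff_not_dvd hp).2 hpM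
  have hodd : p % 2 = 1 := E2_odd (Dvd.intro (2 * D.natAbs) (by ring)) hcop
  have h20 : (2 : ZMod p) ≠ 0 := by
    intro h
    have h' : ((2 : ℕ) : ZMod p) = 0 := by exact_mod_cast h
    rw [ZMod.natCast_eq_zero_iff] at h'
    have h3 : p = 2 := (Nat.prime_dvd_prime_iff_eq hp Nat.prime_two).1 h'
    omega
  have hDp : ((D : ℤ) : ZMod p) ≠ 0 := by
    intro h
    rw [ZMod.intCast_zmod_eq_zero_iff_dvd] at h
    exact hpM (Dvd.dvd.mul_left (Int.natCast_dvd.1 h) 4)
  rw [E2_chi_nat hD hcop, ← jacobiSym.legendreSym.to_jacobiSym]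
  rcases legendreSym.eq_one_or_neg_one p hDp with h1 | h1
  · left
    rw [h1, Int.cast_one]
    refine ⟨rfl, ?_⟩
    obtain ⟨x, hx⟩ := (legendreSym.eq_one_iff p hDp).1 h1
    rw [hDd] at hx
    have hx' : (d : ZMod p) ^ 2 + 4 * (c : ZMod p) = x * x := by exact_mod_cast hx
    have ht : (((d : ZMod p) + x) / 2) * (((d : ZMod p) + x) / 2) = (c : ZMod p) + (d : ZMod p) * (((d : ZMod p) + x) / 2) := by
      field_simp
      linear_combination -hx'
    obtain ⟨φ, hφ⟩ := E2_hom hb hw ht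
    refine ⟨RingHom.ker φ, ?_⟩
    rw [Ideal.absNorm_apply, Submodule.cardQuot_apply, Nat.card_congr (RingHom.quotientKerEquivOfSurjective hφ).toEquiv,
      Nat.card_zmod]
  · right
    rw [h1]
    refine ⟨by norm_num, ?_⟩
    intro I hI
    have hcard : Nat.card (𝓞 K ⧸ I) = p := by
      rw [← hI, Ideal.absNorm_apply, Submodule.cardQuot_apply]
    have hfin : Finite (𝓞 K ⧸ I) := Nat.finite_of_card_ne_zero (by rw [hcard]; exact hp.ne_zero)
    have hft : Fintype (𝓞 K ⧸ I) := Fintype.ofFinite _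
    have hcard' : Fintype.card (𝓞 K ⧸ I) = p := by rw [← Nat.card_eq_fintype_card, hcard]
    let φ : 𝓞 K →+* ZMod p :=
      ((ZMod.ringEquivOfPrime (𝓞 K ⧸ I) hp hcard').symm : (𝓞 K ⧸ I) →+* ZMod p).comp
        (Ideal.Quotient.mk I)
    have hφ : φ (b 1) * φ (b 1) = (c : ZMod p) + (d : ZMod p) * φ (b 1) := by
      have := congrArg φ hw
      rwa [map_mul, map_add, map_mul, map_intCast, map_intCast] at this
    have hsq : ((D : ℤ) : ZMod p) = (2 * φ (b 1) - d) * (2 * φ (b 1) - d) := by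
      rw [hDd]
      push_cast
      linear_combination -4 * hφ
    exact (legendreSym.eq_neg_one_iff p).1 h1 ⟨_, hsq⟩

end PP
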