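import Pool.Agent.Lib.MP_0f5a55_nt.PP.P03
import Pool.Agent.Lib.MP_0f5a55_nt.NR.M12
import Pool.Agent.Lib.MP_0f5a55_nt.II.I07

open Complex MeasureTheory Set Filter Topology
open scoped Real ComplexConjugate

namespace PP

open II NR

/-- the small pieces -/
private theorem Q1_small {θ1 θ2 : ℝ} (h1 : 0 < θ1) (h2 : 0 < θ2) {b1 b2 : ℕ → ℂ}
    (hb1 : ∀ n : ℕ, ‖b1 n‖ ≤ n) (hb2 : ∀ n : ℕ, ‖b2 n‖ ≤ n)
    (ms1 : ∃ C : ℝ, 0 ≤ C ∧ ∀ x : ℝ, 0 < x →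
      ∑' n : ℕ, ‖b1 (n + 1)‖ ^ 2 * ((1 + x * ((n : ℝ) + 1)) ^ 4)⁻¹ ≤ C / x)
    (ms2 : ∃ C : ℝ, 0 ≤ C ∧ ∀ x : ℝ, 0 < x →
      ∑' n : ℕ, ‖b2 (n + 1)‖ ^ 2 * ((1 + x * ((n : ℝ) + 1)) ^ 4)⁻¹ ≤ C / x) :
    ∃ C : ℝ, 0 ≤ C ∧ ∀ ε : ℝ, 0 < ε → ε ≤ 1 / 2 → ∀ k : ℕ, ‖BK b1 b2 θ1 θ2 ε k‖ ≤ C * ε⁻¹ := by
  obtain ⟨A1, hA1, m1⟩ := ms1
  obtain ⟨A2, hA2, m2⟩ := ms2
  obtain ⟨X, hX, hXi⟩ := Xi_bound 12
  obtain ⟨T, hT, htot⟩ := tot h1 h2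
  refine ⟨X * (T * (A1 + A2)), by positivity, fun ε h0 he k => ?_⟩
  obtain ⟨s1, q1⟩ := BK_le h1 h2 h0 he hb1 hb2 k
  obtain ⟨s2, q2⟩ := htot (fun n => ‖b1 n‖) (fun n => ‖b2 n‖) (fun n => norm_nonneg _)
    (fun n => norm_nonneg _) hb1 hb2 ε h0 he k
  have hk0 : 0 < Real.exp k := Real.exp_pos _
  have hx0 : 0 < Real.exp k * ε := by positivity
  have e1 := m1 (Real.exp k * ε) hx0
  have e2 := m2 (Real.exp k * ε) hx0
  have q3 := q2.trans (mul_le_mul_of_nonneg_left (add_le_add e1 e2) hT)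
  have q4 : ∑' x : ℕ × ℕ, ‖b1 (x.1 + 1)‖ * ‖b2 (x.2 + 1)‖ *
      ‖Xi (((Real.exp k : ℝ) : ℂ) * zz θ1 θ2 ε (x.1 + 1) (x.2 + 1))‖ ≤
      X * ∑' x : ℕ × ℕ, ‖b1 (x.1 + 1)‖ * ‖b2 (x.2 + 1)‖ *
        ((1 + ‖((Real.exp k : ℝ) : ℂ) * zz θ1 θ2 ε (x.1 + 1) (x.2 + 1)‖) ^ 12)⁻¹ := by
    rw [← tsum_mul_left]
    refine s1.tsum_le_tsum (fun x => ?_) (s2.mul_left X)
    have e1 := hXi _ (M12_zz_re h1 h2 h0 he k (x.1 + 1) (x.2 + 1))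
    have e3 : 0 ≤ ‖b1 (x.1 + 1)‖ * ‖b2 (x.2 + 1)‖ := by positivity
    refine (mul_le_mul_of_nonneg_left e1 e3).trans (le_of_eq ?_)
    ring
  have q5 := q4.trans (mul_le_mul_of_nonneg_left q3 hX)
  refine q1.trans ((mul_le_mul_of_nonneg_left q5 hk0.le).trans (le_of_eq ?_))
  field_simp

/-- Row Q1. The correlation integral, irrational ratio. Model: NR/M12.lean, irr_f (copy it; the same sum over k with BK a1 a2). Pieces: for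
exp k > (log 1/ε)^60 exactly as there: II.large_k h (divisor bounds D1.bd, D2.bd; value at 0 replaced by 0 as there, or as in P03). For exp k ≤
(log 1/ε)^60: ‖BK a1 a2 θ1 θ2 ε k‖ ≤ C ε⁻¹ by II.BK_le, II.Xi_bound 12, PP.tot (P01) and the mean squares NR.ms_poly at w = exp k ε
(as in P02/P03: exp k * C (Ca / (exp k ε) + Cb / (exp k ε))); there are at most 60 log log(1/ε) + 1 such k. -/
theorem J_irr {N1 N2 : ℕ} {a1 a2 : ℕ → ℂ} {L1 L2 : ℂ → ℂ} (D1 : NR.Dat N1 a1 L1) (D2 : NR.Dat N2 a2 L2)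
    (h : II.Quad (FF.tht N1 1) (FF.tht N2 1)) : ∃ C ε0 : ℝ, 0 ≤ C ∧ 0 < ε0 ∧ ε0 ≤ 1 / 3 ∧ ∀ ε : ℝ, 0 < ε → ε ≤ ε0 →
      ‖JJ a1 a2 (FF.tht N1 1) (FF.tht N2 1) ε‖ ≤ C * (ε⁻¹ * (1 + Real.log (Real.log (1 / ε)))) := by
  have hθ1 : 0 < FF.tht N1 1 := h.1
  have hθ2 : 0 < FF.tht N2 1 := h.2.1
  obtain ⟨θ1, hθ1d⟩ : ∃ θ : ℝ, θ = FF.tht N1 1 := ⟨_, rfl⟩
  obtain ⟨θ2, hθ2d⟩ : ∃ θ : ℝ, θ = FF.tht N2 1 := ⟨_, rfl⟩
  rw [← hθ1d] at h hθ1 ⊢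
  rw [← hθ2d] at h hθ2 ⊢
  obtain ⟨C2, hC2, hXi⟩ := Xi_bound 12
  obtain ⟨C3, hC3, hlg⟩ := large_k h
  have bz1 : ∀ n : ℕ, ‖M12_z a1 n‖ ≤ dv n := by
    intro n
    unfold M12_z
    split_ifs with hn
    · rw [norm_zero]
      exact M12_dv_nonneg n
    · exact D1.bd n (Nat.pos_of_ne_zero hn)
  have bz2 : ∀ n : ℕ, ‖M12_z a2 n‖ ≤ dv n := by
    intro n
    unfold M12_z
    split_ifs with hn
    · rw [norm_zero]
      exact M12_dv_nonneg n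
    · exact D2.bd n (Nat.pos_of_ne_zero hn)
  have bn1 : ∀ n : ℕ, ‖M12_z a1 n‖ ≤ n := fun n => (bz1 n).trans (M12_dv_le n)
  have bn2 : ∀ n : ℕ, ‖M12_z a2 n‖ ≤ n := fun n => (bz2 n).trans (M12_dv_le n)
  have e1 : ∀ n : ℕ, a1 (n + 1) = M12_z a1 (n + 1) := fun n => by
    unfold M12_z
    rw [if_neg (Nat.succ_ne_zero n)]
  have e2 : ∀ n : ℕ, a2 (n + 1) = M12_z a2 (n + 1) := fun n => by
    unfold M12_z
    rw [if_neg (Nat.succ_ne_zero n)]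
  have ms1 : ∃ C : ℝ, 0 ≤ C ∧ ∀ x : ℝ, 0 < x →
      ∑' n : ℕ, ‖M12_z a1 (n + 1)‖ ^ 2 * ((1 + x * ((n : ℝ) + 1)) ^ 4)⁻¹ ≤ C / x := by
    obtain ⟨C, hC, hx⟩ := NR.ms_poly D1
    refine ⟨C, hC, fun x h0 => ?_⟩
    simp only [← e1]
    exact (hx x h0).2
  have ms2 : ∃ C : ℝ, 0 ≤ C ∧ ∀ x : ℝ, 0 < x →
      ∑' n : ℕ, ‖M12_z a2 (n + 1)‖ ^ 2 * ((1 + x * ((n : ℝ) + 1)) ^ 4)⁻¹ ≤ C / x := by
    obtain ⟨C, hC, hx⟩ := NR.ms_poly D2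
    refine ⟨C, hC, fun x h0 => ?_⟩
    simp only [← e2]
    exact (hx x h0).2
  obtain ⟨C1, hC1, hsm⟩ := Q1_small hθ1 hθ2 bn1 bn2 ms1 ms2
  have hexp1 : 0 < 1 - Real.exp (-1) := by
    have := Real.exp_lt_one_iff.2 (show (-1 : ℝ) < 0 by norm_num)
    linarith
  refine ⟨60 * C1 + C2 * C3 * (2 ^ 10 * (1 + 60 ^ 10)) + C2 * C3 * (1 - Real.exp (-1))⁻¹,
    1 / 3, by positivity, by norm_num, le_refl _, ?_⟩
  intro ε h0 h3
  have he : ε ≤ 1 / 2 := by linarith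
  have hL1 := M12_num2 h0 h3
  have hnum3 := M12_num3 h0 h3
  have hlg' := hlg ε h0 he
  have hsm' := hsm ε h0 he
  set L := Real.log (1 / ε) with hLd
  have hL0 : 0 < L := by linarith
  have hei : 1 ≤ ε⁻¹ := (one_le_inv₀ h0).2 (by linarith)
  set P : ℝ := C1 * ε⁻¹ with hP
  set Q : ℝ := C2 * C3 * ((1 + L) ^ 9 * (ε⁻¹ * (L ^ 20)⁻¹ + ε ^ (-(5 / 6 : ℝ)))) with hQ
  have hP0 : 0 ≤ P := by positivity
  have hQ0 : 0 ≤ Q := by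
    have := Real.rpow_nonneg h0.le (-(5 / 6 : ℝ))
    positivity
  have hg1 : HasSum (fun k : ℕ => if k ∈ Finset.range (⌊60 * Real.log L⌋₊ + 1) then P else 0)
      (((⌊60 * Real.log L⌋₊ + 1 : ℕ) : ℝ) * P) := by
    have := hasSum_sum_of_ne_finset_zero (L := SummationFilter.unconditional ℕ) (f := fun k : ℕ => if k ∈ Finset.range (⌊60 * Real.log L⌋₊ + 1)
      then P else 0) (s := Finset.range (⌊60 * Real.log L⌋₊ + 1)) (fun b hb => if_neg hb)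
    rwa [Finset.sum_ite_mem, Finset.inter_self, Finset.sum_const, Finset.card_range, nsmul_eq_mul] at this
  have hg2 : HasSum (fun k : ℕ => if k ∈ Finset.range (⌊L⌋₊ + 1) then Q else 0)
      (((⌊L⌋₊ + 1 : ℕ) : ℝ) * Q) := by
    have := hasSum_sum_of_ne_finset_zero (L := SummationFilter.unconditional ℕ) (f := fun k : ℕ => if k ∈ Finset.range (⌊L⌋₊ + 1)
      then Q else 0) (s := Finset.range (⌊L⌋₊ + 1)) (fun b hb => if_neg hb)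
    rwa [Finset.sum_ite_mem, Finset.inter_self, Finset.sum_const, Finset.card_range, nsmul_eq_mul] at this
  have hg3 : HasSum (fun k : ℕ => C2 * C3 * Real.exp (-1) ^ k) (C2 * C3 * (1 - Real.exp (-1))⁻¹) :=
    (hasSum_geometric_of_lt_one (Real.exp_nonneg _) (Real.exp_lt_one_iff.2 (by norm_num))).mul_left _
  have hbk : ∀ k : ℕ, ‖BK (M12_z a1) (M12_z a2) θ1 θ2 ε k‖ ≤
      (if k ∈ Finset.range (⌊60 * Real.log L⌋₊ + 1) then P else 0) +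
      (if k ∈ Finset.range (⌊L⌋₊ + 1) then Q else 0) + C2 * C3 * Real.exp (-1) ^ k := by
    intro k
    obtain ⟨l1, l2, l3⟩ := hlg' k
    have hB := M12_BK hθ1 hθ2 bz1 bz2 hXi h0 he k l1
    have i1 : 0 ≤ (if k ∈ Finset.range (⌊60 * Real.log L⌋₊ + 1) then P else 0) := by
      split_ifs
      · exact hP0
      · exact le_refl _
    have i2 : 0 ≤ (if k ∈ Finset.range (⌊L⌋₊ + 1) then Q else 0) := by
      split_ifs
      · exact hQ0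
      · exact le_refl _
    have i3 : 0 ≤ C2 * C3 * Real.exp (-1) ^ k := by positivity
    rcases le_or_gt (Real.exp k) (L ^ 60) with hk | hk
    · have m1 : k ∈ Finset.range (⌊60 * Real.log L⌋₊ + 1) := by
        rw [Finset.mem_range, Nat.lt_succ_iff]
        refine Nat.le_floor ?_
        have := (Real.le_log_iff_exp_le (by positivity)).2 hk
        rwa [Real.log_pow, Nat.cast_ofNat] at this
      have m2 := hsm' k
      rw [if_pos m1]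
      linarith
    · rcases le_or_gt (1 / ε) (Real.exp k) with hk2 | hk2
      · have m1 := l3 hk2
        have m2 : Real.exp (-(k : ℝ)) = Real.exp (-1) ^ k := by
          rw [← Real.exp_nat_mul]
          ring_nf
        rw [m2] at m1
        have m3 := hB.trans (mul_le_mul_of_nonneg_left m1 hC2)
        rw [← mul_assoc] at m3
        linarith
      · have m1 : k ∈ Finset.range (⌊L⌋₊ + 1) := by
          rw [Finset.mem_range, Nat.lt_succ_iff]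
          refine Nat.le_floor ?_
          exact (Real.le_log_iff_exp_le (by positivity)).2 hk2.le
        have m2 : C2 * (C3 * (1 + L) ^ 9 * (ε⁻¹ * Real.exp (-(k / 3 : ℝ)) + ε ^ (-(5 / 6 : ℝ)))) ≤ Q := by
          rw [hQ, mul_assoc C2 C3, mul_assoc C3]
          refine mul_le_mul_of_nonneg_left (mul_le_mul_of_nonneg_left (mul_le_mul_of_nonneg_left ?_
            (by positivity)) hC3) hC2
          have := mul_le_mul_of_nonneg_left (M12_exp hL0 hk) (inv_nonneg.2 h0.le)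
          linarith
        have m3 := hB.trans (mul_le_mul_of_nonneg_left l2 hC2)
        rw [if_pos m1]
        linarith
  have hS := BK_sum hθ1 hθ2 h0 he bn1 bn2
  have hJ : JJ a1 a2 θ1 θ2 ε = ∫ u : ℝ, ((TT.tau u * Real.exp u : ℝ) : ℂ) *
      FE (M12_z a1) θ1 ε (Real.exp u) * conj (FE (M12_z a2) θ2 ε (Real.exp u)) := by
    unfold JJ
    simp only [M12_FE]
  have hfin := tsum_of_norm_bounded ((hg1.add hg2).add hg3) hbk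
  rw [hS.tsum_eq, ← hJ] at hfin
  refine hfin.trans ?_
  have hll : 0 ≤ Real.log L := Real.log_nonneg hL1
  have hl1 : 1 ≤ 1 + Real.log L := by linarith
  have hW : ε⁻¹ ≤ ε⁻¹ * (1 + Real.log L) := le_mul_of_one_le_right (by positivity) hl1
  have r1 : ((⌊60 * Real.log L⌋₊ + 1 : ℕ) : ℝ) * P ≤ 60 * C1 * (ε⁻¹ * (1 + Real.log L)) := by
    calc ((⌊60 * Real.log L⌋₊ + 1 : ℕ) : ℝ) * P
        ≤ 60 * (1 + Real.log L) * P := mul_le_mul_of_nonneg_right (M12_num1 hL1) hP0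
      _ = 60 * C1 * (ε⁻¹ * (1 + Real.log L)) := by rw [hP]; ring
  have r2 : ((⌊L⌋₊ + 1 : ℕ) : ℝ) * Q ≤ C2 * C3 * (2 ^ 10 * (1 + 60 ^ 10)) * (ε⁻¹ * (1 + Real.log L)) := by
    have := mul_le_mul_of_nonneg_left hnum3 (mul_nonneg hC2 hC3)
    calc ((⌊L⌋₊ + 1 : ℕ) : ℝ) * Q
        = C2 * C3 * (((⌊L⌋₊ + 1 : ℕ) : ℝ) * ((1 + L) ^ 9 * (ε⁻¹ * (L ^ 20)⁻¹ + ε ^ (-(5 / 6 : ℝ))))) := by
          rw [hQ]; ring
      _ ≤ C2 * C3 * (2 ^ 10 * (1 + 60 ^ 10) * ε⁻¹) := this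
      _ = C2 * C3 * (2 ^ 10 * (1 + 60 ^ 10)) * ε⁻¹ := by ring
      _ ≤ _ := mul_le_mul_of_nonneg_left hW (by positivity)
  have r3 : C2 * C3 * (1 - Real.exp (-1))⁻¹ ≤
      C2 * C3 * (1 - Real.exp (-1))⁻¹ * (ε⁻¹ * (1 + Real.log L)) :=
    le_mul_of_one_le_right (by positivity) (hei.trans hW)
  calc _ ≤ 60 * C1 * (ε⁻¹ * (1 + Real.log L)) +
        C2 * C3 * (2 ^ 10 * (1 + 60 ^ 10)) * (ε⁻¹ * (1 + Real.log L)) +
        C2 * C3 * (1 - Real.exp (-1))⁻¹ * (ε⁻¹ * (1 + Real.log L)) := add_le_add (add_le_add r1 r2) r3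
    _ = _ := by ring

end PP
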