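import Pool.Agent.Lib.MP_0f5a55_nt.PP.P08

open Complex MeasureTheory Set Filter Topology
open scoped Real ComplexConjugate

namespace PP

open NR NH

/-- the sum of |a1(p) + a2(p)|² p^(-1-δ) grows like a positive multiple of log(1/δ) -/
def DivL (a1 a2 : ℕ → ℂ) : Prop :=
  ∃ η C : ℝ, 0 < η ∧ ∀ δ : ℝ, 0 < δ → δ ≤ 1 → η * Real.log (1 / δ) - C ≤
    ∑' p : Nat.Primes, ‖a1 (p : ℕ) + a2 (p : ℕ)‖ ^ 2 * ((p : ℕ) : ℝ) ^ (-(1 + δ))

/-- Row Q2. Lower bound for the first absolute moment. Model: P08.low (copy it). There hdy and hlo give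
∫ ≥ c T Σ ‖b n‖² n^(-1-1/log T) ≥ c c1 T exp(P08_S b (1/log T)), and P08_S b δ = (1/4) Σ ‖a1 p + a2 p‖² p^(-1-δ) ≥ (η/4) log(1/δ) - C/4 by hd, so
∫ ≥ c' T (log T)^(η/4), which is ≥ A T (1 + log log T) for large T. hlim from P08_S b δ → ∞ (hd). -/
theorem low_log {N1 N2 : ℕ} {a1 a2 : ℕ → ℂ} {L1 L2 : ℂ → ℂ} (D1 : NR.Dat N1 a1 L1) (D2 : NR.Dat N2 a2 L2)
    (hd : DivL a1 a2) (A : ℝ) : ∃ T0 : ℝ, 3 ≤ T0 ∧ ∀ T : ℝ, T0 ≤ T →
      A * (T * (1 + Real.log (Real.log T))) ≤ ∫ t in Icc T (2 * T), ‖L1 (1 / 2 + t * I) * L2 (1 / 2 + t * I)‖ := by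
  obtain ⟨α1, β1, h1⟩ := D1.loc_ex
  obtain ⟨α2, β2, h2⟩ := D2.loc_ex
  obtain ⟨b, hb⟩ : ∃ b : ArithmeticFunction ℂ, b = bf α1 β1 * bf α2 β2 := ⟨_, rfl⟩
  obtain ⟨c1, C1, hc1, hE⟩ := b_bounds h1 h2
  have h4 := P08_four D1 D2 h1 h2
  have hpr : ∀ p : ℕ, p.Prime → b p = 1 / 2 * (a1 p + a2 p) := fun p hp => by
    rw [hb]; exact b_prime h1 h2 hp
  rw [← hb] at hE h4
  have hs : ∀ δ : ℝ, 0 < δ → δ ≤ 1 → Summable (fun p : Nat.Primes => ‖b (p : ℕ)‖ ^ 2 *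
      ((p : ℕ) : ℝ) ^ (-(1 + δ))) := fun δ h0 h1 => (hE δ h0 h1).1
  obtain ⟨M, hM⟩ := P08_slow h4 hs
  obtain ⟨η, C, hη, hdl⟩ := hd
  have hSlo : ∀ δ : ℝ, 0 < δ → δ ≤ 1 → η / 4 * Real.log (1 / δ) - C / 4 ≤ P08_S b δ := by
    intro δ h0 h3
    have e1 := hdl δ h0 h3
    have e2 : P08_S b δ = 1 / 4 * ∑' p : Nat.Primes, ‖a1 (p : ℕ) + a2 (p : ℕ)‖ ^ 2 *
        ((p : ℕ) : ℝ) ^ (-(1 + δ)) := by
      unfold P08_S
      rw [← tsum_mul_left]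
      refine tsum_congr fun p => ?_
      rw [hpr p p.2, norm_mul, mul_pow, norm_div, norm_one, Complex.norm_two]
      ring
    rw [e2]
    linarith
  have hSlim : Tendsto (P08_S b) (𝓝[>] 0) atTop := by
    have h5 : Tendsto (fun δ : ℝ => η / 4 * Real.log (1 / δ) - C / 4) (𝓝[>] 0) atTop := by
      have h6 : Tendsto (fun δ : ℝ => Real.log (1 / δ)) (𝓝[>] 0) atTop := by
        simp only [one_div]
        exact Real.tendsto_log_atTop.comp tendsto_inv_nhdsGT_zero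
      exact tendsto_atTop_add_const_right _ (-(C / 4)) (h6.const_mul_atTop (by positivity))
    refine tendsto_atTop_mono' _ ?_ h5
    have h3 : Ioc (0 : ℝ) 1 ∈ 𝓝[>] (0 : ℝ) := Ioc_mem_nhdsGT (by norm_num)
    filter_upwards [h3] with δ hδ
    exact hSlo δ hδ.1 hδ.2
  have hlo : ∀ δ : ℝ, 0 < δ → δ ≤ 1 → c1 * Real.exp (P08_S b δ) ≤
      ∑' n : ℕ, ‖b n‖ ^ 2 * (n : ℝ) ^ (-(1 + δ)) := fun δ h0 h1 => (hE δ h0 h1).2.1
  have hhi : ∀ δ : ℝ, 0 < δ → δ ≤ 1 → ∑' n : ℕ, ‖b n‖ ^ 2 * (n : ℝ) ^ (-(1 + δ)) ≤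
      max C1 1 * Real.exp (P08_S b δ) := fun δ h0 h1 =>
    ((hE δ h0 h1).2.2).trans (mul_le_mul_of_nonneg_right (le_max_left _ _) (Real.exp_pos _).le)
  have hlim : Tendsto (fun δ : ℝ => ∑' n : ℕ, ‖b n‖ ^ 2 * (n : ℝ) ^ (-(1 + δ))) (𝓝[>] 0) atTop := by
    have h5 : Tendsto (fun δ : ℝ => c1 * Real.exp (P08_S b δ)) (𝓝[>] 0) atTop :=
      Tendsto.const_mul_atTop hc1 (Real.tendsto_exp_atTop.comp hSlim)
    refine tendsto_atTop_mono' _ ?_ h5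
    have h3 : Ioc (0 : ℝ) 1 ∈ 𝓝[>] (0 : ℝ) := Ioc_mem_nhdsGT (by norm_num)
    filter_upwards [h3] with δ hδ
    exact hlo δ hδ.1 hδ.2
  have hK : ∀ δ : ℝ, 0 < δ → δ ≤ 1 → Summable (fun n : ℕ => ‖b n‖ ^ 2 * (n : ℝ) ^ (-(1 + δ))) ∧
      ∑' n : ℕ, ‖b n‖ ^ 2 * (n : ℝ) ^ (-(1 + δ / 2)) ≤
        (max C1 1 * Real.exp M / c1) * ∑' n : ℕ, ‖b n‖ ^ 2 * (n : ℝ) ^ (-(1 + δ)) := by
    intro δ h0 h3
    refine ⟨?_, ?_⟩
    · rw [hb]
      exact b_sq_summable h1 h2 (by linarith)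
    have hm : 0 ≤ max C1 1 := zero_le_one.trans (le_max_right _ _)
    calc ∑' n : ℕ, ‖b n‖ ^ 2 * (n : ℝ) ^ (-(1 + δ / 2))
        ≤ max C1 1 * Real.exp (P08_S b (δ / 2)) := hhi (δ / 2) (by linarith) (by linarith)
      _ ≤ max C1 1 * (Real.exp M * Real.exp (P08_S b δ)) := by
          refine mul_le_mul_of_nonneg_left ?_ hm
          rw [← Real.exp_add]
          refine Real.exp_le_exp.mpr ?_
          have := hM δ h0 h3
          linarith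
      _ = max C1 1 * Real.exp M / c1 * (c1 * Real.exp (P08_S b δ)) := by
          field_simp
      _ ≤ _ := mul_le_mul_of_nonneg_left (hlo δ h0 h3) (by positivity)
  have hG : ∃ G : ℂ → ℂ, (∀ s : ℂ, 0 < s.re → DifferentiableAt ℂ G s) ∧ ∀ s : ℂ, s ≠ 1 →
      G s = (s - 1) * (L1 s * L2 s) :=
    ⟨fun s => (s - 1) * (L1 s * L2 s), fun s _ =>
      ((differentiableAt_id.sub_const 1).mul ((D1.ent s).mul (D2.ent s))), fun s _ => rfl⟩
  obtain ⟨A1, hA1, hp1⟩ := L_pol D1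
  obtain ⟨A2, hA2, hp2⟩ := L_pol D2
  have hpol : ∀ s : ℂ, 1 / 2 ≤ s.re → s.re ≤ 2 → 1 ≤ |s.im| → ‖L1 s * L2 s‖ ≤ (A1 * A2) * (1 + |s.im|) ^ 4 := by
    intro s hs1 _ hs3
    rw [norm_mul]
    calc ‖L1 s‖ * ‖L2 s‖ ≤ (A1 * (1 + |s.im|) ^ 2) * (A2 * (1 + |s.im|) ^ 2) :=
          mul_le_mul (hp1 s hs1 hs3) (hp2 s hs1 hs3) (norm_nonneg _) (by positivity)
      _ = _ := by ring
  have hFa : ∀ s : ℂ, 1 < s.re → LSeriesSummable (⇑(af a1 * af a2)) s ∧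
      L1 s * L2 s = LSeries (⇑(af a1 * af a2)) s := by
    intro s hs
    obtain ⟨s1, e1⟩ := L_series D1 hs
    obtain ⟨s2, e2⟩ := L_series D2 hs
    refine ⟨ArithmeticFunction.LSeriesSummable_mul s1 s2, ?_⟩
    rw [e1, e2]
    exact (ArithmeticFunction.LSeries_mul' s1 s2).symm
  have hab : b * b = af a1 * af a2 := by
    rw [hb]
    exact b_sq D1 D2 h1 h2
  have hb1 : b 1 = 1 := by
    rw [hb]
    exact ((bf_mult α1 β1).mul (bf_mult α2 β2)).map_one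
  have hbs : Summable (fun n : ℕ => ‖b n‖ * (n : ℝ) ^ (-(3 / 2 : ℝ))) := by
    rw [hb]
    exact b_summable h1 h2 (by norm_num)
  obtain ⟨c, T0, hc, hT0, hdy⟩ := dyadic (F := fun s => L1 s * L2 s) hG hpol hFa hab hb1 hbs hK hlim
  -- `exp x / x` is large
  obtain ⟨K, hKd⟩ : ∃ K : ℝ, K = |A| * (1 + 4 / η) * Real.exp (C / 4) / (c * c1) := ⟨_, rfl⟩
  have hx : Tendsto (fun T : ℝ => η / 4 * Real.log (Real.log T)) atTop atTop :=
    (Real.tendsto_log_atTop.comp Real.tendsto_log_atTop).const_mul_atTop (by positivity)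
  have hev : ∀ᶠ T : ℝ in atTop, K ≤ Real.exp (η / 4 * Real.log (Real.log T)) /
      (η / 4 * Real.log (Real.log T)) ^ 1 :=
    hx.eventually ((tendsto_atTop.1 (Real.tendsto_exp_div_pow_atTop 1)) K)
  have hev2 : ∀ᶠ T : ℝ in atTop, 1 ≤ η / 4 * Real.log (Real.log T) := (tendsto_atTop.1 hx) 1
  have hev3 : ∀ᶠ T : ℝ in atTop, 1 ≤ Real.log T := (tendsto_atTop.1 Real.tendsto_log_atTop) 1
  obtain ⟨T1, hT1⟩ := eventually_atTop.1 (hev.and (hev2.and hev3))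
  refine ⟨max T0 T1, hT0.trans (le_max_left _ _), fun T hT => ?_⟩
  obtain ⟨e1, e3, e4⟩ := hT1 T ((le_max_right _ _).trans hT)
  have e2 := hdy T ((le_max_left _ _).trans hT)
  refine le_trans ?_ e2
  have hT' : 0 < T := by
    have := hT0.trans ((le_max_left _ _).trans hT)
    linarith
  have hL0 : 0 < Real.log T := by linarith
  obtain ⟨x, hxd⟩ : ∃ x : ℝ, x = η / 4 * Real.log (Real.log T) := ⟨_, rfl⟩
  rw [← hxd] at e1 e3
  rw [pow_one, le_div_iff₀ (by linarith)] at e1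
  have hlo2 : c1 * Real.exp (x - C / 4) ≤ ∑' n : ℕ, ‖b n‖ ^ 2 * (n : ℝ) ^ (-(1 + 1 / Real.log T)) := by
    have h5 : 1 / Real.log T ≤ 1 := by
      rw [div_le_one hL0]
      exact e4
    refine le_trans ?_ (hlo (1 / Real.log T) (by positivity) h5)
    refine mul_le_mul_of_nonneg_left (Real.exp_le_exp.mpr ?_) hc1.le
    have h6 := hSlo (1 / Real.log T) (by positivity) h5
    rw [one_div_one_div, ← hxd] at h6
    exact h6
  have hll : 1 + Real.log (Real.log T) ≤ (1 + 4 / η) * x := by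
    have h5 : Real.log (Real.log T) = 4 / η * x := by
      rw [hxd]
      field_simp
    rw [h5]
    nlinarith
  have hll0 : 0 ≤ 1 + Real.log (Real.log T) := by
    have := Real.log_nonneg e4
    linarith
  have hmain : A * (1 + Real.log (Real.log T)) ≤ c * (c1 * Real.exp (x - C / 4)) := by
    have h5 : A * (1 + Real.log (Real.log T)) ≤ |A| * ((1 + 4 / η) * x) :=
      (mul_le_mul_of_nonneg_right (le_abs_self A) hll0).trans
        (mul_le_mul_of_nonneg_left hll (abs_nonneg A))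
    have h6 : |A| * ((1 + 4 / η) * x) = c * (c1 * (K * x * Real.exp (-(C / 4)))) := by
      rw [hKd, Real.exp_neg]
      have := Real.exp_ne_zero (C / 4)
      field_simp
    have h7 : Real.exp (x - C / 4) = Real.exp x * Real.exp (-(C / 4)) := by
      rw [← Real.exp_add]
      congr 1
    rw [h7]
    refine h5.trans (h6.le.trans ?_)
    have h8 : 0 ≤ Real.exp (-(C / 4)) := (Real.exp_pos _).le
    gcongr
  calc A * (T * (1 + Real.log (Real.log T))) = (A * (1 + Real.log (Real.log T))) * T := by ring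
    _ ≤ (c * (c1 * Real.exp (x - C / 4))) * T := mul_le_mul_of_nonneg_right hmain hT'.le
    _ ≤ (c * ∑' n : ℕ, ‖b n‖ ^ 2 * (n : ℝ) ^ (-(1 + 1 / Real.log T))) * T :=
        mul_le_mul_of_nonneg_right (mul_le_mul_of_nonneg_left hlo2 hc.le) hT'.le
    _ = _ := by ring

end PP
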