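import Pool.Agent.Lib.MP_0f5a55_nt.PP.P09
import Pool.Agent.Lib.MP_0f5a55_nt.PP.Q1
import Pool.Agent.Lib.MP_0f5a55_nt.PP.Q2

open Complex MeasureTheory Set Filter Topology
open scoped Real ComplexConjugate

namespace PP

open II NR NH

/-- Row Q3. Main theorem for two forms, irrational ratio. Model: P09.odd_ff (copy the proof; P09_up, P09_lower, P09_comb are public): ε = 1/T ≤ ε0,
J_irr gives ‖JJ‖ ≤ CJ T (1 + log log T) (1/ε = T), T^(3/4) ≤ T ≤ T (1 + log log T) (T ≥ 3), lower bound from low_log. -/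
theorem odd_irr {N1 N2 : ℕ} {a1 a2 : ℕ → ℂ} {L1 L2 : ℂ → ℂ} (D1 : NR.Dat N1 a1 L1) (D2 : NR.Dat N2 a2 L2)
    (hd : DivL a1 a2) (h : II.Quad (FF.tht N1 1) (FF.tht N2 1)) :
    {g : ℝ | 0 < g ∧ Odd (analyticOrderNatAt L1 (1 / 2 + g * I) +
      analyticOrderNatAt L2 (1 / 2 + g * I))}.Infinite := by
  intro hfin
  obtain ⟨u1, v1, W1, C1, hp1⟩ := D1.ph
  obtain ⟨u2, v2, W2, C2, hp2⟩ := D2.ph
  obtain ⟨T0, hT0, hsg⟩ := sign2 D1 D2 hp1 hp2 hfin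
  obtain ⟨κ, Cr, hκ, hCr, hR⟩ := prod2 D1 D2 hp1 hp2
  obtain ⟨Cp, hCp, hp⟩ := pars2 D1 D2
  obtain ⟨CJ, ε0, hCJ, hε0, hε03, hJ⟩ := J_irr D1 D2 h
  obtain ⟨G1, hG1, hg1⟩ := L_line D1
  obtain ⟨G2, hG2, hg2⟩ := L_line D2
  have hZabs : ∀ t, |Zf L1 v1 t * Zf L2 v2 t| = ‖L1 (1 / 2 + t * I)‖ * ‖L2 (1 / 2 + t * I)‖ := by
    intro t
    rw [abs_mul, (Zf_abs hp1 t).1, (Zf_abs hp2 t).1]
  have hZc : Continuous (fun t => Zf L1 v1 t * Zf L2 v2 t) :=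
    (Zf_cont D1 hp1.cv).mul (Zf_cont D2 hp2.cv)
  have hZb : ∀ t, |Zf L1 v1 t * Zf L2 v2 t| ≤ (G1 * G2) * (1 + |t|) ^ 4 := by
    intro t
    rw [hZabs]
    have h0 : 0 ≤ 1 + |t| := by positivity
    calc ‖L1 (1 / 2 + t * I)‖ * ‖L2 (1 / 2 + t * I)‖
        ≤ (G1 * (1 + |t|) ^ 2) * (G2 * (1 + |t|) ^ 2) := by
          gcongr
          · exact hg1 t
          · exact hg2 t
      _ = _ := by ring
  obtain ⟨K, K1, hK0, hK10, hup⟩ := P09_up (Z := fun t => Zf L1 v1 t * Zf L2 v2 t) hZc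
    (CZ := G1 * G2) (mul_nonneg hG1 hG2) hZb hT0 hsg
    (R := fun ε t => Rf N1 L1 ε t * conj (Rf N2 L2 ε t))
    (fun ε => (Rf_cont D1 ε).mul (continuous_conj.comp (Rf_cont D2 ε))) hκ hCr hR
  have he : 0 < Real.exp (-4) := Real.exp_pos _
  obtain ⟨B0, hB0⟩ : ∃ B0 : ℝ, B0 = (‖κ‖⁻¹ * ((Cp * CJ + Cp) + K1) + K) / Real.exp (-4) + 1 := ⟨_, rfl⟩
  obtain ⟨T1, hT1, hlow⟩ := low_log D1 D2 hd B0
  obtain ⟨T, hTdef⟩ : ∃ T, T = T0 + T1 + ε0⁻¹ := ⟨_, rfl⟩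
  have hei : 0 < ε0⁻¹ := inv_pos.2 hε0
  have hTT0 : T0 < T := by rw [hTdef]; linarith
  have hTT1 : T1 ≤ T := by rw [hTdef]; linarith
  have hTe : ε0⁻¹ ≤ T := by rw [hTdef]; linarith
  have hT3 : 3 ≤ T := hT1.trans hTT1
  have hTp : 0 < T := by linarith
  have hT1' : 1 ≤ T := by linarith
  have hTi : 0 < T⁻¹ := inv_pos.2 hTp
  have hTh : T⁻¹ ≤ 1 / 2 := by
    rw [inv_le_comm₀ hTp (by norm_num)]
    norm_num
    linarith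
  have hTε : T⁻¹ ≤ ε0 := by
    rw [inv_le_comm₀ hTp hε0]
    exact hTe
  have hlogT : 1 ≤ Real.log T := by
    rw [Real.le_log_iff_exp_le hTp]
    have := Real.exp_one_lt_d9
    linarith
  have hll : 0 ≤ Real.log (Real.log T) := Real.log_nonneg hlogT
  obtain ⟨Λ, hΛ⟩ : ∃ Λ : ℝ, Λ = 1 + Real.log (Real.log T) := ⟨_, rfl⟩
  have hΛ1 : 1 ≤ Λ := by rw [hΛ]; linarith
  have hA1 := hp T⁻¹ hTi hTh
  have hJ1 := hJ T⁻¹ hTi hTε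
  rw [inv_inv, one_div, inv_inv, ← hΛ] at hJ1
  have h5 : (T⁻¹) ^ (-(3 / 4 : ℝ)) ≤ T * Λ := by
    rw [Real.inv_rpow hTp.le, Real.rpow_neg hTp.le, inv_inv]
    calc T ^ (3 / 4 : ℝ) ≤ T ^ (1 : ℝ) := Real.rpow_le_rpow_of_exponent_le hT1' (by norm_num)
      _ = T := Real.rpow_one T
      _ ≤ T * Λ := le_mul_of_one_le_right hTp.le hΛ1
  have hB : ‖∫ t : ℝ, Rf N1 L1 T⁻¹ t * conj (Rf N2 L2 T⁻¹ t)‖ ≤ (Cp * CJ + Cp) * (T * Λ) := by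
    refine hA1.trans ?_
    have e1 := mul_le_mul_of_nonneg_left hJ1 hCp
    have e2 := mul_le_mul_of_nonneg_left h5 hCp
    calc Cp * ‖JJ a1 a2 (FF.tht N1 1) (FF.tht N2 1) T⁻¹‖ + Cp * T⁻¹ ^ (-(3 / 4 : ℝ))
        ≤ Cp * (CJ * (T * Λ)) + Cp * (T * Λ) := add_le_add e1 e2
      _ = _ := by ring
  have h1 := (hup T⁻¹ hTi hTh).2 _ hB
  have h2 := P09_lower hZc hT0 hTT0 (hup T⁻¹ hTi hTh).1
  have h3 := hlow T hTT1
  have h4 : ∫ t in Icc T (2 * T), ‖L1 (1 / 2 + t * I) * L2 (1 / 2 + t * I)‖ =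
      ∫ t in Icc T (2 * T), |Zf L1 v1 t * Zf L2 v2 t| := by
    refine setIntegral_congr_fun measurableSet_Icc fun t _ => ?_
    rw [hZabs, norm_mul]
  rw [h4, ← hΛ] at h3
  have hTΛ : 1 ≤ T * Λ := by nlinarith
  refine P09_comb (T := T * Λ) (inv_nonneg.2 (norm_nonneg κ)) hK10 hK0 (by linarith) hTΛ le_rfl h1 h2 he h3 ?_
  rw [hB0]
  exact lt_add_one _

end PP
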