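import Pool.Agent.Lib.MP_0f5a55_nt.PP.P12
import Pool.Agent.Lib.MP_0f5a55_nt.EY.R5b
import Pool.Agent.Lib.MP_0f5a55_nt.EY.R5d

open Complex MeasureTheory Set Filter Topology
open scoped Real ComplexConjugate NumberField

namespace PP

open HC NR

variable {K : Type*} [Field K] [NumberField K]

/-- the coefficient at a prime which is a norm and does not divide the discriminant -/
private theorem Q4_split (h2 : Module.finrank ℚ K = 2) {p f : ℕ} (hp : p.Prime) (hc : p.Coprime f)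
    (hD : ¬ (p : ℤ) ∣ NumberField.discr K) {P : Ideal (𝓞 K)} (hP : Ideal.absNorm P = p)
    {ψ : Ideal (𝓞 K) →*₀ ℂ} (h : RC f ψ) : ac ψ p = ψ P + conj (ψ P) := by
  rcases ac_prime h2 hp hP with h1 | h1
  · exact h1 f ψ h hc
  · exfalso
    obtain ⟨-, ψ0, -, h0, -, e0⟩ := HC2.rc_prod h h
    have e1 : ∀ I, ψ0 I = ((‖ψ I‖ ^ 2 : ℝ) : ℂ) := by
      intro I
      rw [e0, Complex.mul_conj, Complex.normSq_eq_norm_sq]
    obtain ⟨k1, k2⟩ := h1 f ψ0 h0 hc
    rw [e1] at k1 k2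
    have k3 : (‖ψ P‖ ^ 2) ^ 2 = 1 := by exact_mod_cast k2
    have k4 : ‖ψ P‖ ^ 2 = 1 := by
      have k5 : 0 ≤ ‖ψ P‖ ^ 2 := by positivity
      nlinarith
    rw [k4, Complex.ofReal_one] at k1
    rcases HC2.loc3 (K := K) h2 p hp with ⟨P', Q', hPQ, hs⟩ | ⟨P', hPP, hN, -⟩ | hs
    · have hC : Cop f (Ideal.span {(p : 𝓞 K)}) := by
        refine (cop_iff h2 h.pos).2 ⟨?_, ?_⟩
        · intro h0
          have := H13_norm_nat (K := K) h2 p
          rw [h0, Ideal.absNorm_bot] at this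
          exact absurd this.symm (pow_ne_zero 2 hp.ne_zero)
        · rw [H13_norm_nat (K := K) h2 p]
          exact hc.pow_left 2
      have hO : Ord f (p : 𝓞 K) := ⟨p, by simp⟩
      have ht := h0.triv _ hO hC
      rw [hPQ, map_mul, e1, e1] at ht
      have hs1 := hs ψ0 1
      rw [pow_one, k1, Finset.sum_range_succ, Finset.sum_range_one] at hs1
      simp only [pow_zero, Nat.sub_zero, pow_one, one_mul, Nat.sub_self, mul_one] at hs1
      rw [e1, e1] at hs1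
      have a1 : ‖ψ P'‖ ^ 2 * ‖ψ Q'‖ ^ 2 = 1 := by exact_mod_cast ht
      have a2 : ‖ψ Q'‖ ^ 2 + ‖ψ P'‖ ^ 2 = 1 := by exact_mod_cast hs1.symm
      nlinarith [sq_nonneg (‖ψ P'‖ ^ 2 - ‖ψ Q'‖ ^ 2)]
    · exact hD (HC2.ram_dvd h2 hp hPP hN)
    · have hs1 := hs ψ0 1
      rw [pow_one, if_neg (by decide), k1] at hs1
      exact one_ne_zero hs1

private theorem Q4_empty (ψ : Ideal (𝓞 K) →*₀ ℂ) {p : ℕ} (h : ∀ P : Ideal (𝓞 K), Ideal.absNorm P ≠ p) :
    ac ψ p = 0 := by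
  unfold ac
  have e : ∀ I : Ideal (𝓞 K), (∑ᶠ (_ : Ideal.absNorm I = p), ψ I) = 0 := by
    intro I
    simp [h I]
  simp only [e, finsum_zero]

/-- Row Q4. The square of the coefficient at a prime. No ideal of norm p: both coefficients are empty sums (finsum over an empty set), ‖0‖² = 0 = 1 - 1 + 0.
P of norm p: p ∤ D, so the second case of PP.ac_prime is excluded (HC2.ram_dvd, see how PP/P17.lean does it); by the first case (for ψ and for ξ,
RC f ξ since ξ = ψ²) ac ψ p = x + conj x, ac ξ p = x² + conj x², |x| = 1: (x + conj x)² = x² + conj x² + 2 (real number). -/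
theorem ac_sq_chi (h2 : Module.finrank ℚ K = 2) {f : ℕ} {ψ ξ : Ideal (𝓞 K) →*₀ ℂ} (h : RC f ψ)
    (hξ : ∀ I, ξ I = ψ I ^ 2) {c : ℂ} {p : ℕ} (hp : p.Prime) (hpD : ¬ p ∣ (NumberField.discr K).natAbs) (hpf : ¬ p ∣ f)
    (hc : (c = 1 ∧ ∃ P : Ideal (𝓞 K), Ideal.absNorm P = p) ∨ (c = -1 ∧ ∀ P : Ideal (𝓞 K), Ideal.absNorm P ≠ p)) :
    ‖ac ψ p‖ ^ 2 = 1 + c.re + (ac ξ p).re := by
  have hR : RC f ξ := by
    refine ⟨h.pos, fun I hI => ?_, fun I hI => ?_, fun α hα hI => ?_⟩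
    · rw [hξ, norm_pow, h.cop I hI, one_pow]
    · rw [hξ, h.ncop I hI]
      exact zero_pow (by norm_num)
    · rw [hξ, h.triv α hα hI, one_pow]
  have hcf : p.Coprime f := (Nat.Prime.coprime_iff_not_dvd hp).2 hpf
  have hD : ¬ (p : ℤ) ∣ NumberField.discr K := fun h1 => hpD (Int.natCast_dvd.1 h1)
  rcases hc with ⟨rfl, P, hP⟩ | ⟨rfl, hn⟩
  · have hP0 : P ≠ ⊥ := by
      rintro rfl
      rw [Ideal.absNorm_bot] at hP
      exact hp.ne_zero hP.symm
    have hcP : Cop f P := by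
      rw [cop_iff h2 h.pos, hP]
      exact ⟨hP0, hcf⟩
    have hx : ‖ψ P‖ = 1 := h.cop P hcP
    rw [Q4_split h2 hp hcf hD hP h, Q4_split h2 hp hcf hD hP hR, hξ]
    have h3 : (ψ P).re * (ψ P).re + (ψ P).im * (ψ P).im = 1 := by
      have := Complex.sq_norm (ψ P)
      rw [hx, Complex.normSq_apply] at this
      linarith
    rw [Complex.add_conj, Complex.norm_real, Real.norm_eq_abs, sq_abs, Complex.add_re, Complex.conj_re,
      Complex.one_re, sq (ψ P), Complex.mul_re]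
    linear_combination 2 * h3
  · rw [Q4_empty ψ hn, Q4_empty ξ hn]
    simp

end PP
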