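import Pool.Agent.Lib.MP_0f5a55_nt.PP.Q0
import Pool.Agent.Lib.MP_0f5a55_nt.PP.G0

open Complex Filter Topology
open scoped Real ComplexConjugate NumberField

namespace PP

open HC NR

/-- a discriminant form and nonsquare -/
theorem Q5_disc {K : Type*} [Field K] [NumberField K] (h2 : Module.finrank ℚ K = 2) :
    (∃ c d : ℤ, NumberField.discr K = d ^ 2 + 4 * c) ∧ ∀ e : ℤ, NumberField.discr K ≠ e * e := by
  obtain ⟨b, c, d, hb, hw, hD⟩ := HC2.quad_basis (K := K) h2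
  refine ⟨⟨c, d, hD⟩, fun e he => ?_⟩
  exact (discr_ns (K := K) h2).1 ⟨e, he⟩

/-- lift a residue class prime to `n` to a number prime to `n * M` -/
theorem Q5_lift {n M r : ℕ} (hn : 0 < n) (hM : 0 < M) (h : Nat.Coprime r n) :
    ∃ s : ℕ, Nat.Coprime s (n * M) ∧ s % n = r % n := by
  have i1 : NeZero n := ⟨hn.ne'⟩
  have i2 : NeZero (n * M) := ⟨(Nat.mul_pos hn hM).ne'⟩
  obtain ⟨u, hu⟩ := ZMod.unitsMap_surjective (Dvd.intro M rfl : n ∣ n * M) (ZMod.unitOfCoprime r h)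
  refine ⟨(u : ZMod (n * M)).val, ZMod.val_coe_unit_coprime u, ?_⟩
  have h1 : (((u : ZMod (n * M)).val : ℕ) : ZMod n) = (r : ZMod n) := by
    have h3 : ((ZMod.unitsMap (Dvd.intro M rfl : n ∣ n * M) u : (ZMod n)ˣ) : ZMod n) = (r : ZMod n) := by
      rw [hu, ZMod.coe_unitOfCoprime]
    rw [← h3, ZMod.unitsMap_val, ZMod.natCast_val]
  exact (ZMod.natCast_eq_natCast_iff' _ _ _).1 h1

theorem Q5_one {D c d : ℤ} (h : D = d ^ 2 + 4 * c) (hD : D ≠ 0) (hs : ∀ e : ℤ, D ≠ e * e) : E2_chi D hD ≠ 1 := by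
  intro h1
  obtain ⟨r, hr, hj⟩ := E2_neg h hD hs
  have h3 := E2_chi_nat hD hr
  have hu : IsUnit ((r : ℕ) : ZMod (4 * D.natAbs)) := (ZMod.isUnit_iff_coprime r _).2 hr
  rw [h1, MulChar.one_apply hu, hj] at h3
  norm_num at h3

/-- Row Q5. Three nontrivial quadratic characters. D1, D2 are discriminants d² + 4c (HC2.quad_basis), so is D1 D2; none of D1, D2, D1 D2 is a square (discr_ns;
hsq). E2_neg gives r prime to 4 |D| with J(D | r) = -1, and J(D1 D2 | r) = J(D1 | r) J(D2 | r) (jacobiSym.mul_left); E2_chi_nat. changeLevel at r: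
DirichletCharacter.changeLevel_eq_cast_of_dvd. -/
theorem chi_ne {K1 K2 : Type*} [Field K1] [NumberField K1] [Field K2] [NumberField K2]
    (h2 : Module.finrank ℚ K1 = 2) (h2' : Module.finrank ℚ K2 = 2) {D1 D2 : ℤ} (e1 : D1 = NumberField.discr K1)
    (e2 : D2 = NumberField.discr K2) (hD1 : D1 ≠ 0) (hD2 : D2 ≠ 0) (hsq : ¬ IsSquare (D1 * D2)) {M : ℕ}
    (m1 : 4 * D1.natAbs ∣ M) (m2 : 4 * D2.natAbs ∣ M) (hM : 0 < M) :
    (E2_chi D1 hD1).changeLevel m1 ≠ 1 ∧ (E2_chi D2 hD2).changeLevel m2 ≠ 1 ∧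
      (E2_chi D1 hD1).changeLevel m1 * (E2_chi D2 hD2).changeLevel m2 ≠ 1 := by
  have iM : NeZero M := ⟨hM.ne'⟩
  obtain ⟨⟨c1, d1, f1⟩, g1⟩ := Q5_disc (K := K1) h2
  obtain ⟨⟨c2, d2, f2⟩, g2⟩ := Q5_disc (K := K2) h2'
  rw [← e1] at f1 g1
  rw [← e2] at f2 g2
  refine ⟨fun h => Q5_one f1 hD1 g1 ((DirichletCharacter.changeLevel_eq_one_iff m1).1 h),
    fun h => Q5_one f2 hD2 g2 ((DirichletCharacter.changeLevel_eq_one_iff m2).1 h), fun h => ?_⟩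
  have hD : D1 * D2 ≠ 0 := mul_ne_zero hD1 hD2
  have hdisc : D1 * D2 = (d1 * d2) ^ 2 + 4 * (c1 * d2 ^ 2 + c2 * d1 ^ 2 + 4 * c1 * c2) := by
    rw [f1, f2]
    ring
  obtain ⟨r, hr, hj⟩ := E2_neg hdisc hD (fun e he => hsq ⟨e, he⟩)
  have hpos : 0 < 4 * (D1 * D2).natAbs := by
    have := Int.natAbs_pos.2 hD
    omega
  obtain ⟨s, hs, hsr⟩ := Q5_lift hpos hM hr
  have hs0 : Nat.Coprime s (4 * (D1 * D2).natAbs) := hs.coprime_dvd_right (Dvd.intro M rfl)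
  have hsM : Nat.Coprime s M := hs.coprime_dvd_right (Dvd.intro_left _ rfl)
  have o1 : r % 2 = 1 := E2_odd (Dvd.intro (2 * (D1 * D2).natAbs) (by ring)) hr
  have o2 : s % 2 = 1 := E2_odd (Dvd.intro (2 * (D1 * D2).natAbs) (by ring)) hs0
  have hj2 : jacobiSym (D1 * D2) s = -1 := by
    rw [← E2_mod _ o2, hsr, E2_mod _ o1, hj]
  rw [jacobiSym.mul_left] at hj2
  have hc1 : Nat.Coprime s (4 * D1.natAbs) := hsM.coprime_dvd_right m1
  have hc2 : Nat.Coprime s (4 * D2.natAbs) := hsM.coprime_dvd_right m2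
  have hco : IsCoprime ((s : ℕ) : ℤ) (M : ℤ) := Nat.isCoprime_iff_coprime.2 hsM
  have k1 := DirichletCharacter.changeLevel_eq_cast_of_dvd' (E2_chi D1 hD1) m1 hco
  have k2 := DirichletCharacter.changeLevel_eq_cast_of_dvd' (E2_chi D2 hD2) m2 hco
  have h3 := congrArg (fun χ : DirichletCharacter ℂ M => χ (((s : ℕ) : ℤ) : ZMod M)) h
  simp only [MulChar.mul_apply] at h3
  have hu : IsUnit ((((s : ℕ) : ℤ) : ZMod M)) := by
    rw [Int.cast_natCast]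
    exact (ZMod.isUnit_iff_coprime s M).2 hsM
  rw [k1, k2, MulChar.one_apply hu, Int.cast_natCast, Int.cast_natCast, E2_chi_nat hD1 hc1, E2_chi_nat hD2 hc2,
    ← Int.cast_mul, hj2] at h3
  norm_num at h3

end PP
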