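import Pool.Agent.Lib.MP_0f5a55_nt.PP.Q2
import Pool.Agent.Lib.MP_0f5a55_nt.PP.Q4
import Pool.Agent.Lib.MP_0f5a55_nt.PP.Q5
import Pool.Agent.Lib.MP_0f5a55_nt.PP.P10
import Pool.Agent.Lib.MP_0f5a55_nt.PP.P16
import Pool.Agent.Lib.MP_0f5a55_nt.PP.B1
import Pool.Agent.Lib.MP_0f5a55_nt.NR.M08
import Pool.Agent.Lib.MP_0f5a55_nt.GG.G07

open Complex MeasureTheory Set Filter Topology
open scoped Real ComplexConjugate NumberField

namespace PP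

open HC NR

theorem Q6_conj {q : ℕ} {χ : DirichletCharacter ℂ q} (hχ : χ ^ 2 = 1) (x : ZMod q) : conj (χ x) = χ x := by
  rcases MulChar.isQuadratic_iff_sq_eq_one.mpr hχ x with h | h | h
  · rw [h, map_zero]
  · rw [h, map_one]
  · rw [h, map_neg, map_one]

theorem Q6_bd {K : Type*} [Field K] [NumberField K] (h2 : Module.finrank ℚ K = 2) {f : ℕ}
    {ψ : Ideal (𝓞 K) →*₀ ℂ} (h : RC f ψ) {p : ℕ} (hp : p.Prime) : ‖ac ψ p‖ ≤ 2 := by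
  rcases HC2.loc3 (K := K) h2 p hp with ⟨P, Q, -, hs⟩ | ⟨P, -, -, hs⟩ | hs
  · have h3 := hs ψ 1
    rw [pow_one, Finset.sum_range_succ, Finset.sum_range_one] at h3
    simp only [pow_zero, Nat.sub_zero, pow_one, one_mul, Nat.sub_self, mul_one] at h3
    rw [h3]
    refine (norm_add_le _ _).trans ?_
    linarith [HC2.nrm_le h P, HC2.nrm_le h Q]
  · have h3 := hs ψ 1
    rw [pow_one, pow_one] at h3
    rw [h3]
    linarith [HC2.nrm_le h P]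
  · have h3 := hs ψ 1
    rw [pow_one, if_neg (by decide)] at h3
    rw [h3, norm_zero]
    norm_num

theorem Q6_level {N M : ℕ} (χ : DirichletCharacter ℂ N) (m : N ∣ M) {p : ℕ} (hp : Nat.Coprime p M) :
    χ.changeLevel m (p : ZMod M) = χ (p : ZMod N) := by
  have h1 := DirichletCharacter.changeLevel_eq_cast_of_dvd χ m (ZMod.unitOfCoprime p hp)
  rw [ZMod.coe_unitOfCoprime] at h1
  rw [h1, ZMod.cast_natCast m]

theorem Q6_none {K : Type*} [Field K] [NumberField K] {ψ : Ideal (𝓞 K) →*₀ ℂ} {p : ℕ}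
    (h : ∀ P : Ideal (𝓞 K), Ideal.absNorm P ≠ p) : ac ψ p = 0 := by
  simp [ac, h]

/-- Row Q6a. Twists of a ring class coefficient by a real Dirichlet character (both signs). Proof as P16: exists_prim, dat_all, NR.twist_prime for the
primitive character; the primes dividing f contribute O(1) (P16_ac, P16_fin). conj (χ n) = χ n as χ² = 1. -/
theorem twist_real {K : Type*} [Field K] [NumberField K] (h2 : Module.finrank ℚ K = 2) {f : ℕ}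
    {ξ : Ideal (𝓞 K) →*₀ ℂ} (h : RC f ξ) (hξ : ∃ I, Cop f I ∧ ξ I ^ 2 ≠ 1) {q : ℕ} [NeZero q]
    {χ : DirichletCharacter ℂ q} (hχ : χ ^ 2 = 1) : ∃ C : ℝ, ∀ δ : ℝ, 0 < δ → δ ≤ 1 →
      Summable (fun p : Nat.Primes => (ac ξ (p : ℕ) * χ ((p : ℕ) : ZMod q)).re * ((p : ℕ) : ℝ) ^ (-(1 + δ))) ∧
      |∑' p : Nat.Primes, (ac ξ (p : ℕ) * χ ((p : ℕ) : ZMod q)).re * ((p : ℕ) : ℝ) ^ (-(1 + δ))| ≤ C := by
  obtain ⟨g, hgf, ξ', hξ', hE⟩ := exists_prim h2 h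
  have hne : ∃ I, Cop g I ∧ ξ' I ^ 2 ≠ 1 := by
    obtain ⟨I, hI, h1⟩ := hξ
    exact ⟨I, cop_mono hgf hI, by rw [hE I hI]; exact h1⟩
  obtain ⟨L, D, -⟩ := dat_all h2 hξ' hne
  obtain ⟨C, hC⟩ := NR.twist_prime D χ
  refine ⟨∑' p : Nat.Primes, (if (p : ℕ) ∣ f then
    |(ac ξ (p : ℕ) * χ ((p : ℕ) : ZMod q)).re - (ac ξ' (p : ℕ) * χ ((p : ℕ) : ZMod q)).re| else 0) + C,
    fun δ hδ hδ1 => ?_⟩
  have hB := P16_fin h.pos fun p : ℕ => |(ac ξ p * χ (p : ZMod q)).re - (ac ξ' p * χ (p : ZMod q)).re|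
  obtain ⟨hs, hlow⟩ := hC δ hδ hδ1
  simp only [Q6_conj hχ] at hs hlow
  have hG : ∀ p : Nat.Primes, ‖(ac ξ (p : ℕ) * χ ((p : ℕ) : ZMod q)).re * ((p : ℕ) : ℝ) ^ (-(1 + δ)) -
      (ac ξ' (p : ℕ) * χ ((p : ℕ) : ZMod q)).re * ((p : ℕ) : ℝ) ^ (-(1 + δ))‖ ≤
      if (p : ℕ) ∣ f then |(ac ξ (p : ℕ) * χ ((p : ℕ) : ZMod q)).re - (ac ξ' (p : ℕ) * χ ((p : ℕ) : ZMod q)).re|
        else 0 := by
    intro p
    rw [Real.norm_eq_abs]
    have hp1 : (1 : ℝ) ≤ ((p : ℕ) : ℝ) := by exact_mod_cast p.2.one_lt.le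
    have h3 : ((p : ℕ) : ℝ) ^ (-(1 + δ)) ≤ 1 :=
      Real.rpow_le_one_of_one_le_of_nonpos hp1 (by linarith)
    have h4 : 0 ≤ ((p : ℕ) : ℝ) ^ (-(1 + δ)) := Real.rpow_nonneg (by linarith) _
    by_cases h5 : (p : ℕ) ∣ f
    · rw [if_pos h5, ← sub_mul, abs_mul, abs_of_nonneg h4]
      exact mul_le_of_le_one_right (abs_nonneg _) h3
    · rw [if_neg h5, P16_ac h2 h.pos hE p.2 h5, sub_self, abs_zero]
  have hGs := Summable.of_norm_bounded hB hG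
  have hsum : Summable (fun p : Nat.Primes => (ac ξ (p : ℕ) * χ ((p : ℕ) : ZMod q)).re *
      ((p : ℕ) : ℝ) ^ (-(1 + δ))) := (hGs.add hs).congr fun p => by ring
  refine ⟨hsum, ?_⟩
  have h6 : ∑' p : Nat.Primes, (ac ξ (p : ℕ) * χ ((p : ℕ) : ZMod q)).re * ((p : ℕ) : ℝ) ^ (-(1 + δ)) =
      ∑' p : Nat.Primes, ((ac ξ (p : ℕ) * χ ((p : ℕ) : ZMod q)).re * ((p : ℕ) : ℝ) ^ (-(1 + δ)) -
      (ac ξ' (p : ℕ) * χ ((p : ℕ) : ZMod q)).re * ((p : ℕ) : ℝ) ^ (-(1 + δ))) +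
      ∑' p : Nat.Primes, (ac ξ' (p : ℕ) * χ ((p : ℕ) : ZMod q)).re * ((p : ℕ) : ℝ) ^ (-(1 + δ)) := by
    rw [← hGs.tsum_add hs]
    exact tsum_congr fun p => by ring
  rw [h6]
  refine (abs_add_le _ _).trans (add_le_add ?_ hlow)
  exact tsum_of_norm_bounded hB.hasSum hG

/-- Row Q6b. Divergence for two different fields. ξ = ψ1² (MonoidWithZeroHom ψ1 * ψ1 or HC2.rc_prod), RC f1 ξ. M = 4 |D1| · 4 |D2|, X1, X2 the characters E2_chi at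
level M (changeLevel), real, X1, X2, X1 X2 ≠ 1 (chi_ne). For p ∤ M f1 f2: chi_split for K1, K2. If X2 p = -1 then ac ψ2 p = 0 and ‖a1 + a2‖² = ‖a1‖² =
1 + X1 + ac ξ (ac_sq_chi); so always ‖a1 + a2‖² ≥ (1/2)(1 - X2)(1 + X1 + ac ξ) = (1/2)(1 + X1 - X2 - X1 X2 + ac ξ - X2 ac ξ) (at X2 = 1 the right side is
0). The primes dividing M f1 f2 contribute O(1). GG.prime_sum_triv (main term (1/2) log(1/δ)), GG.prime_sum_nontriv for X1, X2, X1 X2, twist_real for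
ac ξ (χ = 1) and X2 ac ξ. η = 1/2. -/
theorem divl {K1 K2 : Type*} [Field K1] [NumberField K1] [Field K2] [NumberField K2]
    (h2 : Module.finrank ℚ K1 = 2) (h2' : Module.finrank ℚ K2 = 2) {f1 f2 : ℕ} {ψ1 : Ideal (𝓞 K1) →*₀ ℂ}
    {ψ2 : Ideal (𝓞 K2) →*₀ ℂ} (h1 : RC f1 ψ1) (h1' : RC f2 ψ2)
    (hsq : ¬ IsSquare (NumberField.discr K1 * NumberField.discr K2)) (h4 : ∃ I, Cop f1 I ∧ ψ1 I ^ 4 ≠ 1) :
    DivL (ac ψ1) (ac ψ2) := by
  have hD1 : NumberField.discr K1 ≠ 0 := NumberField.discr_ne_zero K1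
  have hD2 : NumberField.discr K2 ≠ 0 := NumberField.discr_ne_zero K2
  have hf1 := h1.pos
  have hf2 := h1'.pos
  obtain ⟨M, hMdef⟩ : ∃ M : ℕ, M = 4 * (NumberField.discr K1).natAbs * (4 * (NumberField.discr K2).natAbs) := ⟨_, rfl⟩
  have m1 : 4 * (NumberField.discr K1).natAbs ∣ M := ⟨_, hMdef⟩
  have m2 : 4 * (NumberField.discr K2).natAbs ∣ M := ⟨4 * (NumberField.discr K1).natAbs, by rw [hMdef]; ring⟩
  have hM : 0 < M := by
    have a1 := Int.natAbs_pos.2 hD1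
    have a2 := Int.natAbs_pos.2 hD2
    rw [hMdef]
    positivity
  have : NeZero M := ⟨hM.ne'⟩
  obtain ⟨n1, n2, n3⟩ := chi_ne h2 h2' rfl rfl hD1 hD2 hsq m1 m2 hM
  obtain ⟨X1, hX1⟩ : ∃ X1 : DirichletCharacter ℂ M, X1 = (E2_chi (NumberField.discr K1) hD1).changeLevel m1 := ⟨_, rfl⟩
  obtain ⟨X2, hX2⟩ : ∃ X2 : DirichletCharacter ℂ M, X2 = (E2_chi (NumberField.discr K2) hD2).changeLevel m2 := ⟨_, rfl⟩
  have sX2 : X2 ^ 2 = 1 := by rw [hX2, ← map_pow, E2_chi_sq, map_one]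
  rw [← hX1] at n1 n3
  rw [← hX2] at n2 n3
  obtain ⟨ξ, -, hξ, -, E, -⟩ := HC2.rc_prod h1 h1
  have E' : ∀ I, ξ I = ψ1 I ^ 2 := fun I => by rw [E, sq]
  have hξ2 : ∃ I, Cop f1 I ∧ ξ I ^ 2 ≠ 1 := by
    obtain ⟨I, hI, h3⟩ := h4
    refine ⟨I, hI, ?_⟩
    rw [E', ← pow_mul]
    exact h3
  obtain ⟨C0, t0⟩ := GG.prime_sum_triv M
  obtain ⟨C1, t1⟩ := GG.prime_sum_nontriv n1
  obtain ⟨C2, t2⟩ := GG.prime_sum_nontriv n2
  obtain ⟨C3, t3⟩ := GG.prime_sum_nontriv n3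
  obtain ⟨C4, t4⟩ := twist_real h2 hξ hξ2 (q := M) (χ := 1) (one_pow 2)
  obtain ⟨C5, t5⟩ := twist_real h2 hξ hξ2 sX2
  -- the values
  obtain ⟨R, hR⟩ : ∃ R : ℕ → ℝ, R = fun p : ℕ => 1 / 2 * (((1 : DirichletCharacter ℂ M) (p : ZMod M)).re + (X1 (p : ZMod M)).re -
    (X2 (p : ZMod M)).re - ((X1 * X2) (p : ZMod M)).re + (ac ξ p * (1 : DirichletCharacter ℂ M) (p : ZMod M)).re -
    (ac ξ p * X2 (p : ZMod M)).re) := ⟨_, rfl⟩
  have hgood : ∀ p : ℕ, p.Prime → ¬ p ∣ M * (f1 * f2) → R p ≤ ‖ac ψ1 p + ac ψ2 p‖ ^ 2 := by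
    intro p hp hpM
    have hpM' : ¬ p ∣ M := fun h => hpM (h.mul_right _)
    have hpf1 : ¬ p ∣ f1 := fun h => hpM ((h.mul_right _).mul_left _)
    have hcop : Nat.Coprime p M := (Nat.Prime.coprime_iff_not_dvd hp).2 hpM'
    have d1 : ¬ p ∣ 4 * (NumberField.discr K1).natAbs := fun h => hpM' (h.trans m1)
    have d2 : ¬ p ∣ 4 * (NumberField.discr K2).natAbs := fun h => hpM' (h.trans m2)
    have d1' : ¬ p ∣ (NumberField.discr K1).natAbs := fun h => d1 (h.mul_left _)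
    have c1 := chi_split h2 rfl hD1 p hp d1
    have c2 := chi_split h2' rfl hD2 p hp d2
    have v1 : X1 (p : ZMod M) = E2_chi (NumberField.discr K1) hD1 (p : ZMod (4 * (NumberField.discr K1).natAbs)) := by
      rw [hX1]
      exact Q6_level _ m1 hcop
    have v2 : X2 (p : ZMod M) = E2_chi (NumberField.discr K2) hD2 (p : ZMod (4 * (NumberField.discr K2).natAbs)) := by
      rw [hX2]
      exact Q6_level _ m2 hcop
    rw [← v1] at c1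
    rw [← v2] at c2
    have v0 : (1 : DirichletCharacter ℂ M) (p : ZMod M) = 1 :=
      MulChar.one_apply ((ZMod.isUnit_iff_coprime p M).2 hcop)
    have hsq1 := ac_sq_chi h2 h1 E' hp d1' hpf1 c1
    rw [hR]
    show 1 / 2 * (((1 : DirichletCharacter ℂ M) (p : ZMod M)).re + (X1 (p : ZMod M)).re -
      (X2 (p : ZMod M)).re - ((X1 * X2) (p : ZMod M)).re + (ac ξ p * (1 : DirichletCharacter ℂ M) (p : ZMod M)).re -
      (ac ξ p * X2 (p : ZMod M)).re) ≤ ‖ac ψ1 p + ac ψ2 p‖ ^ 2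
    rw [MulChar.mul_apply, v0, mul_one]
    rcases c2 with ⟨c2, -⟩ | ⟨c2, hno⟩
    · rw [c2, mul_one, mul_one, Complex.one_re]
      have : 0 ≤ ‖ac ψ1 p + ac ψ2 p‖ ^ 2 := by positivity
      linarith
    · rw [c2, Q6_none hno, add_zero, hsq1, mul_neg, mul_neg, mul_one, mul_one, Complex.neg_re, Complex.neg_re,
        Complex.neg_re, Complex.one_re]
      linarith
  have hB := P16_fin (f := M * (f1 * f2)) (by positivity) fun p => |R p|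
  refine ⟨1 / 2, 1 / 2 * (C0 + C1 + C2 + C3 + C4 + C5) +
    ∑' p : Nat.Primes, (if (p : ℕ) ∣ M * (f1 * f2) then |R (p : ℕ)| else 0), by norm_num, fun δ hδ hδ1 => ?_⟩
  have hps : Summable fun p : Nat.Primes => ((p : ℕ) : ℝ) ^ (-(1 + δ)) :=
    Nat.Primes.summable_rpow.2 (by linarith)
  have hch : ∀ X : DirichletCharacter ℂ M, Summable fun p : Nat.Primes =>
      (X ((p : ℕ) : ZMod M)).re * ((p : ℕ) : ℝ) ^ (-(1 + δ)) := by
    intro X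
    refine Summable.of_norm_bounded hps fun p => ?_
    have h0 : 0 ≤ ((p : ℕ) : ℝ) ^ (-(1 + δ)) := by positivity
    rw [norm_mul, Real.norm_eq_abs, Real.norm_eq_abs, abs_of_nonneg h0]
    exact mul_le_of_le_one_left h0 ((Complex.abs_re_le_norm _).trans (DirichletCharacter.norm_le_one X _))
  have hS : Summable fun p : Nat.Primes => ‖ac ψ1 (p : ℕ) + ac ψ2 (p : ℕ)‖ ^ 2 * ((p : ℕ) : ℝ) ^ (-(1 + δ)) := by
    refine Summable.of_norm_bounded (hps.mul_left 16) fun p => ?_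
    have h0 : 0 ≤ ((p : ℕ) : ℝ) ^ (-(1 + δ)) := by positivity
    rw [norm_mul, Real.norm_eq_abs, Real.norm_eq_abs, abs_of_nonneg h0, abs_of_nonneg (by positivity)]
    refine mul_le_mul_of_nonneg_right ?_ h0
    have h5 : ‖ac ψ1 (p : ℕ) + ac ψ2 (p : ℕ)‖ ≤ 4 :=
      (norm_add_le _ _).trans (by linarith [Q6_bd h2 h1 p.2, Q6_bd h2' h1' p.2])
    have h6 := norm_nonneg (ac ψ1 (p : ℕ) + ac ψ2 (p : ℕ))
    nlinarith
  have u0 := t0 δ hδ hδ1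
  have u1 := (t1 δ hδ hδ1).2
  have u2 := (t2 δ hδ hδ1).2
  have u3 := (t3 δ hδ hδ1).2
  obtain ⟨w4, u4⟩ := t4 δ hδ hδ1
  obtain ⟨w5, u5⟩ := t5 δ hδ hδ1
  have hsum := ((((((hch 1).hasSum.add (hch X1).hasSum).sub (hch X2).hasSum).sub (hch (X1 * X2)).hasSum).add
    w4.hasSum).sub w5.hasSum).mul_left (1 / 2)
  have hle := hasSum_le (fun p : Nat.Primes => ?_) hsum (hS.hasSum.add hB.hasSum)
  · have a0 := (abs_le.1 u0).1
    have a1 := (abs_le.1 u1).1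
    have a2 := (abs_le.1 u2).2
    have a3 := (abs_le.1 u3).2
    have a4 := (abs_le.1 u4).1
    have a5 := (abs_le.1 u5).2
    linarith
  · have h0 : 0 ≤ ((p : ℕ) : ℝ) ^ (-(1 + δ)) := by positivity
    have hp1 : (1 : ℝ) ≤ ((p : ℕ) : ℝ) := by exact_mod_cast p.2.one_lt.le
    have h3 : ((p : ℕ) : ℝ) ^ (-(1 + δ)) ≤ 1 :=
      Real.rpow_le_one_of_one_le_of_nonpos hp1 (by linarith)
    have e : 1 / 2 * (((1 : DirichletCharacter ℂ M) ((p : ℕ) : ZMod M)).re * ((p : ℕ) : ℝ) ^ (-(1 + δ)) +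
        (X1 ((p : ℕ) : ZMod M)).re * ((p : ℕ) : ℝ) ^ (-(1 + δ)) -
        (X2 ((p : ℕ) : ZMod M)).re * ((p : ℕ) : ℝ) ^ (-(1 + δ)) -
        ((X1 * X2) ((p : ℕ) : ZMod M)).re * ((p : ℕ) : ℝ) ^ (-(1 + δ)) +
        (ac ξ (p : ℕ) * (1 : DirichletCharacter ℂ M) ((p : ℕ) : ZMod M)).re * ((p : ℕ) : ℝ) ^ (-(1 + δ)) -
        (ac ξ (p : ℕ) * X2 ((p : ℕ) : ZMod M)).re * ((p : ℕ) : ℝ) ^ (-(1 + δ))) =
        R (p : ℕ) * ((p : ℕ) : ℝ) ^ (-(1 + δ)) := by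
      rw [hR]
      ring
    rw [e]
    by_cases hd : (p : ℕ) ∣ M * (f1 * f2)
    · rw [if_pos hd]
      have k1 : R (p : ℕ) * ((p : ℕ) : ℝ) ^ (-(1 + δ)) ≤ |R (p : ℕ)| * 1 :=
        mul_le_mul (le_abs_self _) h3 h0 (abs_nonneg _)
      have k2 : 0 ≤ ‖ac ψ1 (p : ℕ) + ac ψ2 (p : ℕ)‖ ^ 2 * ((p : ℕ) : ℝ) ^ (-(1 + δ)) := by positivity
      linarith
    · rw [if_neg hd, add_zero]
      exact mul_le_mul_of_nonneg_right (hgood p p.2 hd) h0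

end PP
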