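import Pool.Agent.Lib.MP_0f5a55_nt.PP.Q3
import Pool.Agent.Lib.MP_0f5a55_nt.PP.Q6
import Pool.Agent.Lib.MP_0f5a55_nt.FF.F08

open Complex MeasureTheory Set Filter Topology
open scoped Real ComplexConjugate NumberField

namespace PP

open HC NR

theorem DivL.symm {a1 a2 : ℕ → ℂ} (h : DivL a1 a2) : DivL a2 a1 := by
  obtain ⟨η, C, hη, hh⟩ := h
  refine ⟨η, C, hη, fun δ h0 h1 => (hh δ h0 h1).trans (le_of_eq (tsum_congr fun p => ?_))⟩
  rw [add_comm]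

theorem Q7_sq {m n r s : ℕ} (hr : 0 < r) (hs : 0 < s) (h : ¬ IsSquare (m * n)) :
    ¬ IsSquare (m * r ^ 2 * 1 * (n * s ^ 2) * 1) := by
  rintro ⟨t, ht⟩
  apply h
  have h1 : (r * s) ^ 2 * (m * n) = t ^ 2 := by
    calc (r * s) ^ 2 * (m * n) = m * r ^ 2 * 1 * (n * s ^ 2) * 1 := by ring
      _ = t * t := ht
      _ = t ^ 2 := by ring
  have h2 : (r * s) ^ 2 ∣ t ^ 2 := Dvd.intro _ h1
  have h5 : r * s ∣ t := (Nat.pow_dvd_pow_iff two_ne_zero).1 h2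
  obtain ⟨u, hu⟩ := h5
  refine ⟨u, ?_⟩
  have h3 : 0 < (r * s) ^ 2 := by positivity
  have h6 : (r * s) ^ 2 * (m * n) = (r * s) ^ 2 * (u * u) := by
    rw [h1, hu]
    ring
  exact Nat.eq_of_mul_eq_mul_left h3 h6

/-- the pair theorem for two different quadratic fields -/
theorem pair_diff {K1 K2 : Type*} [Field K1] [NumberField K1] [Field K2] [NumberField K2]
    (h2 : Module.finrank ℚ K1 = 2) (h2' : Module.finrank ℚ K2 = 2) {f1 f2 : ℕ} {ψ1 : Ideal (𝓞 K1) →*₀ ℂ}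
    {ψ2 : Ideal (𝓞 K2) →*₀ ℂ} (h1 : RingClass f1 ψ1) (h1' : RingClass f2 ψ2)
    (hsq : ¬ IsSquare ((NumberField.discr K1).natAbs * (NumberField.discr K2).natAbs))
    (h4 : (∃ I, Cop f1 I ∧ ψ1 I ^ 4 ≠ 1) ∨ ∃ I, Cop f2 I ∧ ψ2 I ^ 4 ≠ 1)
    {L1 L2 : ℂ → ℂ} (D1 : NR.Dat (lev K1 f1) (ac ψ1) L1) (D2 : NR.Dat (lev K2 f2) (ac ψ2) L2) :
    {g : ℝ | 0 < g ∧ Odd (analyticOrderNatAt L1 (1 / 2 + g * I) +
      analyticOrderNatAt L2 (1 / 2 + g * I))}.Infinite := by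
  have hz : ¬ IsSquare (NumberField.discr K1 * NumberField.discr K2) := by
    rintro ⟨t, ht⟩
    apply hsq
    refine ⟨t.natAbs, ?_⟩
    rw [← Int.natAbs_mul, ht, Int.natAbs_mul]
  have hz' : ¬ IsSquare (NumberField.discr K2 * NumberField.discr K1) := by rwa [mul_comm]
  have hd : DivL (ac ψ1) (ac ψ2) := by
    rcases h4 with h4 | h4
    · exact divl h2 h2' (RC.of h1) (RC.of h1') hz h4
    · exact (divl h2' h2 (RC.of h1') (RC.of h1) hz' h4).symm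
  refine odd_irr D1 D2 hd ?_
  have p1 : 0 < lev K1 f1 := D1.pos
  have p2 : 0 < lev K2 f2 := D2.pos
  refine FF.quad_of_nonsquare p1 one_pos p2 one_pos ?_
  exact Q7_sq h1.pos h1'.pos hsq

end PP
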