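import Mathlib
import Pool.Agent.Lib.MP_0f5a55_nt.EY.R5a
import Pool.Agent.Lib.MP_0f5a55_nt.NR.A18
import Pool.Agent.Lib.MP_0f5a55_nt.NR.A1

/-!
Partial sums of the coefficients of a nontrivial ring class character; Dirichlet's hyperbola method
and a Moebius inversion for partial sums.
-/

open Finset

namespace PP

theorem R50_half (Z : ℕ) : ∑ m ∈ Ioc 0 Z, 1 / √(m : ℝ) ≤ 2 * √(Z : ℝ) := by
  induction Z with
  | zero => simp
  | succ Z ih =>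
    rw [← Finset.insert_Ioc_right_eq_Ioc_add_one (by omega), Finset.sum_insert (by simp)]
    have h1 : (0 : ℝ) < √((Z + 1 : ℕ) : ℝ) := Real.sqrt_pos.2 (by positivity)
    have h2 : √(Z : ℝ) ≤ √((Z + 1 : ℕ) : ℝ) := Real.sqrt_le_sqrt (by push_cast; linarith)
    have h3 : √((Z + 1 : ℕ) : ℝ) ^ 2 = Z + 1 := by
      rw [Real.sq_sqrt (by positivity)]; push_cast; ring
    have h4 : √(Z : ℝ) ^ 2 = Z := Real.sq_sqrt (by positivity)
    have h5 : 1 / √((Z + 1 : ℕ) : ℝ) ≤ 2 * (√((Z + 1 : ℕ) : ℝ) - √(Z : ℝ)) := by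
      rw [div_le_iff₀ h1]
      nlinarith [sq_nonneg (√((Z + 1 : ℕ) : ℝ) - √(Z : ℝ))]
    linarith

/-- n ↦ 1/√n -/
noncomputable def R50_phi : ArithmeticFunction ℝ := ⟨fun n => if n = 0 then 0 else 1 / √(n : ℝ), by simp⟩

theorem R50_phi_apply {n : ℕ} (hn : 0 < n) : R50_phi n = 1 / √(n : ℝ) := by
  show (if n = 0 then (0 : ℝ) else 1 / √(n : ℝ)) = _
  rw [if_neg hn.ne']

theorem R50_har (Y : ℕ) : ∑ n ∈ Ioc 0 Y, 1 / (n : ℝ) ≤ 1 + Real.log Y := by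
  have h := harmonic_le_one_add_log Y
  rw [harmonic_eq_sum_Icc] at h
  push_cast at h
  have e : (Ioc 0 Y) = Icc 1 Y := rfl
  rw [e]
  simpa [one_div] using h

theorem R50_d {Y : ℕ} (hY : 1 ≤ Y) :
    ∑ n ∈ Ioc 0 Y, (n.divisors.card : ℝ) / √(n : ℝ) ≤ 2 * √(Y : ℝ) * (1 + Real.log Y) := by
  have h1 : ∀ n ∈ Ioc 0 Y, (n.divisors.card : ℝ) / √(n : ℝ) = (R50_phi * R50_phi) n := by
    intro n hn
    rw [ArithmeticFunction.mul_apply]
    have h2 : ∀ p ∈ n.divisorsAntidiagonal, R50_phi p.1 * R50_phi p.2 = 1 / √(n : ℝ) := by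
      intro p hp
      obtain ⟨h3, h4⟩ := Nat.mem_divisorsAntidiagonal.1 hp
      have h5 : 0 < p.1 := Nat.pos_of_ne_zero (by rintro h0; rw [h0, zero_mul] at h3; exact h4 h3.symm)
      have h6 : 0 < p.2 := Nat.pos_of_ne_zero (by rintro h0; rw [h0, mul_zero] at h3; exact h4 h3.symm)
      rw [R50_phi_apply h5, R50_phi_apply h6, ← h3]
      push_cast
      rw [Real.sqrt_mul (by positivity)]
      field_simp
    have h7 : n.divisorsAntidiagonal.card = n.divisors.card := by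
      rw [← Nat.map_div_right_divisors, Finset.card_map]
    rw [Finset.sum_congr rfl h2, Finset.sum_const, nsmul_eq_mul, h7]
    ring
  rw [Finset.sum_congr rfl h1, ArithmeticFunction.sum_Ioc_mul_eq_sum_sum]
  have h2 : ∀ n ∈ Ioc 0 Y, R50_phi n * ∑ m ∈ Ioc 0 (Y / n), R50_phi m ≤ 2 * √(Y : ℝ) * (1 / (n : ℝ)) := by
    intro n hn
    have hn0 : 0 < n := (Finset.mem_Ioc.1 hn).1
    have hn0' : (0 : ℝ) < n := by exact_mod_cast hn0
    have h3 : ∑ m ∈ Ioc 0 (Y / n), R50_phi m = ∑ m ∈ Ioc 0 (Y / n), 1 / √(m : ℝ) :=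
      Finset.sum_congr rfl fun m hm => R50_phi_apply (Finset.mem_Ioc.1 hm).1
    have h4 := R50_half (Y / n)
    have h5 : √((Y / n : ℕ) : ℝ) ≤ √(Y : ℝ) / √(n : ℝ) := by
      rw [← Real.sqrt_div (by positivity)]
      exact Real.sqrt_le_sqrt Nat.cast_div_le
    rw [R50_phi_apply hn0, h3]
    have h6 : (0 : ℝ) < √(n : ℝ) := Real.sqrt_pos.2 hn0'
    calc 1 / √(n : ℝ) * ∑ m ∈ Ioc 0 (Y / n), 1 / √(m : ℝ)
        ≤ 1 / √(n : ℝ) * (2 * (√(Y : ℝ) / √(n : ℝ))) :=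
          mul_le_mul_of_nonneg_left (h4.trans (by linarith)) (by positivity)
      _ = 2 * √(Y : ℝ) * (1 / (n : ℝ)) := by
          rw [← Real.mul_self_sqrt hn0'.le]
          have : √(√(n : ℝ) * √(n : ℝ)) = √(n : ℝ) := by rw [Real.mul_self_sqrt hn0'.le]
          rw [this]
          field_simp
  refine (Finset.sum_le_sum h2).trans ?_
  rw [← Finset.mul_sum]
  exact mul_le_mul_of_nonneg_left (R50_har Y) (by positivity)

/-- the hyperbola identity -/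
theorem R50_split (f g : ArithmeticFunction ℂ) (x : ℕ) :
    ∑ n ∈ Ioc 0 x, (f * g) n = ∑ a ∈ Ioc 0 x.sqrt, f a * ∑ b ∈ Ioc 0 (x / a), g b +
      ∑ b ∈ Ioc 0 x.sqrt, g b * (∑ a ∈ Ioc 0 (x / b), f a - ∑ a ∈ Ioc 0 x.sqrt, f a) := by
  have hY : x.sqrt ≤ x := Nat.sqrt_le_self x
  have hY1 : x < (x.sqrt + 1) * (x.sqrt + 1) := Nat.lt_succ_sqrt x
  have hY2 : x.sqrt * x.sqrt ≤ x := Nat.sqrt_le x
  rw [ArithmeticFunction.sum_Ioc_mul_eq_sum_sum, ← Finset.sum_Ioc_consecutive _ (Nat.zero_le _) hY]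
  congr 1
  have h1 : ∑ i ∈ Ioc x.sqrt x, f i * ∑ m ∈ Ioc 0 (x / i), g m =
      ∑ i ∈ Ioc x.sqrt x, ∑ m ∈ Ioc 0 (x / i), f i * g m :=
    Finset.sum_congr rfl fun i _ => Finset.mul_sum _ _ _
  rw [h1, Finset.sum_comm' (t' := Ioc 0 x.sqrt) (s' := fun b => Ioc x.sqrt (x / b))]
  · refine Finset.sum_congr rfl fun b hb => ?_
    obtain ⟨hb0, hb1⟩ := Finset.mem_Ioc.1 hb
    have h2 : x.sqrt ≤ x / b := by
      rw [Nat.le_div_iff_mul_le hb0]
      exact (Nat.mul_le_mul_left _ hb1).trans hY2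
    rw [← Finset.sum_Ioc_consecutive (fun a => f a) (Nat.zero_le _) h2, add_sub_cancel_left, Finset.mul_sum]
    exact Finset.sum_congr rfl fun i _ => mul_comm _ _
  · intro a b
    simp only [Finset.mem_Ioc]
    constructor
    · rintro ⟨⟨h2, h3⟩, h4, h5⟩
      have ha0 : 0 < a := by omega
      rw [Nat.le_div_iff_mul_le ha0] at h5
      have hb : b ≤ x.sqrt := by
        by_contra hc
        push Not at hc
        have := Nat.mul_le_mul (Nat.succ_le_of_lt hc) (Nat.succ_le_of_lt h2)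
        simp only [Nat.succ_eq_add_one] at this
        omega
      refine ⟨⟨h2, ?_⟩, h4, hb⟩
      rw [Nat.le_div_iff_mul_le h4, mul_comm]
      exact h5
    · rintro ⟨⟨h2, h3⟩, h4, h5⟩
      have h6 := h3
      rw [Nat.le_div_iff_mul_le h4] at h6
      have ha0 : 0 < a := by omega
      refine ⟨⟨h2, h3.trans (Nat.div_le_self _ _)⟩, h4, ?_⟩
      rw [Nat.le_div_iff_mul_le ha0, mul_comm]
      exact h6

/-- the bound -/
theorem R50_hyp {f g : ArithmeticFunction ℂ} {C1 C2 : ℝ} (hC1 : 0 ≤ C1) (hC2 : 0 ≤ C2)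
    (hf : ∀ x : ℕ, 1 ≤ x → ‖∑ n ∈ Ioc 0 x, f n‖ ≤ C1 * √(x : ℝ))
    (hg : ∀ x : ℕ, 1 ≤ x → ‖∑ n ∈ Ioc 0 x, g n‖ ≤ C2 * (√(x : ℝ) * (1 + Real.log x)))
    (df : ∀ n : ℕ, 0 < n → ‖f n‖ ≤ (n.divisors.card : ℝ))
    (dg : ∀ n : ℕ, 0 < n → ‖g n‖ ≤ (n.divisors.card : ℝ)) (x : ℕ) (hx : 1 ≤ x) :
    ‖∑ n ∈ Ioc 0 x, (f * g) n‖ ≤ (4 * C1 + 2 * C2) * (√(x : ℝ) * √√(x : ℝ) * (1 + Real.log x) ^ 2) := by
  have hx0 : (0 : ℝ) < x := by exact_mod_cast hx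
  set Y : ℕ := x.sqrt with hYdef
  have hY1 : 1 ≤ Y := Nat.sqrt_pos.2 hx
  have hYx : Y ≤ x := Nat.sqrt_le_self x
  have hYY : Y * Y ≤ x := Nat.sqrt_le x
  have hYY' : (Y : ℝ) * Y ≤ x := by exact_mod_cast hYY
  have hlog0 : 0 ≤ Real.log x := Real.log_nonneg (by exact_mod_cast hx)
  have hlogY0 : 0 ≤ Real.log Y := Real.log_nonneg (by exact_mod_cast hY1)
  have hlogY : Real.log Y ≤ Real.log x :=
    Real.log_le_log (by exact_mod_cast hY1) (by exact_mod_cast hYx)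
  have hsY : √(Y : ℝ) ≤ √√(x : ℝ) := by
    apply Real.sqrt_le_sqrt
    apply Real.le_sqrt_of_sq_le
    rw [sq]
    exact hYY'
  have hD := R50_d hY1
  have hD' : ∑ n ∈ Ioc 0 Y, (n.divisors.card : ℝ) / √(n : ℝ) ≤ 2 * √√(x : ℝ) * (1 + Real.log x) := by
    refine hD.trans ?_
    have h1 : 0 ≤ √(Y : ℝ) := Real.sqrt_nonneg _
    nlinarith
  have hA : ‖∑ a ∈ Ioc 0 Y, f a * ∑ b ∈ Ioc 0 (x / a), g b‖ ≤
      C2 * (√(x : ℝ) * (1 + Real.log x)) * (2 * √√(x : ℝ) * (1 + Real.log x)) := by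
    refine (norm_sum_le _ _).trans ?_
    refine le_trans (Finset.sum_le_sum (g := fun a : ℕ => C2 * (√(x : ℝ) * (1 + Real.log x)) *
      ((a.divisors.card : ℝ) / √(a : ℝ))) fun a ha => ?_) ?_
    · obtain ⟨ha0, haY⟩ := Finset.mem_Ioc.1 ha
      have ha0' : (0 : ℝ) < a := by exact_mod_cast ha0
      have h1 : 1 ≤ x / a := by
        rw [Nat.one_le_div_iff ha0]
        omega
      have h2 := hg _ h1
      have h3 : √((x / a : ℕ) : ℝ) ≤ √(x : ℝ) / √(a : ℝ) := by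
        rw [← Real.sqrt_div hx0.le]
        exact Real.sqrt_le_sqrt Nat.cast_div_le
      have h4 : Real.log ((x / a : ℕ) : ℝ) ≤ Real.log x :=
        Real.log_le_log (by exact_mod_cast h1) (by exact_mod_cast Nat.div_le_self _ _)
      have h5 : 0 ≤ Real.log ((x / a : ℕ) : ℝ) := Real.log_nonneg (by exact_mod_cast h1)
      have h6 : √((x / a : ℕ) : ℝ) * (1 + Real.log ((x / a : ℕ) : ℝ)) ≤
          √(x : ℝ) / √(a : ℝ) * (1 + Real.log x) :=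
        mul_le_mul h3 (by linarith) (by linarith) (by positivity)
      rw [norm_mul]
      calc ‖f a‖ * ‖∑ b ∈ Ioc 0 (x / a), g b‖
          ≤ (a.divisors.card : ℝ) * (C2 * (√(x : ℝ) / √(a : ℝ) * (1 + Real.log x))) :=
            mul_le_mul (df a ha0) (h2.trans (mul_le_mul_of_nonneg_left h6 hC2)) (norm_nonneg _)
              (Nat.cast_nonneg _)
        _ = C2 * (√(x : ℝ) * (1 + Real.log x)) * ((a.divisors.card : ℝ) / √(a : ℝ)) := by ring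
    · rw [← Finset.mul_sum]
      exact mul_le_mul_of_nonneg_left hD' (by positivity)
  have hB : ‖∑ b ∈ Ioc 0 Y, g b * (∑ a ∈ Ioc 0 (x / b), f a - ∑ a ∈ Ioc 0 Y, f a)‖ ≤
      2 * C1 * √(x : ℝ) * (2 * √√(x : ℝ) * (1 + Real.log x)) := by
    refine (norm_sum_le _ _).trans ?_
    refine le_trans (Finset.sum_le_sum (g := fun b : ℕ => 2 * C1 * √(x : ℝ) *
      ((b.divisors.card : ℝ) / √(b : ℝ))) fun b hb => ?_) ?_
    · obtain ⟨hb0, hbY⟩ := Finset.mem_Ioc.1 hb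
      have hb0' : (0 : ℝ) < b := by exact_mod_cast hb0
      have h1 : 1 ≤ x / b := by
        rw [Nat.one_le_div_iff hb0]
        omega
      have h2 := hf _ h1
      have h3 : √((x / b : ℕ) : ℝ) ≤ √(x : ℝ) / √(b : ℝ) := by
        rw [← Real.sqrt_div hx0.le]
        exact Real.sqrt_le_sqrt Nat.cast_div_le
      have h4 := hf _ hY1
      have h5 : √(Y : ℝ) ≤ √(x : ℝ) / √(b : ℝ) := by
        rw [← Real.sqrt_div hx0.le]
        apply Real.sqrt_le_sqrt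
        rw [le_div_iff₀ hb0']
        have : (b : ℝ) ≤ Y := by exact_mod_cast hbY
        nlinarith [(Nat.cast_nonneg Y : (0 : ℝ) ≤ Y)]
      have h6 : ‖∑ a ∈ Ioc 0 (x / b), f a - ∑ a ∈ Ioc 0 Y, f a‖ ≤ 2 * C1 * (√(x : ℝ) / √(b : ℝ)) := by
        refine (norm_sub_le _ _).trans ?_
        have h7 := mul_le_mul_of_nonneg_left h3 hC1
        have h8 := mul_le_mul_of_nonneg_left h5 hC1
        linarith
      rw [norm_mul]
      calc ‖g b‖ * ‖∑ a ∈ Ioc 0 (x / b), f a - ∑ a ∈ Ioc 0 Y, f a‖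
          ≤ (b.divisors.card : ℝ) * (2 * C1 * (√(x : ℝ) / √(b : ℝ))) :=
            mul_le_mul (dg b hb0) h6 (norm_nonneg _) (Nat.cast_nonneg _)
        _ = 2 * C1 * √(x : ℝ) * ((b.divisors.card : ℝ) / √(b : ℝ)) := by ring
    · rw [← Finset.mul_sum]
      exact mul_le_mul_of_nonneg_left hD' (by positivity)
  rw [R50_split]
  refine (norm_add_le _ _).trans ((add_le_add hA hB).trans ?_)
  have e1 : C2 * (√(x : ℝ) * (1 + Real.log x)) * (2 * √√(x : ℝ) * (1 + Real.log x)) =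
      2 * C2 * (√(x : ℝ) * √√(x : ℝ) * (1 + Real.log x) ^ 2) := by ring
  have e2 : 2 * C1 * √(x : ℝ) * (2 * √√(x : ℝ) * (1 + Real.log x)) =
      4 * C1 * (√(x : ℝ) * √√(x : ℝ) * (1 + Real.log x)) := by ring
  rw [e1, e2, add_mul]
  have e3 : √(x : ℝ) * √√(x : ℝ) * (1 + Real.log x) ≤ √(x : ℝ) * √√(x : ℝ) * (1 + Real.log x) ^ 2 := by
    apply mul_le_mul_of_nonneg_left _ (by positivity)
    nlinarith
  nlinarith [mul_le_mul_of_nonneg_left e3 (by positivity : (0 : ℝ) ≤ 4 * C1)]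

/-- sum of the Moebius function over the divisors -/
theorem R50_mu {k : ℕ} : ∑ p ∈ k.divisorsAntidiagonal, (ArithmeticFunction.moebius p.1 : ℂ) =
    if k = 1 then 1 else 0 := by
  have h1 := congrArg (fun F : ArithmeticFunction ℤ => F k) ArithmeticFunction.moebius_mul_coe_zeta
  simp only [ArithmeticFunction.mul_apply, ArithmeticFunction.one_apply] at h1
  have h2 : ∑ p ∈ k.divisorsAntidiagonal, ArithmeticFunction.moebius p.1 = if k = 1 then 1 else 0 := by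
    rw [← h1]
    refine Finset.sum_congr rfl fun p hp => ?_
    obtain ⟨h3, h4⟩ := Nat.mem_divisorsAntidiagonal.1 hp
    have h6 : p.2 ≠ 0 := by rintro h0; rw [h0, mul_zero] at h3; exact h4 h3.symm
    rw [ArithmeticFunction.natCoe_apply, ArithmeticFunction.zeta_apply_ne h6]
    simp
  have h3 := congrArg (fun z : ℤ => (z : ℂ)) h2
  push_cast at h3
  exact h3

/-- inversion -/
theorem R50_mob {b g χ : ℕ → ℂ} (hχ : ∀ m n, χ (m * n) = χ m * χ n) (h1 : χ 1 = 1) (hn : ∀ n, ‖χ n‖ ≤ 1)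
    (hb : ∀ y : ℕ, ∑ k ∈ Ioc 0 y, b k = ∑ l ∈ Ioc 0 y, χ l * ∑ k ∈ Ioc 0 (y / l ^ 2), g k)
    {C : ℝ} (hC0 : 0 ≤ C) (hC : ∀ x : ℕ, 1 ≤ x → ‖∑ k ∈ Ioc 0 x, b k‖ ≤ C * √(x : ℝ)) (x : ℕ) (hx : 1 ≤ x) :
    ‖∑ k ∈ Ioc 0 x, g k‖ ≤ C * (√(x : ℝ) * (1 + Real.log x)) := by
  classical
  set H : ℕ → ℂ := fun k => χ k * ∑ j ∈ Ioc 0 (x / k ^ 2), g j with hH
  have hH0 : ∀ k : ℕ, x < k ^ 2 → H k = 0 := by
    intro k hk
    rw [hH]
    simp only
    rw [Nat.div_eq_of_lt hk]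
    simp
  have key : ∑ k ∈ Ioc 0 x, g k = ∑ m ∈ Ioc 0 x, (ArithmeticFunction.moebius m : ℂ) * χ m *
      ∑ k ∈ Ioc 0 (x / m ^ 2), b k := by
    have e1 : ∀ m ∈ Ioc 0 x, (ArithmeticFunction.moebius m : ℂ) * χ m * ∑ k ∈ Ioc 0 (x / m ^ 2), b k =
        ∑ l ∈ Ioc 0 x, if m * l ≤ x then (ArithmeticFunction.moebius m : ℂ) * H (m * l) else 0 := by
      intro m hm
      obtain ⟨hm0, hmx⟩ := Finset.mem_Ioc.1 hm
      rw [hb, Finset.mul_sum]
      have hsub : Ioc 0 (x / m ^ 2) ⊆ Ioc 0 x := Finset.Ioc_subset_Ioc_right (Nat.div_le_self _ _)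
      have e2 : ∀ l ∈ Ioc 0 (x / m ^ 2), (ArithmeticFunction.moebius m : ℂ) * χ m *
          (χ l * ∑ k ∈ Ioc 0 (x / m ^ 2 / l ^ 2), g k) =
          if m * l ≤ x then (ArithmeticFunction.moebius m : ℂ) * H (m * l) else 0 := by
        intro l hl
        obtain ⟨hl0, hl1⟩ := Finset.mem_Ioc.1 hl
        have h2 : m * l ≤ x := by
          have h3 := (Nat.le_div_iff_mul_le (pow_pos hm0 2)).1 hl1
          nlinarith
        rw [if_pos h2, hH]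
        simp only
        rw [hχ, Nat.div_div_eq_div_mul, mul_pow]
        ring
      rw [Finset.sum_congr rfl e2]
      refine Finset.sum_subset hsub fun l hl hl' => ?_
      obtain ⟨hl0, hl1⟩ := Finset.mem_Ioc.1 hl
      have h3 : x / m ^ 2 < l := by
        by_contra hc
        push Not at hc
        exact hl' (Finset.mem_Ioc.2 ⟨hl0, hc⟩)
      rw [Nat.div_lt_iff_lt_mul (pow_pos hm0 2)] at h3
      split_ifs with h4
      · rw [hH0 (m * l) (by rw [mul_pow]; nlinarith), mul_zero]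
      · rfl
    rw [Finset.sum_congr rfl e1, ← Finset.sum_product', ← Finset.sum_filter]
    have hmap : ∀ p ∈ (Ioc 0 x ×ˢ Ioc 0 x).filter (fun p : ℕ × ℕ => p.1 * p.2 ≤ x), p.1 * p.2 ∈ Ioc 0 x := by
      intro p hp
      rw [Finset.mem_filter, Finset.mem_product, Finset.mem_Ioc, Finset.mem_Ioc] at hp
      exact Finset.mem_Ioc.2 ⟨Nat.mul_pos hp.1.1.1 hp.1.2.1, hp.2⟩
    rw [← Finset.sum_fiberwise_of_maps_to hmap]
    have e3 : ∀ k ∈ Ioc 0 x, ∑ p ∈ ((Ioc 0 x ×ˢ Ioc 0 x).filter (fun p : ℕ × ℕ => p.1 * p.2 ≤ x)).filter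
        (fun p => p.1 * p.2 = k), (ArithmeticFunction.moebius p.1 : ℂ) * H (p.1 * p.2) =
        if k = 1 then H k else 0 := by
      intro k hk
      obtain ⟨hk0, hkx⟩ := Finset.mem_Ioc.1 hk
      have e4 : ((Ioc 0 x ×ˢ Ioc 0 x).filter (fun p : ℕ × ℕ => p.1 * p.2 ≤ x)).filter
          (fun p => p.1 * p.2 = k) = k.divisorsAntidiagonal := by
        rw [Nat.divisorsAntidiagonal_eq_prod_filter_of_le hk0.ne' hkx, Finset.filter_filter]
        refine Finset.filter_congr fun p _ => ?_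
        constructor
        · rintro ⟨_, h⟩; exact h
        · intro h; exact ⟨by rw [h]; exact hkx, h⟩
      rw [e4]
      have e5 : ∀ p ∈ k.divisorsAntidiagonal, (ArithmeticFunction.moebius p.1 : ℂ) * H (p.1 * p.2) =
          (ArithmeticFunction.moebius p.1 : ℂ) * H k := by
        intro p hp
        rw [(Nat.mem_divisorsAntidiagonal.1 hp).1]
      rw [Finset.sum_congr rfl e5, ← Finset.sum_mul, R50_mu]
      split_ifs <;> simp
    rw [Finset.sum_congr rfl e3, Finset.sum_ite_eq' (Ioc 0 x) 1 H, if_pos (Finset.mem_Ioc.2 ⟨one_pos, hx⟩), hH]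
    simp [h1]
  rw [key]
  refine (norm_sum_le _ _).trans ?_
  refine le_trans (Finset.sum_le_sum (g := fun m : ℕ => C * √(x : ℝ) * (1 / (m : ℝ))) fun m hm => ?_) ?_
  · obtain ⟨hm0, hmx⟩ := Finset.mem_Ioc.1 hm
    have hm0' : (0 : ℝ) < m := by exact_mod_cast hm0
    have h2 : ‖∑ k ∈ Ioc 0 (x / m ^ 2), b k‖ ≤ C * √((x / m ^ 2 : ℕ) : ℝ) := by
      rcases Nat.eq_zero_or_pos (x / m ^ 2) with h0 | h0
      · rw [h0]; simp
      · exact hC _ h0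
    have h3 : √((x / m ^ 2 : ℕ) : ℝ) ≤ √(x : ℝ) * (1 / (m : ℝ)) := by
      have h4 : ((x / m ^ 2 : ℕ) : ℝ) ≤ (x : ℝ) / (m : ℝ) ^ 2 := by
        have := Nat.cast_div_le (α := ℝ) (m := x) (n := m ^ 2)
        push_cast at this
        exact this
      refine (Real.sqrt_le_sqrt h4).trans ?_
      rw [Real.sqrt_div (Nat.cast_nonneg _), Real.sqrt_sq hm0'.le]
      apply le_of_eq
      ring
    have h5 : ‖(ArithmeticFunction.moebius m : ℂ)‖ ≤ 1 := by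
      have h6 : |ArithmeticFunction.moebius m| ≤ 1 := ArithmeticFunction.abs_moebius_le_one
      rw [Complex.norm_intCast]
      exact_mod_cast h6
    rw [norm_mul, norm_mul]
    have h7 : ‖(ArithmeticFunction.moebius m : ℂ)‖ * ‖χ m‖ ≤ 1 := by
      have := mul_le_mul h5 (hn m) (norm_nonneg _) zero_le_one
      linarith
    calc ‖(ArithmeticFunction.moebius m : ℂ)‖ * ‖χ m‖ * ‖∑ k ∈ Ioc 0 (x / m ^ 2), b k‖
        ≤ 1 * (C * (√(x : ℝ) * (1 / (m : ℝ)))) :=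
          mul_le_mul h7 (h2.trans (mul_le_mul_of_nonneg_left h3 hC0)) (norm_nonneg _) zero_le_one
      _ = C * √(x : ℝ) * (1 / (m : ℝ)) := by ring
  · rw [← Finset.mul_sum]
    have := mul_le_mul_of_nonneg_left (R50_har x) (by positivity : (0 : ℝ) ≤ C * √(x : ℝ))
    linarith


theorem R50_rpow {x : ℕ} (hx : 1 ≤ x) : √(x : ℝ) * √√(x : ℝ) * (1 + Real.log x) ^ 2 ≤ 289 * (x : ℝ) ^ (7 / 8 : ℝ) := by
  have hx0 : (0 : ℝ) < x := by exact_mod_cast hx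
  have hx1 : (1 : ℝ) ≤ x := by exact_mod_cast hx
  have hlog0 : 0 ≤ Real.log x := Real.log_nonneg hx1
  have h1 : Real.log x ≤ (x : ℝ) ^ (1 / 16 : ℝ) / (1 / 16) := Real.log_le_rpow_div hx0.le (by norm_num)
  have h2 : (1 : ℝ) ≤ (x : ℝ) ^ (1 / 16 : ℝ) := Real.one_le_rpow hx1 (by norm_num)
  have h3 : 1 + Real.log x ≤ 17 * (x : ℝ) ^ (1 / 16 : ℝ) := by
    have : (x : ℝ) ^ (1 / 16 : ℝ) / (1 / 16) = 16 * (x : ℝ) ^ (1 / 16 : ℝ) := by ring
    linarith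
  have h4 : (1 + Real.log x) ^ 2 ≤ (17 * (x : ℝ) ^ (1 / 16 : ℝ)) ^ 2 :=
    pow_le_pow_left₀ (by linarith) h3 2
  have h5 : √(x : ℝ) * √√(x : ℝ) = (x : ℝ) ^ (3 / 4 : ℝ) := by
    rw [Real.sqrt_eq_rpow, Real.sqrt_eq_rpow, ← Real.rpow_mul hx0.le, ← Real.rpow_add hx0]
    norm_num
  have h6 : (17 * (x : ℝ) ^ (1 / 16 : ℝ)) ^ 2 = 289 * (x : ℝ) ^ (1 / 8 : ℝ) := by
    rw [mul_pow, ← Real.rpow_natCast, ← Real.rpow_natCast, ← Real.rpow_mul hx0.le]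
    norm_num
  have h7 : (x : ℝ) ^ (3 / 4 : ℝ) * (x : ℝ) ^ (1 / 8 : ℝ) = (x : ℝ) ^ (7 / 8 : ℝ) := by
    rw [← Real.rpow_add hx0]
    norm_num
  rw [h5]
  calc (x : ℝ) ^ (3 / 4 : ℝ) * (1 + Real.log x) ^ 2
      ≤ (x : ℝ) ^ (3 / 4 : ℝ) * (289 * (x : ℝ) ^ (1 / 8 : ℝ)) :=
        mul_le_mul_of_nonneg_left (h4.trans h6.le) (by positivity)
    _ = 289 * (x : ℝ) ^ (7 / 8 : ℝ) := by rw [← h7]; ring

/-- The convolution of two sequences with small partial sums; the second may have a logarithm. -/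
theorem conv_sum_log {u v : ℕ → ℂ} {C : ℝ} (hu : ∀ n : ℕ, 1 ≤ n → ‖u n‖ ≤ (n.divisors.card : ℝ))
    (hv : ∀ n : ℕ, 1 ≤ n → ‖v n‖ ≤ (n.divisors.card : ℝ))
    (hU : ∀ x : ℕ, 1 ≤ x → ‖∑ n ∈ Finset.Icc 1 x, u n‖ ≤ C * √(x : ℝ))
    (hV : ∀ x : ℕ, 1 ≤ x → ‖∑ n ∈ Finset.Icc 1 x, v n‖ ≤ C * (√(x : ℝ) * (1 + Real.log x))) :
    ∃ C' : ℝ, 0 ≤ C' ∧ ∀ x : ℕ, 1 ≤ x →
      ‖∑ n ∈ Finset.Icc 1 x, ∑ p ∈ n.divisorsAntidiagonal, u p.1 * v p.2‖ ≤ C' * (x : ℝ) ^ (7 / 8 : ℝ) := by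
  have hC : 0 ≤ C := by
    have h := (norm_nonneg _).trans (hU 1 le_rfl)
    simpa using h
  let f : ArithmeticFunction ℂ := ⟨fun n => if n = 0 then 0 else u n, by simp⟩
  let g : ArithmeticFunction ℂ := ⟨fun n => if n = 0 then 0 else v n, by simp⟩
  have hf : ∀ n : ℕ, 0 < n → f n = u n := fun n hn => by
    show (if n = 0 then (0 : ℂ) else u n) = u n
    rw [if_neg hn.ne']
  have hg : ∀ n : ℕ, 0 < n → g n = v n := fun n hn => by
    show (if n = 0 then (0 : ℂ) else v n) = v n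
    rw [if_neg hn.ne']
  have hIcc : ∀ x : ℕ, Ioc 0 x = Icc 1 x := fun x => rfl
  refine ⟨(4 * C + 2 * C) * 289, by positivity, fun x hx => ?_⟩
  have h1 := R50_hyp (f := f) (g := g) hC hC
    (fun x hx => by
      rw [Finset.sum_congr rfl fun n hn => hf n (Finset.mem_Ioc.1 hn).1]
      exact hU x hx)
    (fun x hx => by
      rw [Finset.sum_congr rfl fun n hn => hg n (Finset.mem_Ioc.1 hn).1]
      exact hV x hx)
    (fun n hn => by rw [hf n hn]; exact hu n hn) (fun n hn => by rw [hg n hn]; exact hv n hn) x hx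
  have h2 : ∑ n ∈ Ioc 0 x, (f * g) n = ∑ n ∈ Icc 1 x, ∑ p ∈ n.divisorsAntidiagonal, u p.1 * v p.2 := by
    refine Finset.sum_congr rfl fun n hn => ?_
    rw [ArithmeticFunction.mul_apply]
    refine Finset.sum_congr rfl fun p hp => ?_
    obtain ⟨h3, h4⟩ := Nat.mem_divisorsAntidiagonal.1 hp
    have h5 : 0 < p.1 := Nat.pos_of_ne_zero (by rintro h0; rw [h0, zero_mul] at h3; exact h4 h3.symm)
    have h6 : 0 < p.2 := Nat.pos_of_ne_zero (by rintro h0; rw [h0, mul_zero] at h3; exact h4 h3.symm)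
    rw [hf _ h5, hg _ h6]
  rw [h2] at h1
  refine h1.trans ?_
  have h3 := mul_le_mul_of_nonneg_left (R50_rpow hx) (by positivity : (0 : ℝ) ≤ 4 * C + 2 * C)
  linarith

/-- The convolution of two sequences with small partial sums. -/
theorem conv_sum {u v : ℕ → ℂ} {C : ℝ} (hu : ∀ n : ℕ, 1 ≤ n → ‖u n‖ ≤ (n.divisors.card : ℝ))
    (hv : ∀ n : ℕ, 1 ≤ n → ‖v n‖ ≤ (n.divisors.card : ℝ))
    (hU : ∀ x : ℕ, 1 ≤ x → ‖∑ n ∈ Finset.Icc 1 x, u n‖ ≤ C * √(x : ℝ))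
    (hV : ∀ x : ℕ, 1 ≤ x → ‖∑ n ∈ Finset.Icc 1 x, v n‖ ≤ C * √(x : ℝ)) :
    ∃ C' : ℝ, 0 ≤ C' ∧ ∀ x : ℕ, 1 ≤ x →
      ‖∑ n ∈ Finset.Icc 1 x, ∑ p ∈ n.divisorsAntidiagonal, u p.1 * v p.2‖ ≤ C' * (x : ℝ) ^ (7 / 8 : ℝ) := by
  have hC : 0 ≤ C := by
    have h := (norm_nonneg _).trans (hU 1 le_rfl)
    simpa using h
  refine conv_sum_log hu hv hU fun x hx => (hV x hx).trans ?_
  apply mul_le_mul_of_nonneg_left _ hC
  have hlog0 : 0 ≤ Real.log x := Real.log_nonneg (by exact_mod_cast hx)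
  have := mul_nonneg (Real.sqrt_nonneg (x : ℝ)) hlog0
  nlinarith

section rc

open scoped NumberField

open HC NR

variable {K : Type*} [Field K] [NumberField K]

/-- Partial sums of the coefficients of a nontrivial ring class character. -/
theorem rc_sum (h2 : Module.finrank ℚ K = 2) {f : ℕ} {η : Ideal (𝓞 K) →*₀ ℂ} (h : NR.RC f η)
    (hne : ∃ I, HC.Cop f I ∧ η I ≠ 1) : ∃ C : ℝ, 0 ≤ C ∧ ∀ x : ℕ, 1 ≤ x →
      ‖∑ n ∈ Finset.Icc 1 x, HC.ac η n‖ ≤ C * √(x : ℝ) := by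
  have key : ∃ C : ℝ, ∀ x : ℕ, 1 ≤ x → ‖∑ n ∈ Finset.Icc 1 x, HC.ac η n‖ ≤ C * √(x : ℝ) := by
    rcases NR.real_or_complex (K := K) h2 with hr | hc
    · obtain ⟨σ₁, σ₂, hσ⟩ := exists_RE (K := K) h2
      obtain ⟨ε, l, hε⟩ := exists_UE h2 hσ h.pos
      obtain ⟨T, F, P, τ, hT⟩ := A18_forms h2 hσ h.pos hε
      exact NR.sum_ac h2 hσ hε h hne hT
    · obtain ⟨T, F, hT⟩ := H24_forms (K := K) h2 h.pos
      exact HC2.sum_im h2 h hne hT
  obtain ⟨C, hC⟩ := key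
  refine ⟨C, ?_, hC⟩
  have := (norm_nonneg _).trans (hC 1 le_rfl)
  simpa using this

end rc

end PP
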