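import Pool.Agent.Lib.MP_0f5a55_nt.EY.R5d
import Pool.Agent.Lib.MP_0f5a55_nt.EY.R5e
import Pool.Agent.Lib.MP_0f5a55_nt.NR.A0b
import Pool.Agent.Lib.MP_0f5a55_nt.NR.P03
import Pool.Agent.Lib.MP_0f5a55_nt.PP.R50

/-!
Sums of the products of the coefficients of two ring class characters of one quadratic field.
-/

set_option autoImplicit false

open Complex MeasureTheory Set Filter Topology
open scoped Real ComplexConjugate NumberField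

namespace PP

open HC NR HC2 NH

variable {K : Type*} [Field K] [NumberField K]

/-- the global identity -/
theorem glob_id (h2 : Module.finrank ℚ K = 2) {f : ℕ} {ψ₁ ψ₂ η₁ η₂ : Ideal (𝓞 K) →*₀ ℂ} (h1 : RC f ψ₁) (h1' : RC f ψ₂)
    (g1 : RC f η₁) (g2 : RC f η₂)
    (e1 : ∀ I, η₁ I = ψ₁ I * ψ₂ I) (e2 : ∀ I, η₂ I = ψ₁ I * conj (ψ₂ I)) :
    ∃ c₁ c₂ : ℕ → ℂ, (∀ p, ‖c₁ p‖ ≤ 1) ∧ (∀ p, ‖c₂ p‖ ≤ 1) ∧
      (∀ p : ℕ, p.Prime → (p : ℤ) ∣ NumberField.discr K ∨ c₁ p = 0) ∧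
      ∀ n : ℕ, 1 ≤ n → ac ψ₁ n * ac ψ₂ n = ∑ x ∈ n.divisorsAntidiagonal, hf c₁ c₂ x.1 *
        ∑ y ∈ x.2.divisorsAntidiagonal, ac η₁ y.1 * ac η₂ y.2 := by
  classical
  have H : ∀ p : ℕ, ∃ c₁ c₂ : ℂ, ‖c₁‖ ≤ 1 ∧ ‖c₂‖ ≤ 1 ∧ (p.Prime → ((p : ℤ) ∣ NumberField.discr K ∨ c₁ = 0) ∧
      (PowerSeries.mk fun k => ac ψ₁ (p ^ k) * ac ψ₂ (p ^ k)) =
        (1 + PowerSeries.C c₁ * PowerSeries.X + PowerSeries.C c₂ * PowerSeries.X ^ 2) * (ser η₁ p * ser η₂ p)) := by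
    intro p
    by_cases hp : p.Prime
    · obtain ⟨a, b, k1, k2, k3, k4⟩ := local_id h2 h1 h1' g1 g2 e1 e2 p hp
      exact ⟨a, b, k1, k2, fun _ => ⟨k3, k4⟩⟩
    · exact ⟨0, 0, by simp, by simp, fun h => absurd h hp⟩
  choose c₁ c₂ hc1 hc2 hc using H
  refine ⟨c₁, c₂, hc1, hc2, fun p hp => (hc p hp).1, ?_⟩
  have D1 := RC.pre h2 h1
  have D1' := RC.pre h2 h1'
  have hw : (af fun n => ac ψ₁ n * ac ψ₂ n).IsMultiplicative := by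
    rw [ArithmeticFunction.IsMultiplicative.iff_ne_zero]
    constructor
    · show (if (1 : ℕ) = 0 then (0 : ℂ) else ac ψ₁ 1 * ac ψ₂ 1) = 1
      rw [if_neg one_ne_zero, D1.one, D1'.one, one_mul]
    · intro m n hm hn hmn
      show (if m * n = 0 then (0 : ℂ) else ac ψ₁ (m * n) * ac ψ₂ (m * n)) =
        (if m = 0 then (0 : ℂ) else ac ψ₁ m * ac ψ₂ m) * (if n = 0 then (0 : ℂ) else ac ψ₁ n * ac ψ₂ n)
      rw [if_neg (mul_ne_zero hm hn), if_neg hm, if_neg hn,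
        D1.mul m n (Nat.pos_of_ne_zero hm) (Nat.pos_of_ne_zero hn) hmn,
        D1'.mul m n (Nat.pos_of_ne_zero hm) (Nat.pos_of_ne_zero hn) hmn]
      ring
  have haf : ∀ (a : ℕ → ℂ) {n : ℕ}, n ≠ 0 → af a n = a n := by
    intro a n hn
    show (if n = 0 then (0 : ℂ) else a n) = a n
    rw [if_neg hn]
  have key : (af fun n => ac ψ₁ n * ac ψ₂ n) = hf c₁ c₂ * (af (ac η₁) * af (ac η₂)) := by
    rw [ArithmeticFunction.IsMultiplicative.eq_iff_eq_on_prime_powers _ hw _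
      ((hf_mult c₁ c₂).mul ((P.af_mult (RC.pre h2 g1)).mul (P.af_mult (RC.pre h2 g2))))]
    intro p r hp
    have h0 : ∀ k, p ^ k ≠ 0 := fun k => pow_ne_zero _ hp.ne_zero
    have s1 : ∀ η : Ideal (𝓞 K) →*₀ ℂ, (PowerSeries.mk fun k => af (ac η) (p ^ k)) = ser η p := by
      intro η
      ext k
      simp only [PowerSeries.coeff_mk, ser]
      exact haf _ (h0 k)
    have s2 : (PowerSeries.mk fun k => (af (ac η₁) * af (ac η₂)) (p ^ k)) = ser η₁ p * ser η₂ p := by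
      ext k
      rw [PowerSeries.coeff_mk, conv_pp _ _ hp, s1, s1]
    have s3 : (PowerSeries.mk fun k => hf c₁ c₂ (p ^ k)) = PowerSeries.mk fun k => Hv c₁ c₂ p k := by
      ext k
      rw [PowerSeries.coeff_mk, PowerSeries.coeff_mk, hf_pp c₁ c₂ hp]
    rw [conv_pp _ _ hp, s2, s3, Hv_ser, ← (hc p hp).2, PowerSeries.coeff_mk]
    exact haf _ (h0 r)
  intro n hn
  have hn0 : n ≠ 0 := by omega
  have h3 := congrArg (fun F : ArithmeticFunction ℂ => F n) key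
  simp only [ArithmeticFunction.mul_apply] at h3
  rw [haf _ hn0] at h3
  rw [h3]
  refine Finset.sum_congr rfl fun x hx => ?_
  congr 1
  refine Finset.sum_congr rfl fun y hy => ?_
  obtain ⟨k1, k2⟩ := Nat.mem_divisorsAntidiagonal.1 hy
  have k3 : y.1 ≠ 0 := by rintro h0; rw [h0, zero_mul] at k1; exact k2 k1.symm
  have k4 : y.2 ≠ 0 := by rintro h0; rw [h0, mul_zero] at k1; exact k2 k1.symm
  rw [haf _ k3, haf _ k4]

/-- Rankin-Selberg sums without main term -/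
theorem rs_sum (h2 : Module.finrank ℚ K = 2) {f : ℕ} {ψ₁ ψ₂ : Ideal (𝓞 K) →*₀ ℂ} (h1 : RC f ψ₁) (h1' : RC f ψ₂)
    (hp : ∃ I, Cop f I ∧ ψ₁ I * ψ₂ I ≠ 1) (hm : ∃ I, Cop f I ∧ ψ₁ I * conj (ψ₂ I) ≠ 1) :
    ∃ C : ℝ, 0 ≤ C ∧ ∀ x : ℕ, 1 ≤ x →
      ‖∑ n ∈ Finset.Icc 1 x, ac ψ₁ n * conj (ac ψ₂ n)‖ ≤ C * (x : ℝ) ^ (9 / 10 : ℝ) := by
  obtain ⟨η₁, η₂, g1, g2, e1, e2⟩ := rc_prod h1 h1'
  obtain ⟨c₁, c₂, k1, k2, k3, k4⟩ := glob_id h2 h1 h1' g1 g2 e1 e2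
  obtain ⟨B, hB0, hB⟩ := hf_sum k1 k2 (NumberField.discr_ne_zero K) k3
  obtain ⟨I, hI, hI1⟩ := hp
  obtain ⟨J, hJ, hJ1⟩ := hm
  obtain ⟨C1, hC1, hs1⟩ := rc_sum h2 g1 ⟨I, hI, by rw [e1]; exact hI1⟩
  obtain ⟨C2, hC2, hs2⟩ := rc_sum h2 g2 ⟨J, hJ, by rw [e2]; exact hJ1⟩
  obtain ⟨C, hC, ht⟩ := conv_sum (u := ac η₁) (v := ac η₂) (C := max C1 C2)
    (fun n hn => (RC.pre h2 g1).bd n hn) (fun n hn => (RC.pre h2 g2).bd n hn)
    (fun x hx => (hs1 x hx).trans (mul_le_mul_of_nonneg_right (le_max_left _ _) (Real.sqrt_nonneg _)))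
    (fun x hx => (hs2 x hx).trans (mul_le_mul_of_nonneg_right (le_max_right _ _) (Real.sqrt_nonneg _)))
  refine ⟨C * B, mul_nonneg hC hB0, fun x hx => ?_⟩
  have hx1 : (1 : ℝ) ≤ x := by exact_mod_cast hx
  have h3 := hf_conv hB hC ht x
  have h4 : ∑ n ∈ Finset.Icc 1 x, ac ψ₁ n * conj (ac ψ₂ n) =
      ∑ n ∈ Finset.Icc 1 x, ∑ p ∈ n.divisorsAntidiagonal, hf c₁ c₂ p.1 *
        ∑ y ∈ p.2.divisorsAntidiagonal, ac η₁ y.1 * ac η₂ y.2 := by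
    refine Finset.sum_congr rfl fun n hn => ?_
    have hn1 : 1 ≤ n := (Finset.mem_Icc.1 hn).1
    rw [RC.ac_real h2 h1' hn1, k4 n hn1]
  rw [h4]
  refine h3.trans (mul_le_mul_of_nonneg_left ?_ (mul_nonneg hC hB0))
  exact Real.rpow_le_rpow_of_exponent_le hx1 (by norm_num)

end PP
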