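import Pool.Agent.Lib.MP_0f5a55_nt.PP.DihChar
import Pool.Agent.Lib.MP_0f5a55_nt.PP.P14
import Pool.Agent.Lib.MP_0f5a55_nt.PP.B1
import Pool.Agent.Lib.MP_0f5a55_nt.PP.B2

set_option autoImplicit false

/-!
The two-term input for the generalised dihedral fields.
-/

open Complex Filter Topology
open scoped Real ComplexConjugate NumberField

namespace PP

open HC NR

/-- the primitive character has the same order -/
theorem Two_cube {F : Type} [Field F] [NumberField F] (h2 : Module.finrank ℚ F = 2) {f g : ℕ}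
    {ψ ψ' : Ideal (𝓞 F) →*₀ ℂ} (hψ : RC f ψ) (hψ' : RingClass g ψ') (e : ∀ I, Cop f I → ψ' I = ψ I)
    (hc : ∀ I, Cop f I → ψ I ^ 3 = 1) : ∀ I, Cop g I → ψ' I ^ 3 = 1 := by
  intro I hI
  obtain ⟨J, hJ, hJn, hE⟩ := exists_cop hψ'.pos hI hψ.pos
  have hJf : Cop f J := (cop_iff h2 hψ.pos).2 ⟨hJ.1, hJn⟩
  rw [Eqv.char hψ' hE, e J hJf]
  exact hc J hJf

theorem two : TWO := by
  intro F _ _ h2 f ψ φ hψ hφ c1 c2 n1 n2 hne hnp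
  obtain ⟨g1, hg1, ψ', hψ', e1⟩ := exists_prim h2 hψ
  obtain ⟨g2, hg2, φ', hφ', e2⟩ := exists_prim h2 hφ
  have sq : ∀ {z : ℂ}, z ^ 3 = 1 → z ≠ 1 → z ^ 2 ≠ 1 := by
    intro z h3 h1 h2
    apply h1
    rw [pow_succ, h2, one_mul] at h3
    exact h3
  have q1 : ∃ I, Cop g1 I ∧ ψ' I ^ 2 ≠ 1 := by
    obtain ⟨I, hI, h⟩ := n1
    exact ⟨I, cop_mono hg1 hI, by rw [e1 I hI]; exact sq (c1 I hI) h⟩
  have q2 : ∃ I, Cop g2 I ∧ φ' I ^ 2 ≠ 1 := by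
    obtain ⟨I, hI, h⟩ := n2
    exact ⟨I, cop_mono hg2 hI, by rw [e2 I hI]; exact sq (c2 I hI) h⟩
  obtain ⟨L1, D1, s1⟩ := dat_all h2 hψ' q1
  obtain ⟨L2, D2, s2⟩ := dat_all h2 hφ' q2
  have hne1 : ψ' ≠ φ' := by
    intro h
    apply hne
    refine MonoidWithZeroHom.ext fun I => ?_
    by_cases hI : Cop f I
    · rw [← e1 I hI, ← e2 I hI, h]
    · rw [hψ.ncop I hI, hφ.ncop I hI]
  have hne2 : ∃ I, ψ' I ≠ conj (φ' I) := by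
    obtain ⟨I, hI, h⟩ := hnp
    refine ⟨I, fun h1 => h ?_⟩
    show ψ I * φ I = 1
    rw [← e1 I hI, h1, e2 I hI, mul_comm, Complex.mul_conj, Complex.normSq_eq_norm_sq, hφ.cop I hI]
    simp
  have hgood : Good g1 g2 ψ' φ' :=
    Or.inl ⟨3, by decide, Two_cube h2 hψ hψ' e1 c1, Two_cube h2 hφ hφ' e2 c2⟩
  have h := pair_odd h2 hψ' hφ' hne1 hne2 hgood D1 D2
  obtain ⟨M1, hM1, t1, o1⟩ := bridge h2 hψ hψ' hg1 e1 D1.ent s1
  obtain ⟨M2, hM2, t2, o2⟩ := bridge h2 hφ hφ' hg2 e2 D2.ent s2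
  refine h.mono fun g hg => ⟨hg.1, ?_⟩
  have m1 : mu (ac ψ) g = analyticOrderNatAt L1 (1 / 2 + g * I) := by
    unfold mu
    rw [ent_eq hM1 t1]
    exact o1 g
  have m2 : mu (ac φ) g = analyticOrderNatAt L2 (1 / 2 + g * I) := by
    unfold mu
    rw [ent_eq hM2 t2]
    exact o2 g
  rw [m1, m2]
  exact hg.2

/-- the entire continuation exists -/
theorem lfun_spec {F : Type} [Field F] [NumberField F] (h2 : Module.finrank ℚ F = 2) {f : ℕ}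
    {ψ : Ideal (𝓞 F) →*₀ ℂ} (hψ : RC f ψ) (h3 : ∀ I, Cop f I → ψ I ^ 3 = 1) (h1 : NP f ψ) :
    Differentiable ℂ (ent (ac ψ)) ∧ ∀ s : ℂ, 1 < s.re → LSeriesHasSum (ac ψ) s (ent (ac ψ) s) := by
  obtain ⟨g1, hg1, ψ', hψ', e1⟩ := exists_prim h2 hψ
  have q1 : ∃ I, Cop g1 I ∧ ψ' I ^ 2 ≠ 1 := by
    obtain ⟨I, hI, h⟩ := h1
    refine ⟨I, cop_mono hg1 hI, ?_⟩
    rw [e1 I hI]
    intro h2
    have h4 := h3 I hI
    rw [pow_succ, h2, one_mul] at h4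
    exact h h4
  obtain ⟨L1, D1, s1⟩ := dat_all h2 hψ' q1
  obtain ⟨M1, hM1, t1, -⟩ := bridge h2 hψ hψ' hg1 e1 D1.ent s1
  rw [ent_eq hM1 t1]
  exact ⟨hM1, t1⟩

end PP
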