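import Pool.Agent.Lib.MP_0f5a55_nt.EX.Small
import Pool.Agent.Lib.MP_0f5a55_nt.NR.E8
import Pool.Agent.Lib.MP_0f5a55_nt.NR.M18
import Pool.Agent.Lib.MP_0f5a55_nt.PP.P18
import Pool.Agent.Lib.MP_0f5a55_nt.PP.P15

/-!
Products of Dirichlet L-functions and L-functions of ring class characters of one quadratic field which differ in
factors of total degree at most four.
-/

set_option autoImplicit false

open Complex
open scoped ComplexConjugate NumberField

namespace PP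

variable {K : Type} [Field K] [NumberField K]

variable (K) in
/-- Primitive ring class characters `ψ` of `K` with `ψ² ≠ 1`. -/
def RP : Type := {ψ : Ideal (𝓞 K) →*₀ ℂ // (∃ f, HC.RingClass f ψ) ∧ ∃ I, ψ I ≠ 0 ∧ ψ I ^ 2 ≠ 1}

/-- The degree of the L-function. -/
def dg : P0F.Prim ⊕ RP K → ℕ
  | .inl _ => 1
  | .inr _ => 2

/-- The multiplicity of `1/2 + ig`. -/
noncomputable def mlt (L : RP K → ℂ → ℂ) : P0F.Prim ⊕ RP K → ℝ → ℕ
  | .inl χ, g => P0F.mult χ g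
  | .inr x, g => analyticOrderNatAt (L x) (1/2 + g * I)

/-- Not conjugate. -/
def Pair (x y : RP K) : Prop := ∃ I, x.1 I ≠ conj (y.1 I)

omit [NumberField K] in
theorem cop_of {f : ℕ} {ψ : Ideal (𝓞 K) →*₀ ℂ} (h : HC.RingClass f ψ) {I : Ideal (𝓞 K)} (hI : ψ I ≠ 0) : HC.Cop f I := by
  by_contra hc
  exact hI (h.ncop I hc)

omit [NumberField K] in
theorem of_cop {f : ℕ} {ψ : Ideal (𝓞 K) →*₀ ℂ} (h : HC.RingClass f ψ) {I : Ideal (𝓞 K)} (hI : HC.Cop f I) : ψ I ≠ 0 := by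
  intro h0
  have := h.cop I hI
  rw [h0, norm_zero] at this
  exact zero_ne_one this

/-- The family of the entire continuations. -/
def Cont (L : RP K → ℂ → ℂ) : Prop := ∀ x : RP K, Differentiable ℂ (L x) ∧
  ∀ s : ℂ, 1 < s.re → LSeriesHasSum (HC.ac x.1) s (L x s)

theorem exists_cont (h2 : Module.finrank ℚ K = 2) : ∃ L : RP K → ℂ → ℂ, Cont L := by
  have h : ∀ x : RP K, ∃ L : ℂ → ℂ, Differentiable ℂ L ∧ ∀ s : ℂ, 1 < s.re → LSeriesHasSum (HC.ac x.1) s (L s) := by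
    rintro ⟨ψ, ⟨f, hf⟩, I, hI, hI2⟩
    obtain ⟨L, hL, hs⟩ := dat_all h2 hf ⟨I, cop_of hf hI, hI2⟩
    exact ⟨L, hL.ent, hs⟩
  choose L hL using h
  exact ⟨L, hL⟩

/-- one ring class character alone -/
def OneOdd : Prop := ∀ (N : ℕ) (a : ℕ → ℂ) (L : ℂ → ℂ), NR.Dat N a L →
  {g : ℝ | 0 < g ∧ Odd (analyticOrderNatAt L (1/2 + g * I))}.Infinite

theorem small_set (h2 : Module.finrank ℚ K = 2) (hone : OneOdd) {L : RP K → ℂ → ℂ} (hL : Cont L)
    (D : Finset (P0F.Prim ⊕ RP K)) (h0 : D.Nonempty) (h4 : ∑ x ∈ D, dg x ≤ 4)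
    (hg : ∀ x y : RP K, Sum.inr x ∈ D → Sum.inr y ∈ D → x ≠ y → Pair x y) :
    {g : ℝ | 0 < g ∧ Odd (∑ x ∈ D, mlt L x g)}.Infinite := by
  classical
  have hdat : ∀ (x : RP K) (f : ℕ), HC.RingClass f x.1 → NR.Dat (HC.lev K f) (HC.ac x.1) (L x) := by
    intro x f hf
    obtain ⟨-, I, hI, hI2⟩ := x.2
    exact dat_of h2 hf ⟨I, cop_of hf hI, hI2⟩ (hL x).1 (hL x).2
  set A := D.toLeft with hA
  set B := D.toRight with hB
  have hD : D = A.disjSum B := Finset.toLeft_disjSum_toRight.symm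
  have hsum : ∀ g : ℝ, ∑ x ∈ D, mlt L x g = ∑ χ ∈ A, P0F.mult χ g + ∑ x ∈ B, analyticOrderNatAt (L x) (1/2 + g * I) := by
    intro g
    rw [hD, Finset.sum_disjSum]
    rfl
  have hdeg : A.card + 2 * B.card ≤ 4 := by
    rw [hD, Finset.sum_disjSum] at h4
    simp only [dg, Finset.sum_const, smul_eq_mul, mul_one] at h4
    omega
  simp only [hsum]
  rcases (by omega : B.card = 0 ∨ B.card = 1 ∨ B.card = 2) with hb | hb | hb
  · have hB0 := Finset.card_eq_zero.1 hb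
    rw [hB0]
    simp only [Finset.sum_empty, add_zero]
    refine P0F.small A ?_ (by omega)
    rw [Finset.nonempty_iff_ne_empty]
    intro hA0
    rw [hD, hA0, hB0] at h0
    simp at h0
  · obtain ⟨x, hx⟩ := Finset.card_eq_one.1 hb
    obtain ⟨f, hf⟩ := x.2.1
    rw [hx]
    simp only [Finset.sum_singleton]
    rcases (by omega : A.card = 0 ∨ A.card = 1 ∨ A.card = 2) with ha | ha | ha
    · rw [Finset.card_eq_zero.1 ha]
      simp only [Finset.sum_empty, zero_add]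
      exact hone _ _ (L x) (hdat x f hf)
    · obtain ⟨χ, hχ⟩ := Finset.card_eq_one.1 ha
      rw [hχ]
      simp only [Finset.sum_singleton]
      exact NR.odd_one χ.2 (hdat x f hf)
    · obtain ⟨χ, ψ, hne, hχ⟩ := Finset.card_eq_two.1 ha
      rw [hχ]
      simp only [Finset.sum_pair hne]
      exact NR.odd_two (hdat x f hf) χ.2 ψ.2 (P0F.ne12 hne)
  · obtain ⟨x, y, hxy, hx⟩ := Finset.card_eq_two.1 hb
    have hA0 : A = ∅ := Finset.card_eq_zero.1 (by omega)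
    have hxD : Sum.inr x ∈ D := by
      rw [← Finset.mem_toRight, ← hB, hx]
      simp
    have hyD : Sum.inr y ∈ D := by
      rw [← Finset.mem_toRight, ← hB, hx]
      simp
    have hc := hg x y hxD hyD hxy
    rw [hA0, hx]
    simp only [Finset.sum_empty, zero_add, Finset.sum_pair hxy]
    obtain ⟨f1, hf1⟩ := x.2.1
    obtain ⟨f2, hf2⟩ := y.2.1
    have hne : x.1 ≠ y.1 := fun he => hxy (Subtype.ext he)
    exact pair_all h2 hf1 hf2 hne hc (hdat x f1 hf1) (hdat y f2 hf2)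

/-- The main statement. -/
theorem unified (h2 : Module.finrank ℚ K = 2) (hone : OneOdd) {L : RP K → ℂ → ℂ} (hL : Cont L) (n : ℝ → ℤ)
    (R R' D : Finset (P0F.Prim ⊕ RP K)) (hne : R ≠ R')
    (hD : symmDiff (R : Set (P0F.Prim ⊕ RP K)) (R' : Set (P0F.Prim ⊕ RP K)) = (D : Set (P0F.Prim ⊕ RP K)))
    (h4 : ∑ x ∈ D, dg x ≤ 4)
    (hg : ∀ x y : RP K, Sum.inr x ∈ D → Sum.inr y ∈ D → x ≠ y → Pair x y) :
    {g : ℝ | 0 < g ∧ Odd (n g + ∑ x ∈ R, (mlt L x g : ℤ))}.Infinite ∨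
      {g : ℝ | 0 < g ∧ Odd (n g + ∑ x ∈ R', (mlt L x g : ℤ))}.Infinite := by
  classical
  have h0 : D.Nonempty := by
    rw [Finset.nonempty_iff_ne_empty]
    intro h
    rw [h, Finset.coe_empty] at hD
    apply hne
    have := symmDiff_eq_bot.1 hD
    exact_mod_cast this
  by_contra hcon
  push Not at hcon
  refine small_set h2 hone hL D h0 h4 hg ((hcon.1.union hcon.2).subset ?_)
  rintro g ⟨g0, hg⟩
  rcases P0F.odd_two R R' (fun x => mlt L x g) (n g) hD hg with h | h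
  · left
    exact ⟨g0, by push_cast at h; exact h⟩
  · right
    exact ⟨g0, by push_cast at h; exact h⟩

end PP
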