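import Pool.Agent.Lib.MP_0f5a55_nt.PP.Uni
import Pool.Agent.Lib.MP_0f5a55_nt.PP.One
import Pool.Agent.Lib.MP_0f5a55_nt.PP.Q7

/-!
Products of Dirichlet L-functions and L-functions of ring class characters of a family of quadratic fields which differ
in factors of total degree at most four.
-/

set_option autoImplicit false

open Complex
open scoped ComplexConjugate NumberField

namespace PP

variable {ι : Type} {K : ι → Type} [∀ i, Field (K i)] [∀ i, NumberField (K i)]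

/-- The degree of the L-function. -/
def dgF : P0F.Prim ⊕ (Σ i, RP (K i)) → ℕ
  | .inl _ => 1
  | .inr _ => 2

/-- The multiplicity of `1/2 + ig`. -/
noncomputable def mltF (L : ∀ i, RP (K i) → ℂ → ℂ) : P0F.Prim ⊕ (Σ i, RP (K i)) → ℝ → ℕ
  | .inl χ, g => P0F.mult χ g
  | .inr x, g => analyticOrderNatAt (L x.1 x.2) (1/2 + g * I)

theorem pow4_of {F : Type} [Field F] [NumberField F] {f : ℕ} {ψ : Ideal (𝓞 F) →*₀ ℂ} (h : HC.RingClass f ψ)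
    (h4 : ∃ I, ψ I ≠ 0 ∧ ψ I ^ 4 ≠ 1) : ∃ I, HC.Cop f I ∧ ψ I ^ 4 ≠ 1 := by
  obtain ⟨I, h0, h1⟩ := h4
  exact ⟨I, cop_of h h0, h1⟩

theorem two_set (h2 : ∀ i, Module.finrank ℚ (K i) = 2)
    (hK : ∀ i j, i ≠ j → ¬ IsSquare ((NumberField.discr (K i)).natAbs * (NumberField.discr (K j)).natAbs))
    {L : ∀ i, RP (K i) → ℂ → ℂ} (hL : ∀ i, Cont (L i)) (x y : Σ i, RP (K i)) (hxy : x ≠ y)
    (hs : ∀ (i : ι) (ψ φ : RP (K i)), x = ⟨i, ψ⟩ → y = ⟨i, φ⟩ → ∃ I, ψ.1 I ≠ conj (φ.1 I))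
    (hd : x.1 ≠ y.1 → (∃ I, x.2.1 I ≠ 0 ∧ x.2.1 I ^ 4 ≠ 1) ∨ ∃ I, y.2.1 I ≠ 0 ∧ y.2.1 I ^ 4 ≠ 1) :
    {g : ℝ | 0 < g ∧ Odd (analyticOrderNatAt (L x.1 x.2) (1/2 + g * I) +
      analyticOrderNatAt (L y.1 y.2) (1/2 + g * I))}.Infinite := by
  obtain ⟨i, ψ⟩ := x
  obtain ⟨j, φ⟩ := y
  have hdat : ∀ (i : ι) (x : RP (K i)) (f : ℕ), HC.RingClass f x.1 → NR.Dat (HC.lev (K i) f) (HC.ac x.1) (L i x) := by
    intro i x f hf
    obtain ⟨-, I, hI, hI2⟩ := x.2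
    exact dat_of (h2 i) hf ⟨I, cop_of hf hI, hI2⟩ (hL i x).1 (hL i x).2
  obtain ⟨f1, hf1⟩ := ψ.2.1
  obtain ⟨f2, hf2⟩ := φ.2.1
  by_cases hij : i = j
  · subst hij
    have hne : ψ.1 ≠ φ.1 := fun he => hxy (by rw [Subtype.ext he])
    exact pair_all (h2 i) hf1 hf2 hne (hs i ψ φ rfl rfl) (hdat i ψ f1 hf1) (hdat i φ f2 hf2)
  · refine pair_diff (h2 i) (h2 j) hf1 hf2 (hK i j hij) ?_ (hdat i ψ f1 hf1) (hdat j φ f2 hf2)
    exact (hd hij).imp (pow4_of hf1) (pow4_of hf2)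

theorem small_setF (h2 : ∀ i, Module.finrank ℚ (K i) = 2)
    (hK : ∀ i j, i ≠ j → ¬ IsSquare ((NumberField.discr (K i)).natAbs * (NumberField.discr (K j)).natAbs))
    {L : ∀ i, RP (K i) → ℂ → ℂ} (hL : ∀ i, Cont (L i))
    (D : Finset (P0F.Prim ⊕ (Σ i, RP (K i)))) (h0 : D.Nonempty) (h4 : ∑ x ∈ D, dgF x ≤ 4)
    (hs : ∀ (i : ι) (ψ φ : RP (K i)), Sum.inr ⟨i, ψ⟩ ∈ D → Sum.inr ⟨i, φ⟩ ∈ D → ψ ≠ φ → ∃ I, ψ.1 I ≠ conj (φ.1 I))
    (hd : ∀ (i j : ι) (ψ : RP (K i)) (φ : RP (K j)), i ≠ j → Sum.inr ⟨i, ψ⟩ ∈ D → Sum.inr ⟨j, φ⟩ ∈ D →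
      (∃ I, ψ.1 I ≠ 0 ∧ ψ.1 I ^ 4 ≠ 1) ∨ ∃ I, φ.1 I ≠ 0 ∧ φ.1 I ^ 4 ≠ 1) :
    {g : ℝ | 0 < g ∧ Odd (∑ x ∈ D, mltF L x g)}.Infinite := by
  classical
  have hdat : ∀ (x : Σ i, RP (K i)) (f : ℕ), HC.RingClass f x.2.1 →
      NR.Dat (HC.lev (K x.1) f) (HC.ac x.2.1) (L x.1 x.2) := by
    intro x f hf
    obtain ⟨-, I, hI, hI2⟩ := x.2.2
    exact dat_of (h2 x.1) hf ⟨I, cop_of hf hI, hI2⟩ (hL x.1 x.2).1 (hL x.1 x.2).2
  set A := D.toLeft with hA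
  set B := D.toRight with hB
  have hD : D = A.disjSum B := Finset.toLeft_disjSum_toRight.symm
  have hsum : ∀ g : ℝ, ∑ x ∈ D, mltF L x g =
      ∑ χ ∈ A, P0F.mult χ g + ∑ x ∈ B, analyticOrderNatAt (L x.1 x.2) (1/2 + g * I) := by
    intro g
    rw [hD, Finset.sum_disjSum]
    rfl
  have hdeg : A.card + 2 * B.card ≤ 4 := by
    rw [hD, Finset.sum_disjSum] at h4
    simp only [dgF, Finset.sum_const, smul_eq_mul, mul_one] at h4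
    omega
  simp only [hsum]
  rcases (by omega : B.card = 0 ∨ B.card = 1 ∨ B.card = 2) with hb | hb | hb
  · have hB0 := Finset.card_eq_zero.1 hb
    rw [hB0]
    simp only [Finset.sum_empty, add_zero]
    refine P0F.small A ?_ (by omega)
    rw [Finset.nonempty_iff_ne_empty]
    intro hA0
    rw [hD, hA0, hB0] at h0
    simp at h0
  · obtain ⟨x, hx⟩ := Finset.card_eq_one.1 hb
    obtain ⟨f, hf⟩ := x.2.2.1
    rw [hx]
    simp only [Finset.sum_singleton]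
    rcases (by omega : A.card = 0 ∨ A.card = 1 ∨ A.card = 2) with ha | ha | ha
    · rw [Finset.card_eq_zero.1 ha]
      simp only [Finset.sum_empty, zero_add]
      exact one_odd (hdat x f hf)
    · obtain ⟨χ, hχ⟩ := Finset.card_eq_one.1 ha
      rw [hχ]
      simp only [Finset.sum_singleton]
      exact NR.odd_one χ.2 (hdat x f hf)
    · obtain ⟨χ, ψ, hne, hχ⟩ := Finset.card_eq_two.1 ha
      rw [hχ]
      simp only [Finset.sum_pair hne]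
      exact NR.odd_two (hdat x f hf) χ.2 ψ.2 (P0F.ne12 hne)
  · obtain ⟨x, y, hxy, hx⟩ := Finset.card_eq_two.1 hb
    have hA0 : A = ∅ := Finset.card_eq_zero.1 (by omega)
    have hxD : Sum.inr x ∈ D := by
      rw [← Finset.mem_toRight, ← hB, hx]
      simp
    have hyD : Sum.inr y ∈ D := by
      rw [← Finset.mem_toRight, ← hB, hx]
      simp
    rw [hA0, hx]
    simp only [Finset.sum_empty, zero_add, Finset.sum_pair hxy]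
    refine two_set h2 hK hL x y hxy ?_ ?_
    · intro i ψ φ hψ hφ
      refine hs i ψ φ (hψ ▸ hxD) (hφ ▸ hyD) ?_
      rintro rfl
      exact hxy (hψ.trans hφ.symm)
    · intro hij
      exact hd x.1 y.1 x.2 y.2 hij hxD hyD

/-- The main statement. -/
theorem unifiedF (h2 : ∀ i, Module.finrank ℚ (K i) = 2)
    (hK : ∀ i j, i ≠ j → ¬ IsSquare ((NumberField.discr (K i)).natAbs * (NumberField.discr (K j)).natAbs))
    {L : ∀ i, RP (K i) → ℂ → ℂ} (hL : ∀ i, Cont (L i)) (n : ℝ → ℤ)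
    (R R' D : Finset (P0F.Prim ⊕ (Σ i, RP (K i)))) (hne : R ≠ R')
    (hD : symmDiff (R : Set (P0F.Prim ⊕ (Σ i, RP (K i)))) (R' : Set (P0F.Prim ⊕ (Σ i, RP (K i)))) =
      (D : Set (P0F.Prim ⊕ (Σ i, RP (K i)))))
    (h4 : ∑ x ∈ D, dgF x ≤ 4)
    (hs : ∀ (i : ι) (ψ φ : RP (K i)), Sum.inr ⟨i, ψ⟩ ∈ D → Sum.inr ⟨i, φ⟩ ∈ D → ψ ≠ φ → ∃ I, ψ.1 I ≠ conj (φ.1 I))
    (hd : ∀ (i j : ι) (ψ : RP (K i)) (φ : RP (K j)), i ≠ j → Sum.inr ⟨i, ψ⟩ ∈ D → Sum.inr ⟨j, φ⟩ ∈ D →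
      (∃ I, ψ.1 I ≠ 0 ∧ ψ.1 I ^ 4 ≠ 1) ∨ ∃ I, φ.1 I ≠ 0 ∧ φ.1 I ^ 4 ≠ 1) :
    {g : ℝ | 0 < g ∧ Odd (n g + ∑ x ∈ R, (mltF L x g : ℤ))}.Infinite ∨
      {g : ℝ | 0 < g ∧ Odd (n g + ∑ x ∈ R', (mltF L x g : ℤ))}.Infinite := by
  classical
  have h0 : D.Nonempty := by
    rw [Finset.nonempty_iff_ne_empty]
    intro h
    rw [h, Finset.coe_empty] at hD
    apply hne
    have := symmDiff_eq_bot.1 hD
    exact_mod_cast this
  by_contra hcon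
  push Not at hcon
  refine small_setF h2 hK hL D h0 h4 hs hd ((hcon.1.union hcon.2).subset ?_)
  rintro g ⟨g0, hg⟩
  rcases P0F.odd_two R R' (fun x => mltF L x g) (n g) hD hg with h | h
  · left
    exact ⟨g0, by push_cast at h; exact h⟩
  · right
    exact ⟨g0, by push_cast at h; exact h⟩

end PP
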